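import Pool.Agent.Lib.MP_ef3f0f_gt.U.F.SpecC

set_option autoImplicit false

/-!
# MP_ef3f0f_gt, Theorem U, Part F: closure and the last step

Modules `U/F/X.lean`: `theorem tX : ... → S_X P H` (the hypotheses named in the docstring of `S_X`), in a
section with the same `variable` line (explicit `P H`), namespace `Pool.Agent.MPEF.U`.

Plan. Straight closed loops at `x` of length `N` and range `R`: `D.LI G U R N φ`. Pairs of edges with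
arbitrary positive windows are compared with straight closed loops (CL1: unfolding, reversal, merge at
`y`, conjugation `x ↦ x q`, change of frames), straight closed loops are cut again into straight pairs
with tiny windows and one shift `d ∈ D1^R` (CL2), which are controlled by (I7). The square trick (SQ)
reduces pairs of range `(R, R)` to pairs of range `(R, 0)`, so the total range is `R + c` and not `2R + c`;
(I7) with the range `(R + c)/2` then gives a defect of range `(R + c)/2 + c₀ ≤ R`.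
-/

namespace Pool.Agent.MPEF.U

open MeasureTheory Topology
open scoped ENNReal Pointwise

/-- The output of the coercivity part: control of the straight pairs with tiny windows and one
`A`-shift `d` of range `2R` by the defect of range `R + c₀`. -/
def I7 {P H : Type} [Group P] [Group H] [TopologicalSpace P] [MeasurableSpace P]
    [MeasurableSpace H] (D : Dat P H) (G : PG P) : Prop :=
  ∃ (L : List (Th P)) (c₀ : ℕ), (∀ t ∈ L, t.Ok G) ∧ ∀ R : ℕ, ∃ U ∈ 𝓝 (1 : P), IsCompact U ∧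
    ∃ (C : ℝ≥0∞) (T : ℕ), C ≠ ∞ ∧ ∀ r, T ≤ r → ∀ d ∈ G.D1 ^ (2 * R), ∀ n m, T ≤ n → T ≤ m →
      2 * r + T ≤ n + m → n + m + T ≤ 8 * r → ∀ φ : D.Γ → P → ℝ, Adm D G φ →
        D.PX G 1 (D.eg G U (G.uw U) 0 n) (D.eg G (G.uw U * {d}) U 0 m) φ ≤
          C * (r : ℝ≥0∞) * D.EL G L (R + c₀) r φ

/-- The type `t` is inside the type `t'`, with nonempty interiors. -/
def Th.In {P : Type} [TopologicalSpace P] (t t' : Th P) : Prop :=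
  ∀ i, t.c i = t'.c i ∧ t.S i ⊆ interior (t'.S i) ∧ t.K i ⊆ interior (t'.K i) ∧
    (interior (t.S i)).Nonempty ∧ (interior (t.K i)).Nonempty

variable (P H : Type) [Group P] [Group H] [TopologicalSpace P] [TopologicalSpace H]
  [IsTopologicalGroup P] [IsTopologicalGroup H] [LocallyCompactSpace P] [LocallyCompactSpace H]
  [T2Space P] [T2Space H] [SecondCountableTopology P] [SecondCountableTopology H]
  [MeasurableSpace P] [MeasurableSpace H] [BorelSpace P] [BorelSpace H]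

/-- **CLa** (from GEu, AD, CJ, ph). Closed loops with small windows around a positive pair `(s₀, s₀')`, `s₀' = s₀ b w b'`.
Proof. `q := s₀ b`: `q⁻¹ s₀ = b⁻¹`, `q⁻¹ s₀' = w b'`. CJ with `(q, 1)`, `Ψ = eg ({s₀} V) ({s₀'} V) R n` and `f(x, l) = ab (ph l (x₁ s₀))` (equivariant: ph (4),
measurable: ph (8)): `Ψ(q g q⁻¹) = eg ({b⁻¹} V) ({w b'} V) R n g` (AD (3)), and `f(x q⁻¹, l) = ab (ph l (x₁ b⁻¹)) = ab (ph l x₁)` (ph (3)).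
For `V` small and `v ∈ V`: `b⁻¹ v = (b⁻¹ v b) b⁻¹` with `b⁻¹ v b ∈ interior U`, and `w b' v = (w (b' v b'⁻¹) w) w b'` with
`w (b' v b'⁻¹) w ∈ interior U`. GEu for the compact set `B ∪ B⁻¹` (its `c`), `S' = interior U`, `K' = uw (interior U)`; then monotonicity (AD). -/
def S_CLa : Prop :=
  ∀ D : Dat P H, D.Ok → ∀ G : PG P, G.Ok → G.OkG → ∀ B : Set P, IsCompact B → B ⊆ G.Bor →
    ∃ c : ℕ, ∀ b ∈ B, ∀ b' ∈ B, ∀ s₀ : P, ∀ U ∈ 𝓝 (1 : P), ∃ V ∈ 𝓝 (1 : P), IsCompact V ∧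
      ∀ R : ℕ, ∃ (C : ℝ≥0∞) (T : ℕ), C ≠ ∞ ∧ ∀ n, T ≤ n → ∀ φ : D.Γ → P → ℝ, Adm D G φ →
        D.L1 (D.eg G ({s₀} * V) ({s₀ * b * G.w * b'} * V) R n)
          (fun x l => ab (ph G φ l (x.1 * s₀))) ≤ C * D.LI G U (R + c) n φ

/-- **CLb** (from CLa, AD, AD2, FP, MQ, ph). Closed loops with arbitrary compact positive windows; `c` does not depend on `U`.
Proof. `Q := {w s⁻¹ s' | s ∈ S, s' ∈ S'}` is compact and `Pos w` on it; (LUc) gives `B`; `c` from CLa. Given `U`: for `(s, s') ∈ S × S'` write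
`w s⁻¹ s' = w b w b'`, so `s' = s b w b'`, and take `V` of CLa. Finitely many of the products `{s_i} (interior V_i) × {s_i'} (interior V_i)` cover `S × S'`.
AD2: `eg S S' R n ≤ ∑_i eg ({s_i} V_i) ({s_i'} V_i) R n`. If `eg S S' R n (x⁻¹ l x) ≠ 0` and `n ≥ T` then `(x⁻¹ l x)₁ ∈ W S S' k` (AD), and by FP
`ph l (x₁ s) = ph l (x₁ s_i)` for all `s, s_i ∈ S`. So the integrand is `≤ ∑_i eg ({s_i} V_i) ({s_i'} V_i) R n * ab (ph l (x₁ s_i))`; sum the bounds of CLa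
(`lintegral_finset_sum`, MQ). If `S` or `S'` is empty the left side is `0`. -/
def S_CLb : Prop :=
  ∀ D : Dat P H, D.Ok → ∀ G : PG P, G.Ok → G.OkF → G.OkG → ∀ S S' : Set P, IsCompact S →
    IsCompact S' → (∀ s ∈ S, ∀ s' ∈ S', G.Pos s s') → ∃ c : ℕ, ∀ U ∈ 𝓝 (1 : P), ∀ R : ℕ,
      ∃ (C : ℝ≥0∞) (T : ℕ), C ≠ ∞ ∧ ∀ n, T ≤ n → ∀ φ : D.Γ → P → ℝ, Adm D G φ → ∀ s ∈ S,
        D.L1 (D.eg G S S' R n) (fun x l => ab (ph G φ l (x.1 * s))) ≤ C * D.LI G U (R + c) n φ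

/-- **CL1** (from CLb, UFX, RV, MU, NB, AD). From pairs to straight closed loops.
Proof. NB: compact `S₁' , S₂'` with `S_i ⊆ interior S_i'`, `Pos` on `S₁' × S₂'`; let `S₂ ⊆ interior S₂⁻`, `S₂⁻ ⊆ interior S₂'` compact. UFX (2) with
`f(x, l) = ab (ph l (x₁ c₁))`: `PX = L1 (tk (cvP k₁ (k₂ ∘ inv)) (n+m)) f`, `k₁ = eP S₁ K₁ R n`, `k₂ = eP S₂ K₂ R' m`. RV: `k₂(g⁻¹) ≤ C eP K₂ S₂⁻ R' m g`.
MU (`Pos` on `K₁ × K₂`): `cvP ≤ C eP S₁' S₂' (R+R'+c) (n+m)`. CLb for `S₁'`, `S₂'`. -/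
def S_CL1 : Prop :=
  ∀ D : Dat P H, D.Ok → ∀ G : PG P, G.Ok → G.OkF → G.OkG → ∀ S₁ K₁ S₂ K₂ : Set P,
    IsCompact S₁ → IsCompact K₁ → IsCompact S₂ → IsCompact K₂ →
    (∀ s ∈ S₁, ∀ s' ∈ S₂, G.Pos s s') → (∀ κ ∈ K₁, ∀ κ' ∈ K₂, G.Pos κ κ') →
    ∃ c : ℕ, ∀ U ∈ 𝓝 (1 : P), ∀ R R' : ℕ, ∃ (C : ℝ≥0∞) (T : ℕ), C ≠ ∞ ∧ ∀ n m, T ≤ n → T ≤ m →
      ∀ φ : D.Γ → P → ℝ, Adm D G φ → ∀ c₁ ∈ S₁,
        D.PX G c₁ (D.eg G S₁ K₁ R n) (D.eg G S₂ K₂ R' m) φ ≤ C * D.LI G U (R + R' + c) (n + m) φ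

/-- **CL2** (from MLs, UFX, AD, MQ, ph). From straight closed loops to straight pairs with tiny windows. Proof. `U₀` compact
neighbourhood of `1` in the interior of `U`. MLs; `L1` is monotone and additive (MQ), UFX (2) backwards with `k₁ = eP U (uw U) 0 n`,
`k₂ = eP (uw U * {d}) U 0 m`, `f(x, l) = ab (ph l x₁)` (`x₁ * 1 = x₁`). -/
def S_CL2 : Prop :=
  ∀ D : Dat P H, D.Ok → ∀ G : PG P, G.Ok → ∀ U ∈ 𝓝 (1 : P), IsCompact U →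
    ∃ U₀ ∈ 𝓝 (1 : P), IsCompact U₀ ∧ ∀ R : ℕ, ∃ (F : Finset P) (C : ℝ≥0∞) (T : ℕ), C ≠ ∞ ∧
      (∀ d ∈ F, d ∈ G.D1 ^ R) ∧ ∀ n m, T ≤ n → T ≤ m → ∀ φ : D.Γ → P → ℝ, Adm D G φ →
        D.LI G U₀ R (n + m) φ ≤ C * ∑ d ∈ F,
          D.PX G 1 (D.eg G U (G.uw U) 0 n) (D.eg G (G.uw U * {d}) U 0 m) φ

/-- **SQ** (from MQ, ph, S_inst). Square trick. Proof. Pointwise in `(x, y)` (`p(u, v) := ph (u v⁻¹) (x₁ c₀)`): insert independent sums over `u', v', w` (cost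
`(a⁻¹)³`, `N ≥ a`), `|p(u,v)| ≤ |p(u,v')| + |p(u',v)| + |p(u',v')| + |□|`, `□ = p(u,v) - p(u',v) - p(u,v') + p(u',v')
= dl(u,v,w) - dl(u',v,w) - dl(u,v',w) + dl(u',v',w)`; in each term sum over the edges which do not occur (`N ≤ A`, at most three of them, `≤ (1+A)³`). Then
integrate; the integrals of the seven terms are added (measurability: MQ, ph (8)). -/
def S_SQ : Prop :=
  ∀ D : Dat P H, D.Ok → ∀ G : PG P, G.Ok → ∀ (c : Fin 3 → P) (Ku Ku' Kv Kv' Kw : P × H → ℝ≥0∞),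
    Measurable Ku → Measurable Ku' → Measurable Kv → Measurable Kv' → Measurable Kw →
    ∀ A a : ℝ≥0∞, A ≠ ∞ → a ≠ 0 →
    (∀ x y, D.N Ku x y ≤ A) → (∀ x y, D.N Ku' x y ≤ A) → (∀ x y, D.N Kv x y ≤ A) →
    (∀ x y, D.N Kv' x y ≤ A) → (∀ x y, D.N Kw x y ≤ A) →
    (∀ x y, a ≤ D.N Ku' x y) → (∀ x y, a ≤ D.N Kv' x y) → (∀ x y, a ≤ D.N Kw x y) →
    ∀ φ : D.Γ → P → ℝ, Adm D G φ →
      D.PX G (c 0) Ku Kv φ ≤ (a⁻¹) ^ 3 * (1 + A) ^ 3 *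
        (D.PX G (c 0) Ku Kv' φ + D.PX G (c 0) Ku' Kv φ + D.PX G (c 0) Ku' Kv' φ +
          D.TX G c Ku Kv Kw φ + D.TX G c Ku' Kv Kw φ + D.TX G c Ku Kv' Kw φ +
          D.TX G c Ku' Kv' Kw φ)

/-- **TXc.** Monotonicity and cyclic invariance of `TX`, monotonicity of `PX`, `LI`. Proof: `ENNReal.tsum_comm`,
`dl c₁ c₂ c₀ v w u = dl c₀ c₁ c₂ u v w`; `ENNReal.tsum_le_tsum`, `lintegral_mono`, `lintegral_const_mul'`; `D1^R ⊆ D1^R'` (DF). -/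
def S_TXc : Prop :=
  ∀ D : Dat P H, D.Ok → ∀ G : PG P, G.Ok → ∀ φ : D.Γ → P → ℝ,
    (∀ (c : Fin 3 → P) (K : Fin 3 → P × H → ℝ≥0∞),
      D.TX G (fun i => c (i + 1)) (K 1) (K 2) (K 0) φ = D.TX G c (K 0) (K 1) (K 2) φ) ∧
    (∀ (c : Fin 3 → P) (A : ℝ≥0∞), A ≠ ∞ → ∀ (K K' : Fin 3 → P × H → ℝ≥0∞),
      (∀ i g, K i g ≤ A * K' i g) →
      D.TX G c (K 0) (K 1) (K 2) φ ≤ A ^ 3 * D.TX G c (K' 0) (K' 1) (K' 2) φ) ∧
    (∀ (c : P) (A : ℝ≥0∞), A ≠ ∞ → ∀ (K₁ K₂ K₁' K₂' : P × H → ℝ≥0∞), (∀ g, K₁ g ≤ A * K₁' g) →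
      (∀ g, K₂ g ≤ A * K₂' g) → D.PX G c K₁ K₂ φ ≤ A ^ 2 * D.PX G c K₁' K₂' φ) ∧
    (∀ (U U' : Set P) (R R' N : ℕ), U ⊆ U' → R ≤ R' → D.LI G U R N φ ≤ D.LI G U' R' N φ)

/-- **EN** (from NB). Enlargement and existence of types. Proof. NB (2) for `S 0, S 1, S 2` and for `K 2, K 1, K 0`; `c i ∈ S i`. Existence: (NT) for
`C = {w}` (`P1`): `Tri c 1 w`; NB (2) for `{c}, {1}, {w}`: compact neighbourhoods `A', B', C'`; `t.c = (c, 1, w)`, `t.S = (A', B', C')`,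
`t.K = (C', B', A')`. -/
def S_EN : Prop :=
  ∀ G : PG P, G.Ok →
    (∀ t : Th P, t.Ok G → ∃ t' : Th P, t'.Ok G ∧ ∀ i, t'.c i = t.c i ∧
      t.S i ⊆ interior (t'.S i) ∧ t.K i ⊆ interior (t'.K i)) ∧
    ∃ t : Th P, t.Ok G ∧ ∀ i, (interior (t.S i)).Nonempty ∧ (interior (t.K i)).Nonempty

/-- **CLt** (from SQ, TXc, CL1, UpG, LoG, AD, DF). The masses of the pairs for one type. Proof. `c` := maximum of the constants of CL1 for the three pairs `(j, j+1)` of the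
windows of `t'` (`Pos` on `S j × S (j+1)` from `Tri` with the third window, which is nonempty; similarly for `K`). `r' := 6 r / 5 + 1`, `e_i := eg (t.S i) (t.K i) 0 r'`.
`e_i ≤ we i r'` (`sl`, `kl`, `D1^0 ⊆ D1^R`), `we i n ≤ C² eg (t'.S i) (t'.K i) R n` (`su`, `ku`), so `N ≤ A` for all of them (UpG), and `N (e_i) ≥ a`, `N (we i (2r)) ≥ N (eg (t.S i) (t.K i) 0 (2r)) ≥ a`
(LoG). SQ with `Ku = we j n`, `Kv = we (j+1) m`, `Ku' = e_j`, `Kv' = e_(j+1)`, `Kw = we (j+2) (2r)` and the centres `c_j, c_(j+1), c_(j+2)`. The four `TX` are `≤ EW` (replace `e_i` by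
`we i r'`; cyclic invariance; one summand, `r', 2r ∈ [r, 4r]`). The three `PX` are `≤ C LI U (R + c) N` with `N ∈ {n + r', r' + m, 2 r'}` (TXc, CL1 with ranges
`(R, 0)`, `(0, R)`, `(0, 0)`), `11 r ≤ 5 N ≤ 27 r` for large `r`, so `≤ C B`. Sum over `n, m ∈ [r, 4r]`: `(3r+1)² ≤ 16 r²`. -/
def S_CLt : Prop :=
  ∀ D : Dat P H, D.Ok → ∀ G : PG P, G.Ok → G.OkF → G.OkG → ∀ NK : Set (P → ℝ≥0∞),
    NiceOk NK → Equi D G NK → ∀ t t' : Th P, t.Ok G → t'.Ok G → t.In t' → ∃ c : ℕ,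
    ∀ R : ℕ, ∀ U ∈ 𝓝 (1 : P), ∀ f : Wf P, f.Ok G t t' R → ∃ (C : ℝ≥0∞) (r₀ : ℕ), C ≠ ∞ ∧
      ∀ r, r₀ ≤ r → ∀ φ : D.Γ → P → ℝ, Adm D G φ → ∀ B : ℝ≥0∞,
        (∀ N, 11 * r ≤ 5 * N → 5 * N ≤ 27 * r → D.LI G U (R + c) N φ ≤ B) →
        D.AW G f t.c r φ ≤ C * (r : ℝ≥0∞) ^ 2 * (D.EW G f t.c r φ + B)

/-- **CLO** (from CLt, CL2, TXc, EN, AD, DF). The closure. Proof. `L`, `c₀` from (I7). Add a type with nonempty interiors (EN) to the types of `L` all of whose end windows are nonempty;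
for each of them let `t i` be an enlargement and `t' i` an enlargement of `t i` (EN): `(t i).In (t' i)` (an enlargement of a nonempty set has nonempty interior). `c` := maximum of the `c` of CLt,
`R := c + 2 c₀ + 2`, `R₁ := c₀ + c + 1`, so `R + c ≤ 2 R₁` and `R₁ + c₀ ≤ R`. (I7) for `R₁` gives `U`, CL2 gives `U₀`; CLt for `U₀` and `f i`. Bound of `LI U₀ (R + c) N`: `≤ LI U₀ (2 R₁) N` (TXc),
`N = n + m` with `n = N / 2`, CL2 with range `2 R₁` (finite set of `d ∈ D1^(2 R₁)`) and (I7): `≤ C r EL L (R₁ + c₀) r φ` for large `r` (`2r + T ≤ 11 r / 5`, `27 r / 5 + T ≤ 8 r`). A type of `L` with an empty end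
window has defect `0`; for the others `EE t (R₁ + c₀) r φ ≤ EW (f i) r φ` (`eg (t.S j) (t.K j) (R₁ + c₀) n ≤ we (f i) j n`, `sl`, `kl`, TXc). So `B ≤ C r ∑_i EW (f i)`,
and `AW (f i) ≤ C r² (EW (f i) + B) ≤ C r³ ∑_i EW (f i)`. -/
def S_CLO : Prop :=
  ∀ D : Dat P H, D.Ok → ∀ G : PG P, G.Ok → G.OkF → G.OkG → ∀ NK : Set (P → ℝ≥0∞),
    NiceOk NK → Equi D G NK → I7 D G →
    ∃ (N : ℕ) (t t' : Fin N → Th P) (R : ℕ), 0 < N ∧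
      (∀ i, (t i).Ok G ∧ (t' i).Ok G ∧ (t i).In (t' i)) ∧
      ∀ f : Fin N → Wf P, (∀ i, (f i).Ok G (t i) (t' i) R) → ∃ (C : ℝ≥0∞) (r₀ : ℕ), C ≠ ∞ ∧
        ∀ r, r₀ ≤ r → ∀ φ : D.Γ → P → ℝ, Adm D G φ →
          ∑ i, D.AW G (f i) (t i).c r φ ≤ C * (r : ℝ≥0∞) ^ 3 * ∑ i, D.EW G (f i) (t i).c r φ

/-- **WfE.** Existence of nice window functions. Proof. `t.S i * D1^R` is compact in the open set `interior (t'.S i) * D1^R`, and `ew (t.K i)` is compact in the open set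
`ew (interior (t'.K i))`; `sep`, `bdd`. -/
def S_WfE : Prop :=
  ∀ G : PG P, G.Ok → ∀ NK : Set (P → ℝ≥0∞), NiceOk NK → ∀ t t' : Th P, t.Ok G → t'.Ok G →
    t.In t' → ∀ R : ℕ, ∃ f : Wf P, f.Ok G t t' R ∧ (∀ i, f.s i ∈ NK) ∧ ∀ i, f.k i ∈ NK

/-- **SGt** (from BAL, Fin, MQ, ph, TXc, AD, DF). The last step for one theta. `K i = we f i (n i)`, `p i` the three terms of `dl`. Proof. On the support
`dl ≥ 0`, so `ab dl = ofReal dl` and `ofReal (p₀+p₁+p₂) + ∑ ofReal (- p_i) = ∑ ofReal p_i`. So `TX + ∑_i X3 (ofReal (-p_i)) = ∑_i X3 (ofReal p_i)` (MQ, ph (8)). Sum over the edge which does not occur in `p_i`: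
`X3 (ofReal p_i) ≤ (I + ε) X_i`, `I X_i ≤ X3 (ofReal (-p_i)) + ε X_i`, where `I`, `ε = C n⁻⁶` are those of the missing edge (Equi), and `X_i = X2 (ofReal p_i) = X2 (ofReal (-p_i)) ≤ PX_i < ∞`
(BAL; Fin for `t'`, `we ≤ C² eg t' R`). Cancel the finite `I_i X_i`: `TX ≤ 2 ∑ ε_i X_i`. -/
def S_SGt : Prop :=
  ∀ D : Dat P H, D.Ok → ∀ G : PG P, G.Ok → G.OkF → ∀ NK : Set (P → ℝ≥0∞),
    NiceOk NK → Equi D G NK → ∀ t t' : Th P, t.Ok G → t'.Ok G → t.In t' → ∀ (R : ℕ) (f : Wf P),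
    f.Ok G t t' R → (∀ i, f.s i ∈ NK) → (∀ i, f.k i ∈ NK) → ∃ (C : ℝ≥0∞) (T : ℕ), C ≠ ∞ ∧
      ∀ r, T ≤ r → ∀ n₀ n₁ n₂, r ≤ n₀ → r ≤ n₁ → r ≤ n₂ → ∀ φ : D.Γ → P → ℝ, Adm D G φ →
        (∀ (x y : P × H) (u v w : D.Γ), D.we G f 0 n₀ (x⁻¹ * (u : P × H) * y) ≠ 0 →
          D.we G f 1 n₁ (x⁻¹ * (v : P × H) * y) ≠ 0 → D.we G f 2 n₂ (x⁻¹ * (w : P × H) * y) ≠ 0 →
          0 ≤ dl G φ (t.c 0) (t.c 1) (t.c 2) x u v w) →
        D.TX G t.c (D.we G f 0 n₀) (D.we G f 1 n₁) (D.we G f 2 n₂) φ ≤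
          C * ((r : ℝ≥0∞)⁻¹) ^ 6 *
            (D.PX G (t.c 0) (D.we G f 0 n₀) (D.we G f 1 n₁) φ +
              D.PX G (t.c 1) (D.we G f 1 n₁) (D.we G f 2 n₂) φ +
              D.PX G (t.c 2) (D.we G f 2 n₂) (D.we G f 0 n₀) φ)

/-- **SG** (from SGt). Proof. Sum of SGt over `n₀, n₁, n₂ ∈ [r, 4r]`; each pair occurs `3r + 1 ≤ 4r` times. -/
def S_SG : Prop :=
  ∀ D : Dat P H, D.Ok → ∀ G : PG P, G.Ok → G.OkF → ∀ NK : Set (P → ℝ≥0∞),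
    NiceOk NK → Equi D G NK → ∀ t t' : Th P, t.Ok G → t'.Ok G → t.In t' → ∀ (R : ℕ) (f : Wf P),
    f.Ok G t t' R → (∀ i, f.s i ∈ NK) → (∀ i, f.k i ∈ NK) → ∃ (C : ℝ≥0∞) (T : ℕ), C ≠ ∞ ∧
      ∀ r, T ≤ r → ∀ φ : D.Γ → P → ℝ, Adm D G φ →
        (∀ n₀ n₁ n₂, r ≤ n₀ → n₀ ≤ 4 * r → r ≤ n₁ → n₁ ≤ 4 * r → r ≤ n₂ → n₂ ≤ 4 * r →
          ∀ (x y : P × H) (u v w : D.Γ), D.we G f 0 n₀ (x⁻¹ * (u : P × H) * y) ≠ 0 →
          D.we G f 1 n₁ (x⁻¹ * (v : P × H) * y) ≠ 0 → D.we G f 2 n₂ (x⁻¹ * (w : P × H) * y) ≠ 0 →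
          0 ≤ dl G φ (t.c 0) (t.c 1) (t.c 2) x u v w) →
        D.EW G f t.c r φ ≤ C * ((r : ℝ≥0∞)⁻¹) ^ 5 * D.AW G f t.c r φ

/-- **POS** (from LoG, UpG, MQ, ph, TXc). Positivity. Proof. If `dl > 0` on the thetas of the window functions of length `r` each: `EW ≥ TX (we 0 r) (we 1 r) (we 2 r)
≥ X3 (eg (t.S i) (t.K i) 0 r) (ab dl)`; the integrand is positive wherever there is a theta, and `N ≥ a > 0` for each of the three kernels: so there is one for every `(x, y)`; the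
integral of a positive measurable function over `M × M` (mass `1`) is positive. -/
def S_POS : Prop :=
  ∀ D : Dat P H, D.Ok → ∀ G : PG P, G.Ok → ∀ NK : Set (P → ℝ≥0∞),
    NiceOk NK → Equi D G NK → ∀ t t' : Th P, t.Ok G → t'.Ok G → t.In t' → ∀ (R : ℕ) (f : Wf P),
    f.Ok G t t' R → ∃ T : ℕ, ∀ r, T ≤ r → ∀ φ : D.Γ → P → ℝ, Adm D G φ →
      (∀ (x y : P × H) (u v w : D.Γ), D.we G f 0 r (x⁻¹ * (u : P × H) * y) ≠ 0 →
        D.we G f 1 r (x⁻¹ * (v : P × H) * y) ≠ 0 → D.we G f 2 r (x⁻¹ * (w : P × H) * y) ≠ 0 →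
        0 < dl G φ (t.c 0) (t.c 1) (t.c 2) x u v w) → D.EW G f t.c r φ ≠ 0

/-- **EWf** (from Fin, UpG, UFX, AD, TXc). Finiteness of `EW` for large `r`. Proof. `we ≤ C² eg (t') R`; `TX ≤ ∑ (PX_i) * C` (`|dl| ≤ ∑ |p_i|`, sum over the missing edge, UpG),
`PX_i < ∞` (Fin for `t'`). -/
def S_EWf : Prop :=
  ∀ D : Dat P H, D.Ok → ∀ G : PG P, G.Ok → G.OkF → ∀ NK : Set (P → ℝ≥0∞),
    NiceOk NK → Equi D G NK → ∀ t t' : Th P, t.Ok G → t'.Ok G → t.In t' → ∀ (R : ℕ) (f : Wf P),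
    f.Ok G t t' R → ∃ T : ℕ, ∀ r, T ≤ r → ∀ φ : D.Γ → P → ℝ, Adm D G φ →
      D.EW G f t.c r φ ≠ ∞

/-- **NOphi** (from CLO, WfE, SG, POS, EWf). The contradiction: there is no positive admissible function for these types.
Proof. CLO; nice window functions (WfE). Suppose `φ` is as stated for a large `r`. `∑ AW ≤ C r³ ∑ EW ≤ C r³ C' r⁻⁵ ∑ AW`, or
`∑ EW ≤ C' r⁻⁵ ∑ AW ≤ C C' r⁻² ∑ EW`. For large `r` with `C C' r⁻² < 1` and `∑ EW < ∞` (EWf): `∑ EW = 0`, against POS (`N > 0`). The support of `we (f i) j n` is in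
`G.W ((t' i).S j) ((t' i).K j) k × H` for `n ≥ r` large (`su`, `ku`, AD (4)), so the hypothesis of SG and POS follows from the positivity on these displacements.
The `H`-part: `we ... ≠ 0` implies `nu n h ≠ 0`, so `h ∈ O^n` (`S_nu`), `n ≤ 4r`. -/
def S_NOphi : Prop :=
  ∀ D : Dat P H, D.Ok → ∀ G : PG P, G.Ok → G.OkF → G.OkG → ∀ NK : Set (P → ℝ≥0∞),
    NiceOk NK → Equi D G NK → I7 D G →
    ∃ (N : ℕ) (t : Fin N → Th P) (R : ℕ), 0 < N ∧ (∀ i, (t i).Ok G) ∧ ∀ k : ℕ, ∃ r : ℕ, 1 ≤ r ∧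
      (∀ n, r ≤ n → ∀ d ∈ G.D1 ^ R, d * G.a ^ n ∈ G.Dp k) ∧
      ∀ φ : D.Γ → P → ℝ, Adm D G φ →
        ¬ ∀ (i : Fin N) (n : Fin 3 → ℕ), (∀ j, r ≤ n j ∧ n j ≤ 4 * r) →
          ∀ (x y : P × H) (u : Fin 3 → D.Γ),
            (∀ j, (x⁻¹ * (u j : P × H) * y).1 ∈
              ((t i).S j * G.D1 ^ R) * {G.a ^ (n j)} * G.ew ((t i).K j) ∧
              (x⁻¹ * (u j : P × H) * y).2 ∈ D.O ^ (n j)) →
            0 < dl G φ ((t i).c 0) ((t i).c 1) ((t i).c 2) x (u 0) (u 1) (u 2)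

end Pool.Agent.MPEF.U
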