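import Pool.Agent.Lib.MP_ef3f0f_gt.U.F.SpecC

set_option autoImplicit false

/-!
# MP_ef3f0f_gt, Theorem U, Part F, module `ph`: the functions `ph φ l`
-/

namespace Pool.Agent.MPEF.U

open MeasureTheory Topology
open scoped ENNReal Pointwise

section ph_group

variable {P : Type} [Group P] [TopologicalSpace P]

theorem ph_inv_w {G : PG P} (hG : G.Ok) : G.w⁻¹ = G.w := inv_eq_of_mul_eq_one_left hG.ww

theorem ph_inv_J {G : PG P} (hG : G.Ok) : G.J⁻¹ = G.J := inv_eq_of_mul_eq_one_left hG.JJ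

/-- `z J` is a frame. -/
theorem ph_FrJ {G : PG P} (hG : G.Ok) {l z : P} (h : Fr G l z) : Fr G l (z * G.J) := by
  unfold Fr at *
  have h1 := hG.JA _ (hG.AppA h)
  have h2 : (z * G.J)⁻¹ * l * (z * G.J) = z⁻¹ * l * z := by
    have h3 : (z * G.J)⁻¹ * l * (z * G.J) = G.J⁻¹ * ((z⁻¹ * l * z) * G.J) := by group
    rw [h3, ← h1, inv_mul_cancel_left]
  rw [h2]
  exact h

/-- `g z` is a frame of `g l g⁻¹`. -/
theorem ph_FrC {G : PG P} {l z : P} (g : P) : Fr G (g * l * g⁻¹) (g * z) ↔ Fr G l z := by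
  unfold Fr
  have h : (g * z)⁻¹ * (g * l * g⁻¹) * (g * z) = z⁻¹ * l * z := by group
  rw [h]

/-- `z w` is a frame of `l⁻¹`. -/
theorem ph_FrI {G : PG P} (hG : G.Ok) {l z : P} (h : Fr G l z) : Fr G l⁻¹ (z * G.w) := by
  unfold Fr at *
  have h1 := hG.Appw _ h
  have h2 : (z * G.w)⁻¹ * l⁻¹ * (z * G.w) = G.w * (z⁻¹ * l * z)⁻¹ * G.w := by
    rw [mul_inv_rev, ph_inv_w hG]
    group
  rw [h2]
  exact h1

theorem ph_zJw {G : PG P} (hG : G.Ok) (z : P) : z * G.J * G.w = z * G.w * G.J := by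
  rw [mul_assoc, hG.Jw, mul_assoc]

/-- `Pos k (z J w)` and `Pos (k J) (z w)`. -/
theorem ph_PJ {G : PG P} (hG : G.Ok) (k z : P) :
    G.Pos (k * G.J) (z * G.w) ↔ G.Pos k (z * G.J * G.w) := by
  rw [← hG.PJ k, ph_zJw hG, mul_assoc (z * G.w), hG.JJ, mul_one]

/-- `Pos (z J z⁻¹ k) (z J w)` and `Pos k (z w)`. -/
theorem ph_PS {G : PG P} (hG : G.Ok) (k z : P) :
    G.Pos (z * G.J * z⁻¹ * k) (z * G.J * G.w) ↔ G.Pos k (z * G.w) := by
  rw [← hG.Pl (z * G.J * z⁻¹) k]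
  have h : z * G.J * z⁻¹ * (z * G.w) = z * G.J * G.w := by group
  rw [h]

theorem ph_PS2 {G : PG P} (hG : G.Ok) (k z : P) :
    G.Pos (z * G.J * z⁻¹ * k) (z * G.w) ↔ G.Pos k (z * G.J * G.w) := by
  rw [← hG.Pl (z * G.J * z⁻¹) k]
  have h : z * G.J * z⁻¹ * (z * G.J * G.w) = z * (G.J * G.J) * G.w := by group
  rw [h, hG.JJ, mul_one]

end ph_group

section ph_fun

variable {P H : Type} [Group P] [Group H] [TopologicalSpace P] [MeasurableSpace P]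
  [MeasurableSpace H]

theorem ph_pos {D : Dat P H} {G : PG P} (hG : G.Ok) {φ : D.Γ → P → ℝ} (hφ : Adm D G φ)
    (l : D.Γ) (z k : P) (hz : Fr G (l : P × H).1 z) (hk : G.Pos k (z * G.w)) :
    ph G φ l k = φ l z := by
  have h : ∃ z, Fr G (l : P × H).1 z ∧ G.Pos k (z * G.w) := ⟨z, hz, hk⟩
  unfold ph
  rw [dif_pos h]
  obtain ⟨h1, h2⟩ := h.choose_spec
  have h3 := (hG.UQ (l : P × H).1 z h.choose hz h1).2 k hk h2
  have h4 := hφ.scale l z _ h3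
  rw [mul_inv_cancel_left] at h4
  exact h4

theorem ph_neg {D : Dat P H} {G : PG P} {φ : D.Γ → P → ℝ} (l : D.Γ) (k : P)
    (h : ¬ ∃ z, Fr G (l : P × H).1 z ∧ G.Pos k (z * G.w)) : ph G φ l k = 0 := by
  unfold ph
  rw [dif_neg h]

theorem ph_bor {D : Dat P H} {G : PG P} (hG : G.Ok) {φ : D.Γ → P → ℝ} (hφ : Adm D G φ)
    (l : D.Γ) (k : P) (b : P) (hb : b ∈ G.Bor) : ph G φ l (k * b) = ph G φ l k := by
  by_cases h : ∃ z, Fr G (l : P × H).1 z ∧ G.Pos k (z * G.w)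
  · obtain ⟨z, hz, hk⟩ := h
    rw [ph_pos hG hφ l z k hz hk, ph_pos hG hφ l z (k * b) hz ((hG.Pr _ _ b hb).2 hk)]
  · rw [ph_neg l k h, ph_neg l (k * b)]
    rintro ⟨z, hz, hk⟩
    exact h ⟨z, hz, (hG.Pr _ _ b hb).1 hk⟩

theorem ph_conj {D : Dat P H} {G : PG P} (hG : G.Ok) {φ : D.Γ → P → ℝ} (hφ : Adm D G φ)
    (g l : D.Γ) (k : P) : ph G φ (g * l * g⁻¹) ((g : P × H).1 * k) = ph G φ l k := by
  have e : ((g * l * g⁻¹ : D.Γ) : P × H).1 =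
      (g : P × H).1 * (l : P × H).1 * ((g : P × H).1)⁻¹ := rfl
  by_cases h : ∃ z, Fr G (l : P × H).1 z ∧ G.Pos k (z * G.w)
  · obtain ⟨z, hz, hk⟩ := h
    rw [ph_pos hG hφ l z k hz hk, ph_pos hG hφ (g * l * g⁻¹) ((g : P × H).1 * z) _ ?_ ?_]
    · exact hφ.conj g l z
    · rw [e]
      exact (ph_FrC _).2 hz
    · rw [mul_assoc]
      exact (hG.Pl _ _ _).2 hk
  · rw [ph_neg l k h, ph_neg]
    rintro ⟨z, hz, hk⟩
    rw [e] at hz
    have e2 : z = (g : P × H).1 * (((g : P × H).1)⁻¹ * z) := by group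
    rw [e2] at hz hk
    refine h ⟨((g : P × H).1)⁻¹ * z, (ph_FrC _).1 hz, ?_⟩
    rw [mul_assoc ((g : P × H).1) _ G.w] at hk
    exact (hG.Pl _ _ _).1 hk

theorem ph_J {D : Dat P H} {G : PG P} (hG : G.Ok) {φ : D.Γ → P → ℝ} (hφ : Adm D G φ)
    (l : D.Γ) (k : P) : ph G φ l (k * G.J) = - ph G φ l k := by
  by_cases h : ∃ z, Fr G (l : P × H).1 z ∧ G.Pos k (z * G.w)
  · obtain ⟨z, hz, hk⟩ := h
    rw [ph_pos hG hφ l z k hz hk, ph_pos hG hφ l (z * G.J) _ (ph_FrJ hG hz) ?_, hφ.jodd]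
    rw [ph_PJ hG, mul_assoc z G.J G.J, hG.JJ, mul_one]
    exact hk
  · rw [ph_neg l k h, ph_neg, neg_zero]
    rintro ⟨z, hz, hk⟩
    exact h ⟨z * G.J, ph_FrJ hG hz, (ph_PJ hG k z).1 hk⟩

theorem ph_I {D : Dat P H} {G : PG P} (hG : G.Ok) {φ : D.Γ → P → ℝ} (hφ : Adm D G φ)
    (l : D.Γ) (z k k' : P) (hz : Fr G (l : P × H).1 z) (hk : G.Pos k (z * G.w))
    (hk' : G.Pos k' z) : ph G φ l⁻¹ k' = - ph G φ l k := by
  have e : ((l⁻¹ : D.Γ) : P × H).1 = ((l : P × H).1)⁻¹ := rfl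
  rw [ph_pos hG hφ l z k hz hk, ph_pos hG hφ l⁻¹ (z * G.w) k' ?_ ?_, hφ.inv]
  · rw [e]
    exact ph_FrI hG hz
  · rw [mul_assoc, hG.ww, mul_one]
    exact hk'

theorem ph_S {D : Dat P H} {G : PG P} (hG : G.Ok) {φ : D.Γ → P → ℝ} (hφ : Adm D G φ)
    (l : D.Γ) (z k : P) (hz : Fr G (l : P × H).1 z) :
    ph G φ l (z * G.J * z⁻¹ * k) = - ph G φ l k := by
  by_cases h : ∃ z, Fr G (l : P × H).1 z ∧ G.Pos k (z * G.w)
  · obtain ⟨z', hz', hk⟩ := h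
    rw [(hG.UQ _ z z' hz hz').1, ph_pos hG hφ l z' k hz' hk,
      ph_pos hG hφ l (z' * G.J) _ (ph_FrJ hG hz') ((ph_PS hG k z').2 hk), hφ.jodd]
  · rw [ph_neg l k h, ph_neg, neg_zero]
    rintro ⟨z', hz', hk⟩
    rw [(hG.UQ _ z z' hz hz').1] at hk
    exact h ⟨z' * G.J, ph_FrJ hG hz', (ph_PS2 hG k z').1 hk⟩

theorem ph_open {G : PG P} (hG : G.Ok) (z : P) : IsOpen {k | G.Pos k (z * G.w)} :=
  hG.Po.preimage (continuous_id.prodMk continuous_const)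

theorem ph_meas [BorelSpace P] {D : Dat P H} {G : PG P} (hG : G.Ok) {φ : D.Γ → P → ℝ}
    (hφ : Adm D G φ) (l : D.Γ) : Measurable fun k => ph G φ l k := by
  intro B hB
  have e : (fun k => ph G φ l k) ⁻¹' B =
      (⋃ z ∈ {z | Fr G (l : P × H).1 z ∧ φ l z ∈ B}, {k | G.Pos k (z * G.w)}) ∪
      ((⋃ z ∈ {z | Fr G (l : P × H).1 z}, {k | G.Pos k (z * G.w)})ᶜ ∩ {_k | (0 : ℝ) ∈ B}) := by
    ext k
    simp only [Set.mem_preimage, Set.mem_union, Set.mem_iUnion, Set.mem_setOf_eq, Set.mem_inter_iff,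
      Set.mem_compl_iff]
    constructor
    · intro hk
      by_cases h : ∃ z, Fr G (l : P × H).1 z ∧ G.Pos k (z * G.w)
      · obtain ⟨z, hz, hkz⟩ := h
        rw [ph_pos hG hφ l z k hz hkz] at hk
        exact Or.inl ⟨z, ⟨hz, hk⟩, hkz⟩
      · rw [ph_neg l k h] at hk
        refine Or.inr ⟨?_, hk⟩
        rintro ⟨z, hz, hkz⟩
        exact h ⟨z, hz, hkz⟩
    · rintro (⟨z, ⟨hz, hb⟩, hkz⟩ | ⟨h, h0⟩)
      · rw [ph_pos hG hφ l z k hz hkz]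
        exact hb
      · rw [ph_neg l k]
        · exact h0
        · rintro ⟨z, hz, hkz⟩
          exact h ⟨z, hz, hkz⟩
  rw [e]
  refine MeasurableSet.union ?_ (MeasurableSet.inter ?_ (MeasurableSet.const _))
  · exact (isOpen_biUnion fun z _ => ph_open hG z).measurableSet
  · exact (isOpen_biUnion fun z _ => ph_open hG z).measurableSet.compl

end ph_fun

variable (P H : Type) [Group P] [Group H] [TopologicalSpace P] [TopologicalSpace H]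
  [IsTopologicalGroup P] [IsTopologicalGroup H] [LocallyCompactSpace P] [LocallyCompactSpace H]
  [T2Space P] [T2Space H] [SecondCountableTopology P] [SecondCountableTopology H]
  [MeasurableSpace P] [MeasurableSpace H] [BorelSpace P] [BorelSpace H]

theorem tph : S_ph P H := by
  intro D _ G hG φ hφ
  exact ⟨ph_pos hG hφ, fun l k h => ph_neg l k h, ph_bor hG hφ, ph_conj hG hφ, ph_J hG hφ,
    ph_I hG hφ, ph_S hG hφ, ph_meas hG hφ⟩

end Pool.Agent.MPEF.U
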