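import Pool.Agent.Lib.MP_ef3f0f_gt.U.F.SpecB2

set_option autoImplicit false

/-!
# MP_ef3f0f_gt, Theorem U, Part F, statements on `P × H` (framing, unfolding, balance, merging)

Modules `U/F/X.lean`: `theorem tX : S_Y P → ... → S_Z P H → ... → S_X P H` (the hypotheses named in the
docstring of `S_X`), in a section with the same `variable` line (explicit `P H`), namespace
`Pool.Agent.MPEF.U`. The statements `S_inst P H`, `S_nu P H`, `S_Harn P H`, `S_unf P H`, `S_IM P H`,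
`S_mg P H` are those of `U/Z/Spec.lean` (proved).
-/

namespace Pool.Agent.MPEF.U

open MeasureTheory Topology
open scoped ENNReal Pointwise

variable (P H : Type) [Group P] [Group H] [TopologicalSpace P] [TopologicalSpace H]
  [IsTopologicalGroup P] [IsTopologicalGroup H] [LocallyCompactSpace P] [LocallyCompactSpace H]
  [T2Space P] [T2Space H] [SecondCountableTopology P] [SecondCountableTopology H]
  [MeasurableSpace P] [MeasurableSpace H] [BorelSpace P] [BorelSpace H]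

/-- **ph.** The functions `ph φ l`. Proof. (1) The chosen frame `z'` has `Pos k (z' w)`, (UQ): `z⁻¹ z' ∈ A`, `scale`.
(2) definition. (3) `Pos (k b) x ↔ Pos k x`; so the same predicate, (1), (2). (4) `z` is a frame of `l` with `Pos k (z w)` iff `g z` is one
of `g l g⁻¹` with `Pos (g k) (g z w)`; `conj`. (5) `Pos (k J) (z w) ↔ Pos k (z w J)` (`PJ` with `J J = 1`) and `z w J = (z J) w`, `z J` is a frame
(`J` commutes with `A`, `App ⊆ A`); `jodd`. (6) `z w` is a frame of `l⁻¹` (`Appw`), `Pos k' (z w w)`; `inv`. (7) `Pos (z J z⁻¹ k) (z' w)` for a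
frame `z'` of `l`: `z J z⁻¹ = z' J z'⁻¹` (UQ), so it is `Pos k (z' J w) = Pos k ((z' J) w)`, and `z' J` is a frame; `jodd`; if there is no such `z'`, both
sides are `0` (`J J = 1`). (8) For a frame `z` let `O_z := {k | Pos k (z w)}`, open. The preimage of a set `B` is
`⋃ {O_z | z frame, φ l z ∈ B}`, together with the complement of all `O_z` if `0 ∈ B`. -/
def S_ph : Prop :=
  ∀ D : Dat P H, D.Ok → ∀ G : PG P, G.Ok → ∀ φ : D.Γ → P → ℝ, Adm D G φ →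
    (∀ (l : D.Γ) (z k : P), Fr G (l : P × H).1 z → G.Pos k (z * G.w) → ph G φ l k = φ l z) ∧
    (∀ (l : D.Γ) (k : P), (¬ ∃ z, Fr G (l : P × H).1 z ∧ G.Pos k (z * G.w)) → ph G φ l k = 0) ∧
    (∀ (l : D.Γ) (k : P), ∀ b ∈ G.Bor, ph G φ l (k * b) = ph G φ l k) ∧
    (∀ (g l : D.Γ) (k : P), ph G φ (g * l * g⁻¹) ((g : P × H).1 * k) = ph G φ l k) ∧
    (∀ (l : D.Γ) (k : P), ph G φ l (k * G.J) = - ph G φ l k) ∧
    (∀ (l : D.Γ) (z k k' : P), Fr G (l : P × H).1 z → G.Pos k (z * G.w) → G.Pos k' z →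
      ph G φ l⁻¹ k' = - ph G φ l k) ∧
    (∀ (l : D.Γ) (z k : P), Fr G (l : P × H).1 z →
      ph G φ l (z * G.J * z⁻¹ * k) = - ph G φ l k) ∧
    (∀ l : D.Γ, Measurable fun k => ph G φ l k)

/-- **FP** (from FR, FRc, Wr, ph). Framing of pairs and of closed loops. Proof. `x₁⁻¹ (u v⁻¹)₁ x₁ = g h⁻¹` with `g = (x⁻¹ u y)₁`, `h = (x⁻¹ v y)₁`; FR gives a
frame `z₀` of `g h⁻¹`, `z := x₁ z₀`; ph (1), (6), `v u⁻¹ = (u v⁻¹)⁻¹`. The same with FRc for closed loops. -/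
def S_FP : Prop :=
  ∀ D : Dat P H, D.Ok → ∀ G : PG P, G.Ok → G.OkF →
    (∀ S₁ K₁ S₂ K₂ : Set P, IsCompact S₁ → IsCompact K₁ → IsCompact S₂ → IsCompact K₂ →
      (∀ s ∈ S₁, ∀ s' ∈ S₂, G.Pos s s') → (∀ κ ∈ K₁, ∀ κ' ∈ K₂, G.Pos κ κ') →
      ∃ k : ℕ, ∀ (x y : P × H) (u v : D.Γ), (x⁻¹ * (u : P × H) * y).1 ∈ G.W S₁ K₁ k →
        (x⁻¹ * (v : P × H) * y).1 ∈ G.W S₂ K₂ k → ∃ z : P,
          Fr G ((u * v⁻¹ : D.Γ) : P × H).1 z ∧ (∀ s ∈ S₁, G.Pos (x.1 * s) (z * G.w)) ∧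
          (∀ s' ∈ S₂, G.Pos (x.1 * s') z) ∧ ∀ φ : D.Γ → P → ℝ, Adm D G φ →
            (∀ s ∈ S₁, ph G φ (u * v⁻¹) (x.1 * s) = φ (u * v⁻¹) z) ∧
            ∀ s' ∈ S₂, ph G φ (v * u⁻¹) (x.1 * s') = - φ (u * v⁻¹) z) ∧
    (∀ S S' : Set P, IsCompact S → IsCompact S' → (∀ s ∈ S, ∀ s' ∈ S', G.Pos s s') →
      ∃ k : ℕ, ∀ (x : P × H) (l : D.Γ), (x⁻¹ * (l : P × H) * x).1 ∈ G.W S S' k → ∃ z : P,
        Fr G (l : P × H).1 z ∧ (∀ s ∈ S, G.Pos (x.1 * s) (z * G.w)) ∧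
        ∀ φ : D.Γ → P → ℝ, Adm D G φ → ∀ s ∈ S, ph G φ l (x.1 * s) = φ l z)

/-- **BP** (from BCg, ph). Base change: `χ : x → x'`, `u : x' → z`, `v : x → z`. Proof. With `g, gu, gv` the `P`-parts of the displacements:
`x'₁⁻¹ (u v⁻¹ χ)₁ x'₁ = gu gv⁻¹ g`. BCg gives `z'`; `x'₁ z'` is a frame of `l' = u v⁻¹ χ`, and `χ₁ x'₁ z' = x₁ g z'` one of
`l = χ l' χ⁻¹`; `Pos (x₁ s) (x₁ g z' w)`; so both sides are `φ l' (x'₁ z')` (ph (1), `conj`). -/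
def S_BP : Prop :=
  ∀ D : Dat P H, D.Ok → ∀ G : PG P, G.Ok → G.OkF → ∀ S K Su Ku Sv Kv : Set P, IsCompact S →
    IsCompact K → IsCompact Su → IsCompact Ku → IsCompact Sv → IsCompact Kv →
    (∀ κ ∈ K, ∀ s ∈ Su, G.Pos κ s) → (∀ s ∈ S, ∀ s' ∈ Sv, G.Pos s s') →
    (∀ κ ∈ Ku, ∀ κ' ∈ Kv, G.Pos κ κ') →
    ∃ k : ℕ, ∀ (x x' z : P × H) (χ u v : D.Γ), (x⁻¹ * (χ : P × H) * x').1 ∈ G.W S K k →
      (x'⁻¹ * (u : P × H) * z).1 ∈ G.W Su Ku k → (x⁻¹ * (v : P × H) * z).1 ∈ G.W Sv Kv k →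
      ∀ φ : D.Γ → P → ℝ, Adm D G φ → ∀ s ∈ S, ∀ s' ∈ Su,
        ph G φ (χ * u * v⁻¹) (x.1 * s) = ph G φ (u * v⁻¹ * χ) (x'.1 * s')

/-- **MQ.** Measurability. Proof. `Γ` is countable (`S_inst`): `Measurable.ennreal_tsum`; `(x, y) ↦ x⁻¹ u y` is
continuous, hence measurable; `Measurable.lintegral_prod_right'` for the partial integrals (`D.μ` is σ-finite). -/
def S_MQ : Prop :=
  ∀ D : Dat P H, D.Ok → ∀ K₁ K₂ K₃ : P × H → ℝ≥0∞, Measurable K₁ → Measurable K₂ → Measurable K₃ →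
    (∀ f : P × H → D.Γ → ℝ≥0∞, (∀ l, Measurable fun x => f x l) →
      Measurable fun x : P × H => ∑' l : D.Γ, K₁ (x⁻¹ * (l : P × H) * x) * f x l) ∧
    (∀ f : P × H → D.Γ → D.Γ → ℝ≥0∞, (∀ u v, Measurable fun x => f x u v) →
      (Measurable fun q : (P × H) × (P × H) => D.st2 K₁ K₂ q.1 q.2 (f q.1)) ∧
      Measurable fun x : P × H => D.IM fun y => D.st2 K₁ K₂ x y (f x)) ∧
    (∀ f : P × H → D.Γ → D.Γ → D.Γ → ℝ≥0∞, (∀ u v w, Measurable fun x => f x u v w) →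
      (Measurable fun q : (P × H) × (P × H) => D.st3 K₁ K₂ K₃ q.1 q.2 (f q.1)) ∧
      Measurable fun x : P × H => D.IM fun y => D.st3 K₁ K₂ K₃ x y (f x))

/-- **UFX** (from S_inst, S_unf, S_nu, S_mg). Unfolding of pairs to closed loops. Proof. For fixed `x`: `u = l v`:
`∑_u ∑_v = ∑_l f(x, l) ∑_v F_l(v y)`, `F_l(y) = K₁(x⁻¹ l y) K₂(x⁻¹ y)` (`Equiv.tsum_eq`, `ENNReal.tsum_comm`); `lintegral_tsum` and
`S_unf`: `∫ F_l = ∫ K₁(x⁻¹ l x y) K₂(y) dy` (left invariance). Second part: `K_i = tk k_i n_i`; substitute `y = g⁻¹ h`: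
`K₂(g⁻¹ h) = (tk (k₂ ∘ inv) m)(h⁻¹ g)` (symmetry of `nu`), then `S_mg` (5). -/
def S_UFX : Prop :=
  ∀ D : Dat P H, D.Ok → ∀ f : P × H → D.Γ → ℝ≥0∞,
    (∀ K₁ K₂ : P × H → ℝ≥0∞, Measurable K₁ → Measurable K₂ →
      D.X2 K₁ K₂ (fun x u v => f x (u * v⁻¹)) =
        D.L1 (fun g => ∫⁻ y, K₁ (g * y) * K₂ y ∂D.μ) f) ∧
    (∀ (k₁ k₂ : P → ℝ≥0∞) (n m : ℕ), Measurable k₁ → Measurable k₂ → 1 ≤ n → 1 ≤ m →
      D.X2 (D.tk k₁ n) (D.tk k₂ m) (fun x u v => f x (u * v⁻¹)) =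
        D.L1 (D.tk (cvP D.μ₁ k₁ (fun g => k₂ g⁻¹)) (n + m)) f)

/-- **CJ** (from S_IM, MQ). Conjugation of closed loops. Proof. `F(x) := ∑_l Ψ(x⁻¹ l x) f(x, l)` is measurable and `Γ`-invariant (reindex
`l ↦ γ l γ⁻¹`); `IM (F (· q⁻¹)) = IM F` (`S_IM` (1)). -/
def S_CJ : Prop :=
  ∀ D : Dat P H, D.Ok → ∀ (Ψ : P × H → ℝ≥0∞) (f : P × H → D.Γ → ℝ≥0∞), Measurable Ψ →
    (∀ l, Measurable fun x => f x l) →
    (∀ (γ l : D.Γ) (x : P × H), f ((γ : P × H) * x) (γ * l * γ⁻¹) = f x l) → ∀ q : P × H,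
    D.L1 Ψ f = D.L1 (fun g => Ψ (q * g * q⁻¹)) (fun x l => f (x * q⁻¹) l)

/-- **JI** (from S_inst). Invariance under equivariant left translations of the closed loops. Proof.
`∫ χ(x) ∑_l f(J_l x, l) = ∑_l ∫ χ(J_l⁻¹ x) f(x, l)` (left invariance of `μ`) `= ∑_l ∑_γ ∫ χ(J_l⁻¹ x) χ(γ x) f(x, l)` (`χs`)
`= ∑_γ ∑_l ∫ χ(J_l⁻¹ γ⁻¹ x) χ(x) f(γ⁻¹ x, l)` (`x ↦ γ⁻¹ x`). Put `l' = γ l γ⁻¹`: `f(γ⁻¹ x, l) = f(x, l')` and
`J_l⁻¹ γ⁻¹ = γ⁻¹ J_(l')⁻¹`; so `= ∑_(l') ∫ (∑_γ χ(γ⁻¹ J_(l')⁻¹ x)) χ(x) f(x, l') = ∑_(l') ∫ χ(x) f(x, l')` (`χs`, `γ ↦ γ⁻¹`). -/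
def S_JI : Prop :=
  ∀ D : Dat P H, D.Ok → ∀ (f : P × H → D.Γ → ℝ≥0∞) (Jl : D.Γ → P × H),
    (∀ l, Measurable fun x => f x l) →
    (∀ (γ l : D.Γ) (x : P × H), f ((γ : P × H) * x) (γ * l * γ⁻¹) = f x l) →
    (∀ γ l : D.Γ, Jl (γ * l * γ⁻¹) = (γ : P × H) * Jl l * (γ : P × H)⁻¹) →
    D.IM (fun x => ∑' l : D.Γ, f x l) = D.IM (fun x => ∑' l : D.Γ, f (Jl l * x) l)

/-- **BAL** (from ph, UFX, JI, MQ). The exact balance. Proof. UFX (1): the two sides are `L1 Ψ f₊`, `L1 Ψ f₋`, `Ψ` measurable, `f_±(x, l) = ofReal (± ph l (x₁ h))`.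
`Jl l := (z J z⁻¹, 1)` for a frame `z` of `l` (independent of `z` by (UQ)), `1` if there is none; equivariant (`γ₁ z` is a frame of `γ l γ⁻¹`). JI for
`F(x, l) = Ψ(x⁻¹ l x) f₊(x, l)`: `(Jl x)⁻¹ l (Jl x) = x⁻¹ l x` as `z J z⁻¹` commutes with `l₁` (`z⁻¹ l₁ z ∈ App ⊆ A`, `JA`), and
`ph l (z J z⁻¹ x₁ h) = - ph l (x₁ h)` by ph (7); without a frame `ph l = 0`. Equivariance of `F`: ph (4). -/
def S_BAL : Prop :=
  ∀ D : Dat P H, D.Ok → ∀ G : PG P, G.Ok → ∀ φ : D.Γ → P → ℝ, Adm D G φ →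
    ∀ K₁ K₂ : P × H → ℝ≥0∞, Measurable K₁ → Measurable K₂ → ∀ h : P,
    D.X2 K₁ K₂ (fun x u v => ENNReal.ofReal (ph G φ (u * v⁻¹) (x.1 * h))) =
      D.X2 K₁ K₂ (fun x u v => ENNReal.ofReal (- ph G φ (u * v⁻¹) (x.1 * h)))

/-- **SH** (from SHP, S_Harn). Shift / Harnack for edges. Proof. SHP with `c + 1`, and `nu n h ≤ C nu (n + c + 1) (h q)`, `(q h)`. -/
def S_SH : Prop :=
  ∀ D : Dat P H, D.Ok → ∀ G : PG P, G.Ok → ∀ c : ℕ, ∃ (c' : ℕ) (C : ℝ≥0∞), C ≠ ∞ ∧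
    ∀ (Q S K : Set P) (R n : ℕ), 1 ≤ n → ∀ g s : P × H, s.1 ∈ Q → s.2 ∈ D.O ^ c →
      D.eg G S K R n g ≤ C * D.eg G S (Q⁻¹ * K) (R + c') (n + c + 1) (g * s) ∧
      D.eg G S K R n g ≤ C * D.eg G (Q * S) K (R + c') (n + c + 1) (s * g)

/-- **RVd** (from RV, S_nu). Reversal of edges. Proof: RV and the symmetry of `nu`. -/
def S_RVd : Prop :=
  ∀ D : Dat P H, D.Ok → ∀ G : PG P, G.Ok → ∀ S K S' : Set P, IsCompact S → IsCompact K →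
    S ⊆ interior S' → ∀ R : ℕ, ∃ C : ℝ≥0∞, C ≠ ∞ ∧ ∀ n g,
      D.eg G S K R n g⁻¹ ≤ C * D.eg G K S' R n g

/-- **MUd** (from MU, AD, S_mg). Elimination of a vertex, upper bound. Proof: `S_mg` (4): the left side is
`∑_u (K * K')(x⁻¹ u y) F(u)`, `S_mg` (5): `K * K' = tk (cvP (eP ..) (eP ..)) (n + m)`; MU. Measurability of `eP` for compact windows: AD. -/
def S_MUd : Prop :=
  ∀ D : Dat P H, D.Ok → ∀ G : PG P, G.Ok → G.OkF → ∀ S₁ K₁ S₂ K₂ S₁' K₂' : Set P,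
    IsCompact S₁ → IsCompact K₁ → IsCompact S₂ → IsCompact K₂ → S₁ ⊆ interior S₁' →
    K₂ ⊆ interior K₂' → (∀ κ ∈ K₁, ∀ s ∈ S₂, G.Pos κ s) →
    ∃ c : ℕ, ∀ R R' : ℕ, ∃ (C : ℝ≥0∞) (T : ℕ), C ≠ ∞ ∧ ∀ n m, T ≤ n → T ≤ m →
      ∀ (x y : P × H) (F : D.Γ → ℝ≥0∞),
      D.IM (fun z => ∑' e : D.Γ, ∑' e' : D.Γ, D.eg G S₁ K₁ R n (x⁻¹ * (e : P × H) * z) *
        D.eg G S₂ K₂ R' m (z⁻¹ * (e' : P × H) * y) * F (e * e')) ≤
      C * ∑' u : D.Γ, D.eg G S₁' K₂' (R + R' + c) (n + m) (x⁻¹ * (u : P × H) * y) * F u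

/-- **MLd** (from ML, AD, S_mg). Insertion of a vertex, lower bound. Proof as MUd. (If `S'`, `K'`, `U` are not compact replace them by smaller
compact sets and use monotonicity.) -/
def S_MLd : Prop :=
  ∀ D : Dat P H, D.Ok → ∀ G : PG P, G.Ok → ∀ S K S' K' : Set P, IsCompact S → IsCompact K →
    S ⊆ interior S' → K ⊆ interior K' → ∀ U ∈ 𝓝 (1 : P), ∀ R R' : ℕ,
    ∃ (C : ℝ≥0∞) (T : ℕ), C ≠ ∞ ∧ ∀ n m, 1 ≤ n → 1 ≤ m → T ≤ m →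
      ∀ (x y : P × H) (F : D.Γ → ℝ≥0∞),
      ∑' u : D.Γ, D.eg G S K (R + R') (n + m) (x⁻¹ * (u : P × H) * y) * F u ≤
      C * D.IM (fun z => ∑' e : D.Γ, ∑' e' : D.Γ, D.eg G S' (G.uw U) R n (x⁻¹ * (e : P × H) * z) *
        D.eg G U K' R' m (z⁻¹ * (e' : P × H) * y) * F (e * e'))

/-- **UpG** (from AD, DF, S_Up). Upper bound for the number of edges. Proof. `n = 0`: `S_Up` (`eP S K R 0` is measurable, bounded, of compact support by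
AD; `D.nu 0 = D.nu 1`, so it is an instance of `S_Up` for `n = 0`). `n ≥ 1`: `sep` gives `k₁ ∈ NK` with `k₁ = 1` on the compact set `S D1^R` and `k₂ ∈ NK` with
`k₂ = 1` on `ew K` (compact), `O = univ`: `eg ≤ ed k₁ k₂ n`, so `N ≤ (∫ k₁)(∫ k₂) + C` (`bdd`, `supp`: finite integrals). -/
def S_UpG : Prop :=
  ∀ D : Dat P H, D.Ok → ∀ G : PG P, G.Ok → ∀ NK : Set (P → ℝ≥0∞), NiceOk NK → Equi D G NK →
    ∀ S K : Set P, IsCompact S → IsCompact K → ∀ R : ℕ, ∃ C : ℝ≥0∞, C ≠ ∞ ∧ ∀ n x y,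
      D.N (D.eg G S K R n) x y ≤ C

/-- **LoG** (from AD). Lower bound for the number of edges. Proof. Let `Q₁ ⊆ interior S`, `Q₂ ⊆ ew (interior K)` be compact with
positive measure (compact neighbourhoods of a point; `ew (interior K)` is open), `k_i ∈ NK` with `k_i = 1` on `Q_i`, `k₁ = 0` off `interior S`, `k₂ = 0` off
`ew (interior K)`, `k_i ≤ C_i`. Then `ed k₁ k₂ n ≤ C₁ C₂ eg S K 0 n` (`D1^0 = {1}`), and `N (ed k₁ k₂ n) + C n⁻⁶ ≥ I := (∫ k₁)(∫ k₂) > 0`, `I < ∞`, so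
`N (ed k₁ k₂ n) ≥ I / 2` for `n ≥ T`. -/
def S_LoG : Prop :=
  ∀ D : Dat P H, D.Ok → ∀ G : PG P, G.Ok → ∀ NK : Set (P → ℝ≥0∞), NiceOk NK → Equi D G NK →
    ∀ S K : Set P, (interior S).Nonempty → (interior K).Nonempty → ∃ (c : ℝ≥0∞) (T : ℕ),
      c ≠ 0 ∧ ∀ n, T ≤ n → ∀ x y, c ≤ D.N (D.eg G S K 0 n) x y

/-- **Fin** (from FP, AD, DF, ph, UpG, S_IM, S_inst). Finiteness. Proof. `Z := S₁ D1^R {a^n} ew K₁`, `Z' := S₂ D1^R {a^m} ew K₂`: compact, the supports of the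
`P`-parts of the two kernels; the `H`-parts have compact support (`S_nu`). For `x` in a compact set `X₀` containing the support of `χ` and `u v⁻¹ = l`:
`x⁻¹ l x ∈ Z Z'⁻¹ × (compact)`, so only finitely many `l` occur. Fix `l`. The set `Y` of the `x ∈ X₀` such that `x⁻¹ l x = g h⁻¹` with
`g.1 ∈ Z`, `h.1 ∈ Z'`, (second components in the compact supports) is compact; for `x ∈ Y` there is a frame `z` with `Pos (x₁ s) (z w)` (FR for `g`, `h`; `n, m ≥ T`: `Z ⊆ W S₁ K₁ k`, AD / DF), so `Y` is covered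
by the open sets `{x | Pos (x₁ c) (z w)}`, `z` a frame of `l`, on which `ph l (x₁ c) = φ l z`; finitely many suffice: `|ph l (x₁ c)| ≤ B` on `Y`. So
`PX ≤ B X2(1) ≤ B C² ∫ χ < ∞` (UpG). -/
def S_Fin : Prop :=
  ∀ D : Dat P H, D.Ok → ∀ G : PG P, G.Ok → G.OkF → ∀ NK : Set (P → ℝ≥0∞), NiceOk NK →
    Equi D G NK → ∀ S₁ K₁ S₂ K₂ : Set P, IsCompact S₁ → IsCompact K₁ → IsCompact S₂ →
    IsCompact K₂ → (∀ s ∈ S₁, ∀ s' ∈ S₂, G.Pos s s') → (∀ κ ∈ K₁, ∀ κ' ∈ K₂, G.Pos κ κ') →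
    ∀ R : ℕ, ∃ T : ℕ, ∀ n m, T ≤ n → T ≤ m → ∀ φ : D.Γ → P → ℝ, Adm D G φ → ∀ c ∈ S₁,
      D.PX G c (D.eg G S₁ K₁ R n) (D.eg G S₂ K₂ R m) φ ≠ ∞

end Pool.Agent.MPEF.U
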