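import Pool.Agent.Lib.MP_ef3f0f_gt.U.F.SpecB

set_option autoImplicit false
set_option linter.unusedSectionVars false

/-!
# MP_ef3f0f_gt, Theorem U, Part F: monotonicity, additivity, translation, support of `eP`
-/

namespace Pool.Agent.MPEF.U

open MeasureTheory Topology
open scoped ENNReal Pointwise

variable (P : Type) [Group P] [TopologicalSpace P] [IsTopologicalGroup P] [LocallyCompactSpace P]
  [T2Space P] [SecondCountableTopology P] [MeasurableSpace P] [BorelSpace P]

private theorem AD_iK_mono {Q : Type} {S S' : Set Q} (h : S ⊆ S') (q : Q) : iK S q ≤ iK S' q :=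
  Set.indicator_le_indicator_of_subset h (fun _ => zero_le) q

private theorem AD_iK_le {Q : Type} (S : Set Q) (q : Q) : iK S q ≤ 1 :=
  Set.indicator_le_self' (fun _ _ => zero_le) q

private theorem AD_iK_sum {Q : Type} {S' : Set Q} {F : Finset ℕ} {S : ℕ → Set Q}
    (h : S' ⊆ ⋃ i ∈ F, S i) (q : Q) : iK S' q ≤ ∑ i ∈ F, iK (S i) q := by
  by_cases hq : q ∈ S'
  · obtain ⟨i, hi⟩ := Set.mem_iUnion.mp (h hq)
    obtain ⟨hiF, hi⟩ := Set.mem_iUnion.mp hi
    calc iK S' q ≤ 1 := AD_iK_le _ _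
      _ = iK (S i) q := (Set.indicator_of_mem hi (fun _ => (1 : ℝ≥0∞))).symm
      _ ≤ _ := Finset.single_le_sum (f := fun i => iK (S i) q) (fun _ _ => zero_le) hiF
  · have : iK S' q = 0 := Set.indicator_of_notMem hq _
    rw [this]
    exact zero_le

private theorem AD_iK_ne {Q : Type} {S : Set Q} {q : Q} (h : iK S q ≠ 0) : q ∈ S := by
  by_contra hq
  exact h (Set.indicator_of_notMem hq _)

private theorem AD_iK_congr {Q Q' : Type} {S : Set Q} {S' : Set Q'} {q : Q} {q' : Q'}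
    (h : q ∈ S ↔ q' ∈ S') : iK S q = iK S' q' := by
  by_cases hq : q ∈ S
  · have h1 : iK S q = 1 := Set.indicator_of_mem hq _
    have h2 : iK S' q' = 1 := Set.indicator_of_mem (h.mp hq) _
    rw [h1, h2]
  · have h1 : iK S q = 0 := Set.indicator_of_notMem hq _
    have h2 : iK S' q' = 0 := Set.indicator_of_notMem (fun h' => hq (h.mpr h')) _
    rw [h1, h2]

theorem tAD : S_DF P → S_KT P → S_AD P := by
  intro hDF hKT G μ _ _ _ hG
  obtain ⟨dc, dA, -, -, dm, -, -, -, -, -, dT⟩ := hDF G hG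
  have mS : ∀ (S : Set P), IsCompact S → ∀ R : ℕ, Measurable (iK (S * G.D1 ^ R)) := fun S hS R =>
    measurable_one.indicator (hS.mul (dc R)).isClosed.measurableSet
  have mK : ∀ (K : Set P), IsCompact K → Measurable (iK (G.ew K)) := by
    intro K hK
    refine measurable_one.indicator (IsClosed.measurableSet ?_)
    exact hK.isClosed.preimage (continuous_inv.mul continuous_const)
  have mP : ∀ (S K : Set P), IsCompact S → IsCompact K → ∀ (R n : ℕ) (g : P),
      Measurable fun q => iK (S * G.D1 ^ R) q * iK (G.ew K) ((G.a ^ n)⁻¹ * q⁻¹ * g) := by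
    intro S K hS hK R n g
    exact (mS S hS R).mul ((mK K hK).comp ((measurable_const.mul measurable_inv).mul measurable_const))
  refine ⟨?_, ?_, ?_, ?_, ?_, ?_⟩
  · intro S S' K K' R R' n hS hK hR g
    refine lintegral_mono fun q => mul_le_mul' (AD_iK_mono ?_ _) (AD_iK_mono ?_ _)
    · exact Set.mul_subset_mul hS (dm R R' hR)
    · exact fun x hx => hK hx
  · intro F S K S' K' R n hS hK hS' hK' g
    have h1 : S' * G.D1 ^ R ⊆ ⋃ i ∈ F, S i * G.D1 ^ R := by
      rintro x ⟨s, hs, d, hd, rfl⟩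
      obtain ⟨i, hi⟩ := Set.mem_iUnion.mp (hS' hs)
      obtain ⟨hiF, hi⟩ := Set.mem_iUnion.mp hi
      exact Set.mem_biUnion hiF (Set.mul_mem_mul hi hd)
    have h2 : G.ew K' ⊆ ⋃ i ∈ F, G.ew (K i) := by
      intro x hx
      obtain ⟨i, hi⟩ := Set.mem_iUnion.mp (hK' hx)
      obtain ⟨hiF, hi⟩ := Set.mem_iUnion.mp hi
      exact Set.mem_biUnion hiF hi
    calc eP μ G S' K' R n g
        ≤ ∫⁻ q, ∑ i ∈ F, ∑ j ∈ F,
            iK (S i * G.D1 ^ R) q * iK (G.ew (K j)) ((G.a ^ n)⁻¹ * q⁻¹ * g) ∂μ := by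
          refine lintegral_mono fun q => ?_
          rw [← Finset.sum_mul_sum]
          exact mul_le_mul' (AD_iK_sum h1 _) (AD_iK_sum h2 _)
      _ = ∑ i ∈ F, ∑ j ∈ F, eP μ G (S i) (K j) R n g := by
          rw [lintegral_finsetSum]
          · refine Finset.sum_congr rfl fun i _ => ?_
            rw [lintegral_finsetSum]
            · rfl
            · exact fun j _ => mP _ _ (hS i) (hK j) R n g
          · exact fun i _ => Finset.measurable_sum _ fun j _ => mP _ _ (hS i) (hK j) R n g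
  · intro S K R n x g
    have h := (hKT μ G.a (iK (S * G.D1 ^ R)) (iK (G.ew K))).2.1 x (g * x⁻¹) n
    unfold eP
    rw [mul_assoc, h]
    refine lintegral_congr fun q => ?_
    congr 1
    · apply AD_iK_congr
      constructor
      · rintro ⟨s, hs, d, hd, hsd⟩
        refine ⟨x⁻¹ * s, Set.mul_mem_mul rfl hs, d, hd, ?_⟩
        have hsd' : s * d = x * q := hsd
        change x⁻¹ * s * d = q
        rw [mul_assoc, hsd', inv_mul_cancel_left]
      · rintro ⟨y, ⟨y1, hy1, s, hs, rfl⟩, d, hd, hsd⟩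
        refine ⟨s, hs, d, hd, ?_⟩
        have hy : y1 = x⁻¹ := hy1
        have hsd' : y1 * s * d = q := hsd
        change s * d = x * q
        rw [← hsd', hy, mul_assoc, mul_inv_cancel_left]
    · apply AD_iK_congr
      change ((G.a ^ n)⁻¹ * q⁻¹ * (g * x⁻¹))⁻¹ * G.w ∈ K ↔
        ((G.a ^ n)⁻¹ * q⁻¹ * g)⁻¹ * G.w ∈ ({x⁻¹} : Set P) * K
      have e : ((G.a ^ n)⁻¹ * q⁻¹ * (g * x⁻¹))⁻¹ * G.w =
          x * (((G.a ^ n)⁻¹ * q⁻¹ * g)⁻¹ * G.w) := by group
      rw [e]
      constructor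
      · intro hk
        exact ⟨x⁻¹, rfl, _, hk, inv_mul_cancel_left _ _⟩
      · rintro ⟨y1, hy1, k, hk, hkk⟩
        have hy : y1 = x⁻¹ := hy1
        have hkk' : y1 * k = ((G.a ^ n)⁻¹ * q⁻¹ * g)⁻¹ * G.w := hkk
        rw [← hkk', hy, mul_inv_cancel_left]
        exact hk
  · intro R k
    obtain ⟨T, hT⟩ := dT R k
    refine ⟨T, fun n hn S K g hne => ?_⟩
    have hex : ∃ q, iK (S * G.D1 ^ R) q * iK (G.ew K) ((G.a ^ n)⁻¹ * q⁻¹ * g) ≠ 0 := by
      by_contra hcon
      push Not at hcon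
      apply hne
      unfold eP kk
      simp only [hcon, lintegral_zero]
    obtain ⟨q, hq⟩ := hex
    obtain ⟨s, hs, d, hd, hsd⟩ := AD_iK_ne (left_ne_zero_of_mul hq)
    have h2 := AD_iK_ne (right_ne_zero_of_mul hq)
    refine ⟨s, hs, d * G.a ^ n, hT n hn d hd, _, h2, ?_⟩
    have hsd' : s * d = q := hsd
    rw [← hsd']
    group
  · intro S K hS hK R n
    have h : Measurable fun z : P × P =>
        iK (S * G.D1 ^ R) z.2 * iK (G.ew K) ((G.a ^ n)⁻¹ * z.2⁻¹ * z.1) :=
      ((mS S hS R).comp measurable_snd).mul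
        ((mK K hK).comp ((measurable_const.mul measurable_snd.inv).mul measurable_fst))
    exact h.lintegral_prod_right'
  · intro S K hS hK R
    have hc : IsCompact (S * G.D1 ^ R) := hS.mul (dc R)
    refine ⟨μ (S * G.D1 ^ R), hc.measure_lt_top.ne, fun n g => ?_⟩
    calc eP μ G S K R n g ≤ ∫⁻ q, iK (S * G.D1 ^ R) q ∂μ := by
          refine lintegral_mono fun q => ?_
          exact mul_le_of_le_one_right' (AD_iK_le _ _)
      _ = μ (S * G.D1 ^ R) := by
          unfold iK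
          rw [lintegral_indicator_const hc.isClosed.measurableSet, one_mul]

end Pool.Agent.MPEF.U
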