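import Pool.Agent.Lib.MP_ef3f0f_gt.U.F.SpecB2

set_option autoImplicit false
set_option linter.unusedSectionVars false

/-!
# MP_ef3f0f_gt, Theorem U, Part F: additivity of the kernels for a cover of the windows
-/

namespace Pool.Agent.MPEF.U

open MeasureTheory Topology
open scoped ENNReal Pointwise

variable (P : Type) [Group P] [TopologicalSpace P] [IsTopologicalGroup P] [LocallyCompactSpace P]
  [T2Space P] [SecondCountableTopology P] [MeasurableSpace P] [BorelSpace P]

private theorem AD2_iK_mem {Q : Type} {S : Set Q} {q : Q} (h : q ∈ S) : iK S q = 1 :=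
  Set.indicator_of_mem h _

private theorem AD2_iK_not {Q : Type} {S : Set Q} {q : Q} (h : q ∉ S) : iK S q = 0 :=
  Set.indicator_of_notMem h _

theorem tAD2 : S_AD2 P := by
  classical
  intro G μ _ _ _ hG F S K S' K' R n hS hK hcov g
  have hD : ∀ m : ℕ, IsCompact (G.D1 ^ m) := by
    intro m
    induction m with
    | zero =>
      rw [pow_zero]
      exact isCompact_singleton
    | succ m ih =>
      rw [pow_succ]
      exact ih.mul hG.D1c
  have hm1 : ∀ i, MeasurableSet (S i * G.D1 ^ R) := fun i => ((hS i).mul (hD R)).isClosed.measurableSet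
  have hm2 : ∀ i, MeasurableSet (G.ew (K i)) := by
    intro i
    have hc : Continuous fun q : P => q⁻¹ * G.w := continuous_inv.mul continuous_const
    exact ((hK i).isClosed.preimage hc).measurableSet
  have hc2 : Continuous fun q : P => (G.a ^ n)⁻¹ * q⁻¹ * g :=
    (continuous_const.mul continuous_inv).mul continuous_const
  have hmeas : ∀ i, Measurable fun q : P =>
      iK (S i * G.D1 ^ R) q * iK (G.ew (K i)) ((G.a ^ n)⁻¹ * q⁻¹ * g) := by
    intro i
    have h1 : Measurable (iK (S i * G.D1 ^ R)) := measurable_const.indicator (hm1 i)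
    have h2 : Measurable (iK (G.ew (K i))) := measurable_const.indicator (hm2 i)
    exact h1.mul (h2.comp hc2.measurable)
  show ∫⁻ q, iK (S' * G.D1 ^ R) q * iK (G.ew K') ((G.a ^ n)⁻¹ * q⁻¹ * g) ∂μ ≤
    ∑ i ∈ F, ∫⁻ q, iK (S i * G.D1 ^ R) q * iK (G.ew (K i)) ((G.a ^ n)⁻¹ * q⁻¹ * g) ∂μ
  rw [← lintegral_finsetSum F (fun i _ => hmeas i)]
  refine lintegral_mono fun q => ?_
  by_cases h1 : q ∈ S' * G.D1 ^ R
  · by_cases h2 : (G.a ^ n)⁻¹ * q⁻¹ * g ∈ G.ew K'
    · obtain ⟨s, hs, d, hd, rfl⟩ := Set.mem_mul.1 h1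
      obtain ⟨i, hi, hsi, hki⟩ := hcov s hs _ h2
      have h3 : s * d ∈ S i * G.D1 ^ R := Set.mul_mem_mul hsi hd
      have h4 : (G.a ^ n)⁻¹ * (s * d)⁻¹ * g ∈ G.ew (K i) := hki
      rw [AD2_iK_mem h1, AD2_iK_mem h2, one_mul]
      have h5 : (1 : ℝ≥0∞) = iK (S i * G.D1 ^ R) (s * d) *
          iK (G.ew (K i)) ((G.a ^ n)⁻¹ * (s * d)⁻¹ * g) := by
        rw [AD2_iK_mem h3, AD2_iK_mem h4, one_mul]
      rw [h5]
      exact Finset.single_le_sum (f := fun i => iK (S i * G.D1 ^ R) (s * d) *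
        iK (G.ew (K i)) ((G.a ^ n)⁻¹ * (s * d)⁻¹ * g)) (fun _ _ => zero_le) hi
    · rw [AD2_iK_not h2, mul_zero]
      exact zero_le
  · rw [AD2_iK_not h1, zero_mul]
    exact zero_le

end Pool.Agent.MPEF.U
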