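import Pool.Agent.Lib.MP_ef3f0f_gt.U.F.SpecA

set_option autoImplicit false

/-!
# MP_ef3f0f_gt, Theorem U, Part F, module BCg: base change
-/

namespace Pool.Agent.MPEF.U

open MeasureTheory Topology
open scoped ENNReal Pointwise

variable (P : Type) [Group P] [TopologicalSpace P] [IsTopologicalGroup P] [LocallyCompactSpace P]
  [T2Space P]

theorem tBCg : S_DF P → S_Wr P → S_MG P → S_CTc P → S_FR P → S_NB P → S_BCg P := by
  intro _hDF hWr hMG hCT hFR hNB G hG hF S K Su Ku Sv Kv hS hK hSu hKu hSv hKv hKSu hSSv hKK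
  obtain ⟨hNB1, _⟩ := hNB G hG
  obtain ⟨hW1, hW2, _, _⟩ := hWr G hG
  obtain ⟨Sp, Svp, hSp, hSvp, hSSp, hSvSvp, hPSp⟩ := hNB1 S Sv hS hSv hSSv
  obtain ⟨Kup, Kvp, hKup, hKvp, hKuKup, hKvKvp, hPKp⟩ := hNB1 Ku Kv hKu hKv hKK
  obtain ⟨Kp, Sup, hKp, hSup, hKKp, hSuSup, hPKSp⟩ := hNB1 K Su hK hSu hKSu
  obtain ⟨k₁, hk₁⟩ := hFR G hG hF Sp Kup Svp Kvp hSp hKup hSvp hKvp hPSp hPKp
  obtain ⟨m₁, hm₁⟩ := hMG G hG hF S K Su Ku Sp Kup hS hK hSu hKu hSSp hKuKup hKSu k₁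
  obtain ⟨k₂, hk₂⟩ := hFR G hG hF Sup Kup Kp Kvp hSup hKup hKp hKvp
    (fun s hs κ hκ => (hG.Ps s κ).2 (hPKSp κ hκ s hs)) hPKp
  obtain ⟨m₂, hm₂⟩ := hMG G hG hF K S Sv Kv Kp Kvp hK hS hSv hKv hKKp hKvKvp hSSv k₂
  -- the compact set of the middle terms
  have hcont : Continuous fun x : P × P => G.w * x.1⁻¹ * x.2 := by fun_prop
  have hQc : IsCompact ((fun x : P × P => G.w * x.1⁻¹ * x.2) '' (K ×ˢ Su)) :=
    (hK.prod hSu).image hcont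
  have hQp : ∀ q ∈ (fun x : P × P => G.w * x.1⁻¹ * x.2) '' (K ×ˢ Su), G.Pos G.w q := by
    rintro q ⟨⟨κ, s⟩, ⟨hκ, hs⟩, rfl⟩
    have h1 := (hG.Pl (G.w * κ⁻¹) κ s).2 (hKSu κ hκ s hs)
    rw [inv_mul_cancel_right] at h1
    exact h1
  obtain ⟨V, hV, hVS⟩ := compact_open_separated_mul_right hS isOpen_interior hSSp
  obtain ⟨k₃, hk₃⟩ := hCT G hG _ hQc hQp V hV
  refine ⟨k₁ + k₂ + k₃ + m₁ + m₂, ?_⟩
  intro g hg gu hgu gv hgv
  -- (1) the frame `z₁` of `g gu gv⁻¹`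
  have hggu : g * gu ∈ G.W Sp Kup k₁ :=
    hm₁ g (hW2 S K S K m₁ _ subset_rfl subset_rfl (by omega) hg) gu
      (hW2 Su Ku Su Ku m₁ _ subset_rfl subset_rfl (by omega) hgu)
  have hgv1 : gv ∈ G.W Svp Kvp k₁ :=
    hW2 Sv Kv Svp Kvp k₁ _ (hSvSvp.trans interior_subset) (hKvKvp.trans interior_subset)
      (by omega) hgv
  obtain ⟨z₁, hz₁, hz₁S, _⟩ := hk₁ (g * gu) hggu gv hgv1
  -- (2) the frame `z'` of `gu gv⁻¹ g`
  have hgi : g⁻¹ * gv ∈ G.W Kp Kvp k₂ := by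
    refine hm₂ g⁻¹ ?_ gv (hW2 Sv Kv Sv Kv m₂ _ subset_rfl subset_rfl (by omega) hgv)
    exact hW2 K S K S m₂ _ subset_rfl subset_rfl (by omega) (hW1 S K _ g hg)
  have hgu2 : gu ∈ G.W Sup Kup k₂ :=
    hW2 Su Ku Sup Kup k₂ _ (hSuSup.trans interior_subset) (hKuKup.trans interior_subset)
      (by omega) hgu
  obtain ⟨z', hz', hz'S, _⟩ := hk₂ gu hgu2 (g⁻¹ * gv) hgi
  have hl : gu * (g⁻¹ * gv)⁻¹ = gu * gv⁻¹ * g := by
    rw [mul_inv_rev, inv_inv, mul_assoc]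
  rw [hl] at hz'
  refine ⟨z', hz', fun s' hs' => hz'S s' (interior_subset (hSuSup hs')), ?_⟩
  -- (3)
  have hgz : Fr G (g * gu * gv⁻¹) (g * z') := by
    have e : (g * z')⁻¹ * (g * gu * gv⁻¹) * (g * z') = z'⁻¹ * (gu * gv⁻¹ * g) * z' := by group
    unfold Fr
    rw [e]
    exact hz'
  obtain ⟨s', hs', _, _, _, _, _⟩ := hgu
  have hk1 : G.Pos (g * s') (g * z' * G.w) := by
    rw [mul_assoc g z' G.w]
    exact (hG.Pl g s' (z' * G.w)).2 (hz'S s' (interior_subset (hSuSup hs')))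
  have hk2 : G.Pos (g * s') (z₁ * G.w) := by
    obtain ⟨s, hs, t, ht, q, hq, hgq⟩ := hW2 S K S K k₃ _ subset_rfl subset_rfl (by omega) hg
    have hqs : q * s' ∈ (fun x : P × P => G.w * x.1⁻¹ * x.2) '' (K ×ˢ Su) := by
      refine ⟨(q⁻¹ * G.w, s'), ⟨hq, hs'⟩, ?_⟩
      simp only [mul_inv_rev, inv_inv, mul_inv_cancel_left]
    obtain ⟨e, he, b, hb, heb⟩ := hk₃ t ht (q * s') hqs
    have e1 : g * s' = s * e * b := by
      rw [hgq]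
      calc s * t * q * s' = s * (t * (q * s')) := by simp only [mul_assoc]
        _ = s * (e * b) := by rw [heb]
        _ = s * e * b := by rw [mul_assoc]
    rw [e1, hG.Pr _ _ b hb]
    exact hz₁S (s * e) (interior_subset (hVS (Set.mul_mem_mul hs he)))
  have hA : z₁⁻¹ * (g * z') ∈ G.A := (hG.UQ _ z₁ (g * z') hz₁ hgz).2 (g * s') hk2 hk1
  intro s hs
  have e2 : g * z' * G.w = z₁ * G.w * (G.w * (z₁⁻¹ * (g * z')) * G.w) := by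
    have h3 : z₁ * G.w * (G.w * (z₁⁻¹ * (g * z')) * G.w) =
        z₁ * (G.w * G.w) * (z₁⁻¹ * (g * z') * G.w) := by simp only [mul_assoc]
    rw [h3, hG.ww, mul_one, mul_assoc z₁⁻¹, mul_inv_cancel_left]
  rw [e2, hG.Ps, hG.Pr _ _ _ (hG.AB (hG.wA _ hA)), ← hG.Ps]
  exact hz₁S s (interior_subset (hSSp hs))

end Pool.Agent.MPEF.U
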