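import Pool.Agent.Lib.MP_ef3f0f_gt.U.F.SpecC

set_option autoImplicit false

/-!
# MP_ef3f0f_gt, Theorem U, Part F, module BP: base change
-/

namespace Pool.Agent.MPEF.U

open MeasureTheory Topology
open scoped ENNReal Pointwise

variable (P H : Type) [Group P] [Group H] [TopologicalSpace P] [TopologicalSpace H]
  [IsTopologicalGroup P] [IsTopologicalGroup H] [LocallyCompactSpace P] [LocallyCompactSpace H]
  [T2Space P] [T2Space H] [SecondCountableTopology P] [SecondCountableTopology H]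
  [MeasurableSpace P] [MeasurableSpace H] [BorelSpace P] [BorelSpace H]

theorem tBP : S_BCg P → S_ph P H → S_BP P H := by
  intro hB hph D hD G hG hF S K Su Ku Sv Kv hS hK hSu hKu hSv hKv h1 h2 h3
  obtain ⟨k, hk⟩ := hB G hG hF S K Su Ku Sv Kv hS hK hSu hKu hSv hKv h1 h2 h3
  refine ⟨k, ?_⟩
  intro x x' z χ u v hχ hu hv φ hφ s hs s' hs'
  obtain ⟨z', hz1, hz2, hz3⟩ := hk _ hχ _ hu _ hv
  have hp := hph D hD G hG φ hφ
  -- the loop at `x'`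
  have e1 : (x'⁻¹ * (u : P × H) * z).1 * ((x⁻¹ * (v : P × H) * z).1)⁻¹ *
      (x⁻¹ * (χ : P × H) * x').1 = x'.1⁻¹ * ((u * v⁻¹ * χ : D.Γ) : P × H).1 * x'.1 := by
    simp only [Subgroup.coe_mul, Subgroup.coe_inv, Prod.fst_mul, Prod.fst_inv]
    group
  have e2 : ((χ * u * v⁻¹ : D.Γ)) = χ * (u * v⁻¹ * χ) * χ⁻¹ := by group
  have f1 : Fr G ((u * v⁻¹ * χ : D.Γ) : P × H).1 (x'.1 * z') := by
    unfold Fr at hz1 ⊢
    rw [e1] at hz1
    have e : (x'.1 * z')⁻¹ * ((u * v⁻¹ * χ : D.Γ) : P × H).1 * (x'.1 * z') =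
        z'⁻¹ * (x'.1⁻¹ * ((u * v⁻¹ * χ : D.Γ) : P × H).1 * x'.1) * z' := by group
    rw [e]
    exact hz1
  have p1 : G.Pos (x'.1 * s') (x'.1 * z' * G.w) := by
    rw [mul_assoc]
    exact (hG.Pl _ _ _).2 (hz2 s' hs')
  have q1 := hp.1 (u * v⁻¹ * χ) (x'.1 * z') (x'.1 * s') f1 p1
  have f2 : Fr G ((χ * u * v⁻¹ : D.Γ) : P × H).1 ((χ : P × H).1 * (x'.1 * z')) := by
    have e : ((χ : P × H).1 * (x'.1 * z'))⁻¹ * ((χ * u * v⁻¹ : D.Γ) : P × H).1 *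
        ((χ : P × H).1 * (x'.1 * z')) =
        (x'.1 * z')⁻¹ * ((u * v⁻¹ * χ : D.Γ) : P × H).1 * (x'.1 * z') := by
      simp only [Subgroup.coe_mul, Subgroup.coe_inv, Prod.fst_mul, Prod.fst_inv]
      group
    unfold Fr at f1 ⊢
    rw [e]
    exact f1
  have p2 : G.Pos (x.1 * s) ((χ : P × H).1 * (x'.1 * z') * G.w) := by
    have e : (χ : P × H).1 * (x'.1 * z') * G.w =
        x.1 * ((x⁻¹ * (χ : P × H) * x').1 * z' * G.w) := by
      simp only [Prod.fst_mul, Prod.fst_inv]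
      group
    rw [e]
    exact (hG.Pl _ _ _).2 (hz3 s hs)
  have q2 := hp.1 (χ * u * v⁻¹) ((χ : P × H).1 * (x'.1 * z')) (x.1 * s) f2 p2
  rw [q1, q2, e2]
  exact hφ.conj χ (u * v⁻¹ * χ) (x'.1 * z')

end Pool.Agent.MPEF.U
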