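import Pool.Agent.Lib.MP_ef3f0f_gt.U.F.SpecC

set_option autoImplicit false
set_option linter.unusedSectionVars false

/-! MP_ef3f0f_gt, Theorem U, Part F, module CJ: conjugation of closed loops. -/

namespace Pool.Agent.MPEF.U

open MeasureTheory Topology
open scoped ENNReal Pointwise

variable (P H : Type) [Group P] [Group H] [TopologicalSpace P] [TopologicalSpace H]
  [IsTopologicalGroup P] [IsTopologicalGroup H] [LocallyCompactSpace P] [LocallyCompactSpace H]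
  [T2Space P] [T2Space H] [SecondCountableTopology P] [SecondCountableTopology H]
  [MeasurableSpace P] [MeasurableSpace H] [BorelSpace P] [BorelSpace H]

theorem tCJ : S_IM P H → S_MQ P H → S_CJ P H := by
  intro hIM hMQ D hD Ψ f hΨ hf hinv q
  obtain ⟨h1, -, -, -⟩ := hIM D hD
  have hm : Measurable fun x : P × H => ∑' l : D.Γ, Ψ (x⁻¹ * (l : P × H) * x) * f x l :=
    (hMQ D hD Ψ Ψ Ψ hΨ hΨ hΨ).1 f hf
  have hi : ∀ γ ∈ D.Γ, ∀ x : P × H,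
      ∑' l : D.Γ, Ψ ((γ * x)⁻¹ * (l : P × H) * (γ * x)) * f (γ * x) l =
        ∑' l : D.Γ, Ψ (x⁻¹ * (l : P × H) * x) * f x l := by
    intro γ hγ x
    rw [← (MulAut.conj (⟨γ, hγ⟩ : D.Γ)).toEquiv.tsum_eq]
    refine tsum_congr fun l => ?_
    have e1 : (MulAut.conj (⟨γ, hγ⟩ : D.Γ)).toEquiv l = ⟨γ, hγ⟩ * l * (⟨γ, hγ⟩ : D.Γ)⁻¹ := rfl
    have e2 : ((⟨γ, hγ⟩ * l * (⟨γ, hγ⟩ : D.Γ)⁻¹ : D.Γ) : P × H) = γ * (l : P × H) * γ⁻¹ := rfl
    have e3 := hinv ⟨γ, hγ⟩ l x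
    have e4 : (γ * x)⁻¹ * (γ * (l : P × H) * γ⁻¹) * (γ * x) = x⁻¹ * (l : P × H) * x := by
      group
    rw [e1, e2, e3, e4]
  have h2 := h1 _ hm hi q⁻¹
  unfold Dat.L1
  rw [← h2]
  unfold Dat.IM
  refine lintegral_congr fun x => ?_
  congr 1
  refine tsum_congr fun l => ?_
  have e5 : (x * q⁻¹)⁻¹ * (l : P × H) * (x * q⁻¹) = q * (x⁻¹ * (l : P × H) * x) * q⁻¹ := by
    group
  rw [e5]

end Pool.Agent.MPEF.U
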