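import Pool.Agent.Lib.MP_ef3f0f_gt.U.F.SpecD

set_option autoImplicit false

/-!
# MP_ef3f0f_gt, Theorem U, Part F, module CL1: from pairs to straight closed loops
-/

namespace Pool.Agent.MPEF.U

open MeasureTheory Topology
open scoped ENNReal Pointwise

private theorem CL1_L1 {P H : Type} [Group P] [Group H] [MeasurableSpace P] [MeasurableSpace H]
    (D : Dat P H) {K K' : P × H → ℝ≥0∞} {C : ℝ≥0∞} (hC : C ≠ ∞) (h : ∀ g, K g ≤ C * K' g)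
    (f : P × H → D.Γ → ℝ≥0∞) : D.L1 K f ≤ C * D.L1 K' f := by
  unfold Dat.L1 Dat.IM
  rw [← lintegral_const_mul' C _ hC]
  refine lintegral_mono fun x => ?_
  have h1 : (∑' l : D.Γ, K (x⁻¹ * (l : P × H) * x) * f x l) ≤
      C * ∑' l : D.Γ, K' (x⁻¹ * (l : P × H) * x) * f x l := by
    rw [← ENNReal.tsum_mul_left]
    refine ENNReal.tsum_le_tsum fun l => ?_
    rw [← mul_assoc]
    exact mul_le_mul_left (h _) _
  calc D.χ x * ∑' l : D.Γ, K (x⁻¹ * (l : P × H) * x) * f x l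
      ≤ D.χ x * (C * ∑' l : D.Γ, K' (x⁻¹ * (l : P × H) * x) * f x l) := mul_le_mul_right h1 _
    _ = C * (D.χ x * ∑' l : D.Γ, K' (x⁻¹ * (l : P × H) * x) * f x l) := by ring

private theorem CL1_cv {P : Type} [Group P] [MeasurableSpace P] (μ : Measure P)
    {k k' k'' : P → ℝ≥0∞} {C : ℝ≥0∞} (hC : C ≠ ∞) (h : ∀ g, k' g ≤ C * k'' g) (g : P) :
    cvP μ k k' g ≤ C * cvP μ k k'' g := by
  unfold cvP
  rw [← lintegral_const_mul' C _ hC]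
  refine lintegral_mono fun q => ?_
  calc k q * k' (q⁻¹ * g) ≤ k q * (C * k'' (q⁻¹ * g)) := mul_le_mul_right (h _) _
    _ = C * (k q * k'' (q⁻¹ * g)) := by ring

variable (P H : Type) [Group P] [Group H] [TopologicalSpace P] [TopologicalSpace H]
  [IsTopologicalGroup P] [IsTopologicalGroup H] [LocallyCompactSpace P] [LocallyCompactSpace H]
  [T2Space P] [T2Space H] [SecondCountableTopology P] [SecondCountableTopology H]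
  [MeasurableSpace P] [MeasurableSpace H] [BorelSpace P] [BorelSpace H]

theorem tCL1 : S_CLb P H → S_UFX P H → S_RV P → S_MU P → S_NB P → S_AD P → S_CL1 P H := by
  intro hCLb hUFX hRV hMU hNB hAD D hD G hG hF hGG S₁ K₁ S₂ K₂ hS₁ hK₁ hS₂ hK₂ hS hK
  have := hD.haar₁
  have := hD.right₁
  have := hD.inv₁
  obtain ⟨S₁', S₂', hS₁', hS₂', hs₁, hs₂, hpos⟩ := (hNB G hG).1 S₁ S₂ hS₁ hS₂ hS
  obtain ⟨L, hL, hSL, hLS⟩ := exists_compact_between hS₂ isOpen_interior hs₂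
  obtain ⟨c, hc⟩ := hMU G D.μ₁ hG hF S₁ K₁ K₂ L S₁' S₂' hS₁ hK₁ hK₂ hL hs₁ hLS hK
  obtain ⟨c', hc'⟩ := hCLb D hD G hG hF hGG S₁' S₂' hS₁' hS₂' hpos
  refine ⟨c + c', fun U hU R R' => ?_⟩
  obtain ⟨C₁, hC₁, h₁⟩ := hRV G D.μ₁ hG S₂ K₂ L hS₂ hK₂ hSL R'
  obtain ⟨C₂, T₂, hC₂, h₂⟩ := hc R R'
  obtain ⟨C₃, T₃, hC₃, h₃⟩ := hc' U hU (R + R' + c)
  refine ⟨C₁ * C₂ * C₃, T₂ + T₃ + 1, ENNReal.mul_ne_top (ENNReal.mul_ne_top hC₁ hC₂) hC₃, ?_⟩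
  intro n m hn hm φ hφ c₁ hc₁
  have hm₁ := (hAD G D.μ₁ hG).2.2.2.2.1 S₁ K₁ hS₁ hK₁ R n
  have hm₂ := (hAD G D.μ₁ hG).2.2.2.2.1 S₂ K₂ hS₂ hK₂ R' m
  have h4 := (hUFX D hD (fun x l => ab (ph G φ l (x.1 * c₁)))).2 (eP D.μ₁ G S₁ K₁ R n)
    (eP D.μ₁ G S₂ K₂ R' m) n m hm₁ hm₂ (by omega) (by omega)
  change D.X2 (D.tk (eP D.μ₁ G S₁ K₁ R n) n) (D.tk (eP D.μ₁ G S₂ K₂ R' m) m)
    (fun x u v => ab (ph G φ (u * v⁻¹) (x.1 * c₁))) ≤ _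
  rw [h4]
  have h5 : ∀ g, D.tk (cvP D.μ₁ (eP D.μ₁ G S₁ K₁ R n) (fun g => eP D.μ₁ G S₂ K₂ R' m g⁻¹))
      (n + m) g ≤ (C₁ * C₂) * D.eg G S₁' S₂' (R + R' + c) (n + m) g := by
    intro g
    change cvP D.μ₁ (eP D.μ₁ G S₁ K₁ R n) (fun g => eP D.μ₁ G S₂ K₂ R' m g⁻¹) g.1 *
      D.nu (n + m) g.2 ≤ (C₁ * C₂) * (eP D.μ₁ G S₁' S₂' (R + R' + c) (n + m) g.1 *
        D.nu (n + m) g.2)
    rw [← mul_assoc]
    refine mul_le_mul_left ?_ _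
    refine (CL1_cv D.μ₁ hC₁ (fun g => h₁ m g) g.1).trans ?_
    rw [mul_assoc]
    exact mul_le_mul_right (h₂ n m (by omega) (by omega) g.1) _
  refine (CL1_L1 D (ENNReal.mul_ne_top hC₁ hC₂) h5 _).trans ?_
  rw [mul_assoc (C₁ * C₂) C₃, ← add_assoc (R + R') c c']
  exact mul_le_mul_right (h₃ (n + m) (by omega) φ hφ c₁ (interior_subset (hs₁ hc₁))) _

end Pool.Agent.MPEF.U
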