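import Pool.Agent.Lib.MP_ef3f0f_gt.U.F.SpecD

set_option autoImplicit false

/-!
# MP_ef3f0f_gt, Theorem U, Part F, module CL2: straight closed loops and straight pairs
-/

namespace Pool.Agent.MPEF.U

open MeasureTheory Topology
open scoped ENNReal Pointwise

private theorem CL2_L1 {P H : Type} [Group P] [Group H] [MeasurableSpace P] [MeasurableSpace H]
    (D : Dat P H) {K K' : P × H → ℝ≥0∞} {C : ℝ≥0∞} (hC : C ≠ ∞) (h : ∀ g, K g ≤ C * K' g)
    (f : P × H → D.Γ → ℝ≥0∞) : D.L1 K f ≤ C * D.L1 K' f := by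
  unfold Dat.L1 Dat.IM
  rw [← lintegral_const_mul' C _ hC]
  refine lintegral_mono fun x => ?_
  have h1 : (∑' l : D.Γ, K (x⁻¹ * (l : P × H) * x) * f x l) ≤
      C * ∑' l : D.Γ, K' (x⁻¹ * (l : P × H) * x) * f x l := by
    rw [← ENNReal.tsum_mul_left]
    refine ENNReal.tsum_le_tsum fun l => ?_
    rw [← mul_assoc]
    exact mul_le_mul_left (h _) _
  calc D.χ x * ∑' l : D.Γ, K (x⁻¹ * (l : P × H) * x) * f x l
      ≤ D.χ x * (C * ∑' l : D.Γ, K' (x⁻¹ * (l : P × H) * x) * f x l) := mul_le_mul_right h1 _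
    _ = C * (D.χ x * ∑' l : D.Γ, K' (x⁻¹ * (l : P × H) * x) * f x l) := by ring

private theorem CL2_conv {Q : Type} [Group Q] [TopologicalSpace Q] [IsTopologicalGroup Q]
    [SecondCountableTopology Q] [MeasurableSpace Q] [BorelSpace Q] (μ : Measure Q) [SFinite μ]
    {k k' : Q → ℝ≥0∞} (hk : Measurable k) (hk' : Measurable k') :
    Measurable fun g => ∫⁻ q, k q * k' (q⁻¹ * g) ∂μ := by
  refine Measurable.lintegral_prod_right' (f := fun p : Q × Q => k p.2 * k' (p.2⁻¹ * p.1)) ?_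
  exact (hk.comp measurable_snd).mul (hk'.comp (measurable_snd.inv.mul measurable_fst))

variable (P H : Type) [Group P] [Group H] [TopologicalSpace P] [TopologicalSpace H]
  [IsTopologicalGroup P] [IsTopologicalGroup H] [LocallyCompactSpace P] [LocallyCompactSpace H]
  [T2Space P] [T2Space H] [SecondCountableTopology P] [SecondCountableTopology H]
  [MeasurableSpace P] [MeasurableSpace H] [BorelSpace P] [BorelSpace H]

variable {P H} in
private theorem CL2_nu (D : Dat P H) (hD : D.Ok) (n : ℕ) : Measurable (D.nu n) := by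
  have := hD.haar₂
  have h : ∀ n, Measurable (D.nuA n) := by
    intro n
    induction n with
    | zero => exact hD.νc.measurable
    | succ n ih => exact CL2_conv D.μ₂ hD.νc.measurable ih
  exact h _

variable {P H} in
private theorem CL2_sum (hMQ : S_MQ P H) (D : Dat P H) (hD : D.Ok) (F : Finset P)
    (K : P → P × H → ℝ≥0∞) (hK : ∀ d ∈ F, Measurable (K d)) (f : P × H → D.Γ → ℝ≥0∞)
    (hf : ∀ l, Measurable fun x => f x l) :
    D.L1 (fun g => ∑ d ∈ F, K d g) f = ∑ d ∈ F, D.L1 (K d) f := by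
  have h : ∀ d ∈ F, Measurable fun x : P × H =>
      D.χ x * ∑' l : D.Γ, K d (x⁻¹ * (l : P × H) * x) * f x l := fun d hd =>
    hD.χm.mul ((hMQ D hD (K d) (K d) (K d) (hK d hd) (hK d hd) (hK d hd)).1 f hf)
  refine Eq.trans (lintegral_congr fun x => ?_) (lintegral_finsetSum F h)
  change D.χ x * (∑' l : D.Γ, (∑ d ∈ F, K d (x⁻¹ * (l : P × H) * x)) * f x l) =
    ∑ d ∈ F, D.χ x * ∑' l : D.Γ, K d (x⁻¹ * (l : P × H) * x) * f x l
  rw [← Finset.mul_sum]
  congr 1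
  simp only [Finset.sum_mul]
  exact Summable.tsum_finsetSum fun _ _ => ENNReal.summable

theorem tCL2 : S_MLs P → S_UFX P H → S_AD P → S_MQ P H → S_ph P H → S_CL2 P H := by
  intro hMLs hUFX hAD hMQ hph D hD G hG U hU hUc
  have := hD.haar₁
  have := hD.right₁
  have := hD.inv₁
  have h1U : ({1} : Set P) ⊆ interior U := by
    rw [Set.singleton_subset_iff]
    exact mem_interior_iff_mem_nhds.2 hU
  obtain ⟨U₀, hU₀, h1, h2⟩ := exists_compact_between isCompact_singleton isOpen_interior h1U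
  rw [Set.singleton_subset_iff] at h1
  refine ⟨U₀, mem_interior_iff_mem_nhds.1 h1, hU₀, fun R => ?_⟩
  obtain ⟨F, C, T, hC, hF, h3⟩ := hMLs G D.μ₁ hG U₀ U hU₀ hUc h1 h2 R
  refine ⟨F, C, T + 1, hC, hF, fun n m hn hm φ hφ => ?_⟩
  have hw : IsCompact (G.uw U) := hUc.mul isCompact_singleton
  have hm₁ : Measurable (eP D.μ₁ G U (G.uw U) 0 n) := (hAD G D.μ₁ hG).2.2.2.2.1 _ _ hUc hw 0 n
  have hm₂ : ∀ d : P, Measurable (eP D.μ₁ G (G.uw U * {d}) U 0 m) := fun d =>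
    (hAD G D.μ₁ hG).2.2.2.2.1 _ _ (hw.mul isCompact_singleton) hUc 0 m
  have hf : ∀ l : D.Γ, Measurable fun x : P × H => ab (ph G φ l x.1) := by
    intro l
    have h4 := (hph D hD G hG φ hφ).2.2.2.2.2.2.2 l
    have h5 : Measurable fun t : ℝ => ab t := by
      unfold ab
      fun_prop
    exact h5.comp (h4.comp measurable_fst)
  have hcv : ∀ d : P, Measurable (cvP D.μ₁ (eP D.μ₁ G U (G.uw U) 0 n)
      (fun g => eP D.μ₁ G (G.uw U * {d}) U 0 m g⁻¹)) := fun d =>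
    CL2_conv D.μ₁ hm₁ ((hm₂ d).comp measurable_inv)
  have hK : ∀ d : P, Measurable (D.tk (cvP D.μ₁ (eP D.μ₁ G U (G.uw U) 0 n)
      (fun g => eP D.μ₁ G (G.uw U * {d}) U 0 m g⁻¹)) (n + m)) := fun d =>
    ((hcv d).comp measurable_fst).mul ((CL2_nu D hD (n + m)).comp measurable_snd)
  have h6 : ∀ g, D.eg G U₀ (G.uw U₀) R (n + m) g ≤ C * ∑ d ∈ F,
      D.tk (cvP D.μ₁ (eP D.μ₁ G U (G.uw U) 0 n)
        (fun g => eP D.μ₁ G (G.uw U * {d}) U 0 m g⁻¹)) (n + m) g := by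
    intro g
    change eP D.μ₁ G U₀ (G.uw U₀) R (n + m) g.1 * D.nu (n + m) g.2 ≤ C * ∑ d ∈ F,
      cvP D.μ₁ (eP D.μ₁ G U (G.uw U) 0 n) (fun g => eP D.μ₁ G (G.uw U * {d}) U 0 m g⁻¹) g.1 *
        D.nu (n + m) g.2
    rw [← Finset.sum_mul, ← mul_assoc]
    exact mul_le_mul_left (h3 n m (by omega) g.1) _
  change D.L1 (D.eg G U₀ (G.uw U₀) R (n + m)) (fun x l => ab (ph G φ l x.1)) ≤ _
  refine (CL2_L1 D hC h6 _).trans ?_
  refine mul_le_mul_right ?_ _
  rw [CL2_sum hMQ D hD F (fun d => D.tk (cvP D.μ₁ (eP D.μ₁ G U (G.uw U) 0 n)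
        (fun g => eP D.μ₁ G (G.uw U * {d}) U 0 m g⁻¹)) (n + m)) (fun d _ => hK d) _ hf]
  refine Finset.sum_le_sum fun d _ => ?_
  have h7 := (hUFX D hD (fun x l => ab (ph G φ l x.1))).2 (eP D.μ₁ G U (G.uw U) 0 n)
    (eP D.μ₁ G (G.uw U * {d}) U 0 m) n m hm₁ (hm₂ d) (by omega) (by omega)
  rw [← h7]
  change _ ≤ D.X2 (D.tk (eP D.μ₁ G U (G.uw U) 0 n) n) (D.tk (eP D.μ₁ G (G.uw U * {d}) U 0 m) m)
    (fun x u v => ab (ph G φ (u * v⁻¹) (x.1 * 1)))
  simp only [mul_one]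
  exact le_rfl

end Pool.Agent.MPEF.U
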