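import Pool.Agent.Lib.MP_ef3f0f_gt.U.F.SpecD

/-!
# MP_ef3f0f_gt, Theorem U, Part F: the closure
-/

set_option autoImplicit false
set_option linter.unusedSectionVars false

namespace Pool.Agent.MPEF.U

open MeasureTheory Topology
open scoped ENNReal Pointwise

section CLO

variable (P H : Type) [Group P] [Group H] [TopologicalSpace P] [TopologicalSpace H]
  [IsTopologicalGroup P] [IsTopologicalGroup H] [LocallyCompactSpace P] [LocallyCompactSpace H]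
  [T2Space P] [T2Space H] [SecondCountableTopology P] [SecondCountableTopology H]
  [MeasurableSpace P] [MeasurableSpace H] [BorelSpace P] [BorelSpace H]

/-! ### Empty windows -/

private theorem CLO_eg0 (D : Dat P H) (G : PG P) (S K : Set P) (hK : ¬ K.Nonempty) (R n : ℕ)
    (g : P × H) : D.eg G S K R n g = 0 := by
  have h : ∀ q, iK (G.ew K) q = 0 := by
    intro q
    unfold iK
    refine Set.indicator_of_notMem ?_ _
    intro hq
    exact hK ⟨_, hq⟩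
  unfold Dat.eg Dat.ed Dat.tk kk
  simp only [h, mul_zero, lintegral_zero, zero_mul]

private theorem CLO_X30 (D : Dat P H) (K : Fin 3 → P × H → ℝ≥0∞) (j : Fin 3)
    (h : ∀ g, K j g = 0) (f : P × H → D.Γ → D.Γ → D.Γ → ℝ≥0∞) :
    D.X3 (K 0) (K 1) (K 2) f = 0 := by
  have h1 : ∀ (a b c : P × H), K 0 a * K 1 b * K 2 c = 0 := by
    intro a b c
    fin_cases j
    · rw [show K 0 a = 0 from h a, zero_mul, zero_mul]
    · rw [show K 1 b = 0 from h b, mul_zero, zero_mul]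
    · rw [show K 2 c = 0 from h c, mul_zero]
  unfold Dat.X3 Dat.st3 Dat.IM
  simp only [h1, zero_mul, tsum_zero, mul_zero, lintegral_zero]

private theorem CLO_EE0 (D : Dat P H) (G : PG P) (t : Th P) (j : Fin 3)
    (hj : ¬ (t.K j).Nonempty) (R r : ℕ) (φ : D.Γ → P → ℝ) : D.EE G t R r φ = 0 := by
  unfold Dat.EE
  refine Finset.sum_eq_zero fun n₀ _ => Finset.sum_eq_zero fun n₁ _ =>
    Finset.sum_eq_zero fun n₂ _ => ?_
  exact CLO_X30 P H D (fun i => D.eg G (t.S i) (t.K i) R (![n₀, n₁, n₂] i)) j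
    (fun g => CLO_eg0 P H D G _ _ hj R _ g) _

/-! ### The types -/

private theorem CLO_types (D : Dat P H) (G : PG P) (s₀ : Th P) (hs₀ : s₀.Ok G)
    (hs₀' : ∀ j, (s₀.K j).Nonempty) (L : List (Th P)) : (∀ t ∈ L, t.Ok G) →
    ∃ (N : ℕ) (s : Fin N → Th P), 0 < N ∧ (∀ i, (s i).Ok G ∧ ∀ j, ((s i).K j).Nonempty) ∧
      ∀ (R r : ℕ) (φ : D.Γ → P → ℝ), D.EL G L R r φ ≤ ∑ i, D.EE G (s i) R r φ := by
  induction L with
  | nil =>
    intro _
    refine ⟨1, fun _ => s₀, Nat.one_pos, fun _ => ⟨hs₀, hs₀'⟩, fun R r φ => ?_⟩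
    unfold Dat.EL
    simp only [List.map_nil, List.sum_nil]
    exact zero_le
  | cons t L ih =>
    intro h
    obtain ⟨N, s, hN, hs, hle⟩ := ih fun t' ht' => h t' (List.mem_cons_of_mem _ ht')
    by_cases hne : ∀ j, (t.K j).Nonempty
    · refine ⟨N + 1, Fin.cons t s, Nat.succ_pos _, ?_, fun R r φ => ?_⟩
      · intro i
        refine Fin.cases ?_ (fun i => ?_) i
        · exact ⟨h t List.mem_cons_self, hne⟩
        · exact hs i
      · rw [Fin.sum_univ_succ]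
        simp only [Fin.cons_zero, Fin.cons_succ]
        have h1 : D.EL G (t :: L) R r φ = D.EE G t R r φ + D.EL G L R r φ := by
          unfold Dat.EL
          rw [List.map_cons, List.sum_cons]
        rw [h1]
        exact add_le_add le_rfl (hle R r φ)
    · obtain ⟨j, hj⟩ := not_forall.1 hne
      refine ⟨N, s, hN, hs, fun R r φ => ?_⟩
      have h1 : D.EL G (t :: L) R r φ = D.EE G t R r φ + D.EL G L R r φ := by
        unfold Dat.EL
        rw [List.map_cons, List.sum_cons]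
      rw [h1, CLO_EE0 P H D G t j hj R r φ, zero_add]
      exact hle R r φ

/-! ### The defect of a type and the defect for window functions -/

private theorem CLO_ed1 (D : Dat P H) (G : PG P) {k₁ k₂ k₁' k₂' : P → ℝ≥0∞}
    (h₁ : ∀ q, k₁ q ≤ k₁' q) (h₂ : ∀ q, k₂ q ≤ k₂' q)
    (n : ℕ) (g : P × H) : D.ed G k₁ k₂ n g ≤ D.ed G k₁' k₂' n g := by
  unfold Dat.ed Dat.tk kk
  exact mul_le_mul_left (lintegral_mono fun q => mul_le_mul' (h₁ _) (h₂ _)) _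

private theorem CLO_iK {S S' : Set P} (h : S ⊆ S') (g : P) : iK S g ≤ iK S' g :=
  Set.indicator_le_indicator_of_subset h (fun _ => zero_le) g

private theorem CLO_EE (hTXc : S_TXc P H) (hDF : S_DF P) (D : Dat P H) (hD : D.Ok) (G : PG P)
    (hG : G.Ok) (s t t' : Th P) (f : Wf P) (R R' : ℕ) (hf : f.Ok G t t' R) (hR : R' ≤ R)
    (hc : ∀ i, t.c i = s.c i) (hS : ∀ i, s.S i ⊆ t.S i) (hK : ∀ i, s.K i ⊆ t.K i)
    (r : ℕ) (φ : D.Γ → P → ℝ) : D.EE G s R' r φ ≤ D.EW G f t.c r φ := by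
  obtain ⟨-, -, -, -, hD1m, -⟩ := hDF G hG
  obtain ⟨-, htm, -, -⟩ := hTXc D hD G hG φ
  have W : ∀ i n g, D.eg G (s.S i) (s.K i) R' n g ≤ D.we G f i n g := by
    intro i n g
    refine CLO_ed1 P H D G (fun q => ?_) (fun q => ?_) n g
    · exact (CLO_iK P (Set.mul_subset_mul (hS i) (hD1m R' R hR)) q).trans (hf.sl i q)
    · exact (CLO_iK P (S := G.ew (s.K i)) (S' := G.ew (t.K i)) (fun q hq => hK i hq) q).trans
        (hf.kl i q)
  unfold Dat.EE Dat.EW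
  refine Finset.sum_le_sum fun n₀ _ => Finset.sum_le_sum fun n₁ _ =>
    Finset.sum_le_sum fun n₂ _ => ?_
  have h1 := htm t.c 1 ENNReal.one_ne_top
    ![D.eg G (s.S 0) (s.K 0) R' n₀, D.eg G (s.S 1) (s.K 1) R' n₁, D.eg G (s.S 2) (s.K 2) R' n₂]
    ![D.we G f 0 n₀, D.we G f 1 n₁, D.we G f 2 n₂] (by
      intro i g
      rw [one_mul]
      fin_cases i
      · exact W 0 n₀ g
      · exact W 1 n₁ g
      · exact W 2 n₂ g)
  rw [one_pow, one_mul] at h1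
  rw [← hc 0, ← hc 1, ← hc 2]
  exact h1

theorem tCLO : S_CLt P H → S_CL2 P H → S_TXc P H → S_EN P → S_AD P → S_DF P → S_CLO P H := by
  intro hCLt hCL2 hTXc hEN _ hDF D hD G hG hF hGG NK hNK hE hI7
  obtain ⟨L, c₀, hL, h7⟩ := hI7
  obtain ⟨hen, s₀, hs₀, hs₀i⟩ := hEN G hG
  obtain ⟨N, s, hN, hs, hle⟩ := CLO_types P H D G s₀ hs₀
    (fun j => (hs₀i j).2.mono interior_subset) L hL
  obtain ⟨t, ht⟩ : ∃ t : Fin N → Th P, ∀ i, (t i).Ok G ∧ ∀ j, (t i).c j = (s i).c j ∧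
      (s i).S j ⊆ interior ((t i).S j) ∧ (s i).K j ⊆ interior ((t i).K j) := by
    choose t ht using fun i : Fin N => hen (s i) (hs i).1
    exact ⟨t, ht⟩
  obtain ⟨t', ht'⟩ : ∃ t' : Fin N → Th P, ∀ i, (t' i).Ok G ∧ ∀ j, (t' i).c j = (t i).c j ∧
      (t i).S j ⊆ interior ((t' i).S j) ∧ (t i).K j ⊆ interior ((t' i).K j) := by
    choose t' ht' using fun i : Fin N => hen (t i) (ht i).1
    exact ⟨t', ht'⟩
  have hin : ∀ i, (t i).In (t' i) := fun i j =>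
    ⟨((ht' i).2 j).1.symm, ((ht' i).2 j).2.1, ((ht' i).2 j).2.2,
      ⟨_, ((ht i).2 j).2.1 ((hs i).1.cS j)⟩, ((hs i).2 j).mono ((ht i).2 j).2.2⟩
  choose c hc using fun i : Fin N =>
    hCLt D hD G hG hF hGG NK hNK hE (t i) (t' i) (ht i).1 (ht' i).1 (hin i)
  obtain ⟨cc, hcc⟩ : ∃ cc : ℕ, ∀ i, c i ≤ cc := ⟨∑ i, c i, fun i =>
    Finset.single_le_sum (f := c) (fun _ _ => Nat.zero_le _) (Finset.mem_univ i)⟩
  refine ⟨N, t, t', cc + 2 * c₀ + 2, hN, fun i => ⟨(ht i).1, (ht' i).1, hin i⟩, fun f hf => ?_⟩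
  obtain ⟨U, hU, hUc, C7, T7, hC7, h7'⟩ := h7 (c₀ + cc + 1)
  obtain ⟨U₀, hU₀, -, hU2⟩ := hCL2 D hD G hG U hU hUc
  obtain ⟨F, C2, T2, hC2, hFd, h2⟩ := hU2 (2 * (c₀ + cc + 1))
  choose Ct rt hCt hCt' using fun i : Fin N => hc i (cc + 2 * c₀ + 2) U₀ hU₀ (f i) (hf i)
  obtain ⟨rr, hrr⟩ : ∃ rr : ℕ, ∀ i, rt i ≤ rr := ⟨∑ i, rt i, fun i =>
    Finset.single_le_sum (f := rt) (fun _ _ => Nat.zero_le _) (Finset.mem_univ i)⟩
  obtain ⟨Cb, hCb⟩ : ∃ Cb : ℝ≥0∞, Cb = C2 * ((F.card : ℝ≥0∞) * C7) := ⟨_, rfl⟩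
  have hCbt : Cb ≠ ∞ := by
    rw [hCb]
    exact ENNReal.mul_ne_top hC2 (ENNReal.mul_ne_top (ENNReal.natCast_ne_top _) hC7)
  refine ⟨(∑ i, Ct i) * (1 + Cb), rr + 5 * T7 + T2 + 1, ?_, ?_⟩
  · exact ENNReal.mul_ne_top (ENNReal.sum_ne_top.2 fun i _ => hCt i)
      (ENNReal.add_ne_top.2 ⟨ENNReal.one_ne_top, hCbt⟩)
  intro r hr φ hφ
  obtain ⟨-, -, -, hlim⟩ := hTXc D hD G hG φ
  obtain ⟨W, hW⟩ : ∃ W : ℝ≥0∞, W = ∑ i, D.EW G (f i) (t i).c r φ := ⟨_, rfl⟩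
  have hEL : D.EL G L (c₀ + cc + 1 + c₀) r φ ≤ W := by
    refine (hle _ r φ).trans ?_
    rw [hW]
    refine Finset.sum_le_sum fun i _ => ?_
    exact CLO_EE P H hTXc hDF D hD G hG (s i) (t i) (t' i) (f i) _ _ (hf i) (by omega)
      (fun j => ((ht i).2 j).1) (fun j => ((ht i).2 j).2.1.trans interior_subset)
      (fun j => ((ht i).2 j).2.2.trans interior_subset) r φ
  have hB : ∀ i, ∀ n, 11 * r ≤ 5 * n → 5 * n ≤ 27 * r →
      D.LI G U₀ (cc + 2 * c₀ + 2 + c i) n φ ≤ Cb * (r : ℝ≥0∞) * W := by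
    intro i n h1 h1'
    have e : n / 2 + (n - n / 2) = n := by omega
    have h3 := h2 (n / 2) (n - n / 2) (by omega) (by omega) φ hφ
    rw [e] at h3
    have h4 := hcc i
    refine (hlim U₀ U₀ _ (2 * (c₀ + cc + 1)) n subset_rfl (by omega)).trans (h3.trans ?_)
    have h5 : ∀ d ∈ F, D.PX G 1 (D.eg G U (G.uw U) 0 (n / 2))
        (D.eg G (G.uw U * {d}) U 0 (n - n / 2)) φ ≤ C7 * (r : ℝ≥0∞) * W := fun d hd =>
      (h7' r (by omega) d (hFd d hd) _ _ (by omega) (by omega) (by omega) (by omega) φ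
        hφ).trans (mul_le_mul_right hEL _)
    refine (mul_le_mul_right (Finset.sum_le_sum h5) C2).trans (le_of_eq ?_)
    rw [Finset.sum_const, nsmul_eq_mul, hCb]
    ring
  have hAW : ∀ i, D.AW G (f i) (t i).c r φ ≤ Ct i * ((1 + Cb) * (r : ℝ≥0∞) ^ 3 * W) := by
    intro i
    have h3 := hrr i
    refine (hCt' i r (by omega) φ hφ _ (hB i)).trans ?_
    have h4 : D.EW G (f i) (t i).c r φ ≤ W := by
      rw [hW]
      exact Finset.single_le_sum (f := fun i => D.EW G (f i) (t i).c r φ)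
        (fun _ _ => zero_le) (Finset.mem_univ i)
    have h5 : (1 : ℝ≥0∞) ≤ (r : ℝ≥0∞) := by
      have h6 : 1 ≤ r := by omega
      exact_mod_cast h6
    have h6 : W ≤ (r : ℝ≥0∞) * W := by
      calc W = 1 * W := (one_mul W).symm
        _ ≤ (r : ℝ≥0∞) * W := mul_le_mul_left h5 _
    calc Ct i * (r : ℝ≥0∞) ^ 2 * (D.EW G (f i) (t i).c r φ + Cb * (r : ℝ≥0∞) * W)
        ≤ Ct i * (r : ℝ≥0∞) ^ 2 * ((r : ℝ≥0∞) * W + Cb * (r : ℝ≥0∞) * W) :=
          mul_le_mul_right (add_le_add (h4.trans h6) le_rfl) _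
      _ = Ct i * ((1 + Cb) * (r : ℝ≥0∞) ^ 3 * W) := by ring
  rw [← hW]
  refine (Finset.sum_le_sum fun i _ => hAW i).trans (le_of_eq ?_)
  rw [← Finset.sum_mul]
  ring

end CLO

end Pool.Agent.MPEF.U
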