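import Pool.Agent.Lib.MP_ef3f0f_gt.U.F.SpecD

set_option autoImplicit false
set_option linter.unusedSectionVars false

/-!
# MP_ef3f0f_gt, Theorem U, Part F, module CLa: closed loops with small windows
-/

namespace Pool.Agent.MPEF.U

open MeasureTheory Topology
open scoped ENNReal Pointwise

variable (P H : Type) [Group P] [Group H] [TopologicalSpace P] [TopologicalSpace H]
  [IsTopologicalGroup P] [IsTopologicalGroup H] [LocallyCompactSpace P] [LocallyCompactSpace H]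
  [T2Space P] [T2Space H] [SecondCountableTopology P] [SecondCountableTopology H]
  [MeasurableSpace P] [MeasurableSpace H] [BorelSpace P] [BorelSpace H]

/-- Measurability of the convolution powers. -/
private theorem CLa_nu (D : Dat P H) (hD : D.Ok) (n : ℕ) : Measurable (D.nu n) := by
  have i2 := hD.haar₂
  have hνm : Measurable D.ν := hD.νc.measurable
  have hm : ∀ n, Measurable (D.nuA n) := by
    intro n
    induction n with
    | zero => exact hνm
    | succ n ih =>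
      show Measurable fun h => ∫⁻ q, D.ν q * D.nuA n (q⁻¹ * h) ∂D.μ₂
      apply Measurable.lintegral_prod_right'
        (f := fun p : H × H => D.ν p.2 * D.nuA n (p.2⁻¹ * p.1))
      exact (hνm.comp measurable_snd).mul
        (ih.comp ((measurable_inv.comp measurable_snd).mul measurable_fst))
  exact hm (n - 1)

/-- Monotonicity of `L1`. -/
private theorem CLa_mono (D : Dat P H) (C : ℝ≥0∞) (hC : C ≠ ∞) (K K' : P × H → ℝ≥0∞)
    (f : P × H → D.Γ → ℝ≥0∞) (h : ∀ g, K g ≤ C * K' g) : D.L1 K f ≤ C * D.L1 K' f := by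
  unfold Dat.L1 Dat.IM
  rw [← lintegral_const_mul' _ _ hC]
  refine lintegral_mono fun x => ?_
  have h1 : ∑' l : D.Γ, K (x⁻¹ * (l : P × H) * x) * f x l ≤
      C * ∑' l : D.Γ, K' (x⁻¹ * (l : P × H) * x) * f x l := by
    rw [← ENNReal.tsum_mul_left]
    refine ENNReal.tsum_le_tsum fun l => ?_
    calc K (x⁻¹ * (l : P × H) * x) * f x l ≤ C * K' (x⁻¹ * (l : P × H) * x) * f x l :=
          mul_le_mul_left (h _) _
      _ = C * (K' (x⁻¹ * (l : P × H) * x) * f x l) := mul_assoc _ _ _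
  calc D.χ x * ∑' l : D.Γ, K (x⁻¹ * (l : P × H) * x) * f x l
      ≤ D.χ x * (C * ∑' l : D.Γ, K' (x⁻¹ * (l : P × H) * x) * f x l) := mul_le_mul_right h1 _
    _ = C * (D.χ x * ∑' l : D.Γ, K' (x⁻¹ * (l : P × H) * x) * f x l) := mul_left_comm _ _ _

theorem tCLa : S_GEu P → S_AD P → S_CJ P H → S_ph P H → S_CLa P H := by
  intro hGEu hAD hCJ hph D hD G hG hGG B hB hBB
  have i1 := hD.haar₁
  have i2 := hD.right₁
  have i3 := hD.inv₁
  have hBc : IsCompact (B ∪ B⁻¹) := hB.union hB.inv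
  have hBs : B ∪ B⁻¹ ⊆ G.Bor := by
    rintro x (hx | hx)
    · exact hBB hx
    · have h1 : x⁻¹ ∈ G.Bor := hBB hx
      exact (inv_mem_iff).1 h1
  obtain ⟨c, hc⟩ := hGEu G D.μ₁ hG hGG (B ∪ B⁻¹) hBc hBs
  obtain ⟨ad1, -, ad3, -, ad5, -⟩ := hAD G D.μ₁ hG
  refine ⟨c, fun b hb b' hb' s₀ U hU => ?_⟩
  -- the neighbourhood `V`
  have hUi : interior U ∈ 𝓝 (1 : P) := interior_mem_nhds.2 hU
  have hV1 : {v : P | b⁻¹ * v * b ∈ interior U} ∈ 𝓝 (1 : P) := by
    have h1 : Continuous fun v : P => b⁻¹ * v * b := by fun_prop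
    have h2 := h1.tendsto 1
    rw [mul_one, inv_mul_cancel] at h2
    exact h2 hUi
  have hV2 : {v : P | G.w * (b' * v * b'⁻¹) * G.w ∈ interior U} ∈ 𝓝 (1 : P) := by
    have h1 : Continuous fun v : P => G.w * (b' * v * b'⁻¹) * G.w := by fun_prop
    have h2 := h1.tendsto 1
    rw [mul_one, mul_inv_cancel, mul_one, hG.ww] at h2
    exact h2 hUi
  obtain ⟨V, hVn, hVc, hVs⟩ := exists_mem_nhds_isCompact_mapsTo
    (continuous_id (X := P)) (x := (1 : P)) (Filter.inter_mem hV1 hV2)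
  refine ⟨V, hVn, hVc, fun R => ?_⟩
  have hS : IsCompact ({b⁻¹} * V) := isCompact_singleton.mul hVc
  have hK : IsCompact ({G.w * b'} * V) := isCompact_singleton.mul hVc
  have hS' : IsOpen (interior U) := isOpen_interior
  have hK' : IsOpen (G.uw (interior U)) := hS'.mul_right
  obtain ⟨C, T, hC, hT⟩ := hc ({b⁻¹} * V) ({G.w * b'} * V) (interior U) (G.uw (interior U))
    hS hK hS' hK' (by
      intro s hs
      obtain ⟨x, hx, v, hv, rfl⟩ := Set.mem_mul.1 hs
      rw [Set.mem_singleton_iff] at hx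
      refine ⟨b⁻¹ * v * b, (hVs hv).1, b⁻¹, Or.inr (Set.inv_mem_inv.2 hb), ?_⟩
      rw [hx]
      group) (by
      intro s hs
      obtain ⟨x, hx, v, hv, rfl⟩ := Set.mem_mul.1 hs
      rw [Set.mem_singleton_iff] at hx
      refine ⟨G.w * (b' * v * b'⁻¹) * G.w * G.w,
        Set.mem_mul.2 ⟨_, (hVs hv).2, G.w, rfl, rfl⟩, b', Or.inl hb', ?_⟩
      rw [hx, mul_assoc _ G.w G.w, hG.ww]
      group) R
  refine ⟨C, T, hC, fun n hn φ hφ => ?_⟩
  obtain ⟨-, -, ph3, ph4, -, -, -, ph8⟩ := hph D hD G hG φ hφ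
  -- conjugation
  obtain ⟨q, hq⟩ : ∃ q : P × H, q = (s₀ * b, 1) := ⟨_, rfl⟩
  have hSc : IsCompact ({s₀} * V) := isCompact_singleton.mul hVc
  have hKc : IsCompact ({s₀ * b * G.w * b'} * V) := isCompact_singleton.mul hVc
  have hΨ : Measurable (D.eg G ({s₀} * V) ({s₀ * b * G.w * b'} * V) R n) := by
    show Measurable fun g : P × H =>
      eP D.μ₁ G ({s₀} * V) ({s₀ * b * G.w * b'} * V) R n g.1 * D.nu n g.2
    exact ((ad5 _ _ hSc hKc R n).comp measurable_fst).mul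
      ((CLa_nu P H D hD n).comp measurable_snd)
  have hfm : ∀ l : D.Γ, Measurable fun x : P × H => ab (ph G φ l (x.1 * s₀)) := by
    intro l
    unfold ab
    have h1 : Measurable fun x : P × H => ph G φ l (x.1 * s₀) :=
      (ph8 l).comp (measurable_fst.mul_const s₀)
    exact ENNReal.measurable_ofReal.comp
      (continuous_abs.measurable.comp h1)
  have hfi : ∀ (γ l : D.Γ) (x : P × H),
      ab (ph G φ (γ * l * γ⁻¹) (((γ : P × H) * x).1 * s₀)) = ab (ph G φ l (x.1 * s₀)) := by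
    intro γ l x
    rw [Prod.fst_mul, mul_assoc (γ : P × H).1 x.1 s₀, ph4]
  have h1 := hCJ D hD (D.eg G ({s₀} * V) ({s₀ * b * G.w * b'} * V) R n)
    (fun x l => ab (ph G φ l (x.1 * s₀))) hΨ hfm hfi q
  rw [h1]
  have h2 : (fun (x : P × H) (l : D.Γ) => ab (ph G φ l ((x * q⁻¹).1 * s₀))) =
      fun (x : P × H) (l : D.Γ) => ab (ph G φ l x.1) := by
    funext x l
    have h3 : (x * q⁻¹).1 * s₀ = x.1 * b⁻¹ := by
      rw [hq]
      show x.1 * (s₀ * b)⁻¹ * s₀ = x.1 * b⁻¹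
      group
    rw [h3, ph3 l x.1 b⁻¹ (inv_mem (hBB hb))]
  rw [h2]
  unfold Dat.LI
  refine CLa_mono P H D C hC _ _ _ fun g => ?_
  show eP D.μ₁ G ({s₀} * V) ({s₀ * b * G.w * b'} * V) R n (q * g * q⁻¹).1 *
      D.nu n (q * g * q⁻¹).2 ≤
    C * (eP D.μ₁ G U (G.uw U) (R + c) n g.1 * D.nu n g.2)
  have h4 : (q * g * q⁻¹).1 = (s₀ * b) * g.1 * (s₀ * b)⁻¹ := by
    rw [hq]
    rfl
  have h5 : (q * g * q⁻¹).2 = g.2 := by
    rw [hq]
    show 1 * g.2 * (1 : H)⁻¹ = g.2
    group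
  have h6 : ({(s₀ * b)⁻¹} : Set P) * ({s₀} * V) = {b⁻¹} * V := by
    rw [← mul_assoc, Set.singleton_mul_singleton]
    congr 2
    group
  have h7 : ({(s₀ * b)⁻¹} : Set P) * ({s₀ * b * G.w * b'} * V) = {G.w * b'} * V := by
    rw [← mul_assoc, Set.singleton_mul_singleton]
    congr 2
    group
  rw [h4, h5, ad3, h6, h7, ← mul_assoc]
  refine mul_le_mul_left ?_ _
  refine (hT n hn g.1).trans ?_
  exact mul_le_mul_right (ad1 _ _ _ _ _ _ n interior_subset
    (Set.mul_subset_mul_right interior_subset) le_rfl g.1) _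

end Pool.Agent.MPEF.U
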