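import Pool.Agent.Lib.MP_ef3f0f_gt.U.F.SpecD

set_option autoImplicit false
set_option linter.unusedSectionVars false

/-! MP_ef3f0f_gt, Theorem U, Part F, module CLb: closed loops with arbitrary compact positive windows. -/

namespace Pool.Agent.MPEF.U

open MeasureTheory Topology
open scoped ENNReal Pointwise

variable (P H : Type) [Group P] [Group H] [TopologicalSpace P] [TopologicalSpace H]
  [IsTopologicalGroup P] [IsTopologicalGroup H] [LocallyCompactSpace P] [LocallyCompactSpace H]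
  [T2Space P] [T2Space H] [SecondCountableTopology P] [SecondCountableTopology H]
  [MeasurableSpace P] [MeasurableSpace H] [BorelSpace P] [BorelSpace H]

/-- The sum of the bounds over a finite cover. -/
private theorem CLb_sum (hAD : S_AD P) (hAD2 : S_AD2 P) (hFP : S_FP P H) (hMQ : S_MQ P H)
    (hph : S_ph P H) (hnu : S_nu P H) (D : Dat P H) (hD : D.Ok) (G : PG P) (hG : G.Ok)
    (hF : G.OkF) (S S' : Set P) (hS : IsCompact S) (hS' : IsCompact S')
    (hpos : ∀ s ∈ S, ∀ s' ∈ S', G.Pos s s') (U : Set P) (c R : ℕ)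
    (F : Finset ℕ) (p : ℕ → P × P) (V : ℕ → Set P) (C : ℕ → ℝ≥0∞) (T : ℕ → ℕ)
    (hp : ∀ i ∈ F, (p i).1 ∈ S) (hV : ∀ i, IsCompact (V i)) (hC : ∀ i, C i ≠ ∞)
    (hcov : ∀ s ∈ S, ∀ s' ∈ S', ∃ i ∈ F, s ∈ {(p i).1} * V i ∧ s' ∈ {(p i).2} * V i)
    (hb : ∀ i ∈ F, ∀ n, T i ≤ n → ∀ φ : D.Γ → P → ℝ, Adm D G φ →
      D.L1 (D.eg G ({(p i).1} * V i) ({(p i).2} * V i) R n)
        (fun x l => ab (ph G φ l (x.1 * (p i).1))) ≤ C i * D.LI G U (R + c) n φ) :
    ∃ (C : ℝ≥0∞) (T : ℕ), C ≠ ∞ ∧ ∀ n, T ≤ n → ∀ φ : D.Γ → P → ℝ, Adm D G φ → ∀ s ∈ S,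
      D.L1 (D.eg G S S' R n) (fun x l => ab (ph G φ l (x.1 * s))) ≤ C * D.LI G U (R + c) n φ := by
  have := hD.haar₁
  have := hD.right₁
  have := hD.inv₁
  obtain ⟨k, hk⟩ := (hFP D hD G hG hF).2 S S' hS hS' hpos
  obtain ⟨-, -, -, hAD4, hAD5, -⟩ := hAD G D.μ₁ hG
  obtain ⟨T₀, hT₀⟩ := hAD4 R k
  obtain ⟨hnum, -⟩ := hnu D hD
  have hA : ∀ i, IsCompact ({(p i).1} * V i) := fun i => isCompact_singleton.mul (hV i)
  have hB : ∀ i, IsCompact ({(p i).2} * V i) := fun i => isCompact_singleton.mul (hV i)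
  refine ⟨∑ i ∈ F, C i, max T₀ (F.sup T), ENNReal.sum_ne_top.2 fun i _ => hC i, ?_⟩
  intro n hn φ hφ s hs
  have hn0 : T₀ ≤ n := le_trans (le_max_left _ _) hn
  have hni : ∀ i ∈ F, T i ≤ n := fun i hi =>
    le_trans (Finset.le_sup (f := T) hi) (le_trans (le_max_right _ _) hn)
  have hKm : ∀ i, Measurable (D.eg G ({(p i).1} * V i) ({(p i).2} * V i) R n) := by
    intro i
    exact ((hAD5 _ _ (hA i) (hB i) R n).comp measurable_fst).mul
      ((hnum n).comp measurable_snd)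
  have hfm : ∀ (t : P) (l : D.Γ), Measurable fun x : P × H => ab (ph G φ l (x.1 * t)) := by
    intro t l
    obtain ⟨-, -, -, -, -, -, -, h8⟩ := hph D hD G hG φ hφ
    have h1 : Measurable fun x : P × H => x.1 * t := (measurable_mul_const t).comp measurable_fst
    have h2 : Measurable fun x : P × H => ph G φ l (x.1 * t) := (h8 l).comp h1
    exact ENNReal.measurable_ofReal.comp (continuous_abs.measurable.comp h2)
  have hpt : ∀ (x : P × H) (l : D.Γ),
      D.eg G S S' R n (x⁻¹ * (l : P × H) * x) * ab (ph G φ l (x.1 * s)) ≤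
        ∑ i ∈ F, D.eg G ({(p i).1} * V i) ({(p i).2} * V i) R n (x⁻¹ * (l : P × H) * x) *
          ab (ph G φ l (x.1 * (p i).1)) := by
    intro x l
    obtain ⟨g, hg⟩ : ∃ g : P × H, g = x⁻¹ * (l : P × H) * x := ⟨_, rfl⟩
    by_cases h0 : eP D.μ₁ G S S' R n g.1 = 0
    · have h1 : D.eg G S S' R n g = 0 := by
        show eP D.μ₁ G S S' R n g.1 * D.nu n g.2 = 0
        rw [h0, zero_mul]
      rw [← hg, h1, zero_mul]
      exact zero_le
    · have hW : g.1 ∈ G.W S S' k := hT₀ n hn0 S S' g.1 h0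
      rw [hg] at hW
      obtain ⟨z, -, -, hz⟩ := hk x l hW
      have hz' := hz φ hφ
      have h2 : D.eg G S S' R n g ≤
          ∑ i ∈ F, D.eg G ({(p i).1} * V i) ({(p i).2} * V i) R n g := by
        show eP D.μ₁ G S S' R n g.1 * D.nu n g.2 ≤
          ∑ i ∈ F, eP D.μ₁ G ({(p i).1} * V i) ({(p i).2} * V i) R n g.1 * D.nu n g.2
        rw [← Finset.sum_mul]
        refine mul_le_mul_left (hAD2 G D.μ₁ hG F (fun i => {(p i).1} * V i)
          (fun i => {(p i).2} * V i) S S' R n hA hB hcov g.1) _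
      rw [← hg]
      calc D.eg G S S' R n g * ab (ph G φ l (x.1 * s))
          ≤ (∑ i ∈ F, D.eg G ({(p i).1} * V i) ({(p i).2} * V i) R n g) *
              ab (ph G φ l (x.1 * s)) := mul_le_mul_left h2 _
        _ = ∑ i ∈ F, D.eg G ({(p i).1} * V i) ({(p i).2} * V i) R n g *
              ab (ph G φ l (x.1 * (p i).1)) := by
            rw [Finset.sum_mul]
            refine Finset.sum_congr rfl fun i hi => ?_
            rw [hz' s hs, hz' _ (hp i hi)]
  calc D.L1 (D.eg G S S' R n) (fun x l => ab (ph G φ l (x.1 * s)))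
      ≤ ∑ i ∈ F, D.L1 (D.eg G ({(p i).1} * V i) ({(p i).2} * V i) R n)
          (fun x l => ab (ph G φ l (x.1 * (p i).1))) := by
        unfold Dat.L1 Dat.IM
        rw [← lintegral_finsetSum]
        · refine lintegral_mono fun x => ?_
          rw [← Finset.mul_sum]
          refine mul_le_mul_right ?_ _
          rw [← Summable.tsum_finsetSum fun i _ => ENNReal.summable]
          exact ENNReal.tsum_le_tsum fun l => hpt x l
        · intro i _
          exact hD.χm.mul ((hMQ D hD _ _ _ (hKm i) (hKm i) (hKm i)).1 _ (hfm (p i).1))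
    _ ≤ ∑ i ∈ F, C i * D.LI G U (R + c) n φ :=
        Finset.sum_le_sum fun i hi => hb i hi n (hni i hi) φ hφ
    _ = (∑ i ∈ F, C i) * D.LI G U (R + c) n φ := (Finset.sum_mul _ _ _).symm

theorem tCLb : S_CLa P H → S_AD P → S_AD2 P → S_FP P H → S_MQ P H → S_ph P H → S_nu P H →
    S_CLb P H := by
  intro hCLa hAD hAD2 hFP hMQ hph hnu D hD G hG hF hGG S S' hS hS' hpos
  have hcont : Continuous fun q : P × P => G.w * q.1⁻¹ * q.2 :=
    (continuous_const.mul continuous_fst.inv).mul continuous_snd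
  obtain ⟨B, hB, hBB, hBQ⟩ := hGG.LUc ((fun q : P × P => G.w * q.1⁻¹ * q.2) '' (S ×ˢ S'))
    ((hS.prod hS').image hcont) (by
      rintro _ ⟨⟨s, s'⟩, hss, rfl⟩
      have h1 : G.Pos s s' := hpos s hss.1 s' hss.2
      have h2 : G.Pos (G.w * s⁻¹ * s) (G.w * s⁻¹ * s') := (hG.Pl _ _ _).2 h1
      rw [inv_mul_cancel_right] at h2
      exact h2)
  obtain ⟨c, hc⟩ := hCLa D hD G hG hGG B hB hBB
  refine ⟨c, ?_⟩
  intro U hU R
  have h1 : ∀ x : ↥(S ×ˢ S'), ∃ V ∈ 𝓝 (1 : P), IsCompact V ∧ ∃ (C : ℝ≥0∞) (T : ℕ), C ≠ ∞ ∧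
      ∀ n, T ≤ n → ∀ φ : D.Γ → P → ℝ, Adm D G φ →
        D.L1 (D.eg G ({x.1.1} * V) ({x.1.2} * V) R n)
          (fun y l => ab (ph G φ l (y.1 * x.1.1))) ≤ C * D.LI G U (R + c) n φ := by
    rintro ⟨⟨s, s'⟩, hss⟩
    obtain ⟨b, hb, b', hb', h2⟩ := hBQ (G.w * s⁻¹ * s') ⟨(s, s'), hss, rfl⟩
    have h3 : s' = s * b * G.w * b' := by
      have h4 : s * (G.w * (G.w * s⁻¹ * s')) = s' := by
        rw [mul_assoc G.w, ← mul_assoc G.w G.w, hG.ww, one_mul, mul_inv_cancel_left]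
      rw [← h4, h2]
      rw [mul_assoc (G.w * b), mul_assoc G.w b, ← mul_assoc G.w G.w, hG.ww, one_mul]
      simp only [mul_assoc]
    obtain ⟨V, hV, hVc, h5⟩ := hc b hb b' hb' s U hU
    obtain ⟨C, T, hC, h6⟩ := h5 R
    refine ⟨V, hV, hVc, C, T, hC, ?_⟩
    intro n hn φ hφ
    have h7 := h6 n hn φ hφ
    rw [← h3] at h7
    exact h7
  choose V hV hVc C T hC hb using h1
  rcases (S ×ˢ S').eq_empty_or_nonempty with he | ⟨x₀, hx₀⟩
  · refine CLb_sum P H hAD hAD2 hFP hMQ hph hnu D hD G hG hF S S' hS hS' hpos U c R ∅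
      (fun _ => 1) (fun _ => ∅) (fun _ => 0) (fun _ => 0) (by simp) (fun _ => isCompact_empty)
      (fun _ => ENNReal.zero_ne_top) ?_ (by simp)
    intro s hs s' hs'
    have : (s, s') ∈ S ×ˢ S' := ⟨hs, hs'⟩
    rw [he] at this
    exact this.elim
  · obtain ⟨t, ht⟩ := (hS.prod hS').elim_nhds_subcover'
      (fun x hx => ({x.1} * V ⟨x, hx⟩) ×ˢ ({x.2} * V ⟨x, hx⟩)) (by
        intro x hx
        refine prod_mem_nhds ?_ ?_
        · rw [Set.singleton_mul]
          have h := (Homeomorph.mulLeft x.1).isOpenMap.image_mem_nhds (hV ⟨x, hx⟩)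
          have e : (Homeomorph.mulLeft x.1) 1 = x.1 := mul_one _
          rw [e] at h
          exact h
        · rw [Set.singleton_mul]
          have h := (Homeomorph.mulLeft x.2).isOpenMap.image_mem_nhds (hV ⟨x, hx⟩)
          have e : (Homeomorph.mulLeft x.2) 1 = x.2 := mul_one _
          rw [e] at h
          exact h)
    obtain ⟨f, hf⟩ : ∃ f : ℕ → ↥(S ×ˢ S'), f = fun i => t.toList.getD i ⟨x₀, hx₀⟩ := ⟨_, rfl⟩
    refine CLb_sum P H hAD hAD2 hFP hMQ hph hnu D hD G hG hF S S' hS hS' hpos U c R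
      (Finset.range t.toList.length) (fun i => (f i).1) (fun i => V (f i)) (fun i => C (f i))
      (fun i => T (f i)) (fun i _ => (f i).2.1) (fun i => hVc (f i)) (fun i => hC (f i)) ?_
      (fun i _ => hb (f i))
    intro s hs s' hs'
    have h2 := ht (show (s, s') ∈ S ×ˢ S' from ⟨hs, hs'⟩)
    obtain ⟨x, hx, h3⟩ := Set.mem_iUnion₂.1 h2
    obtain ⟨i, hi, h4⟩ := List.mem_iff_getElem.1 (Finset.mem_toList.2 hx)
    refine ⟨i, Finset.mem_range.2 hi, ?_⟩
    have h5 : f i = x := by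
      rw [hf]
      show t.toList.getD i ⟨x₀, hx₀⟩ = x
      rw [List.getD_eq_getElem _ _ hi, h4]
    show s ∈ {(f i).1.1} * V (f i) ∧ s' ∈ {(f i).1.2} * V (f i)
    rw [h5]
    exact h3

end Pool.Agent.MPEF.U
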