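import Pool.Agent.Lib.MP_ef3f0f_gt.U.F.SpecD

/-!
# MP_ef3f0f_gt, Theorem U, Part F: the masses of the pairs for one type
-/

set_option autoImplicit false
set_option linter.unusedSectionVars false

namespace Pool.Agent.MPEF.U

open MeasureTheory Topology
open scoped ENNReal Pointwise

section CLt

variable (P H : Type) [Group P] [Group H] [TopologicalSpace P] [TopologicalSpace H]
  [IsTopologicalGroup P] [IsTopologicalGroup H] [LocallyCompactSpace P] [LocallyCompactSpace H]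
  [T2Space P] [T2Space H] [SecondCountableTopology P] [SecondCountableTopology H]
  [MeasurableSpace P] [MeasurableSpace H] [BorelSpace P] [BorelSpace H]

/-! ### Measurability -/

private theorem CLt_kkm (μ : Measure P) [μ.IsHaarMeasure] (a : P) {k₁ k₂ : P → ℝ≥0∞}
    (h₁ : Measurable k₁) (h₂ : Measurable k₂) (n : ℕ) : Measurable (kk μ a k₁ k₂ n) := by
  have h : Measurable fun p : P × P => k₁ p.2 * k₂ ((a ^ n)⁻¹ * p.2⁻¹ * p.1) := by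
    refine (h₁.comp measurable_snd).mul (h₂.comp ?_)
    exact ((measurable_snd.inv).const_mul _).mul measurable_fst
  exact h.lintegral_prod_right'

private theorem CLt_num (D : Dat P H) (hD : D.Ok) (n : ℕ) : Measurable (D.nu n) := by
  have i2 := hD.haar₂
  have h : ∀ n, Measurable (D.nuA n) := by
    intro n
    induction n with
    | zero => exact hD.νc.measurable
    | succ n ih =>
      have h1 : Measurable fun p : H × H => D.ν p.2 * D.nuA n (p.2⁻¹ * p.1) :=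
        (hD.νc.measurable.comp measurable_snd).mul
          (ih.comp (measurable_snd.inv.mul measurable_fst))
      exact h1.lintegral_prod_right'
  exact h _

private theorem CLt_edm (D : Dat P H) (hD : D.Ok) (G : PG P) {k₁ k₂ : P → ℝ≥0∞}
    (h₁ : Measurable k₁) (h₂ : Measurable k₂) (n : ℕ) : Measurable (D.ed G k₁ k₂ n) := by
  have i1 := hD.haar₁
  exact ((CLt_kkm P D.μ₁ G.a h₁ h₂ n).comp measurable_fst).mul
    ((CLt_num P H D hD n).comp measurable_snd)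

private theorem CLt_ew (G : PG P) {K : Set P} (hK : IsCompact K) : IsCompact (G.ew K) :=
  ((Homeomorph.inv P).trans (Homeomorph.mulRight G.w)).isCompact_preimage.2 hK

private theorem CLt_iKm {S : Set P} (hS : IsCompact S) : Measurable (iK S) :=
  measurable_const.indicator hS.measurableSet

/-! ### Comparison of the kernels -/

private theorem CLt_ed (D : Dat P H) (G : PG P) {k₁ k₂ k₁' k₂' : P → ℝ≥0∞} {A B : ℝ≥0∞}
    (hA : A ≠ ∞) (hB : B ≠ ∞) (h₁ : ∀ q, k₁ q ≤ A * k₁' q) (h₂ : ∀ q, k₂ q ≤ B * k₂' q)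
    (n : ℕ) (g : P × H) : D.ed G k₁ k₂ n g ≤ A * B * D.ed G k₁' k₂' n g := by
  unfold Dat.ed Dat.tk kk
  rw [← mul_assoc, ← lintegral_const_mul' (A * B) _ (ENNReal.mul_ne_top hA hB)]
  refine mul_le_mul_left (lintegral_mono fun q => ?_) _
  calc k₁ q * k₂ ((G.a ^ n)⁻¹ * q⁻¹ * g.1)
      ≤ (A * k₁' q) * (B * k₂' ((G.a ^ n)⁻¹ * q⁻¹ * g.1)) := mul_le_mul' (h₁ _) (h₂ _)
    _ = A * B * (k₁' q * k₂' ((G.a ^ n)⁻¹ * q⁻¹ * g.1)) := by ring

private theorem CLt_iK {S S' : Set P} (h : S ⊆ S') (g : P) : iK S g ≤ iK S' g :=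
  Set.indicator_le_indicator_of_subset h (fun _ => zero_le) g

private theorem CLt_ed1 (D : Dat P H) (G : PG P) {k₁ k₂ k₁' k₂' : P → ℝ≥0∞}
    (h₁ : ∀ q, k₁ q ≤ k₁' q) (h₂ : ∀ q, k₂ q ≤ k₂' q)
    (n : ℕ) (g : P × H) : D.ed G k₁ k₂ n g ≤ D.ed G k₁' k₂' n g := by
  have h := CLt_ed P H D G (A := 1) (B := 1) ENNReal.one_ne_top ENNReal.one_ne_top
    (k₁ := k₁) (k₂ := k₂) (k₁' := k₁') (k₂' := k₂') (fun q => by rw [one_mul]; exact h₁ q)
    (fun q => by rw [one_mul]; exact h₂ q) n g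
  rwa [one_mul, one_mul] at h

private theorem CLt_N (D : Dat P H) {K K' : P × H → ℝ≥0∞} {A : ℝ≥0∞}
    (h : ∀ g, K g ≤ A * K' g) (x y : P × H) : D.N K x y ≤ A * D.N K' x y := by
  unfold Dat.N
  rw [← ENNReal.tsum_mul_left]
  exact ENNReal.tsum_le_tsum fun u => h _

/-! ### Positivity of the pairs of windows -/

private theorem CLt_pS (G : PG P) (hG : G.Ok) (t : Th P) (ht : t.Ok G) (j : Fin 3) :
    ∀ s ∈ t.S j, ∀ s' ∈ t.S (j + 1), G.Pos s s' := by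
  fin_cases j
  · intro s hs s' hs'
    exact hG.TP _ _ _ (ht.TS s hs s' hs' _ (ht.cS 2))
  · intro s hs s' hs'
    exact hG.TP _ _ _ (hG.Tc _ _ _ (ht.TS _ (ht.cS 0) s hs s' hs'))
  · intro s hs s' hs'
    exact hG.TP _ _ _ (hG.Tc _ _ _ (hG.Tc _ _ _ (ht.TS s' hs' _ (ht.cS 1) s hs)))

private theorem CLt_pK (G : PG P) (hG : G.Ok) (t : Th P) (ht : t.Ok G)
    (hne : ∀ i, (t.K i).Nonempty) (j : Fin 3) :
    ∀ s ∈ t.K j, ∀ s' ∈ t.K (j + 1), G.Pos s s' := by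
  obtain ⟨k0, h0⟩ := hne 0
  obtain ⟨k1, h1⟩ := hne 1
  obtain ⟨k2, h2⟩ := hne 2
  fin_cases j
  · intro s hs s' hs'
    exact (hG.Ps _ _).1 (hG.TP _ _ _ (hG.Tc _ _ _ (ht.TK s hs s' hs' k2 h2)))
  · intro s hs s' hs'
    exact (hG.Ps _ _).1 (hG.TP _ _ _ (ht.TK k0 h0 s hs s' hs'))
  · intro s hs s' hs'
    exact (hG.Ps _ _).1 (hG.TP _ _ _ (hG.Tc _ _ _ (hG.Tc _ _ _ (ht.TK s' hs' k1 h1 s hs))))

/-! ### The terms of the square trick -/

private theorem CLt_single (D : Dat P H) (G : PG P) (f : Wf P) (c : Fin 3 → P) (r : ℕ)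
    (φ : D.Γ → P → ℝ) (N : Fin 3 → ℕ) (hN : ∀ i, r ≤ N i ∧ N i ≤ 4 * r) :
    D.TX G c (D.we G f 0 (N 0)) (D.we G f 1 (N 1)) (D.we G f 2 (N 2)) φ ≤ D.EW G f c r φ := by
  unfold Dat.EW
  have h0 : N 0 ∈ Finset.Icc r (4 * r) := Finset.mem_Icc.2 (hN 0)
  have h1 : N 1 ∈ Finset.Icc r (4 * r) := Finset.mem_Icc.2 (hN 1)
  have h2 : N 2 ∈ Finset.Icc r (4 * r) := Finset.mem_Icc.2 (hN 2)
  refine le_trans ?_ (Finset.single_le_sum (f := fun n₀ => ∑ n₁ ∈ Finset.Icc r (4 * r),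
    ∑ n₂ ∈ Finset.Icc r (4 * r), D.TX G c (D.we G f 0 n₀) (D.we G f 1 n₁) (D.we G f 2 n₂) φ)
    (fun _ _ => zero_le) h0)
  refine le_trans ?_ (Finset.single_le_sum (f := fun n₁ => ∑ n₂ ∈ Finset.Icc r (4 * r),
    D.TX G c (D.we G f 0 (N 0)) (D.we G f 1 n₁) (D.we G f 2 n₂) φ)
    (fun _ _ => zero_le) h1)
  exact Finset.single_le_sum (f := fun n₂ =>
    D.TX G c (D.we G f 0 (N 0)) (D.we G f 1 (N 1)) (D.we G f 2 n₂) φ)
    (fun _ _ => zero_le) h2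

private theorem CLt_cyc (D : Dat P H) (G : PG P) (φ : D.Γ → P → ℝ)
    (hcyc : ∀ (c : Fin 3 → P) (K : Fin 3 → P × H → ℝ≥0∞),
      D.TX G (fun i => c (i + 1)) (K 1) (K 2) (K 0) φ = D.TX G c (K 0) (K 1) (K 2) φ)
    (c : Fin 3 → P) (K : Fin 3 → P × H → ℝ≥0∞) (j : Fin 3) :
    D.TX G (fun i => c (i + j)) (K j) (K (j + 1)) (K (j + 2)) φ =
      D.TX G c (K 0) (K 1) (K 2) φ := by
  fin_cases j
  · simp only [Fin.zero_eta, add_zero, zero_add]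
  · exact hcyc c K
  · have h1 := hcyc (fun i => c (i + 1)) (fun i => K (i + 1))
    have h2 := hcyc c K
    exact h1.trans h2

private theorem CLt_j1 : ∀ j : Fin 3, ¬ j + 1 = j := by decide

private theorem CLt_j2 : ∀ j : Fin 3, ¬ j + 2 = j := by decide

private theorem CLt_j3 : ∀ j : Fin 3, ¬ j + 2 = j + 1 := by decide

private theorem CLt_TX (D : Dat P H) (G : PG P) (f : Wf P) (t : Th P) (r : ℕ)
    (φ : D.Γ → P → ℝ)
    (hcyc : ∀ (c : Fin 3 → P) (K : Fin 3 → P × H → ℝ≥0∞),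
      D.TX G (fun i => c (i + 1)) (K 1) (K 2) (K 0) φ = D.TX G c (K 0) (K 1) (K 2) φ)
    (hmono : ∀ (c : Fin 3 → P) (A : ℝ≥0∞), A ≠ ∞ → ∀ (K K' : Fin 3 → P × H → ℝ≥0∞),
      (∀ i g, K i g ≤ A * K' i g) →
      D.TX G c (K 0) (K 1) (K 2) φ ≤ A ^ 3 * D.TX G c (K' 0) (K' 1) (K' 2) φ)
    (j : Fin 3) (Ka Kb : P × H → ℝ≥0∞) (na nb nc : ℕ) (ha : r ≤ na ∧ na ≤ 4 * r)
    (hb : r ≤ nb ∧ nb ≤ 4 * r) (hc : r ≤ nc ∧ nc ≤ 4 * r)
    (hKa : ∀ g, Ka g ≤ D.we G f j na g) (hKb : ∀ g, Kb g ≤ D.we G f (j + 1) nb g) :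
    D.TX G (fun i => t.c (i + j)) Ka Kb (D.we G f (j + 2) nc) φ ≤ D.EW G f t.c r φ := by
  obtain ⟨N, hN⟩ : ∃ N : Fin 3 → ℕ, N = fun i => if i = j then na else if i = j + 1 then nb
    else nc := ⟨_, rfl⟩
  have e0 : N j = na := by rw [hN]; exact if_pos rfl
  have e1 : N (j + 1) = nb := by
    rw [hN]
    change (if j + 1 = j then na else if j + 1 = j + 1 then nb else nc) = nb
    rw [if_neg (CLt_j1 j), if_pos rfl]
  have e2 : N (j + 2) = nc := by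
    rw [hN]
    change (if j + 2 = j then na else if j + 2 = j + 1 then nb else nc) = nc
    rw [if_neg (CLt_j2 j), if_neg (CLt_j3 j)]
  have h1 := hmono (fun i => t.c (i + j)) 1 ENNReal.one_ne_top
    ![Ka, Kb, D.we G f (j + 2) nc]
    ![D.we G f j na, D.we G f (j + 1) nb, D.we G f (j + 2) nc] (by
      intro i g
      rw [one_mul]
      fin_cases i
      · exact hKa g
      · exact hKb g
      · exact le_rfl)
  rw [one_pow, one_mul] at h1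
  refine le_trans h1 ?_
  have h2 := CLt_cyc P H D G φ hcyc t.c (fun i => D.we G f i (N i)) j
  simp only [e0, e1, e2] at h2
  change D.TX G (fun i => t.c (i + j)) (D.we G f j na) (D.we G f (j + 1) nb)
    (D.we G f (j + 2) nc) φ ≤ _
  rw [h2]
  refine CLt_single P H D G f t.c r φ N fun i => ?_
  rw [hN]
  dsimp only
  split_ifs
  · exact ha
  · exact hb
  · exact hc

private theorem CLt_one (hSQ : S_SQ P H) (hTXc : S_TXc P H) (hCL1 : S_CL1 P H)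
    (hUpG : S_UpG P H) (hLoG : S_LoG P H) (_hAD : S_AD P) (hDF : S_DF P)
    (D : Dat P H) (hD : D.Ok) (G : PG P) (hG : G.Ok) (hF : G.OkF) (hGG : G.OkG)
    (NK : Set (P → ℝ≥0∞)) (hNK : NiceOk NK) (hE : Equi D G NK) (t t' : Th P) (ht : t.Ok G)
    (ht' : t'.Ok G) (hin : t.In t') (j : Fin 3) : ∃ c : ℕ, ∀ R : ℕ, ∀ U ∈ 𝓝 (1 : P),
    ∀ f : Wf P, f.Ok G t t' R → ∃ (C : ℝ≥0∞) (r₀ : ℕ), C ≠ ∞ ∧ ∀ r, r₀ ≤ r →
      ∀ φ : D.Γ → P → ℝ, Adm D G φ → ∀ B : ℝ≥0∞,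
        (∀ N, 11 * r ≤ 5 * N → 5 * N ≤ 27 * r → D.LI G U (R + c) N φ ≤ B) →
        ∀ n m, r ≤ n → n ≤ 4 * r → r ≤ m → m ≤ 4 * r →
          D.PX G (t.c j) (D.we G f j n) (D.we G f (j + 1) m) φ ≤ C * (D.EW G f t.c r φ + B) := by
  have i1 := hD.haar₁
  have i2 := hD.right₁
  have i3 := hD.inv₁
  have hKne : ∀ i, (t'.K i).Nonempty := fun i =>
    ((hin i).2.2.2.2.mono interior_subset).mono ((hin i).2.2.1.trans interior_subset)
  have hSS : ∀ i, t.S i ⊆ t'.S i := fun i => (hin i).2.1.trans interior_subset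
  have hKK : ∀ i, t.K i ⊆ t'.K i := fun i => (hin i).2.2.1.trans interior_subset
  obtain ⟨c, hc⟩ := hCL1 D hD G hG hF hGG (t'.S j) (t'.K j) (t'.S (j + 1)) (t'.K (j + 1))
    (ht'.Sc j) (ht'.Kc j) (ht'.Sc _) (ht'.Kc _) (CLt_pS P G hG t' ht' j)
    (CLt_pK P G hG t' ht' hKne j)
  refine ⟨c, fun R U hU f hf => ?_⟩
  obtain ⟨hD1c, -, -, -, hD1m, -⟩ := hDF G hG
  obtain ⟨C1, T1, hC1, h1⟩ := hc U hU R 0
  obtain ⟨C2, T2, hC2, h2⟩ := hc U hU 0 R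
  obtain ⟨C3, T3, hC3, h3⟩ := hc U hU 0 0
  obtain ⟨Cs, hCs, hsu⟩ := hf.su
  obtain ⟨Ck, hCk, hku⟩ := hf.ku
  have hCsk : Cs * Ck ≠ ∞ := ENNReal.mul_ne_top hCs hCk
  -- comparison of the kernels
  have W1 : ∀ i n g, D.eg G (t.S i) (t.K i) 0 n g ≤ D.we G f i n g := by
    intro i n g
    refine CLt_ed1 P H D G (fun q => ?_) (fun q => hf.kl i q) n g
    exact (CLt_iK P (Set.mul_subset_mul_left (hD1m 0 R (Nat.zero_le R))) q).trans (hf.sl i q)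
  have W2 : ∀ i n g, D.we G f i n g ≤ Cs * Ck * D.eg G (t'.S i) (t'.K i) R n g :=
    fun i n g => CLt_ed P H D G hCs hCk (hsu i) (hku i) n g
  have W3 : ∀ i n g, D.eg G (t.S i) (t.K i) 0 n g ≤ D.eg G (t'.S i) (t'.K i) 0 n g := by
    intro i n g
    refine CLt_ed1 P H D G (fun q => ?_) (fun q => ?_) n g
    · exact CLt_iK P (Set.mul_subset_mul_right (hSS i)) q
    · exact CLt_iK P (S := G.ew (t.K i)) (S' := G.ew (t'.K i)) (fun q hq => hKK i hq) q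
  -- bounds for the numbers of edges
  choose Au hAu hu using fun i : Fin 3 =>
    hUpG D hD G hG NK hNK hE (t'.S i) (t'.K i) (ht'.Sc i) (ht'.Kc i) R
  choose Av hAv hv using fun i : Fin 3 =>
    hUpG D hD G hG NK hNK hE (t.S i) (t.K i) (ht.Sc i) (ht.Kc i) 0
  choose al Tl hal hl using fun i : Fin 3 =>
    hLoG D hD G hG NK hNK hE (t.S i) (t.K i) (hin i).2.2.2.1 (hin i).2.2.2.2
  obtain ⟨A, hA⟩ : ∃ A : ℝ≥0∞, A = ∑ i, (Cs * Ck * Au i + Av i) := ⟨_, rfl⟩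
  have hAt : A ≠ ∞ := by
    rw [hA]
    exact ENNReal.sum_ne_top.2 fun i _ =>
      ENNReal.add_ne_top.2 ⟨ENNReal.mul_ne_top hCsk (hAu i), hAv i⟩
  have hAle : ∀ i, Cs * Ck * Au i + Av i ≤ A := by
    intro i
    rw [hA]
    exact Finset.single_le_sum (f := fun i => Cs * Ck * Au i + Av i) (fun _ _ => zero_le)
      (Finset.mem_univ i)
  have N1 : ∀ i n x y, D.N (D.we G f i n) x y ≤ A := by
    intro i n x y
    refine (CLt_N P H D (W2 i n) x y).trans (le_trans ?_ (hAle i))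
    exact (mul_le_mul_right (hu i n x y) _).trans le_self_add
  have N2 : ∀ i n x y, D.N (D.eg G (t.S i) (t.K i) 0 n) x y ≤ A := by
    intro i n x y
    exact (hv i n x y).trans (le_add_self.trans (hAle i))
  have N3 : ∀ i n x y, D.N (D.eg G (t.S i) (t.K i) 0 n) x y ≤ D.N (D.we G f i n) x y := by
    intro i n x y
    unfold Dat.N
    exact ENNReal.tsum_le_tsum fun u => W1 i n _
  obtain ⟨a, ha⟩ : ∃ a : ℝ≥0∞, a = min (al j) (min (al (j + 1)) (al (j + 2))) := ⟨_, rfl⟩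
  have ha0 : a ≠ 0 := by
    rw [ha]
    refine (lt_min (pos_iff_ne_zero.2 (hal _)) (lt_min (pos_iff_ne_zero.2 (hal _))
      (pos_iff_ne_zero.2 (hal _)))).ne'
  have ha1 : a ≤ al j := by rw [ha]; exact min_le_left _ _
  have ha2 : a ≤ al (j + 1) := by rw [ha]; exact (min_le_right _ _).trans (min_le_left _ _)
  have ha3 : a ≤ al (j + 2) := by rw [ha]; exact (min_le_right _ _).trans (min_le_right _ _)
  -- measurability
  have M1 : ∀ i n, Measurable (D.we G f i n) := fun i n =>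
    CLt_edm P H D hD G (hf.sm i) (hf.km i) n
  have M2 : ∀ i n, Measurable (D.eg G (t.S i) (t.K i) 0 n) := fun i n =>
    CLt_edm P H D hD G (CLt_iKm P ((ht.Sc i).mul (hD1c 0)))
      (CLt_iKm P (CLt_ew P G (ht.Kc i))) n
  obtain ⟨A0, hA0⟩ : ∃ A0 : ℝ≥0∞, A0 = 1 + Cs * Ck := ⟨_, rfl⟩
  have hA0t : A0 ≠ ∞ := by rw [hA0]; exact ENNReal.add_ne_top.2 ⟨ENNReal.one_ne_top, hCsk⟩
  have W2' : ∀ i n g, D.we G f i n g ≤ A0 * D.eg G (t'.S i) (t'.K i) R n g := fun i n g =>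
    (W2 i n g).trans (mul_le_mul_left (by rw [hA0]; exact le_add_self) _)
  have W3' : ∀ i n g, D.eg G (t.S i) (t.K i) 0 n g ≤ A0 * D.eg G (t'.S i) (t'.K i) 0 n g := by
    intro i n g
    refine (W3 i n g).trans ?_
    calc D.eg G (t'.S i) (t'.K i) 0 n g = 1 * D.eg G (t'.S i) (t'.K i) 0 n g := (one_mul _).symm
      _ ≤ A0 * D.eg G (t'.S i) (t'.K i) 0 n g :=
        mul_le_mul_left (by rw [hA0]; exact le_self_add) _
  refine ⟨(a⁻¹) ^ 3 * (1 + A) ^ 3 * (4 + A0 ^ 2 * (C1 + C2 + C3)),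
    T1 + T2 + T3 + Tl j + Tl (j + 1) + Tl (j + 2) + 5, ?_, ?_⟩
  · refine ENNReal.mul_ne_top (ENNReal.mul_ne_top (ENNReal.pow_ne_top (ENNReal.inv_ne_top.2 ha0))
      (ENNReal.pow_ne_top (ENNReal.add_ne_top.2 ⟨ENNReal.one_ne_top, hAt⟩))) ?_
    refine ENNReal.add_ne_top.2 ⟨ENNReal.ofNat_ne_top, ENNReal.mul_ne_top
      (ENNReal.pow_ne_top hA0t) ?_⟩
    exact ENNReal.add_ne_top.2 ⟨ENNReal.add_ne_top.2 ⟨hC1, hC2⟩, hC3⟩
  intro r hr φ hφ B hB n m hrn hn4 hrm hm4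
  obtain ⟨hcyc, htm, hpm, hlim⟩ := hTXc D hD G hG φ
  obtain ⟨r', hr'⟩ : ∃ r' : ℕ, r' = 6 * r / 5 + 1 := ⟨_, rfl⟩
  have hr1 : 6 * r + 1 ≤ 5 * r' := by omega
  have hr2 : 5 * r' ≤ 6 * r + 5 := by omega
  have hcj : t.c j = t'.c j := (hin j).1
  have hcS : t.c j ∈ t'.S j := hSS j (ht.cS j)
  have hLI : ∀ R' N, R' ≤ R + c → 11 * r ≤ 5 * N → 5 * N ≤ 27 * r →
      D.LI G U R' N φ ≤ B := fun R' N h h' h'' =>
    (hlim U U R' (R + c) N subset_rfl h).trans (hB N h' h'')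
  have P1 : D.PX G (t.c j) (D.we G f j n) (D.eg G (t.S (j + 1)) (t.K (j + 1)) 0 r') φ ≤
      A0 ^ 2 * (C1 * B) := by
    refine (hpm (t.c j) A0 hA0t _ _ _ _ (W2' j n) (W3' (j + 1) r')).trans ?_
    refine mul_le_mul_right ((h1 n r' (by omega) (by omega) φ hφ _ hcS).trans ?_) _
    exact mul_le_mul_right (hLI _ _ (by omega) (by omega) (by omega)) _
  have P2 : D.PX G (t.c j) (D.eg G (t.S j) (t.K j) 0 r') (D.we G f (j + 1) m) φ ≤
      A0 ^ 2 * (C2 * B) := by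
    refine (hpm (t.c j) A0 hA0t _ _ _ _ (W3' j r') (W2' (j + 1) m)).trans ?_
    refine mul_le_mul_right ((h2 r' m (by omega) (by omega) φ hφ _ hcS).trans ?_) _
    exact mul_le_mul_right (hLI _ _ (by omega) (by omega) (by omega)) _
  have P3 : D.PX G (t.c j) (D.eg G (t.S j) (t.K j) 0 r')
      (D.eg G (t.S (j + 1)) (t.K (j + 1)) 0 r') φ ≤ A0 ^ 2 * (C3 * B) := by
    refine (hpm (t.c j) A0 hA0t _ _ _ _ (W3' j r') (W3' (j + 1) r')).trans ?_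
    refine mul_le_mul_right ((h3 r' r' (by omega) (by omega) φ hφ _ hcS).trans ?_) _
    exact mul_le_mul_right (hLI _ _ (by omega) (by omega) (by omega)) _
  have hTX : ∀ (Ka Kb : P × H → ℝ≥0∞) (na nb : ℕ), r ≤ na ∧ na ≤ 4 * r → r ≤ nb ∧ nb ≤ 4 * r →
      (∀ g, Ka g ≤ D.we G f j na g) → (∀ g, Kb g ≤ D.we G f (j + 1) nb g) →
      D.TX G (fun i => t.c (i + j)) Ka Kb (D.we G f (j + 2) (2 * r)) φ ≤ D.EW G f t.c r φ :=
    fun Ka Kb na nb ha hb hKa hKb => CLt_TX P H D G f t r φ hcyc htm j Ka Kb na nb (2 * r)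
      ha hb (by omega) hKa hKb
  have key := hSQ D hD G hG (fun i => t.c (i + j)) (D.we G f j n)
    (D.eg G (t.S j) (t.K j) 0 r') (D.we G f (j + 1) m) (D.eg G (t.S (j + 1)) (t.K (j + 1)) 0 r')
    (D.we G f (j + 2) (2 * r)) (M1 _ _) (M2 _ _) (M1 _ _) (M2 _ _) (M1 _ _) A a hAt ha0
    (N1 _ _) (N2 _ _) (N1 _ _) (N2 _ _) (N1 _ _)
    (fun x y => ha1.trans (hl j r' (by omega) x y))
    (fun x y => ha2.trans (hl (j + 1) r' (by omega) x y))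
    (fun x y => (ha3.trans (hl (j + 2) (2 * r) (by omega) x y)).trans (N3 _ _ x y)) φ hφ
  simp only [zero_add] at key
  refine key.trans ?_
  rw [mul_assoc ((a⁻¹) ^ 3 * (1 + A) ^ 3)]
  refine mul_le_mul_right ?_ _
  have E1 := hTX (D.we G f j n) (D.we G f (j + 1) m) n m ⟨hrn, hn4⟩ ⟨hrm, hm4⟩
    (fun _ => le_rfl) (fun _ => le_rfl)
  have E2 := hTX (D.eg G (t.S j) (t.K j) 0 r') (D.we G f (j + 1) m) r' m (by omega) ⟨hrm, hm4⟩
    (W1 j r') (fun _ => le_rfl)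
  have E3 := hTX (D.we G f j n) (D.eg G (t.S (j + 1)) (t.K (j + 1)) 0 r') n r' ⟨hrn, hn4⟩
    (by omega) (fun _ => le_rfl) (W1 (j + 1) r')
  have E4 := hTX (D.eg G (t.S j) (t.K j) 0 r') (D.eg G (t.S (j + 1)) (t.K (j + 1)) 0 r') r' r'
    (by omega) (by omega) (W1 j r') (W1 (j + 1) r')
  obtain ⟨W, hW⟩ : ∃ W : ℝ≥0∞, W = D.EW G f t.c r φ := ⟨_, rfl⟩
  rw [← hW] at E1 E2 E3 E4 ⊢
  calc _ ≤ A0 ^ 2 * (C1 * B) + A0 ^ 2 * (C2 * B) + A0 ^ 2 * (C3 * B) + W + W + W + W :=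
        add_le_add (add_le_add (add_le_add (add_le_add (add_le_add (add_le_add P1 P2) P3) E1)
          E2) E3) E4
    _ = A0 ^ 2 * (C1 + C2 + C3) * B + 4 * W := by ring
    _ ≤ (4 + A0 ^ 2 * (C1 + C2 + C3)) * B + (4 + A0 ^ 2 * (C1 + C2 + C3)) * W :=
        add_le_add (mul_le_mul_left le_add_self _) (mul_le_mul_left le_self_add _)
    _ = (4 + A0 ^ 2 * (C1 + C2 + C3)) * (W + B) := by ring

theorem tCLt : S_SQ P H → S_TXc P H → S_CL1 P H → S_UpG P H → S_LoG P H → S_AD P → S_DF P →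
    S_CLt P H := by
  intro hSQ hTXc hCL1 hUpG hLoG hAD hDF D hD G hG hF hGG NK hNK hE t t' ht ht' hin
  choose c hc using fun j : Fin 3 => CLt_one P H hSQ hTXc hCL1 hUpG hLoG hAD hDF D hD G hG hF
    hGG NK hNK hE t t' ht ht' hin j
  refine ⟨c 0 + c 1 + c 2, fun R U hU f hf => ?_⟩
  choose C r₀ hC h using fun j : Fin 3 => hc j R U hU f hf
  refine ⟨16 * (C 0 + C 1 + C 2), r₀ 0 + r₀ 1 + r₀ 2 + 1, ?_, ?_⟩
  · exact ENNReal.mul_ne_top ENNReal.ofNat_ne_top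
      (ENNReal.add_ne_top.2 ⟨ENNReal.add_ne_top.2 ⟨hC 0, hC 1⟩, hC 2⟩)
  intro r hr φ hφ B hB
  obtain ⟨-, -, -, hlim⟩ := hTXc D hD G hG φ
  have hB' : ∀ j : Fin 3, ∀ N, 11 * r ≤ 5 * N → 5 * N ≤ 27 * r →
      D.LI G U (R + c j) N φ ≤ B := by
    intro j N h1 h2
    refine (hlim U U (R + c j) (R + (c 0 + c 1 + c 2)) N subset_rfl ?_).trans (hB N h1 h2)
    fin_cases j
    · change R + c 0 ≤ _
      omega
    · change R + c 1 ≤ _
      omega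
    · change R + c 2 ≤ _
      omega
  obtain ⟨W, hW⟩ : ∃ W : ℝ≥0∞, W = D.EW G f t.c r φ + B := ⟨_, rfl⟩
  have h0 := fun n m a1 a2 a3 a4 => h 0 r (by omega) φ hφ B (hB' 0) n m a1 a2 a3 a4
  have h1 := fun n m a1 a2 a3 a4 => h 1 r (by omega) φ hφ B (hB' 1) n m a1 a2 a3 a4
  have h2 := fun n m a1 a2 a3 a4 => h 2 r (by omega) φ hφ B (hB' 2) n m a1 a2 a3 a4
  rw [← hW] at h0 h1 h2 ⊢
  unfold Dat.AW
  have hterm : ∀ n ∈ Finset.Icc r (4 * r), ∀ m ∈ Finset.Icc r (4 * r),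
      D.PX G (t.c 0) (D.we G f 0 n) (D.we G f 1 m) φ +
        D.PX G (t.c 1) (D.we G f 1 n) (D.we G f 2 m) φ +
        D.PX G (t.c 2) (D.we G f 2 n) (D.we G f 0 m) φ ≤ (C 0 + C 1 + C 2) * W := by
    intro n hn m hm
    rw [Finset.mem_Icc] at hn hm
    rw [add_mul, add_mul]
    exact add_le_add (add_le_add (h0 n m hn.1 hn.2 hm.1 hm.2) (h1 n m hn.1 hn.2 hm.1 hm.2))
      (h2 n m hn.1 hn.2 hm.1 hm.2)
  calc _ ≤ ∑ n ∈ Finset.Icc r (4 * r), ∑ m ∈ Finset.Icc r (4 * r), (C 0 + C 1 + C 2) * W :=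
        Finset.sum_le_sum fun n hn => Finset.sum_le_sum fun m hm => hterm n hn m hm
    _ = ((4 * r + 1 - r : ℕ) : ℝ≥0∞) * (((4 * r + 1 - r : ℕ) : ℝ≥0∞) *
          ((C 0 + C 1 + C 2) * W)) := by
        rw [Finset.sum_const, Finset.sum_const, Nat.card_Icc, nsmul_eq_mul, nsmul_eq_mul]
    _ ≤ (4 * (r : ℝ≥0∞)) * ((4 * (r : ℝ≥0∞)) * ((C 0 + C 1 + C 2) * W)) := by
        have h5 : ((4 * r + 1 - r : ℕ) : ℝ≥0∞) ≤ 4 * (r : ℝ≥0∞) := by
          have h6 : (4 * r + 1 - r : ℕ) ≤ 4 * r := by omega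
          calc ((4 * r + 1 - r : ℕ) : ℝ≥0∞) ≤ ((4 * r : ℕ) : ℝ≥0∞) := by exact_mod_cast h6
            _ = 4 * (r : ℝ≥0∞) := by push_cast; rfl
        exact mul_le_mul' h5 (mul_le_mul' h5 le_rfl)
    _ = 16 * (C 0 + C 1 + C 2) * (r : ℝ≥0∞) ^ 2 * W := by ring

end CLt

end Pool.Agent.MPEF.U
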