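import Pool.Agent.Lib.MP_ef3f0f_gt.U.F.SpecA

set_option autoImplicit false

/-!
# MP_ef3f0f_gt, Theorem U, Part F, module `CTc`: contraction for a compact set
-/

namespace Pool.Agent.MPEF.U

open MeasureTheory Topology
open scoped ENNReal Pointwise

variable (P : Type) [Group P] [TopologicalSpace P] [IsTopologicalGroup P] [LocallyCompactSpace P]
  [T2Space P]

/-- The set of the `q` with `q q₀⁻¹ ∈ V` is a neighbourhood of `q₀`. -/
theorem CTc_nhds (q₀ : P) {V : Set P} (hV : V ∈ 𝓝 (1 : P)) : {q | q * q₀⁻¹ ∈ V} ∈ 𝓝 q₀ := by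
  have h1 : Filter.Tendsto (fun q : P => q * q₀⁻¹) (𝓝 q₀) (𝓝 (q₀ * q₀⁻¹)) :=
    (continuous_mul_const q₀⁻¹).tendsto q₀
  rw [mul_inv_cancel] at h1
  exact h1 hV

theorem tCTc : S_DF P → S_CTc P := by
  intro hDF G hG Q hQ hpos U hU
  have hmono := (hDF G hG).2.2.2.2.2.2.2.2.2.1
  refine hQ.induction_on (p := fun Q =>
    ∃ k : ℕ, ∀ s ∈ G.Dp k, ∀ q ∈ Q, ∃ e ∈ U, ∃ b ∈ G.Bor, s * q = e * b) ?_ ?_ ?_ ?_
  · exact ⟨0, fun s _ q hq => hq.elim⟩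
  · rintro A B hAB ⟨k, hk⟩
    exact ⟨k, fun s hs q hq => hk s hs q (hAB hq)⟩
  · rintro A B ⟨k, hk⟩ ⟨l, hl⟩
    refine ⟨max k l, fun s hs q hq => ?_⟩
    rcases hq with hq | hq
    · exact hk s (hmono k _ (le_max_left k l) hs) q hq
    · exact hl s (hmono l _ (le_max_right k l) hs) q hq
  · intro q₀ hq₀
    obtain ⟨V, hV, k, hk⟩ := hG.CT q₀ (hpos q₀ hq₀) U hU
    refine ⟨_, mem_nhdsWithin_of_mem_nhds (CTc_nhds P q₀ hV), k, fun s hs q hq => ?_⟩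
    have h1 := hk s hs _ hq 1 (mem_of_mem_nhds hV)
    rwa [inv_mul_cancel_right, mul_one] at h1

end Pool.Agent.MPEF.U
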