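import Pool.Agent.Lib.MP_ef3f0f_gt.U.F.SpecB

set_option autoImplicit false
set_option linter.unusedSectionVars false

/-!
# MP_ef3f0f_gt, Theorem U, Part F: convolution of two kernels `kk`
-/

namespace Pool.Agent.MPEF.U

open MeasureTheory Topology
open scoped ENNReal Pointwise

variable (P : Type) [Group P] [TopologicalSpace P] [IsTopologicalGroup P] [LocallyCompactSpace P]
  [T2Space P] [SecondCountableTopology P] [MeasurableSpace P] [BorelSpace P]

variable {P} in
/-- `kk` is measurable. -/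
private theorem CV_meas (μ : Measure P) [SFinite μ] (a : P) {k k' : P → ℝ≥0∞}
    (hk : Measurable k) (hk' : Measurable k') (n : ℕ) : Measurable (kk μ a k k' n) := by
  unfold kk
  have h : Measurable fun z : P × P => k z.2 * k' ((a ^ n)⁻¹ * z.2⁻¹ * z.1) :=
    (hk.comp measurable_snd).mul
      (hk'.comp ((measurable_const.mul measurable_snd.inv).mul measurable_fst))
  exact h.lintegral_prod_right'

variable {P} in
/-- The integral of a function against `kk`. -/
private theorem CV_L (μ : Measure P) [μ.IsHaarMeasure] (a : P) {k k' F : P → ℝ≥0∞}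
    (hk : Measurable k) (hk' : Measurable k') (hF : Measurable F) (n : ℕ) :
    ∫⁻ h, kk μ a k k' n h * F h ∂μ =
      ∫⁻ q, k q * ∫⁻ p, k' p * F (q * a ^ n * p) ∂μ ∂μ := by
  unfold kk
  calc ∫⁻ h, (∫⁻ q, k q * k' ((a ^ n)⁻¹ * q⁻¹ * h) ∂μ) * F h ∂μ
      = ∫⁻ h, ∫⁻ q, k q * k' ((a ^ n)⁻¹ * q⁻¹ * h) * F h ∂μ ∂μ := by
        refine lintegral_congr fun h => ?_
        rw [lintegral_mul_const]
        exact hk.mul (hk'.comp ((measurable_const.mul measurable_inv).mul measurable_const))
    _ = ∫⁻ q, ∫⁻ h, k q * k' ((a ^ n)⁻¹ * q⁻¹ * h) * F h ∂μ ∂μ := by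
        refine lintegral_lintegral_swap (Measurable.aemeasurable ?_)
        exact ((hk.comp measurable_snd).mul
          (hk'.comp ((measurable_const.mul measurable_snd.inv).mul measurable_fst))).mul
          (hF.comp measurable_fst)
    _ = ∫⁻ q, k q * ∫⁻ p, k' p * F (q * a ^ n * p) ∂μ ∂μ := by
        refine lintegral_congr fun q => ?_
        rw [← lintegral_mul_left_eq_self (fun h => k q * k' ((a ^ n)⁻¹ * q⁻¹ * h) * F h) (q * a ^ n),
          ← lintegral_const_mul]
        · refine lintegral_congr fun p => ?_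
          have e : (a ^ n)⁻¹ * q⁻¹ * (q * a ^ n * p) = p := by group
          rw [e, mul_assoc]
        · exact hk'.mul (hF.comp (measurable_const.mul measurable_id))

variable {P} in
private theorem CV_kk0 (μ : Measure P) (a : P) (k k' : P → ℝ≥0∞) :
    cvP μ k k' = kk μ a k k' 0 := by
  funext g
  unfold cvP kk
  refine lintegral_congr fun q => ?_
  rw [pow_zero, inv_one, one_mul]

theorem tCV : S_CV P := by
  intro μ _ _ _ a k₁ k₂ k₃ k₄ h₁ h₂ h₃ h₄
  have hint : ∀ (k k' : P → ℝ≥0∞), Measurable k → Measurable k' → ∀ n : ℕ,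
      ∫⁻ g, kk μ a k k' n g ∂μ = (∫⁻ g, k g ∂μ) * ∫⁻ g, k' g ∂μ := by
    intro k k' hk hk' n
    have h := CV_L μ a hk hk' (measurable_const (a := (1 : ℝ≥0∞))) n
    simp only [mul_one] at h
    rw [h, lintegral_mul_const _ hk]
  refine ⟨fun n m g => ?_, fun n => CV_meas μ a h₁ h₂ n, ?_, fun n => hint _ _ h₁ h₂ n, ?_⟩
  · have hm34 := CV_meas μ a h₃ h₄ m
    -- the left side
    have e1 : cvP μ (kk μ a k₁ k₂ n) (kk μ a k₃ k₄ m) g =
        ∫⁻ q, k₁ q * ∫⁻ p, k₂ p * kk μ a k₃ k₄ m ((q * a ^ n * p)⁻¹ * g) ∂μ ∂μ :=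
      CV_L μ a h₁ h₂ (F := fun h => kk μ a k₃ k₄ m (h⁻¹ * g))
        (hm34.comp (measurable_inv.mul measurable_const)) n
    -- the function of three variables
    set ψ : P × P × P → ℝ≥0∞ := fun z =>
      k₄ ((a ^ m)⁻¹ * z.2.2⁻¹ * ((z.1 * a ^ n * z.2.1)⁻¹ * g)) with hψ
    have hψm : Measurable ψ :=
      h₄.comp ((measurable_const.mul measurable_snd.snd.inv).mul
        (((measurable_fst.mul measurable_const).mul measurable_snd.fst).inv.mul measurable_const))
    have e2 : ∀ q p : P, kk μ a k₃ k₄ m ((q * a ^ n * p)⁻¹ * g) =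
        ∫⁻ q', k₃ q' * ψ (q, p, q') ∂μ := fun q p => rfl
    -- the right side
    have hFm : Measurable fun p : P => ∫⁻ q, k₁ q * k₄ ((a ^ n * p * a ^ m)⁻¹ * q⁻¹ * g) ∂μ := by
      have h : Measurable fun z : P × P =>
          k₁ z.2 * k₄ ((a ^ n * z.1 * a ^ m)⁻¹ * z.2⁻¹ * g) :=
        (h₁.comp measurable_snd).mul (h₄.comp
          ((((measurable_const.mul measurable_fst).mul measurable_const).inv.mul
            measurable_snd.inv).mul measurable_const))
      exact h.lintegral_prod_right'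
    have e3 : ∫⁻ p, cvP μ k₂ k₃ p * (∫⁻ q, k₁ q * k₄ ((a ^ n * p * a ^ m)⁻¹ * q⁻¹ * g) ∂μ) ∂μ =
        ∫⁻ p, k₂ p * ∫⁻ q', k₃ q' * ∫⁻ q, k₁ q * ψ (q, p, q') ∂μ ∂μ ∂μ := by
      rw [CV_kk0 μ a k₂ k₃, CV_L μ a h₂ h₃ hFm 0]
      refine lintegral_congr fun p => ?_
      congr 1
      refine lintegral_congr fun q' => ?_
      congr 1
      refine lintegral_congr fun q => ?_
      rw [hψ]
      congr 2
      simp only [pow_zero]
      group
    rw [e1, e3]
    have m1 : Measurable fun z : P × P => ∫⁻ q', k₃ q' * ψ (z.1, z.2, q') ∂μ := by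
      have h : Measurable fun z : (P × P) × P => k₃ z.2 * ψ (z.1.1, z.1.2, z.2) :=
        (h₃.comp measurable_snd).mul (hψm.comp
          (measurable_fst.fst.prodMk (measurable_fst.snd.prodMk measurable_snd)))
      exact h.lintegral_prod_right'
    calc ∫⁻ q, k₁ q * ∫⁻ p, k₂ p * kk μ a k₃ k₄ m ((q * a ^ n * p)⁻¹ * g) ∂μ ∂μ
        = ∫⁻ q, ∫⁻ p, k₁ q * (k₂ p * ∫⁻ q', k₃ q' * ψ (q, p, q') ∂μ) ∂μ ∂μ := by
          refine lintegral_congr fun q => ?_
          rw [← lintegral_const_mul]
          · rfl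
          · exact h₂.mul (m1.comp (measurable_const.prodMk measurable_id))
      _ = ∫⁻ p, ∫⁻ q, k₁ q * (k₂ p * ∫⁻ q', k₃ q' * ψ (q, p, q') ∂μ) ∂μ ∂μ := by
          refine lintegral_lintegral_swap (Measurable.aemeasurable ?_)
          exact (h₁.comp measurable_fst).mul ((h₂.comp measurable_snd).mul m1)
      _ = ∫⁻ p, k₂ p * ∫⁻ q', k₃ q' * ∫⁻ q, k₁ q * ψ (q, p, q') ∂μ ∂μ ∂μ := by
          refine lintegral_congr fun p => ?_
          have m2 : Measurable fun z : P × P => ψ (z.1, p, z.2) :=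
            hψm.comp (measurable_fst.prodMk (measurable_const.prodMk measurable_snd))
          calc ∫⁻ q, k₁ q * (k₂ p * ∫⁻ q', k₃ q' * ψ (q, p, q') ∂μ) ∂μ
              = ∫⁻ q, k₂ p * ∫⁻ q', k₁ q * (k₃ q' * ψ (q, p, q')) ∂μ ∂μ := by
                refine lintegral_congr fun q => ?_
                rw [lintegral_const_mul]
                · ring
                · exact h₃.mul (m2.comp (measurable_const.prodMk measurable_id))
            _ = k₂ p * ∫⁻ q, ∫⁻ q', k₁ q * (k₃ q' * ψ (q, p, q')) ∂μ ∂μ := by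
                rw [lintegral_const_mul]
                have h : Measurable fun z : P × P => k₁ z.1 * (k₃ z.2 * ψ (z.1, p, z.2)) :=
                  (h₁.comp measurable_fst).mul ((h₃.comp measurable_snd).mul m2)
                exact h.lintegral_prod_right'
            _ = k₂ p * ∫⁻ q', ∫⁻ q, k₁ q * (k₃ q' * ψ (q, p, q')) ∂μ ∂μ := by
                congr 1
                refine lintegral_lintegral_swap (Measurable.aemeasurable ?_)
                exact (h₁.comp measurable_fst).mul ((h₃.comp measurable_snd).mul m2)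
            _ = k₂ p * ∫⁻ q', k₃ q' * ∫⁻ q, k₁ q * ψ (q, p, q') ∂μ ∂μ := by
                congr 1
                refine lintegral_congr fun q' => ?_
                rw [← lintegral_const_mul]
                · refine lintegral_congr fun q => ?_
                  ring
                · exact h₁.mul (m2.comp (measurable_id.prodMk measurable_const))
  · rw [CV_kk0 μ a]
    exact CV_meas μ a h₂ h₃ 0
  · rw [CV_kk0 μ a]
    exact hint _ _ h₂ h₃ 0

end Pool.Agent.MPEF.U
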