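import Pool.Agent.Lib.MP_ef3f0f_gt.U.F.SpecA

set_option autoImplicit false

/-!
# MP_ef3f0f_gt, Theorem U, Part F: facts on `D1 ^ R`, `a ^ n`, `Dp k` (module DF)
-/

namespace Pool.Agent.MPEF.U

open MeasureTheory Topology
open scoped ENNReal Pointwise

variable (P : Type) [Group P] [TopologicalSpace P] [IsTopologicalGroup P] [LocallyCompactSpace P]
  [T2Space P]

theorem tDF : S_DF P := by
  intro G hG
  have hA : ∀ R, G.D1 ^ R ⊆ G.A := by
    intro R
    induction R with
    | zero =>
      intro d hd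
      rw [pow_zero, Set.mem_one] at hd
      rw [hd]
      exact G.A.one_mem
    | succ R ih =>
      intro d hd
      rw [pow_succ] at hd
      obtain ⟨x, hx, y, hy, rfl⟩ := hd
      exact G.A.mul_mem (ih hx) (hG.D1A hy)
  have h1 : ∀ R, (1 : P) ∈ G.D1 ^ R := by
    intro R
    induction R with
    | zero => rw [pow_zero]; exact Set.mem_one.2 rfl
    | succ R ih =>
      rw [pow_succ]
      exact ⟨1, ih, 1, hG.D11, one_mul 1⟩
  have han : ∀ n : ℕ, G.a ^ n ∈ G.A := fun n => G.A.pow_mem hG.aA n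
  have hDp : ∀ k l, k ≤ l → G.Dp l ⊆ G.Dp k := by
    intro k l hkl
    induction hkl with
    | refl => exact subset_rfl
    | step _ ih => exact (hG.Dps _).trans ih
  refine ⟨?_, hA, h1, ?_, ?_, ?_, ?_, han, ?_, hDp, ?_⟩
  · intro R
    induction R with
    | zero =>
      rw [pow_zero]
      exact isCompact_singleton
    | succ R ih =>
      rw [pow_succ]
      exact ih.mul hG.D1c
  · intro R
    induction R with
    | zero =>
      intro d hd
      rw [pow_zero, Set.mem_one] at hd ⊢
      rw [hd, inv_one]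
    | succ R ih =>
      intro d hd
      rw [pow_succ] at hd ⊢
      obtain ⟨x, hx, y, hy, rfl⟩ := hd
      refine ⟨x⁻¹, ih x hx, y⁻¹, hG.D1i y hy, ?_⟩
      change x⁻¹ * y⁻¹ = (x * y)⁻¹
      rw [mul_inv_rev]
      exact hG.comm _ (G.A.inv_mem (hA R hx)) _ (G.A.inv_mem (hG.D1A hy))
  · intro R R' hR
    induction hR with
    | refl => exact subset_rfl
    | step _ ih =>
      refine ih.trans fun d hd => ?_
      rw [pow_succ]
      exact ⟨d, hd, 1, hG.D11, mul_one d⟩
  · intro R
    induction R with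
    | zero =>
      intro d hd
      rw [pow_zero, Set.mem_one] at hd ⊢
      rw [hd, mul_one, hG.ww]
    | succ R ih =>
      intro d hd
      rw [pow_succ] at hd ⊢
      obtain ⟨x, hx, y, hy, rfl⟩ := hd
      refine ⟨G.w * x * G.w, ih x hx, G.w * y * G.w, hG.D1w y hy, ?_⟩
      change G.w * x * G.w * (G.w * y * G.w) = G.w * (x * y) * G.w
      have h2 : G.w * x * G.w * (G.w * y * G.w) = G.w * x * (G.w * G.w) * y * G.w := by group
      rw [h2, hG.ww, mul_one]
      group
  · intro R R' d hd d' hd'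
    rw [pow_add]
    exact ⟨d, hd, d', hd', rfl⟩
  · intro n
    have h2 : ∀ m : ℕ, G.w * G.a ^ m * G.w = (G.a ^ m)⁻¹ := by
      intro m
      induction m with
      | zero => rw [pow_zero, mul_one, hG.ww, inv_one]
      | succ m ih =>
        have h3 : G.w * G.a ^ (m + 1) * G.w = (G.w * G.a ^ m * G.w) * (G.w * G.a * G.w) := by
          have h4 : (G.w * G.a ^ m * G.w) * (G.w * G.a * G.w) =
              G.w * G.a ^ m * (G.w * G.w) * G.a * G.w := by group
          rw [h4, hG.ww, mul_one, pow_succ]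
          group
        rw [h3, ih, hG.wa, pow_succ', mul_inv_rev]
    rw [← h2 n, mul_assoc (G.w * G.a ^ n), hG.ww, mul_one]
  · intro R k
    obtain ⟨c, hc⟩ := hG.Dpd R
    refine ⟨k + c, fun n hn d hd => ?_⟩
    have h2 : G.a ^ n ∈ G.Dp (k + c) := hDp _ _ hn (hG.Dpa n)
    have h3 := hc k _ h2 d hd
    rwa [hG.comm _ (han n) _ (hA R hd)] at h3

end Pool.Agent.MPEF.U
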