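import Pool.Agent.Lib.MP_ef3f0f_gt.U.F.SpecD

set_option autoImplicit false

/-!
# MP_ef3f0f_gt, Theorem U, Part F: enlargement and existence of types
-/

namespace Pool.Agent.MPEF.U

open MeasureTheory Topology
open scoped ENNReal Pointwise

variable (P H : Type) [Group P] [Group H] [TopologicalSpace P] [TopologicalSpace H]
  [IsTopologicalGroup P] [IsTopologicalGroup H] [LocallyCompactSpace P] [LocallyCompactSpace H]
  [T2Space P] [T2Space H] [SecondCountableTopology P] [SecondCountableTopology H]
  [MeasurableSpace P] [MeasurableSpace H] [BorelSpace P] [BorelSpace H]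

/-- **Enlargement and existence of types.** -/
theorem tEN : S_NB P → S_EN P := by
  intro hNB G hG
  obtain ⟨-, hN⟩ := hNB G hG
  constructor
  · intro t ht
    obtain ⟨A, B, C, hA, hB, hC, hA1, hB1, hC1, hT⟩ := hN (t.S 0) (t.S 1) (t.S 2) (ht.Sc 0)
      (ht.Sc 1) (ht.Sc 2) ht.TS
    obtain ⟨A', B', C', hA', hB', hC', hA1', hB1', hC1', hT'⟩ := hN (t.K 2) (t.K 1) (t.K 0) (ht.Kc 2)
      (ht.Kc 1) (ht.Kc 0) (fun x hx y hy z hz => ht.TK z hz y hy x hx)
    have hS : ∀ i, t.S i ⊆ interior ((![A, B, C] : Fin 3 → Set P) i) := by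
      intro i
      fin_cases i
      · exact hA1
      · exact hB1
      · exact hC1
    have hK : ∀ i, t.K i ⊆ interior ((![C', B', A'] : Fin 3 → Set P) i) := by
      intro i
      fin_cases i
      · exact hC1'
      · exact hB1'
      · exact hA1'
    refine ⟨⟨t.c, ![A, B, C], ![C', B', A']⟩, ⟨?_, ?_, ?_, ?_, ?_⟩, fun i => ⟨rfl, hS i, hK i⟩⟩
    · exact fun i => interior_subset (hS i (ht.cS i))
    · intro i
      fin_cases i
      · exact hA
      · exact hB
      · exact hC
    · intro i
      fin_cases i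
      · exact hC'
      · exact hB'
      · exact hA'
    · exact hT
    · exact fun x hx y hy z hz => hT' z hz y hy x hx
  · obtain ⟨c, hc⟩ := hG.NT {G.w} isCompact_singleton (by
      rintro k hk
      rw [Set.mem_singleton_iff.1 hk]
      exact hG.P1)
    have hc1 : G.Tri c 1 G.w := hc _ rfl
    obtain ⟨A, B, C, hA, hB, hC, hA1, hB1, hC1, hT⟩ := hN {c} {1} {G.w} isCompact_singleton
      isCompact_singleton isCompact_singleton (by
        intro x hx y hy z hz
        rw [Set.mem_singleton_iff.1 hx, Set.mem_singleton_iff.1 hy, Set.mem_singleton_iff.1 hz]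
        exact hc1)
    rw [Set.singleton_subset_iff] at hA1 hB1 hC1
    refine ⟨⟨![c, 1, G.w], ![A, B, C], ![C, B, A]⟩, ⟨?_, ?_, ?_, ?_, ?_⟩, ?_⟩
    · intro i
      fin_cases i
      · exact interior_subset hA1
      · exact interior_subset hB1
      · exact interior_subset hC1
    · intro i
      fin_cases i
      · exact hA
      · exact hB
      · exact hC
    · intro i
      fin_cases i
      · exact hC
      · exact hB
      · exact hA
    · exact hT
    · exact fun x hx y hy z hz => hT z hz y hy x hx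
    · intro i
      fin_cases i
      · exact ⟨⟨c, hA1⟩, ⟨_, hC1⟩⟩
      · exact ⟨⟨_, hB1⟩, ⟨_, hB1⟩⟩
      · exact ⟨⟨_, hC1⟩, ⟨c, hA1⟩⟩

end Pool.Agent.MPEF.U
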