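import Pool.Agent.Lib.MP_ef3f0f_gt.U.F.SpecD

set_option autoImplicit false
set_option linter.unusedSectionVars false

/-!
# MP_ef3f0f_gt, Theorem U, Part F, module `EWf`: finiteness of `EW`
-/

namespace Pool.Agent.MPEF.U

open MeasureTheory Topology
open scoped ENNReal Pointwise

private theorem EWf_sum {ι : Type} (a b c : ι → ℝ≥0∞) (f g h : ι → ι → ℝ≥0∞) :
    ∑' u, ∑' v, ∑' w, a u * b v * c w * (f u v + g v w + h w u) =
      (∑' u, ∑' v, a u * b v * f u v) * (∑' w, c w) +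
      (∑' v, ∑' w, b v * c w * g v w) * (∑' u, a u) +
      (∑' w, ∑' u, c w * a u * h w u) * (∑' v, b v) := by
  have h1 : ∑' u, ∑' v, ∑' w, a u * b v * c w * f u v =
      (∑' u, ∑' v, a u * b v * f u v) * (∑' w, c w) := by
    rw [← ENNReal.tsum_mul_right]
    refine tsum_congr fun u => ?_
    rw [← ENNReal.tsum_mul_right]
    refine tsum_congr fun v => ?_
    rw [← ENNReal.tsum_mul_left]
    exact tsum_congr fun w => by ring
  have h2 : ∑' u, ∑' v, ∑' w, a u * b v * c w * g v w =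
      (∑' v, ∑' w, b v * c w * g v w) * (∑' u, a u) := by
    rw [← ENNReal.tsum_mul_left]
    refine tsum_congr fun u => ?_
    rw [← ENNReal.tsum_mul_right]
    refine tsum_congr fun v => ?_
    rw [← ENNReal.tsum_mul_right]
    exact tsum_congr fun w => by ring
  have h3 : ∑' u, ∑' v, ∑' w, a u * b v * c w * h w u =
      (∑' w, ∑' u, c w * a u * h w u) * (∑' v, b v) := by
    rw [ENNReal.tsum_comm, ← ENNReal.tsum_mul_left]
    refine tsum_congr fun v => ?_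
    rw [ENNReal.tsum_comm, ← ENNReal.tsum_mul_right]
    refine tsum_congr fun w => ?_
    rw [← ENNReal.tsum_mul_right]
    exact tsum_congr fun u => by ring
  simp only [mul_add, ENNReal.tsum_add]
  rw [h1, h2, h3]

variable (P H : Type) [Group P] [Group H] [TopologicalSpace P] [TopologicalSpace H]
  [IsTopologicalGroup P] [IsTopologicalGroup H] [LocallyCompactSpace P] [LocallyCompactSpace H]
  [T2Space P] [T2Space H] [SecondCountableTopology P] [SecondCountableTopology H]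
  [MeasurableSpace P] [MeasurableSpace H] [BorelSpace P] [BorelSpace H]

private theorem EWf_nuA (D : Dat P H) (hD : D.Ok) (n : ℕ) : Measurable (D.nuA n) := by
  have := hD.haar₂
  induction n with
  | zero => exact hD.νc.measurable
  | succ n ih =>
    have h1 : Measurable (Function.uncurry fun (h q : H) => D.ν q * D.nuA n (q⁻¹ * h)) :=
      (hD.νc.measurable.comp measurable_snd).mul
        (ih.comp ((measurable_snd.inv).mul measurable_fst))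
    exact h1.lintegral_prod_right

private theorem EWf_tk (D : Dat P H) (hD : D.Ok) (k : P → ℝ≥0∞) (hk : Measurable k) (n : ℕ) :
    Measurable (D.tk k n) :=
  (hk.comp measurable_fst).mul ((EWf_nuA P H D hD (n - 1)).comp measurable_snd)

private theorem EWf_IM (D : Dat P H) (hD : D.Ok) {F G K : P × H → ℝ≥0∞} (hF : Measurable F)
    (hG : Measurable G) (hK : Measurable K) (A B C : ℝ≥0∞) :
    D.IM (fun x => F x * A + G x * B + K x * C) = D.IM F * A + D.IM G * B + D.IM K * C := by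
  have m1 : Measurable fun x => D.χ x * F x := hD.χm.mul hF
  have m2 : Measurable fun x => D.χ x * G x := hD.χm.mul hG
  have m3 : Measurable fun x => D.χ x * K x := hD.χm.mul hK
  unfold Dat.IM
  simp only [mul_add, ← mul_assoc]
  rw [lintegral_add_right _ (m3.mul_const C), lintegral_add_right _ (m2.mul_const B),
    lintegral_mul_const _ m1, lintegral_mul_const _ m2, lintegral_mul_const _ m3]

private theorem EWf_mono (D : Dat P H) {F G : P × H → ℝ≥0∞} (h : ∀ x, F x ≤ G x) :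
    D.IM F ≤ D.IM G :=
  lintegral_mono fun x => mul_le_mul_right (h x) _

/-- The triple sum against the three double sums. -/
private theorem EWf_st3 (D : Dat P H) (G : PG P) (c : Fin 3 → P) (K : Fin 3 → P × H → ℝ≥0∞)
    (C : Fin 3 → ℝ≥0∞) (hC : ∀ i x y, D.N (K i) x y ≤ C i) (φ : D.Γ → P → ℝ) (x y : P × H) :
    D.st3 (K 0) (K 1) (K 2) x y (fun u v w => ab (dl G φ (c 0) (c 1) (c 2) x u v w)) ≤
      D.st2 (K 0) (K 1) x y (fun u v => ab (ph G φ (u * v⁻¹) (x.1 * c 0))) * C 2 +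
      D.st2 (K 1) (K 2) x y (fun u v => ab (ph G φ (u * v⁻¹) (x.1 * c 1))) * C 0 +
      D.st2 (K 2) (K 0) x y (fun u v => ab (ph G φ (u * v⁻¹) (x.1 * c 2))) * C 1 := by
  have hab : ∀ a b c : ℝ, ab (a + b + c) ≤ ab a + ab b + ab c := by
    intro a b c
    unfold ab
    rw [← ENNReal.ofReal_add (abs_nonneg a) (abs_nonneg b),
      ← ENNReal.ofReal_add (by positivity) (abs_nonneg c)]
    exact ENNReal.ofReal_le_ofReal (abs_add_three a b c)
  calc D.st3 (K 0) (K 1) (K 2) x y (fun u v w => ab (dl G φ (c 0) (c 1) (c 2) x u v w))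
      ≤ ∑' u : D.Γ, ∑' v : D.Γ, ∑' w : D.Γ,
          K 0 (x⁻¹ * (u : P × H) * y) * K 1 (x⁻¹ * (v : P × H) * y) *
            K 2 (x⁻¹ * (w : P × H) * y) *
            (ab (ph G φ (u * v⁻¹) (x.1 * c 0)) + ab (ph G φ (v * w⁻¹) (x.1 * c 1)) +
              ab (ph G φ (w * u⁻¹) (x.1 * c 2))) :=
        ENNReal.tsum_le_tsum fun u => ENNReal.tsum_le_tsum fun v => ENNReal.tsum_le_tsum fun w =>
          mul_le_mul_right (hab _ _ _) _
    _ = D.st2 (K 0) (K 1) x y (fun u v => ab (ph G φ (u * v⁻¹) (x.1 * c 0))) *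
            D.N (K 2) x y +
          D.st2 (K 1) (K 2) x y (fun u v => ab (ph G φ (u * v⁻¹) (x.1 * c 1))) *
            D.N (K 0) x y +
          D.st2 (K 2) (K 0) x y (fun u v => ab (ph G φ (u * v⁻¹) (x.1 * c 2))) *
            D.N (K 1) x y :=
        EWf_sum (fun u : D.Γ => K 0 (x⁻¹ * (u : P × H) * y))
          (fun u : D.Γ => K 1 (x⁻¹ * (u : P × H) * y)) (fun u : D.Γ => K 2 (x⁻¹ * (u : P × H) * y))
          (fun u v => ab (ph G φ (u * v⁻¹) (x.1 * c 0)))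
          (fun u v => ab (ph G φ (u * v⁻¹) (x.1 * c 1)))
          (fun u v => ab (ph G φ (u * v⁻¹) (x.1 * c 2)))
    _ ≤ _ := add_le_add (add_le_add (mul_le_mul_right (hC 2 x y) _)
        (mul_le_mul_right (hC 0 x y) _)) (mul_le_mul_right (hC 1 x y) _)

/-- The defect on thetas against the masses of the pairs. -/
private theorem EWf_TX (hMQ : S_MQ P H) (hph : S_ph P H) (D : Dat P H) (hD : D.Ok) (G : PG P)
    (hG : G.Ok) (c : Fin 3 → P) (K : Fin 3 → P × H → ℝ≥0∞) (hK : ∀ i, Measurable (K i))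
    (C : Fin 3 → ℝ≥0∞) (hC : ∀ i x y, D.N (K i) x y ≤ C i) (φ : D.Γ → P → ℝ) (hφ : Adm D G φ) :
    D.TX G c (K 0) (K 1) (K 2) φ ≤ D.PX G (c 0) (K 0) (K 1) φ * C 2 +
      D.PX G (c 1) (K 1) (K 2) φ * C 0 + D.PX G (c 2) (K 2) (K 0) φ * C 1 := by
  obtain ⟨-, -, -, -, -, -, -, p8⟩ := hph D hD G hG φ hφ
  obtain ⟨F, hF⟩ : ∃ F : Fin 3 → P × H → D.Γ → D.Γ → ℝ≥0∞,
      F = fun i x u v => ab (ph G φ (u * v⁻¹) (x.1 * c i)) := ⟨_, rfl⟩
  have hm : ∀ (i : Fin 3) (u v : D.Γ), Measurable fun x : P × H => F i x u v := by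
    intro i u v
    have h1 : Measurable fun x : P × H => x.1 * c i := measurable_fst.mul_const _
    rw [hF]
    exact ENNReal.measurable_ofReal.comp (continuous_abs.measurable.comp ((p8 (u * v⁻¹)).comp h1))
  have q : ∀ i j k : Fin 3,
      (Measurable fun q : (P × H) × (P × H) => D.st2 (K i) (K j) q.1 q.2 (F k q.1)) ∧
      Measurable fun x : P × H => D.IM fun y => D.st2 (K i) (K j) x y (F k x) := by
    intro i j k
    exact (hMQ D hD (K i) (K j) (K 0) (hK i) (hK j) (hK 0)).2.1 _ (hm k)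
  have q1 : ∀ (i j k : Fin 3) (x : P × H),
      Measurable fun y : P × H => D.st2 (K i) (K j) x y (F k x) := by
    intro i j k x
    have h1 : Measurable fun y : P × H => (x, y) := measurable_prodMk_left
    have h2 := (q i j k).1
    have h3 := Measurable.comp h2 h1
    exact h3
  have e1 : ∀ x y : P × H,
      D.st3 (K 0) (K 1) (K 2) x y (fun u v w => ab (dl G φ (c 0) (c 1) (c 2) x u v w)) ≤
        D.st2 (K 0) (K 1) x y (F 0 x) * C 2 + D.st2 (K 1) (K 2) x y (F 1 x) * C 0 +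
          D.st2 (K 2) (K 0) x y (F 2 x) * C 1 := by
    intro x y
    rw [hF]
    exact EWf_st3 P H D G c K C hC φ x y
  have e2 : ∀ (i j k : Fin 3), D.PX G (c k) (K i) (K j) φ =
      D.IM fun x => D.IM fun y => D.st2 (K i) (K j) x y (F k x) := by
    intro i j k
    rw [hF]
    rfl
  rw [e2 0 1 0, e2 1 2 1, e2 2 0 2]
  have e3 : D.TX G c (K 0) (K 1) (K 2) φ ≤ D.IM fun x => D.IM fun y =>
      D.st2 (K 0) (K 1) x y (F 0 x) * C 2 + D.st2 (K 1) (K 2) x y (F 1 x) * C 0 +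
        D.st2 (K 2) (K 0) x y (F 2 x) * C 1 :=
    EWf_mono P H D fun x => EWf_mono P H D fun y => e1 x y
  refine e3.trans (le_of_eq ?_)
  have e4 : (fun x => D.IM fun y =>
      D.st2 (K 0) (K 1) x y (F 0 x) * C 2 + D.st2 (K 1) (K 2) x y (F 1 x) * C 0 +
        D.st2 (K 2) (K 0) x y (F 2 x) * C 1) = fun x =>
      (D.IM fun y => D.st2 (K 0) (K 1) x y (F 0 x)) * C 2 +
      (D.IM fun y => D.st2 (K 1) (K 2) x y (F 1 x)) * C 0 +
      (D.IM fun y => D.st2 (K 2) (K 0) x y (F 2 x)) * C 1 := by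
    funext x
    exact EWf_IM P H D hD (q1 0 1 0 x) (q1 1 2 1 x) (q1 2 0 2 x) _ _ _
  rw [e4]
  exact EWf_IM P H D hD (q 0 1 0).2 (q 1 2 1).2 (q 2 0 2).2 _ _ _

theorem tEWf : S_Fin P H → S_UpG P H → S_MQ P H → S_AD P → S_TXc P H → S_ph P H →
    S_EWf P H := by
  intro hFin hUp hMQ hAD hTX hph D hD G hG hGF NK hNK hEq t t' ht ht' hin R f hf
  have i1 := hD.haar₁
  have i2 := hD.right₁
  have i3 := hD.inv₁
  have hci : ∀ i, t.c i ∈ t'.S i := fun i => interior_subset ((hin i).2.1 (ht.cS i))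
  have hKn : ∀ i, ∃ κ, κ ∈ t'.K i := by
    intro i
    obtain ⟨κ, hκ⟩ := (hin i).2.2.2.2
    exact ⟨κ, interior_subset ((hin i).2.2.1 (interior_subset hκ))⟩
  obtain ⟨a0, ha0⟩ := hKn 0
  obtain ⟨a1, ha1⟩ := hKn 1
  obtain ⟨a2, ha2⟩ := hKn 2
  have S01 : ∀ s ∈ t'.S 0, ∀ s' ∈ t'.S 1, G.Pos s s' := fun s hs s' hs' =>
    hG.TP _ _ _ (ht'.TS s hs s' hs' _ (hci 2))
  have S12 : ∀ s ∈ t'.S 1, ∀ s' ∈ t'.S 2, G.Pos s s' := fun s hs s' hs' =>
    hG.TP _ _ _ (hG.Tc _ _ _ (ht'.TS _ (hci 0) s hs s' hs'))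
  have S20 : ∀ s ∈ t'.S 2, ∀ s' ∈ t'.S 0, G.Pos s s' := fun s hs s' hs' =>
    hG.TP _ _ _ (hG.Tc _ _ _ (hG.Tc _ _ _ (ht'.TS s' hs' _ (hci 1) s hs)))
  have K01 : ∀ s ∈ t'.K 0, ∀ s' ∈ t'.K 1, G.Pos s s' := fun s hs s' hs' =>
    (hG.Ps _ _).1 (hG.TP _ _ _ (hG.Tc _ _ _ (ht'.TK s hs s' hs' a2 ha2)))
  have K12 : ∀ s ∈ t'.K 1, ∀ s' ∈ t'.K 2, G.Pos s s' := fun s hs s' hs' =>
    (hG.Ps _ _).1 (hG.TP _ _ _ (ht'.TK a0 ha0 s hs s' hs'))
  have K20 : ∀ s ∈ t'.K 2, ∀ s' ∈ t'.K 0, G.Pos s s' := fun s hs s' hs' =>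
    (hG.Ps _ _).1 (hG.TP _ _ _ (hG.Tc _ _ _ (hG.Tc _ _ _ (ht'.TK s' hs' a1 ha1 s hs))))
  obtain ⟨T0, hT0⟩ := hFin D hD G hG hGF NK hNK hEq _ _ _ _ (ht'.Sc 0) (ht'.Kc 0) (ht'.Sc 1)
    (ht'.Kc 1) S01 K01 R
  obtain ⟨T1, hT1⟩ := hFin D hD G hG hGF NK hNK hEq _ _ _ _ (ht'.Sc 1) (ht'.Kc 1) (ht'.Sc 2)
    (ht'.Kc 2) S12 K12 R
  obtain ⟨T2, hT2⟩ := hFin D hD G hG hGF NK hNK hEq _ _ _ _ (ht'.Sc 2) (ht'.Kc 2) (ht'.Sc 0)
    (ht'.Kc 0) S20 K20 R
  have hU : ∀ i, ∃ C : ℝ≥0∞, C ≠ ∞ ∧ ∀ n x y, D.N (D.eg G (t'.S i) (t'.K i) R n) x y ≤ C :=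
    fun i => hUp D hD G hG NK hNK hEq _ _ (ht'.Sc i) (ht'.Kc i) R
  choose C hC hCN using hU
  obtain ⟨A₁, hA₁, hs⟩ := hf.su
  obtain ⟨A₂, hA₂, hk⟩ := hf.ku
  have hwe : ∀ (i : Fin 3) (n : ℕ) (g : P × H),
      D.we G f i n g ≤ A₁ * A₂ * D.eg G (t'.S i) (t'.K i) R n g := by
    intro i n g
    have h1 : kk D.μ₁ G.a (f.s i) (f.k i) n g.1 ≤
        A₁ * A₂ * kk D.μ₁ G.a (iK (t'.S i * G.D1 ^ R)) (iK (G.ew (t'.K i))) n g.1 := by
      unfold kk
      rw [← lintegral_const_mul' _ _ (ENNReal.mul_ne_top hA₁ hA₂)]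
      refine lintegral_mono fun q => ?_
      calc f.s i q * f.k i ((G.a ^ n)⁻¹ * q⁻¹ * g.1)
          ≤ (A₁ * iK (t'.S i * G.D1 ^ R) q) *
              (A₂ * iK (G.ew (t'.K i)) ((G.a ^ n)⁻¹ * q⁻¹ * g.1)) :=
            mul_le_mul' (hs i q) (hk i _)
        _ = _ := by ring
    calc D.we G f i n g = kk D.μ₁ G.a (f.s i) (f.k i) n g.1 * D.nu n g.2 := rfl
      _ ≤ (A₁ * A₂ * kk D.μ₁ G.a (iK (t'.S i * G.D1 ^ R)) (iK (G.ew (t'.K i))) n g.1) *
            D.nu n g.2 := mul_le_mul_left h1 _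
      _ = A₁ * A₂ * (kk D.μ₁ G.a (iK (t'.S i * G.D1 ^ R)) (iK (G.ew (t'.K i))) n g.1 *
            D.nu n g.2) := mul_assoc _ _ _
  refine ⟨max T0 (max T1 T2), fun r hr φ hφ => ?_⟩
  unfold Dat.EW
  refine ENNReal.sum_ne_top.mpr fun n₀ h₀ => ENNReal.sum_ne_top.mpr fun n₁ h₁ =>
    ENNReal.sum_ne_top.mpr fun n₂ h₂ => ?_
  have g0 := (Finset.mem_Icc.1 h₀).1
  have g1 := (Finset.mem_Icc.1 h₁).1
  have g2 := (Finset.mem_Icc.1 h₂).1
  have r0 : T0 ≤ r := le_trans (le_max_left _ _) hr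
  have r1 : T1 ≤ r := le_trans (le_trans (le_max_left _ _) (le_max_right _ _)) hr
  have r2 : T2 ≤ r := le_trans (le_trans (le_max_right _ _) (le_max_right _ _)) hr
  obtain ⟨-, tx2, -⟩ := hTX D hD G hG φ
  have hmono := tx2 t.c (A₁ * A₂) (ENNReal.mul_ne_top hA₁ hA₂)
    ![D.we G f 0 n₀, D.we G f 1 n₁, D.we G f 2 n₂]
    ![D.eg G (t'.S 0) (t'.K 0) R n₀, D.eg G (t'.S 1) (t'.K 1) R n₁,
      D.eg G (t'.S 2) (t'.K 2) R n₂] (by
      intro i g
      fin_cases i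
      · exact hwe 0 n₀ g
      · exact hwe 1 n₁ g
      · exact hwe 2 n₂ g)
  have hmeas : ∀ (i : Fin 3) (n : ℕ), Measurable (D.eg G (t'.S i) (t'.K i) R n) := by
    intro i n
    exact EWf_tk P H D hD _ ((hAD G D.μ₁ hG).2.2.2.2.1 _ _ (ht'.Sc i) (ht'.Kc i) R n) n
  have hfin := EWf_TX P H hMQ hph D hD G hG t.c
    ![D.eg G (t'.S 0) (t'.K 0) R n₀, D.eg G (t'.S 1) (t'.K 1) R n₁,
      D.eg G (t'.S 2) (t'.K 2) R n₂] (by
      intro i
      fin_cases i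
      · exact hmeas 0 n₀
      · exact hmeas 1 n₁
      · exact hmeas 2 n₂) C (by
      intro i x y
      fin_cases i
      · exact hCN 0 n₀ x y
      · exact hCN 1 n₁ x y
      · exact hCN 2 n₂ x y) φ hφ
  refine ne_top_of_le_ne_top ?_ hmono
  refine ENNReal.mul_ne_top (ENNReal.pow_ne_top (ENNReal.mul_ne_top hA₁ hA₂)) ?_
  refine ne_top_of_le_ne_top ?_ hfin
  refine ENNReal.add_ne_top.2 ⟨ENNReal.add_ne_top.2 ⟨?_, ?_⟩, ?_⟩
  · exact ENNReal.mul_ne_top (hT0 n₀ n₁ (by omega) (by omega) φ hφ _ (hci 0)) (hC 2)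
  · exact ENNReal.mul_ne_top (hT1 n₁ n₂ (by omega) (by omega) φ hφ _ (hci 1)) (hC 0)
  · exact ENNReal.mul_ne_top (hT2 n₂ n₀ (by omega) (by omega) φ hφ _ (hci 2)) (hC 1)

end Pool.Agent.MPEF.U
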