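import Pool.Agent.Lib.MP_ef3f0f_gt.U.F.SpecC

set_option autoImplicit false

/-!
# MP_ef3f0f_gt, Theorem U, Part F, module `FP`: framing of pairs and of closed loops
-/

namespace Pool.Agent.MPEF.U

open MeasureTheory Topology
open scoped ENNReal Pointwise

theorem FP_FrI {P : Type} [Group P] [TopologicalSpace P] {G : PG P} (hG : G.Ok) {l z : P}
    (h : Fr G l z) : Fr G l⁻¹ (z * G.w) := by
  unfold Fr at *
  have h1 := hG.Appw _ h
  have h0 : G.w⁻¹ = G.w := inv_eq_of_mul_eq_one_left hG.ww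
  have h2 : (z * G.w)⁻¹ * l⁻¹ * (z * G.w) = G.w * (z⁻¹ * l * z)⁻¹ * G.w := by
    rw [mul_inv_rev, h0]
    group
  rw [h2]
  exact h1

theorem FP_Fr {P : Type} [Group P] {G : PG P} {l x z : P} (h : Fr G (x⁻¹ * l * x) z) :
    Fr G l (x * z) := by
  unfold Fr at *
  have h2 : (x * z)⁻¹ * l * (x * z) = z⁻¹ * (x⁻¹ * l * x) * z := by group
  rw [h2]
  exact h

variable (P H : Type) [Group P] [Group H] [TopologicalSpace P] [TopologicalSpace H]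
  [IsTopologicalGroup P] [IsTopologicalGroup H] [LocallyCompactSpace P] [LocallyCompactSpace H]
  [T2Space P] [T2Space H] [SecondCountableTopology P] [SecondCountableTopology H]
  [MeasurableSpace P] [MeasurableSpace H] [BorelSpace P] [BorelSpace H]

theorem tFP : S_FR P → S_FRc P → S_Wr P → S_ph P H → S_FP P H := by
  intro hFR hFRc _hWr hph D hD G hG hF
  constructor
  · intro S₁ K₁ S₂ K₂ c1 c2 c3 c4 hS hK
    obtain ⟨k, hk⟩ := hFR G hG hF S₁ K₁ S₂ K₂ c1 c2 c3 c4 hS hK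
    refine ⟨k, fun x y u v hu hv => ?_⟩
    obtain ⟨z₀, hz, h1, h2⟩ := hk _ hu _ hv
    have e : (x⁻¹ * (u : P × H) * y).1 * ((x⁻¹ * (v : P × H) * y).1)⁻¹ =
        x.1⁻¹ * ((u * v⁻¹ : D.Γ) : P × H).1 * x.1 := by
      change (x.1⁻¹ * (u : P × H).1 * y.1) * (x.1⁻¹ * (v : P × H).1 * y.1)⁻¹ =
        x.1⁻¹ * ((u : P × H).1 * ((v : P × H).1)⁻¹) * x.1
      group
    rw [e] at hz
    have hfr : Fr G ((u * v⁻¹ : D.Γ) : P × H).1 (x.1 * z₀) := FP_Fr hz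
    have p1 : ∀ s ∈ S₁, G.Pos (x.1 * s) (x.1 * z₀ * G.w) := fun s hs => by
      rw [mul_assoc]
      exact (hG.Pl _ _ _).2 (h1 s hs)
    have p2 : ∀ s' ∈ S₂, G.Pos (x.1 * s') (x.1 * z₀) := fun s hs => (hG.Pl _ _ _).2 (h2 s hs)
    refine ⟨x.1 * z₀, hfr, p1, p2, fun φ hφ => ⟨fun s hs => ?_, fun s hs => ?_⟩⟩
    · exact (hph D hD G hG φ hφ).1 _ _ _ hfr (p1 s hs)
    · have e2 : v * u⁻¹ = (u * v⁻¹)⁻¹ := by group
      rw [e2, (hph D hD G hG φ hφ).1 (u * v⁻¹)⁻¹ (x.1 * z₀ * G.w) _ ?_ ?_, hφ.inv]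
      · exact FP_FrI hG hfr
      · rw [mul_assoc (x.1 * z₀), hG.ww, mul_one]
        exact p2 s hs
  · intro S S' c1 c2 hS
    obtain ⟨k, hk⟩ := hFRc G hG S S' c1 c2 hS
    refine ⟨k, fun x l hl => ?_⟩
    obtain ⟨z₀, hz, h1, h2⟩ := hk _ hl
    have hfr : Fr G (l : P × H).1 (x.1 * z₀) := FP_Fr hz
    have p1 : ∀ s ∈ S, G.Pos (x.1 * s) (x.1 * z₀ * G.w) := fun s hs => by
      rw [mul_assoc]
      exact (hG.Pl _ _ _).2 (h1 s hs)
    exact ⟨x.1 * z₀, hfr, p1, fun φ hφ s hs => (hph D hD G hG φ hφ).1 _ _ _ hfr (p1 s hs)⟩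

end Pool.Agent.MPEF.U
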