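import Pool.Agent.Lib.MP_ef3f0f_gt.U.F.SpecA

set_option autoImplicit false
set_option linter.unusedSectionVars false

/-!
# MP_ef3f0f_gt, Theorem U, Part F, module FRc: frames of closed loops
-/

namespace Pool.Agent.MPEF.U

open MeasureTheory Topology
open scoped ENNReal Pointwise

variable (P : Type) [Group P] [TopologicalSpace P] [IsTopologicalGroup P] [LocallyCompactSpace P]
  [T2Space P]

variable {P} in
/-- a tube lemma: a condition on a compact set which is open and holds at `e = 1` -/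
private theorem FRc_tube {X : Type} [TopologicalSpace X] {C : Set X} (hC : IsCompact C)
    {O : Set (P × P)} (hO : IsOpen O) {f : P × X → P × P} (hf : Continuous f)
    (h : ∀ x ∈ C, f (1, x) ∈ O) : ∃ U ∈ 𝓝 (1 : P), ∀ e ∈ U, ∀ x ∈ C, f (e, x) ∈ O := by
  obtain ⟨u, v, hu, -, h1, hv, huv⟩ := generalized_tube_lemma (isCompact_singleton (x := (1 : P))) hC
    (hO.preimage hf) (by
      rintro ⟨e, x⟩ ⟨he, hx⟩
      rw [Set.mem_singleton_iff] at he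
      simp only at he
      subst he
      exact h x hx)
  exact ⟨u, hu.mem_nhds (h1 rfl), fun e he x hx => huv (Set.mk_mem_prod he (hv hx))⟩

variable {P} in
private theorem FRc_Pr2 {G : PG P} (hG : G.Ok) {k k' b : P} (hb : b ∈ G.Bor) (h : G.Pos k k') :
    G.Pos k (k' * b) := by
  rw [hG.Ps, hG.Pr k' k b hb, hG.Ps]
  exact h

theorem tFRc : S_LXc P → S_NB P → S_FRc P := by
  intro hLX _hNB G hG S S' hS hS' hP
  have hwi : G.w⁻¹ = G.w := inv_eq_of_mul_eq_one_left hG.ww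
  obtain ⟨U₁, hU₁, h1⟩ := FRc_tube (C := S ×ˢ S') (hS.prod hS') hG.Po
    (f := fun p : P × (P × P) => (p.2.2, p.2.1 * p.1)) (by fun_prop) (by
      rintro ⟨s, s'⟩ ⟨hs, hs'⟩
      simp only [mul_one]
      exact (hG.Ps _ _).1 (hP s hs s' hs'))
  obtain ⟨U₂, hU₂, h2⟩ := FRc_tube (C := S ×ˢ (S' ×ˢ S)) (hS.prod (hS'.prod hS)) hG.Po
    (f := fun p : P × (P × (P × P)) => (p.2.2.2, p.2.1 * p.1 * p.2.1⁻¹ * p.2.2.1)) (by fun_prop) (by
      rintro ⟨s, s', s₁⟩ ⟨hs, hs', hs₁⟩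
      simp only [mul_one, mul_inv_cancel, one_mul]
      exact hP s₁ hs₁ s' hs')
  have hQ : IsCompact ((fun p : P × P => G.w * p.2⁻¹ * p.1) '' (S ×ˢ S')) :=
    (hS.prod hS').image (by fun_prop)
  have hQP : ∀ q ∈ (fun p : P × P => G.w * p.2⁻¹ * p.1) '' (S ×ˢ S'), G.Pos G.w q := by
    rintro _ ⟨⟨s, s'⟩, ⟨hs, hs'⟩, rfl⟩
    simp only
    have e1 : G.w = G.w * s'⁻¹ * s' := by group
    have e2 := hG.Pl (G.w * s'⁻¹) s' s
    rw [← e1] at e2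
    exact e2.2 ((hG.Ps _ _).1 (hP s hs s' hs'))
  obtain ⟨V, hV, k, hk⟩ := hLX G hG _ hQ hQP (U₁ ∩ U₂) (Filter.inter_mem hU₁ hU₂)
  refine ⟨k, ?_⟩
  rintro l ⟨s, hs, t, ht, q, hq, rfl⟩
  have hq' : q⁻¹ * G.w ∈ S' := hq
  have hV1 : (1 : P) ∈ V := mem_of_mem_nhds hV
  obtain ⟨z₀, hz, ⟨e, he, b, hb, hzb⟩, ⟨e', he', b', hb', hzw⟩⟩ :=
    hk t ht (G.w * (q⁻¹ * G.w)⁻¹ * s) ⟨(s, q⁻¹ * G.w), ⟨hs, hq'⟩, rfl⟩ 1 hV1 1 hV1
  have hqs : G.w * (q⁻¹ * G.w)⁻¹ * s = q * s := by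
    rw [mul_inv_rev, inv_inv, ← mul_assoc, mul_inv_cancel, one_mul]
  rw [hqs] at hz hzw
  refine ⟨s * z₀, ?_, ?_, ?_⟩
  · have e1 : (s * z₀)⁻¹ * (s * t * q) * (s * z₀) = z₀⁻¹ * (t * (1 * (q * s) * 1)) * z₀ := by
      group
    change (s * z₀)⁻¹ * (s * t * q) * (s * z₀) ∈ G.App
    rw [e1]
    exact hz
  · intro s₁ hs₁
    have e1 : s * z₀ * G.w = s * e' * s⁻¹ * (q⁻¹ * G.w) * b' := by
      rw [mul_assoc, hzw]
      group
    rw [e1]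
    exact FRc_Pr2 hG hb' (h2 e' he'.2 (s, (q⁻¹ * G.w, s₁)) ⟨hs, hq', hs₁⟩)
  · intro s₁' hs₁'
    rw [hzb, ← mul_assoc]
    exact FRc_Pr2 hG hb (h1 e he.1 (s, s₁') ⟨hs, hs₁'⟩)

end Pool.Agent.MPEF.U
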