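import Pool.Agent.Lib.MP_ef3f0f_gt.U.F.SpecC

set_option autoImplicit false
set_option linter.unusedSectionVars false

/-!
# MP_ef3f0f_gt, Theorem U, Part F, module `Fin`: finiteness of the mass on pairs of edges
-/

namespace Pool.Agent.MPEF.U

open MeasureTheory Topology
open scoped ENNReal Pointwise

section FinAux

variable {P : Type} [Group P]

private theorem Fin_ew [TopologicalSpace P] [IsTopologicalGroup P] (G : PG P) {K : Set P}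
    (hK : IsCompact K) : IsCompact (G.ew K) := by
  have h : G.ew K = (fun κ => G.w * κ⁻¹) '' K := by
    ext q
    constructor
    · intro h
      exact ⟨q⁻¹ * G.w, h, by group⟩
    · rintro ⟨κ, hκ, rfl⟩
      change (G.w * κ⁻¹)⁻¹ * G.w ∈ K
      rwa [show (G.w * κ⁻¹)⁻¹ * G.w = κ by group]
  rw [h]
  exact hK.image (by fun_prop)

/-- The support of `eP`. -/
private theorem Fin_supp [MeasurableSpace P] (μ : Measure P) (G : PG P) (S K : Set P) (R n : ℕ)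
    (g : P) (h : eP μ G S K R n g ≠ 0) : g ∈ S * G.D1 ^ R * {G.a ^ n} * G.ew K := by
  have hex : ∃ q, iK (S * G.D1 ^ R) q * iK (G.ew K) ((G.a ^ n)⁻¹ * q⁻¹ * g) ≠ 0 := by
    by_contra hcon
    push Not at hcon
    apply h
    unfold eP kk
    simp only [hcon, lintegral_zero]
  obtain ⟨q, hq⟩ := hex
  have h1 : q ∈ S * G.D1 ^ R := by
    by_contra hx
    exact (left_ne_zero_of_mul hq) (Set.indicator_of_notMem hx _)
  have h2 : (G.a ^ n)⁻¹ * q⁻¹ * g ∈ G.ew K := by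
    by_contra hx
    exact (right_ne_zero_of_mul hq) (Set.indicator_of_notMem hx _)
  have h3 := Set.mul_mem_mul (Set.mul_mem_mul h1 (Set.mem_singleton (G.a ^ n))) h2
  have h4 : q * G.a ^ n * ((G.a ^ n)⁻¹ * q⁻¹ * g) = g := by group
  rwa [h4] at h3

/-- The support lies in `W`. -/
private theorem Fin_W (G : PG P) (S K : Set P) (R n k : ℕ)
    (hk : ∀ d ∈ G.D1 ^ R, d * G.a ^ n ∈ G.Dp k) (g : P)
    (h : g ∈ S * G.D1 ^ R * {G.a ^ n} * G.ew K) : g ∈ G.W S K k := by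
  obtain ⟨g1, ⟨g2, ⟨s, hs, d, hd, h1⟩, g3, hg3, h2⟩, q, hq, h3⟩ := h
  have h1' : s * d = g2 := h1
  have h2' : g2 * g3 = g1 := h2
  have h3' : g1 * q = g := h3
  have hg3' : g3 = G.a ^ n := hg3
  refine ⟨s, hs, d * G.a ^ n, hk d hd, q, hq, ?_⟩
  rw [← h3', ← h2', ← h1', hg3']
  group

end FinAux

variable (P H : Type) [Group P] [Group H] [TopologicalSpace P] [TopologicalSpace H]
  [IsTopologicalGroup P] [IsTopologicalGroup H] [LocallyCompactSpace P] [LocallyCompactSpace H]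
  [T2Space P] [T2Space H] [SecondCountableTopology P] [SecondCountableTopology H]
  [MeasurableSpace P] [MeasurableSpace H] [BorelSpace P] [BorelSpace H]

theorem tFin : S_FR P → S_AD P → S_DF P → S_ph P H → S_UpG P H → S_nu P H → S_IM P H →
    S_inst P H → S_Fin P H := by
  intro hFR _hAD hDF hph hUp hnu _hIM _hinst D hD G hG hF NK hNK hEq S₁ K₁ S₂ K₂ hS₁ hK₁ hS₂
    hK₂ hS hK R
  obtain ⟨dc, -, -, -, -, -, -, -, -, -, dT⟩ := hDF G hG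
  obtain ⟨k, hk⟩ := hFR G hG hF S₁ K₁ S₂ K₂ hS₁ hK₁ hS₂ hK₂ hS hK
  obtain ⟨T, hT⟩ := dT R k
  refine ⟨T, fun n m hn hm φ hφ c hc => ?_⟩
  obtain ⟨p1, -⟩ := hph D hD G hG φ hφ
  obtain ⟨-, -, -, -, -, -, -, hsup⟩ := hnu D hD
  obtain ⟨X₀, hX₀, hχ⟩ := hD.χK
  obtain ⟨A, hA, hA'⟩ := hsup n
  obtain ⟨B, hB, hB'⟩ := hsup m
  obtain ⟨C₁, hC₁, hN₁⟩ := hUp D hD G hG NK hNK hEq S₁ K₁ hS₁ hK₁ R
  obtain ⟨C₂, hC₂, hN₂⟩ := hUp D hD G hG NK hNK hEq S₂ K₂ hS₂ hK₂ R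
  -- the compact sets
  obtain ⟨E, hE, hEs, hEW⟩ : ∃ E : Set (P × H), IsCompact E ∧
      (∀ g, D.eg G S₁ K₁ R n g ≠ 0 → g ∈ E) ∧ ∀ g ∈ E, g.1 ∈ G.W S₁ K₁ k := by
    refine ⟨(S₁ * G.D1 ^ R * {G.a ^ n} * G.ew K₁) ×ˢ A,
      (((hS₁.mul (dc R)).mul isCompact_singleton).mul (Fin_ew G hK₁)).prod hA, ?_, ?_⟩
    · intro g hg
      have hg' : eP D.μ₁ G S₁ K₁ R n g.1 * D.nu n g.2 ≠ 0 := hg
      refine ⟨Fin_supp D.μ₁ G S₁ K₁ R n g.1 (left_ne_zero_of_mul hg'), ?_⟩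
      by_contra hx
      exact (right_ne_zero_of_mul hg') (hA' _ hx)
    · intro g hg
      exact Fin_W G S₁ K₁ R n k (hT n hn) g.1 hg.1
  obtain ⟨E', hE', hEs', hEW'⟩ : ∃ E : Set (P × H), IsCompact E ∧
      (∀ g, D.eg G S₂ K₂ R m g ≠ 0 → g ∈ E) ∧ ∀ g ∈ E, g.1 ∈ G.W S₂ K₂ k := by
    refine ⟨(S₂ * G.D1 ^ R * {G.a ^ m} * G.ew K₂) ×ˢ B,
      (((hS₂.mul (dc R)).mul isCompact_singleton).mul (Fin_ew G hK₂)).prod hB, ?_, ?_⟩
    · intro g hg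
      have hg' : eP D.μ₁ G S₂ K₂ R m g.1 * D.nu m g.2 ≠ 0 := hg
      refine ⟨Fin_supp D.μ₁ G S₂ K₂ R m g.1 (left_ne_zero_of_mul hg'), ?_⟩
      by_contra hx
      exact (right_ne_zero_of_mul hg') (hB' _ hx)
    · intro g hg
      exact Fin_W G S₂ K₂ R m k (hT m hm) g.1 hg.1
  have hEE : IsCompact (E * E'⁻¹) := hE.mul hE'.inv
  -- the local bound
  have key : ∀ l : D.Γ, ∃ b : ℝ≥0∞, b ≠ ∞ ∧ ∀ x ∈ X₀, x⁻¹ * (l : P × H) * x ∈ E * E'⁻¹ →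
      ab (ph G φ l (x.1 * c)) ≤ b := by
    intro l
    have hY : IsCompact (X₀ ∩ (fun x : P × H => x⁻¹ * (l : P × H) * x) ⁻¹' (E * E'⁻¹)) :=
      hX₀.inter_right (hEE.isClosed.preimage (by fun_prop))
    have hp := hY.induction_on
      (p := fun s => ∃ b : ℝ≥0∞, b ≠ ∞ ∧ ∀ x ∈ s, ab (ph G φ l (x.1 * c)) ≤ b)
      ⟨0, ENNReal.zero_ne_top, fun x hx => absurd hx (Set.notMem_empty x)⟩
      (fun s t hst ⟨b, hb, hb'⟩ => ⟨b, hb, fun x hx => hb' x (hst hx)⟩)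
      (fun s t ⟨b, hb, hb'⟩ ⟨b₁, hb₁, hb₁'⟩ => ⟨b + b₁, ENNReal.add_ne_top.mpr ⟨hb, hb₁⟩, by
        rintro x (hx | hx)
        · exact (hb' x hx).trans le_self_add
        · exact (hb₁' x hx).trans le_add_self⟩) ?_
    · obtain ⟨b, hb, hb'⟩ := hp
      exact ⟨b, hb, fun x hx hx' => hb' x ⟨hx, hx'⟩⟩
    · rintro x ⟨-, hx⟩
      obtain ⟨g, hg, h, hh, hgh⟩ := hx
      have hgh' : g * h = x⁻¹ * (l : P × H) * x := hgh
      have hgh1 : g.1 * h.1 = x.1⁻¹ * (l : P × H).1 * x.1 := congrArg Prod.fst hgh'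
      obtain ⟨z, hz, hzS, -⟩ := hk g.1 (hEW g hg) (h⁻¹).1 (hEW' h⁻¹ hh)
      have hz' : z⁻¹ * (g.1 * h.1) * z ∈ G.App := by
        have h0 : z⁻¹ * (g.1 * ((h⁻¹).1)⁻¹) * z ∈ G.App := hz
        have h1 : ((h⁻¹).1)⁻¹ = h.1 := by rw [Prod.fst_inv, inv_inv]
        rwa [h1] at h0
      have hfr : Fr G (l : P × H).1 (x.1 * z) := by
        change (x.1 * z)⁻¹ * (l : P × H).1 * (x.1 * z) ∈ G.App
        rw [hgh1] at hz'
        have e : (x.1 * z)⁻¹ * (l : P × H).1 * (x.1 * z) =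
            z⁻¹ * (x.1⁻¹ * (l : P × H).1 * x.1) * z := by group
        rwa [e]
      have hO : IsOpen {x' : P × H | G.Pos (x'.1 * c) (x.1 * z * G.w)} := by
        have hc1 : Continuous fun x' : P × H => (x'.1 * c, x.1 * z * G.w) := by fun_prop
        exact hG.Po.preimage hc1
      have hxO : x ∈ {x' : P × H | G.Pos (x'.1 * c) (x.1 * z * G.w)} := by
        change G.Pos (x.1 * c) (x.1 * z * G.w)
        rw [mul_assoc]
        exact (hG.Pl _ _ _).mpr (hzS c hc)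
      refine ⟨_, mem_nhdsWithin_of_mem_nhds (hO.mem_nhds hxO), ab (φ l (x.1 * z)),
        ENNReal.ofReal_ne_top, fun x' hx' => ?_⟩
      rw [p1 l (x.1 * z) (x'.1 * c) hfr hx']
  choose b hb hb' using key
  have hfin : {l : D.Γ | (l : P × H) ∈ X₀ * (E * E'⁻¹) * X₀⁻¹}.Finite :=
    ((hD.disc _ ((hX₀.mul hEE).mul hX₀.inv)).preimage Subtype.val_injective.injOn).subset
      fun l hl => ⟨l.2, hl⟩
  obtain ⟨M, hM, hM'⟩ : ∃ M : ℝ≥0∞, M ≠ ∞ ∧ ∀ (x y : P × H) (u v : D.Γ), D.χ x ≠ 0 →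
      D.eg G S₁ K₁ R n (x⁻¹ * (u : P × H) * y) * D.eg G S₂ K₂ R m (x⁻¹ * (v : P × H) * y) *
        ab (ph G φ (u * v⁻¹) (x.1 * c)) ≤
      D.eg G S₁ K₁ R n (x⁻¹ * (u : P × H) * y) * D.eg G S₂ K₂ R m (x⁻¹ * (v : P × H) * y) *
        M := by
    refine ⟨∑ l ∈ hfin.toFinset, b l, ENNReal.sum_ne_top.mpr fun l _ => hb l, ?_⟩
    intro x y u v hx
    by_cases h1 : D.eg G S₁ K₁ R n (x⁻¹ * (u : P × H) * y) = 0
    · rw [h1, zero_mul, zero_mul, zero_mul]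
    by_cases h2 : D.eg G S₂ K₂ R m (x⁻¹ * (v : P × H) * y) = 0
    · rw [h2, mul_zero, zero_mul, zero_mul]
    refine mul_le_mul_right ?_ _
    have hxX : x ∈ X₀ := by
      by_contra h
      exact hx (hχ x h)
    have hl : x⁻¹ * ((u * v⁻¹ : D.Γ) : P × H) * x ∈ E * E'⁻¹ := by
      refine ⟨_, hEs _ h1, _, Set.inv_mem_inv.mpr (hEs' _ h2), ?_⟩
      change x⁻¹ * (u : P × H) * y * (x⁻¹ * (v : P × H) * y)⁻¹ =
        x⁻¹ * ((u : P × H) * (v : P × H)⁻¹) * x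
      group
    have hmem : (u * v⁻¹ : D.Γ) ∈ hfin.toFinset := by
      rw [Set.Finite.mem_toFinset]
      have h3 := Set.mul_mem_mul (Set.mul_mem_mul hxX hl) (Set.inv_mem_inv.mpr hxX)
      have h4 : x * (x⁻¹ * ((u * v⁻¹ : D.Γ) : P × H) * x) * x⁻¹ = ((u * v⁻¹ : D.Γ) : P × H) := by
        group
      rw [h4] at h3
      exact h3
    exact (hb' _ x hxX hl).trans
      (Finset.single_le_sum (f := b) (fun _ _ => zero_le) hmem)
  -- the final estimate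
  have hst : ∀ x y : P × H, D.χ x ≠ 0 →
      D.st2 (D.eg G S₁ K₁ R n) (D.eg G S₂ K₂ R m) x y
        (fun u v => ab (ph G φ (u * v⁻¹) (x.1 * c))) ≤ C₁ * C₂ * M := by
    intro x y hx
    calc D.st2 (D.eg G S₁ K₁ R n) (D.eg G S₂ K₂ R m) x y
          (fun u v => ab (ph G φ (u * v⁻¹) (x.1 * c)))
        ≤ ∑' u : D.Γ, ∑' v : D.Γ, D.eg G S₁ K₁ R n (x⁻¹ * (u : P × H) * y) *
            D.eg G S₂ K₂ R m (x⁻¹ * (v : P × H) * y) * M :=
          ENNReal.tsum_le_tsum fun u => ENNReal.tsum_le_tsum fun v => hM' x y u v hx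
      _ = D.N (D.eg G S₁ K₁ R n) x y * D.N (D.eg G S₂ K₂ R m) x y * M := by
          simp only [ENNReal.tsum_mul_right, ENNReal.tsum_mul_left]
          rfl
      _ ≤ C₁ * C₂ * M := mul_le_mul' (mul_le_mul' (hN₁ n x y) (hN₂ m x y)) le_rfl
  have hIM : ∀ f : P × H → ℝ≥0∞, (∀ x, D.χ x ≠ 0 → f x ≤ C₁ * C₂ * M) →
      D.IM f ≤ C₁ * C₂ * M := by
    intro f hf
    calc D.IM f ≤ ∫⁻ x, D.χ x * (C₁ * C₂ * M) ∂D.μ := by
          refine lintegral_mono fun x => ?_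
          by_cases hx : D.χ x = 0
          · change D.χ x * f x ≤ D.χ x * (C₁ * C₂ * M)
            rw [hx, zero_mul, zero_mul]
          · exact mul_le_mul_right (hf x hx) _
      _ = C₁ * C₂ * M := by rw [lintegral_mul_const _ hD.χm, hD.mass, one_mul]
  have hfinal : D.PX G c (D.eg G S₁ K₁ R n) (D.eg G S₂ K₂ R m) φ ≤ C₁ * C₂ * M :=
    hIM _ fun x hx => hIM _ fun y _ => hst x y hx
  exact ne_top_of_le_ne_top (ENNReal.mul_ne_top (ENNReal.mul_ne_top hC₁ hC₂) hM) hfinal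

end Pool.Agent.MPEF.U
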