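import Pool.Agent.Lib.MP_ef3f0f_gt.U.F.SpecB2

/-!
# MP_ef3f0f_gt, Theorem U, Part F: change of the frames of both windows, uniform
-/

set_option autoImplicit false
set_option linter.unusedSectionVars false

namespace Pool.Agent.MPEF.U

open MeasureTheory Topology
open scoped ENNReal Pointwise

section GEu

variable (P : Type) [Group P] [TopologicalSpace P] [IsTopologicalGroup P] [LocallyCompactSpace P]
  [T2Space P] [SecondCountableTopology P] [MeasurableSpace P] [BorelSpace P]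

omit [T2Space P] [SecondCountableTopology P] [MeasurableSpace P] [BorelSpace P] in
/-- A compact window inside of an open one. -/
private theorem GEu_cpt (B : Set P) (S S' : Set P) (hS : IsCompact S) (hS' : IsOpen S')
    (h : ∀ s ∈ S, ∃ s' ∈ S', ∃ b ∈ B, s = s' * b) :
    ∃ S₁ : Set P, IsCompact S₁ ∧ S₁ ⊆ S' ∧ ∀ s ∈ S, ∃ s' ∈ interior S₁, ∃ b ∈ B, s = s' * b := by
  refine hS.induction_on (p := fun T => ∃ S₁ : Set P, IsCompact S₁ ∧ S₁ ⊆ S' ∧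
    ∀ s ∈ T, ∃ s' ∈ interior S₁, ∃ b ∈ B, s = s' * b) ?_ ?_ ?_ ?_
  · exact ⟨∅, isCompact_empty, Set.empty_subset _, fun s hs => absurd hs (Set.notMem_empty s)⟩
  · rintro T T' hT ⟨S₁, h1, h2, h3⟩
    exact ⟨S₁, h1, h2, fun s hs => h3 s (hT hs)⟩
  · rintro T T' ⟨S₁, h1, h2, h3⟩ ⟨S₂, h4, h5, h6⟩
    refine ⟨S₁ ∪ S₂, h1.union h4, Set.union_subset h2 h5, fun s hs => ?_⟩
    rcases hs with hs | hs
    · obtain ⟨s', hs', b, hb, e⟩ := h3 s hs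
      exact ⟨s', interior_mono Set.subset_union_left hs', b, hb, e⟩
    · obtain ⟨s', hs', b, hb, e⟩ := h6 s hs
      exact ⟨s', interior_mono Set.subset_union_right hs', b, hb, e⟩
  · intro s hs
    obtain ⟨s', hs', b, hb, e⟩ := h s hs
    obtain ⟨C, hC, hsC, hCS⟩ := exists_compact_subset hS' hs'
    refine ⟨{x | x * b⁻¹ ∈ interior C}, mem_nhdsWithin_of_mem_nhds ?_, C, hC, hCS, ?_⟩
    · refine (isOpen_interior.preimage (continuous_mul_const b⁻¹)).mem_nhds ?_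
      rw [Set.mem_preimage, e, mul_inv_cancel_right]
      exact hsC
    · intro x hx
      exact ⟨x * b⁻¹, hx, b, hb, by rw [inv_mul_cancel_right]⟩

theorem tGEu : S_GE1u P → S_RV P → S_AD P → S_NB P → S_GEu P := by
  intro hGE1 hRV hAD _h G μ _ _ _ hG hGF B hB hBB
  obtain ⟨hmono, -⟩ := hAD G μ hG
  obtain ⟨c, hc⟩ := hGE1 G μ hG hGF B hB hBB
  refine ⟨c + c, fun S K S' K' hS hK hS' hK' hSS hKK R => ?_⟩
  obtain ⟨S₁, hS₁, hS₁S, hSS₁⟩ := GEu_cpt P B S S' hS hS' hSS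
  obtain ⟨K₁, hK₁, hK₁K, hKK₁⟩ := GEu_cpt P B K K' hK hK' hKK
  have hop : IsOpen (interior K₁ * B) := isOpen_interior.mul_right
  obtain ⟨K₂, hK₂, hKK₂, hK₂K⟩ := exists_compact_between hK hop (by
    intro κ hκ
    obtain ⟨κ', hκ', b, hb, e⟩ := hKK₁ κ hκ
    exact ⟨κ', hκ', b, hb, e.symm⟩)
  have hK₂B : ∀ κ ∈ K₂, ∃ κ' ∈ interior K₁, ∃ b ∈ B, κ = κ' * b := by
    intro κ hκ
    obtain ⟨κ', hκ', b, hb, e⟩ := hK₂K hκ
    exact ⟨κ', hκ', b, hb, e.symm⟩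
  obtain ⟨S₂, hS₂, hS₁S₂, hS₂S⟩ := exists_compact_between hS₁ hS' hS₁S
  obtain ⟨S₃, hS₃, hS₂S₃, hS₃S⟩ := exists_compact_between hS₂ hS' hS₂S
  obtain ⟨C₁, T₁, hC₁, h1⟩ := hc S K (interior S₁) K₂ hS hK isOpen_interior hSS₁ hKK₂ R
  obtain ⟨C₂, hC₂, h2⟩ := hRV G μ hG S₁ K₂ S₂ hS₁ hK₂ hS₁S₂ (R + c)
  obtain ⟨C₃, T₃, hC₃, h3⟩ := hc K₂ S₂ (interior K₁) S₃ hK₂ hS₂ isOpen_interior hK₂B hS₂S₃ (R + c)
  obtain ⟨C₄, hC₄, h4⟩ := hRV G μ hG K₁ S₃ K' hK₁ hS₃ (by rwa [hK'.interior_eq]) (R + c + c)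
  refine ⟨C₁ * (C₂ * (C₃ * C₄)), max T₁ T₃, ?_, fun n hn g => ?_⟩
  · exact ENNReal.mul_ne_top hC₁ (ENNReal.mul_ne_top hC₂ (ENNReal.mul_ne_top hC₃ hC₄))
  have hn1 : T₁ ≤ n := le_trans (le_max_left _ _) hn
  have hn3 : T₃ ≤ n := le_trans (le_max_right _ _) hn
  have e1 : eP μ G S K R n g ≤ C₁ * eP μ G (interior S₁) K₂ (R + c) n g := h1 n hn1 g
  have e2 : eP μ G (interior S₁) K₂ (R + c) n g ≤ C₂ * eP μ G K₂ S₂ (R + c) n g⁻¹ := by
    refine (hmono _ S₁ _ K₂ _ (R + c) n interior_subset subset_rfl le_rfl g).trans ?_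
    have := h2 n g⁻¹
    rwa [inv_inv] at this
  have e3 : eP μ G K₂ S₂ (R + c) n g⁻¹ ≤
      C₃ * eP μ G (interior K₁) S₃ (R + c + c) n g⁻¹ := h3 n hn3 g⁻¹
  have e4 : eP μ G (interior K₁) S₃ (R + c + c) n g⁻¹ ≤
      C₄ * eP μ G S₃ K' (R + c + c) n g :=
    (hmono _ K₁ _ S₃ _ (R + c + c) n interior_subset subset_rfl le_rfl g⁻¹).trans (h4 n g)
  have e5 : eP μ G S₃ K' (R + c + c) n g ≤ eP μ G S' K' (R + (c + c)) n g :=
    hmono _ _ _ _ _ _ n hS₃S subset_rfl (by omega) g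
  calc eP μ G S K R n g ≤ C₁ * eP μ G (interior S₁) K₂ (R + c) n g := e1
    _ ≤ C₁ * (C₂ * (C₃ * (C₄ * eP μ G S' K' (R + (c + c)) n g))) := by
        refine mul_le_mul_right (e2.trans ?_) C₁
        refine mul_le_mul_right (e3.trans ?_) C₂
        refine mul_le_mul_right (e4.trans ?_) C₃
        exact mul_le_mul_right e5 C₄
    _ = C₁ * (C₂ * (C₃ * C₄)) * eP μ G S' K' (R + (c + c)) n g := by ring

end GEu

end Pool.Agent.MPEF.U
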