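import Pool.Agent.Lib.MP_ef3f0f_gt.U.F.SpecC

set_option autoImplicit false
set_option linter.unusedSectionVars false

/-! Invariance under equivariant left translations. -/

namespace Pool.Agent.MPEF.U

open MeasureTheory Topology
open scoped ENNReal Pointwise

variable (P H : Type) [Group P] [Group H] [TopologicalSpace P] [TopologicalSpace H]
  [IsTopologicalGroup P] [IsTopologicalGroup H] [LocallyCompactSpace P] [LocallyCompactSpace H]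
  [T2Space P] [T2Space H] [SecondCountableTopology P] [SecondCountableTopology H]
  [MeasurableSpace P] [MeasurableSpace H] [BorelSpace P] [BorelSpace H]

theorem tJI : S_inst P H → S_JI P H := by
  intro hi D hD f Jl hfm hf hJ
  obtain ⟨-, -, -, h4, -, h6, -⟩ := hi D hD
  have hχ := hD.χm
  have mχ : ∀ g : P × H, Measurable fun x : P × H => D.χ (g * x) := fun g =>
    hχ.comp (measurable_const_mul g)
  -- the left side
  have eL : D.IM (fun x => ∑' l : D.Γ, f x l) = ∑' l : D.Γ, ∫⁻ x, D.χ x * f x l ∂D.μ := by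
    unfold Dat.IM
    rw [← lintegral_tsum]
    · simp_rw [ENNReal.tsum_mul_left]
    · intro l
      exact (hχ.mul (hfm l)).aemeasurable
  -- the right side
  have eR : D.IM (fun x => ∑' l : D.Γ, f (Jl l * x) l) =
      ∑' l : D.Γ, ∫⁻ x, D.χ x * f (Jl l * x) l ∂D.μ := by
    unfold Dat.IM
    rw [← lintegral_tsum]
    · simp_rw [ENNReal.tsum_mul_left]
    · intro l
      exact (hχ.mul ((hfm l).comp (measurable_const_mul (Jl l)))).aemeasurable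
  have e1 : ∀ l : D.Γ, ∫⁻ x, D.χ x * f (Jl l * x) l ∂D.μ =
      ∑' γ : D.Γ, ∫⁻ x, D.χ ((Jl l)⁻¹ * x) * D.χ ((γ : P × H) * x) * f x l ∂D.μ := by
    intro l
    rw [← lintegral_tsum]
    · rw [← lintegral_mul_left_eq_self
        (fun x => ∑' γ : D.Γ, D.χ ((Jl l)⁻¹ * x) * D.χ ((γ : P × H) * x) * f x l) (Jl l)]
      refine lintegral_congr fun x => ?_
      rw [ENNReal.tsum_mul_right, ENNReal.tsum_mul_left, hD.χs, mul_one, inv_mul_cancel_left]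
    · intro γ
      exact (((mχ _).mul (mχ _)).mul (hfm l)).aemeasurable
  have e2 : ∀ γ l : D.Γ, ∫⁻ x, D.χ ((Jl l)⁻¹ * x) * D.χ ((γ : P × H) * x) * f x l ∂D.μ =
      ∫⁻ x, D.χ ((γ : P × H)⁻¹ * (Jl (γ * l * γ⁻¹))⁻¹ * x) * (D.χ x * f x (γ * l * γ⁻¹)) ∂D.μ := by
    intro γ l
    rw [← lintegral_mul_left_eq_self (fun x => D.χ ((γ : P × H)⁻¹ * (Jl (γ * l * γ⁻¹))⁻¹ * x) *
      (D.χ x * f x (γ * l * γ⁻¹))) (γ : P × H)]
    refine lintegral_congr fun x => ?_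
    have k1 : (γ : P × H)⁻¹ * (Jl (γ * l * γ⁻¹))⁻¹ * ((γ : P × H) * x) = (Jl l)⁻¹ * x := by
      rw [hJ]
      group
    rw [k1, hf, mul_assoc]
  have e3 : ∀ γ : D.Γ, ∑' l : D.Γ,
      ∫⁻ x, D.χ ((γ : P × H)⁻¹ * (Jl (γ * l * γ⁻¹))⁻¹ * x) * (D.χ x * f x (γ * l * γ⁻¹)) ∂D.μ =
      ∑' l : D.Γ, ∫⁻ x, D.χ ((γ : P × H)⁻¹ * (Jl l)⁻¹ * x) * (D.χ x * f x l) ∂D.μ := by
    intro γ
    exact (MulAut.conj γ).toEquiv.tsum_eq (fun l : D.Γ =>
      ∫⁻ x, D.χ ((γ : P × H)⁻¹ * (Jl l)⁻¹ * x) * (D.χ x * f x l) ∂D.μ)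
  have e4 : ∀ l : D.Γ, ∑' γ : D.Γ,
      ∫⁻ x, D.χ ((γ : P × H)⁻¹ * (Jl l)⁻¹ * x) * (D.χ x * f x l) ∂D.μ =
      ∫⁻ x, D.χ x * f x l ∂D.μ := by
    intro l
    rw [← lintegral_tsum]
    · refine lintegral_congr fun x => ?_
      rw [ENNReal.tsum_mul_right]
      have k1 : ∑' γ : D.Γ, D.χ ((γ : P × H)⁻¹ * (Jl l)⁻¹ * x) = 1 := by
        rw [← hD.χs ((Jl l)⁻¹ * x), ← (Equiv.inv D.Γ).tsum_eq
          (fun γ : D.Γ => D.χ ((γ : P × H) * ((Jl l)⁻¹ * x)))]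
        refine tsum_congr fun γ => ?_
        rw [Equiv.inv_apply, Subgroup.coe_inv, mul_assoc]
      rw [k1, one_mul]
    · intro γ
      exact ((mχ _).mul (hχ.mul (hfm l))).aemeasurable
  rw [eL, eR, tsum_congr e1, ENNReal.tsum_comm]
  have e5 : ∀ γ : D.Γ, ∑' l : D.Γ,
      ∫⁻ x, D.χ ((Jl l)⁻¹ * x) * D.χ ((γ : P × H) * x) * f x l ∂D.μ =
      ∑' l : D.Γ, ∫⁻ x, D.χ ((γ : P × H)⁻¹ * (Jl l)⁻¹ * x) * (D.χ x * f x l) ∂D.μ := by
    intro γ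
    rw [tsum_congr (e2 γ), e3 γ]
  rw [tsum_congr e5, ENNReal.tsum_comm, tsum_congr e4]

end Pool.Agent.MPEF.U
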