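import Pool.Agent.Lib.MP_ef3f0f_gt.U.F.SpecB

set_option autoImplicit false

/-!
# MP_ef3f0f_gt, Theorem U, Part F: the basic change of variables (`S_KT`)
-/

namespace Pool.Agent.MPEF.U

open MeasureTheory Topology
open scoped ENNReal Pointwise

variable (P : Type) [Group P] [TopologicalSpace P] [IsTopologicalGroup P] [LocallyCompactSpace P]
  [T2Space P] [SecondCountableTopology P] [MeasurableSpace P] [BorelSpace P]

theorem tKT : S_KT P := by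
  intro μ _ _ _ a k₁ k₂
  refine ⟨fun h x e g N hh => ?_, fun x g N => ?_, fun g N => ?_⟩
  · unfold kk
    rw [← lintegral_mul_right_eq_self (μ := μ)
      (fun q => k₁ (q * x⁻¹) * k₂ (e⁻¹ * ((a ^ N)⁻¹ * q⁻¹ * g))) x]
    refine lintegral_congr fun q => ?_
    rw [mul_inv_cancel_right, hh]
    congr 2
    simp only [mul_inv_rev, mul_assoc]
  · unfold kk
    rw [← lintegral_mul_left_eq_self (μ := μ)
      (fun q => k₁ q * k₂ ((a ^ N)⁻¹ * q⁻¹ * (x * g))) x]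
    refine lintegral_congr fun q => ?_
    congr 2
    simp only [mul_inv_rev, mul_assoc, inv_mul_cancel_left]
  · unfold kk
    rw [← lintegral_mul_left_eq_self (μ := μ)
      (fun q => k₁ q * k₂ ((a ^ N)⁻¹ * q⁻¹ * g⁻¹)) g⁻¹]
    rw [← lintegral_mul_right_eq_self (μ := μ)
      (fun q => k₁ (g⁻¹ * q) * k₂ ((a ^ N)⁻¹ * (g⁻¹ * q)⁻¹ * g⁻¹)) (a ^ N)⁻¹]
    rw [← lintegral_inv_eq_self (μ := μ)
      (fun q => k₁ (g⁻¹ * (q * (a ^ N)⁻¹)) * k₂ ((a ^ N)⁻¹ * (g⁻¹ * (q * (a ^ N)⁻¹))⁻¹ * g⁻¹))]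
    refine lintegral_congr fun p => ?_
    rw [mul_comm (k₂ p)]
    have e1 : (a ^ N)⁻¹ * (g⁻¹ * (p⁻¹ * (a ^ N)⁻¹))⁻¹ * g⁻¹ = p := by group
    have e2 : g⁻¹ * (p⁻¹ * (a ^ N)⁻¹) = g⁻¹ * p⁻¹ * (a ^ N)⁻¹ := by rw [mul_assoc]
    rw [e1, e2]

end Pool.Agent.MPEF.U
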