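import Pool.Agent.Lib.MP_ef3f0f_gt.U.F.SpecA

set_option autoImplicit false

/-!
# MP_ef3f0f_gt, Theorem U, Part F, module `LXc`: loxodromy for a compact set
-/

namespace Pool.Agent.MPEF.U

open MeasureTheory Topology
open scoped ENNReal Pointwise

variable (P : Type) [Group P] [TopologicalSpace P] [IsTopologicalGroup P] [LocallyCompactSpace P]
  [T2Space P]

/-- The set of the `q` with `q q₀⁻¹ ∈ V`, `q₀⁻¹ q ∈ U` is a neighbourhood of `q₀`. -/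
theorem LXc_nhds (q₀ : P) {V U : Set P} (hV : V ∈ 𝓝 (1 : P)) (hU : U ∈ 𝓝 (1 : P)) :
    {q | q * q₀⁻¹ ∈ V ∧ q₀⁻¹ * q ∈ U} ∈ 𝓝 q₀ := by
  have h1 : Filter.Tendsto (fun q : P => q * q₀⁻¹) (𝓝 q₀) (𝓝 (q₀ * q₀⁻¹)) :=
    (continuous_mul_const q₀⁻¹).tendsto q₀
  have h2 : Filter.Tendsto (fun q : P => q₀⁻¹ * q) (𝓝 q₀) (𝓝 (q₀⁻¹ * q₀)) :=
    (continuous_const_mul q₀⁻¹).tendsto q₀
  rw [mul_inv_cancel] at h1
  rw [inv_mul_cancel] at h2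
  exact Filter.inter_mem (h1 hV) (h2 hU)

theorem tLXc : S_DF P → S_LXc P := by
  intro hDF G hG Q hQ hpos U hU
  have hmono := (hDF G hG).2.2.2.2.2.2.2.2.2.1
  refine hQ.induction_on (p := fun Q =>
    ∃ V ∈ 𝓝 (1 : P), ∃ k : ℕ, ∀ s ∈ G.Dp k, ∀ q ∈ Q, ∀ v ∈ V, ∀ v' ∈ V, ∃ z : P,
      z⁻¹ * (s * (v * q * v')) * z ∈ G.App ∧ (∃ e ∈ U, ∃ b ∈ G.Bor, z = e * b) ∧
      ∃ e ∈ U, ∃ b ∈ G.Bor, z * G.w = e * (q⁻¹ * G.w) * b) ?_ ?_ ?_ ?_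
  · exact ⟨Set.univ, Filter.univ_mem, 0, fun s _ q hq => hq.elim⟩
  · rintro A B hAB ⟨V, hV, k, hk⟩
    exact ⟨V, hV, k, fun s hs q hq => hk s hs q (hAB hq)⟩
  · rintro A B ⟨V, hV, k, hk⟩ ⟨W, hW, l, hl⟩
    refine ⟨V ∩ W, Filter.inter_mem hV hW, max k l, fun s hs q hq v hv v' hv' => ?_⟩
    rcases hq with hq | hq
    · exact hk s (hmono k _ (le_max_left k l) hs) q hq v hv.1 v' hv'.1
    · exact hl s (hmono l _ (le_max_right k l) hs) q hq v hv.2 v' hv'.2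
  · intro q₀ hq₀
    obtain ⟨U₁, hU₁, hUU⟩ := exists_nhds_one_split hU
    obtain ⟨V, hV, k, hk⟩ := hG.LX q₀ (hpos q₀ hq₀) U₁ hU₁
    obtain ⟨V₁, hV₁, hVV⟩ := exists_nhds_one_split hV
    refine ⟨_, mem_nhdsWithin_of_mem_nhds (LXc_nhds P q₀ hV₁ hU₁), V₁, hV₁, k,
      fun s hs q hq v hv v' hv' => ?_⟩
    obtain ⟨z, hz1, ⟨e, he, b, hb, hz2⟩, e', he', b', hb', hz3⟩ :=
      hk s hs _ (hVV v hv _ hq.1) v' (by
        have := hVV v' hv' 1 (mem_of_mem_nhds hV₁)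
        rwa [mul_one] at this)
    refine ⟨z, ?_, ⟨e, ?_, b, hb, hz2⟩, e' * (q₀⁻¹ * q), hUU e' he' _ hq.2, b', hb', ?_⟩
    · have e1 : v * (q * q₀⁻¹) * q₀ * v' = v * q * v' := by group
      rwa [e1] at hz1
    · have := hUU e he 1 (mem_of_mem_nhds hU₁)
      rwa [mul_one] at this
    · rw [hz3]
      group

end Pool.Agent.MPEF.U
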