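import Pool.Agent.Lib.MP_ef3f0f_gt.U.F.SpecC

set_option autoImplicit false

/-!
# MP_ef3f0f_gt, Theorem U, Part F: lower bound for the number of edges
-/

namespace Pool.Agent.MPEF.U

open MeasureTheory Topology
open scoped ENNReal Pointwise

/-- A nice function on a nonempty open set. -/
private theorem LoG_fun {P : Type} [TopologicalSpace P] [LocallyCompactSpace P] [T2Space P]
    [MeasurableSpace P] [BorelSpace P] (μ : Measure P) [IsFiniteMeasureOnCompacts μ]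
    [μ.IsOpenPosMeasure] (NK : Set (P → ℝ≥0∞)) (hNK : NiceOk NK) (O : Set P) (hO : IsOpen O)
    (hne : O.Nonempty) :
    ∃ k ∈ NK, ∃ C : ℝ≥0∞, C ≠ ∞ ∧ (∀ g, k g ≤ C * iK O g) ∧ ∫⁻ g, k g ∂μ ≠ 0 ∧
      ∫⁻ g, k g ∂μ ≠ ∞ := by
  obtain ⟨s, hs⟩ := hne
  obtain ⟨Q, hQ, hsQ, hQO⟩ := exists_compact_subset hO hs
  obtain ⟨k, hk, hk1, hk0⟩ := hNK.sep Q O hQ hO hQO
  obtain ⟨C, hC, hCk⟩ := hNK.bdd k hk
  obtain ⟨L, hL, hLk⟩ := hNK.supp k hk
  refine ⟨k, hk, C, hC, fun g => ?_, ?_, ?_⟩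
  · by_cases hg : g ∈ O
    · simpa [iK, hg] using hCk g
    · rw [hk0 g hg]
      exact zero_le
  · have h1 : μ (interior Q) ≤ ∫⁻ g, k g ∂μ := by
      rw [← lintegral_indicator_one isOpen_interior.measurableSet]
      refine lintegral_mono fun g => ?_
      by_cases hg : g ∈ interior Q
      · rw [Set.indicator_of_mem hg, hk1 g (interior_subset hg)]
        exact le_rfl
      · rw [Set.indicator_of_notMem hg]
        exact zero_le
    have h2 : 0 < μ (interior Q) := isOpen_interior.measure_pos μ ⟨s, hsQ⟩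
    exact (h2.trans_le h1).ne'
  · have h1 : ∫⁻ g, k g ∂μ ≤ C * μ L := by
      calc ∫⁻ g, k g ∂μ ≤ ∫⁻ g, L.indicator (fun _ => C) g ∂μ := by
            refine lintegral_mono fun g => ?_
            by_cases hg : g ∈ L
            · rw [Set.indicator_of_mem hg]
              exact hCk g
            · rw [Set.indicator_of_notMem hg, hLk g hg]
        _ = C * μ L := by rw [lintegral_indicator_const hL.measurableSet]
    exact (h1.trans_lt (ENNReal.mul_lt_top hC.lt_top hL.measure_lt_top)).ne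

variable (P H : Type) [Group P] [Group H] [TopologicalSpace P] [TopologicalSpace H]
  [IsTopologicalGroup P] [IsTopologicalGroup H] [LocallyCompactSpace P] [LocallyCompactSpace H]
  [T2Space P] [T2Space H] [SecondCountableTopology P] [SecondCountableTopology H]
  [MeasurableSpace P] [MeasurableSpace H] [BorelSpace P] [BorelSpace H]

theorem tLoG : S_AD P → S_LoG P H := by
  intro _h D hD G hG NK hNK hEq S K hS hK
  have := hD.haar₁
  have hew : IsOpen (G.ew (interior K)) := by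
    have h1 : Continuous fun q : P => q⁻¹ * G.w := continuous_inv.mul continuous_const
    exact isOpen_interior.preimage h1
  have hewne : (G.ew (interior K)).Nonempty := by
    obtain ⟨κ, hκ⟩ := hK
    refine ⟨G.w * κ⁻¹, ?_⟩
    show (G.w * κ⁻¹)⁻¹ * G.w ∈ interior K
    rw [mul_inv_rev, inv_inv, mul_assoc, inv_mul_cancel, mul_one]
    exact hκ
  obtain ⟨k₁, hk₁, C₁, hC₁, hb₁, hi₁, hf₁⟩ := LoG_fun D.μ₁ NK hNK (interior S) isOpen_interior hS
  obtain ⟨k₂, hk₂, C₂, hC₂, hb₂, hi₂, hf₂⟩ := LoG_fun D.μ₁ NK hNK _ hew hewne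
  obtain ⟨C, hC, hE⟩ := hEq k₁ hk₁ k₂ hk₂
  set I : ℝ≥0∞ := (∫⁻ g, k₁ g ∂D.μ₁) * (∫⁻ g, k₂ g ∂D.μ₁) with hI
  have hI0 : I ≠ 0 := mul_ne_zero hi₁ hi₂
  have hIt : I ≠ ∞ := ENNReal.mul_ne_top hf₁ hf₂
  have hI2 : I / 2 ≠ 0 := by
    rw [Ne, ENNReal.div_eq_zero_iff]
    push Not
    exact ⟨hI0, by norm_num⟩
  have hI2t : I / 2 ≠ ∞ := ENNReal.div_ne_top hIt (by norm_num)
  obtain ⟨T, hT⟩ := ENNReal.exists_nat_gt (ENNReal.div_ne_top hC hI2)
  set M : ℝ≥0∞ := C₁ * C₂ + 1 with hM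
  have hM0 : M ≠ 0 := by
    rw [hM]
    exact (lt_of_lt_of_le (by norm_num) le_add_self).ne'
  have hMt : M ≠ ∞ := ENNReal.add_ne_top.2 ⟨ENNReal.mul_ne_top hC₁ hC₂, ENNReal.one_ne_top⟩
  refine ⟨I / 2 / M, T + 1, ?_, fun n hn x y => ?_⟩
  · rw [Ne, ENNReal.div_eq_zero_iff]
    push Not
    exact ⟨hI2, hMt⟩
  · have hn1 : 1 ≤ n := by omega
    have h1 : C * ((n : ℝ≥0∞)⁻¹) ^ 6 ≤ I / 2 := by
      have hn0 : (n : ℝ≥0∞) ≠ 0 := by
        rw [Ne, Nat.cast_eq_zero]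
        omega
      have hle : (n : ℝ≥0∞)⁻¹ ≤ 1 := by
        rw [ENNReal.inv_le_one]
        exact_mod_cast hn1
      have h2 : C ≤ (I / 2) * n := by
        have h3 : C / (I / 2) ≤ n := hT.le.trans (by exact_mod_cast (by omega : T ≤ n))
        rw [ENNReal.div_le_iff hI2 hI2t] at h3
        rwa [mul_comm] at h3
      calc C * ((n : ℝ≥0∞)⁻¹) ^ 6 ≤ C * (n : ℝ≥0∞)⁻¹ := by
            refine mul_le_mul' le_rfl ?_
            calc ((n : ℝ≥0∞)⁻¹) ^ 6 ≤ ((n : ℝ≥0∞)⁻¹) ^ 1 :=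
                  pow_le_pow_right_of_le_one' hle (by norm_num)
              _ = _ := pow_one _
        _ ≤ (I / 2 * n) * (n : ℝ≥0∞)⁻¹ := mul_le_mul' h2 le_rfl
        _ = I / 2 := by
            rw [mul_assoc, ENNReal.mul_inv_cancel hn0 (ENNReal.natCast_ne_top n), mul_one]
    have h2 : I / 2 ≤ D.N (D.ed G k₁ k₂ n) x y := by
      have h3 := (hE n hn1 x y).2
      have h4 : I / 2 + I / 2 ≤ D.N (D.ed G k₁ k₂ n) x y + I / 2 := by
        rw [ENNReal.add_halves]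
        exact h3.trans (add_le_add le_rfl h1)
      exact (ENNReal.add_le_add_iff_right hI2t).1 h4
    have hkk : ∀ g, kk D.μ₁ G.a k₁ k₂ n g ≤
        C₁ * C₂ * kk D.μ₁ G.a (iK (S * G.D1 ^ 0)) (iK (G.ew K)) n g := by
      intro g
      unfold kk
      rw [← lintegral_const_mul' _ _ (ENNReal.mul_ne_top hC₁ hC₂)]
      refine lintegral_mono fun q => ?_
      have h5 : k₁ q ≤ C₁ * iK (S * G.D1 ^ 0) q := by
        refine (hb₁ q).trans (mul_le_mul' le_rfl ?_)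
        rw [pow_zero, mul_one]
        exact Set.indicator_le_indicator_of_subset interior_subset (fun _ => zero_le) q
      have h6 : k₂ ((G.a ^ n)⁻¹ * q⁻¹ * g) ≤ C₂ * iK (G.ew K) ((G.a ^ n)⁻¹ * q⁻¹ * g) := by
        refine (hb₂ _).trans (mul_le_mul' le_rfl ?_)
        have h7 : G.ew (interior K) ⊆ G.ew K := fun p hp => interior_subset (s := K) hp
        exact Set.indicator_le_indicator_of_subset h7 (fun _ => zero_le) _
      calc k₁ q * k₂ ((G.a ^ n)⁻¹ * q⁻¹ * g) ≤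
            (C₁ * iK (S * G.D1 ^ 0) q) * (C₂ * iK (G.ew K) ((G.a ^ n)⁻¹ * q⁻¹ * g)) :=
            mul_le_mul' h5 h6
        _ = _ := by ring
    have hN : D.N (D.ed G k₁ k₂ n) x y ≤ C₁ * C₂ * D.N (D.eg G S K 0 n) x y := by
      unfold Dat.N
      rw [← ENNReal.tsum_mul_left]
      refine ENNReal.tsum_le_tsum fun u => ?_
      unfold Dat.eg Dat.ed Dat.tk
      rw [← mul_assoc]
      exact mul_le_mul' (hkk _) le_rfl
    rw [ENNReal.div_le_iff hM0 hMt, mul_comm]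
    calc I / 2 ≤ C₁ * C₂ * D.N (D.eg G S K 0 n) x y := h2.trans hN
      _ ≤ M * D.N (D.eg G S K 0 n) x y := mul_le_mul' le_self_add le_rfl

end Pool.Agent.MPEF.U
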