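import Pool.Agent.Lib.MP_ef3f0f_gt.U.F.SpecA

set_option autoImplicit false

/-!
# MP_ef3f0f_gt, Theorem U, Part F, module MG: merging of displacements
-/

namespace Pool.Agent.MPEF.U

open MeasureTheory Topology
open scoped ENNReal Pointwise

variable (P : Type) [Group P] [TopologicalSpace P] [IsTopologicalGroup P] [LocallyCompactSpace P]
  [T2Space P]

theorem tMG : S_DF P → S_TB P → S_MG P := by
  intro hDF hTB G hG hF S₁ K₁ S₂ K₂ S₁' K₂' hS₁ hK₁ hS₂ hK₂ hSS hKK hPos k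
  obtain ⟨_, hA, _, _, _, _, _, _, _, hDp, _⟩ := hDF G hG
  -- the compact set `Q`
  have hcont : Continuous fun x : P × P => G.w * x.1⁻¹ * x.2 := by fun_prop
  have hQc : IsCompact ((fun x : P × P => G.w * x.1⁻¹ * x.2) '' (K₁ ×ˢ S₂)) :=
    (hK₁.prod hS₂).image hcont
  have hQp : ∀ q ∈ (fun x : P × P => G.w * x.1⁻¹ * x.2) '' (K₁ ×ˢ S₂), G.Pos G.w q := by
    rintro q ⟨⟨κ, s⟩, ⟨hκ, hs⟩, rfl⟩
    have h1 := (hG.Pl (G.w * κ⁻¹) κ s).2 (hPos κ hκ s hs)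
    rw [inv_mul_cancel_right] at h1
    exact h1
  obtain ⟨R₀, hR₀⟩ := hF.JNc _ hQc hQp
  obtain ⟨⟨U₁, hU₁, hU₁'⟩, _, _⟩ := hTB G hG S₁ S₁' hS₁ hSS
  obtain ⟨_, _, ⟨U₂, hU₂, hU₂'⟩⟩ := hTB G hG K₂ K₂' hK₂ hKK
  obtain ⟨k₀, hk₀⟩ := hR₀ (U₁ ∩ U₂) (Filter.inter_mem hU₁ hU₂)
  obtain ⟨c, hc⟩ := hG.Dpd R₀
  refine ⟨max k₀ (k + c), ?_⟩
  rintro g ⟨s₁, hs₁, t, ht, q₁, hq₁, rfl⟩ g' ⟨s₂, hs₂, t', ht', q₂, hq₂, rfl⟩
  have hq : q₁ * s₂ ∈ (fun x : P × P => G.w * x.1⁻¹ * x.2) '' (K₁ ×ˢ S₂) := by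
    refine ⟨(q₁⁻¹ * G.w, s₂), ⟨hq₁, hs₂⟩, ?_⟩
    simp only [mul_inv_rev, inv_inv, mul_inv_cancel_left]
  obtain ⟨e, he, e', he', d, hd, hE⟩ := hk₀ t (hDp _ _ (le_max_left _ _) ht) t'
    (hDp _ _ (le_max_left _ _) ht') (q₁ * s₂) hq
  have htt : t * t' ∈ G.Dp (k + c) := by
    refine hDp _ _ ?_ (hG.Dpm _ _ t ht t' ht')
    exact le_trans (le_max_right k₀ (k + c)) (Nat.le_add_right _ _)
  have httd : t * t' * d ∈ G.Dp k := hc k _ htt d hd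
  have hcomm : d * t * t' = t * t' * d := by
    rw [mul_assoc]
    exact hG.comm d (hA R₀ hd) (t * t') (hG.DpA _ htt)
  have h1U₁ : (1 : P) ∈ U₁ := mem_of_mem_nhds hU₁
  have h1U₂ : (1 : P) ∈ U₂ := mem_of_mem_nhds hU₂
  refine ⟨s₁ * e, ?_, t * t' * d, httd, e' * q₂, ?_, ?_⟩
  · have := hU₁' 1 h1U₁ s₁ hs₁ e he.1
    rwa [one_mul] at this
  · have := hU₂' e' he'.2 q₂ hq₂ 1 h1U₂
    rwa [mul_one] at this
  · rw [← hcomm]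
    calc s₁ * t * q₁ * (s₂ * t' * q₂) = s₁ * (t * (q₁ * s₂) * t') * q₂ := by
          simp only [mul_assoc]
      _ = s₁ * (e * (d * t * t') * e') * q₂ := by rw [hE]
      _ = s₁ * e * (d * t * t') * (e' * q₂) := by simp only [mul_assoc]

end Pool.Agent.MPEF.U
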