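import Pool.Agent.Lib.MP_ef3f0f_gt.U.F.SpecB

set_option autoImplicit false

/-!
# MP_ef3f0f_gt, Theorem U, Part F, module ML: lower bound for the merge
-/

namespace Pool.Agent.MPEF.U

open MeasureTheory Topology
open scoped ENNReal Pointwise

variable (P : Type) [Group P] [TopologicalSpace P] [IsTopologicalGroup P] [LocallyCompactSpace P]
  [T2Space P] [SecondCountableTopology P] [MeasurableSpace P] [BorelSpace P]

private theorem ML_iK {Q : Type} {A B : Set Q} {x y : Q} (h : x ∈ A → y ∈ B) :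
    iK A x ≤ iK B y := by
  unfold iK
  by_cases hx : x ∈ A
  · rw [Set.indicator_of_mem hx, Set.indicator_of_mem (h hx)]
  · rw [Set.indicator_of_notMem hx]
    exact zero_le

private theorem ML_one {Q : Type} {A : Set Q} {x : Q} (h : x ∈ A) : iK A x = 1 := by
  unfold iK
  rw [Set.indicator_of_mem h]

private theorem ML_single {Q : Type} (F : Finset Q) (f : Q → ℝ≥0∞) (d : Q) (hd : d ∈ F) :
    f d ≤ ∑ x ∈ F, f x :=
  Finset.single_le_sum (fun _ _ => zero_le) hd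

omit [IsTopologicalGroup P] [LocallyCompactSpace P] [T2Space P] [SecondCountableTopology P]
  [MeasurableSpace P] [BorelSpace P] in
private theorem ML_U1 [IsTopologicalGroup P] {U₂ U₃ : Set P} (h2 : U₂ ∈ 𝓝 (1 : P))
    (h3 : U₃ ∈ 𝓝 (1 : P)) :
    ∃ U₁ ∈ 𝓝 (1 : P), (∀ e ∈ U₁, ∀ d ∈ U₁, (e * d)⁻¹ ∈ U₂) ∧ ∀ e ∈ U₁, e⁻¹ ∈ U₃ := by
  have hc : Continuous fun p : P × P => (p.1 * p.2)⁻¹ := by fun_prop
  have h4 : (fun p : P × P => (p.1 * p.2)⁻¹) ⁻¹' U₂ ∈ 𝓝 ((1 : P), (1 : P)) := by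
    apply hc.continuousAt.preimage_mem_nhds
    simpa using h2
  rw [nhds_prod_eq] at h4
  obtain ⟨U₄, hU₄, hs⟩ := Filter.mem_prod_same_iff.1 h4
  have h5 : U₃⁻¹ ∈ 𝓝 (1 : P) := inv_mem_nhds_one P h3
  exact ⟨U₄ ∩ U₃⁻¹, Filter.inter_mem hU₄ h5,
    fun e he d hd => hs (Set.mk_mem_prod he.1 hd.1), fun e he => he.2⟩

omit [LocallyCompactSpace P] [T2Space P] [SecondCountableTopology P]
  [MeasurableSpace P] [BorelSpace P] in
private theorem ML_W {U V : Set P} (hU : U ∈ 𝓝 (1 : P)) (hV : V ∈ 𝓝 (1 : P)) :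
    ∃ W : Set P, IsOpen W ∧ (1 : P) ∈ W ∧ W ⊆ V ∧ W ⊆ U ∧ ∀ x ∈ W, ∀ y ∈ W, x * y ∈ U := by
  obtain ⟨W, hWo, hW1, hW⟩ := exists_open_nhds_one_mul_subset (Filter.inter_mem hU hV)
  have h1 : W ⊆ U ∩ V := fun x hx => by
    have h2 := hW (Set.mul_mem_mul hW1 hx)
    rwa [one_mul] at h2
  exact ⟨W, hWo, hW1, fun x hx => (h1 hx).2, fun x hx => (h1 hx).1,
    fun x hx y hy => (hW (Set.mul_mem_mul hx hy)).1⟩

omit [LocallyCompactSpace P] [T2Space P] [SecondCountableTopology P] in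
private theorem ML_cv {G : PG P} (μ : Measure P) [μ.IsInvInvariant] {U W : Set P} (hWo : IsOpen W)
    (hWU : W ⊆ U) (hWW : ∀ x ∈ W, ∀ y ∈ W, x * y ∈ U) {R' : ℕ} {d p : P} (hd : d ∈ G.D1 ^ R')
    (hp : p * d⁻¹ ∈ W) :
    μ W ≤ cvP μ (iK (G.ew (G.uw U))) (iK (U * G.D1 ^ R')) p := by
  have hm : MeasurableSet W⁻¹ := hWo.inv.measurableSet
  calc μ W = μ W⁻¹ := (Measure.measure_inv μ W).symm
    _ = ∫⁻ q, (W⁻¹).indicator 1 q ∂μ := (lintegral_indicator_one hm).symm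
    _ ≤ ∫⁻ q, iK (G.ew (G.uw U)) q * iK (U * G.D1 ^ R') (q⁻¹ * p) ∂μ := by
      apply lintegral_mono
      intro q
      by_cases hq : q ∈ W⁻¹
      · have hq' : q⁻¹ ∈ W := hq
        have h1 : q ∈ G.ew (G.uw U) := Set.mul_mem_mul (hWU hq') (Set.mem_singleton _)
        have h2 : q⁻¹ * p ∈ U * G.D1 ^ R' := by
          have h3 := Set.mul_mem_mul (hWW _ hq' _ hp) hd
          have h4 : q⁻¹ * (p * d⁻¹) * d = q⁻¹ * p := by group
          rwa [h4] at h3
        change (W⁻¹).indicator 1 q ≤ iK (G.ew (G.uw U)) q * iK (U * G.D1 ^ R') (q⁻¹ * p)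
        rw [Set.indicator_of_mem hq, ML_one h1, ML_one h2]
        simp
      · change (W⁻¹).indicator 1 q ≤ iK (G.ew (G.uw U)) q * iK (U * G.D1 ^ R') (q⁻¹ * p)
        rw [Set.indicator_of_notMem hq]
        exact zero_le

private theorem ML_core (h1 : S_DF P) (h2 : S_TB P) (h4 : S_NT1 P) (h5 : S_KT P) (h6 : S_CV P)
    (G : PG P) (μ : Measure P) [μ.IsHaarMeasure] [μ.IsMulRightInvariant] [μ.IsInvInvariant]
    (hG : G.Ok) (S K S' K' : Set P) (hS : IsCompact S) (hK : IsCompact K) (hS' : IsCompact S')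
    (hK' : IsCompact K') (hSS' : S ⊆ interior S') (hKK' : K ⊆ interior K') (U : Set P)
    (hU : U ∈ 𝓝 (1 : P)) (hUc : IsCompact U) (R R' : ℕ) :
    ∃ (C : ℝ≥0∞) (T : ℕ), C ≠ ∞ ∧ ∀ n m, T ≤ m → ∀ g,
      eP μ G S K (R + R') (n + m) g ≤
        C * cvP μ (eP μ G S' (G.uw U) R n) (eP μ G U K' R' m) g := by
  obtain ⟨d1, d2, -, -, -, -, -, d8, -, d10, d11⟩ := h1 G hG
  obtain ⟨T, hT⟩ := d11 R' 0
  obtain ⟨Sp, hSp, hSSp, hSpS'⟩ := exists_compact_between hS isOpen_interior hSS'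
  obtain ⟨-, t2, -⟩ := h2 G hG S Sp hS hSSp
  obtain ⟨U₀, hU₀, hU₀'⟩ := t2 (G.D1 ^ R) (d1 R)
  obtain ⟨F, hF, hF'⟩ := h4 (G.D1 ^ R') (d1 R') U₀ hU₀
  obtain ⟨-, t5, -⟩ := h2 G hG Sp S' hSp hSpS'
  obtain ⟨U₂, hU₂, hU₂'⟩ := t5 (G.D1 ^ R) (d1 R)
  obtain ⟨-, -, U₃, hU₃, hU₃'⟩ := h2 G hG K K' hK hKK'
  obtain ⟨U₁, hU₁, hU₁a, hU₁b⟩ := ML_U1 P hU₂ hU₃
  obtain ⟨V, hV, hV'⟩ := hG.JN1 U₁ hU₁
  obtain ⟨W, hWo, hW1, hWV, hWU, hWW⟩ := ML_W P hU hV
  have hW0 : μ W ≠ 0 := (hWo.measure_pos μ ⟨1, hW1⟩).ne'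
  have hWt : μ W ≠ ∞ := ((measure_mono hWU).trans_lt hUc.measure_lt_top).ne
  have hWm : MeasurableSet W := hWo.measurableSet
  -- measurability
  have hew : ∀ L : Set P, IsCompact L → MeasurableSet (G.ew L) := by
    intro L hL
    have hc : Continuous fun q : P => q⁻¹ * G.w := by fun_prop
    exact (hL.isClosed.preimage hc).measurableSet
  have hmu : ∀ (A : Set P), MeasurableSet A → Measurable (iK A) :=
    fun A hA => measurable_const.indicator hA
  have hk₁ : Measurable (iK (S' * G.D1 ^ R)) := hmu _ (hS'.mul (d1 R)).isClosed.measurableSet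
  have hk₂ : Measurable (iK (G.ew (G.uw U))) := hmu _ (hew _ (hUc.mul isCompact_singleton))
  have hk₃ : Measurable (iK (U * G.D1 ^ R')) := hmu _ (hUc.mul (d1 R')).isClosed.measurableSet
  have hk₄ : Measurable (iK (G.ew K')) := hmu _ (hew _ hK')
  have hk₅ : Measurable (iK (G.ew K)) := hmu _ (hew _ hK)
  refine ⟨F.card * (μ W * μ W)⁻¹, T, ?_, ?_⟩
  · exact ENNReal.mul_ne_top (ENNReal.natCast_ne_top _)
      (ENNReal.inv_ne_top.2 (mul_ne_zero hW0 hW0))
  intro n m hm g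
  have hR : cvP μ (eP μ G S' (G.uw U) R n) (eP μ G U K' R' m) g =
      ∫⁻ p, cvP μ (iK (G.ew (G.uw U))) (iK (U * G.D1 ^ R')) p *
        (∫⁻ q, iK (S' * G.D1 ^ R) q * iK (G.ew K') ((G.a ^ n * p * G.a ^ m)⁻¹ * q⁻¹ * g) ∂μ) ∂μ :=
    (h6 μ G.a _ _ _ _ hk₁ hk₂ hk₃ hk₄).1 n m g
  -- one term
  have hterm : ∀ d ∈ F, ∫⁻ q, iK (Sp * G.D1 ^ R * {d}) q *
      iK (G.ew K) ((G.a ^ (n + m))⁻¹ * q⁻¹ * g) ∂μ ≤
        (μ W * μ W)⁻¹ * cvP μ (eP μ G S' (G.uw U) R n) (eP μ G U K' R' m) g := by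
    intro d hd
    have hdD : d ∈ G.D1 ^ R' := hF d hd
    set J : ℝ≥0∞ := ∫⁻ q, iK (Sp * G.D1 ^ R * {d}) q *
      iK (G.ew K) ((G.a ^ (n + m))⁻¹ * q⁻¹ * g) ∂μ with hJ
    have hE : MeasurableSet ((fun h : P => h * d⁻¹) ⁻¹' W) :=
      (hWo.preimage (continuous_mul_const d⁻¹)).measurableSet
    have hmain : μ W * J * μ W ≤ cvP μ (eP μ G S' (G.uw U) R n) (eP μ G U K' R' m) g := by
      rw [hR]
      calc μ W * J * μ W = μ W * J * μ ((fun h : P => h * d⁻¹) ⁻¹' W) := by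
            rw [measure_preimage_mul_right]
        _ = ∫⁻ p, ((fun h : P => h * d⁻¹) ⁻¹' W).indicator (fun _ => μ W * J) p ∂μ :=
            (lintegral_indicator_const hE _).symm
        _ ≤ _ := by
            apply lintegral_mono
            intro p
            by_cases hp : p ∈ (fun h : P => h * d⁻¹) ⁻¹' W
            · have hpW : p * d⁻¹ ∈ W := hp
              beta_reduce
              rw [Set.indicator_of_mem hp]
              apply mul_le_mul' (ML_cv P μ hWo hWU hWW hdD hpW)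
              -- the normal form of `a^n p a^m`
              have hs : G.a ^ n ∈ G.Dp 0 := d10 0 n (Nat.zero_le n) (hG.Dpa n)
              obtain ⟨e, he, e', he', δ, hδA, hδ, heq⟩ := hV' _ hs _ (hT m hm d hdD) _ (hWV hpW)
              have hdA : d ∈ G.A := d2 R' hdD
              have heq2 : G.a ^ n * p * G.a ^ m = (e * δ * d) * G.a ^ (n + m) * e' := by
                have e1 : G.a ^ n * p * G.a ^ m = G.a ^ n * (p * d⁻¹) * (d * G.a ^ m) := by group
                have e2 : G.a ^ n * d = d * G.a ^ n := hG.comm _ (d8 n) _ hdA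
                rw [e1, heq, pow_add]
                have e3 : δ * G.a ^ n * (d * G.a ^ m) = δ * d * (G.a ^ n * G.a ^ m) := by
                  have e4 : δ * G.a ^ n * (d * G.a ^ m) = δ * (G.a ^ n * d) * G.a ^ m := by group
                  rw [e4, e2]
                  group
                rw [e3]
                group
              rw [(h5 μ G.a (iK (S' * G.D1 ^ R)) (iK (G.ew K'))).1 _ _ _ g (n + m) heq2, hJ]
              apply lintegral_mono
              intro q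
              apply mul_le_mul'
              · apply ML_iK
                rintro ⟨x, ⟨s, hs, δ', hδ', rfl⟩, d', hd', rfl⟩
                rw [Set.mem_singleton_iff] at hd'
                rw [hd']
                have h7 := hU₂' _ (hU₁a e he δ hδ) s hs δ' hδ'
                refine ⟨_, h7, δ', hδ', ?_⟩
                change s * (δ' * (e * δ)⁻¹ * δ'⁻¹) * δ' = s * δ' * d * (e * δ * d)⁻¹
                group
              · apply ML_iK
                intro hy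
                have h8 := hU₃' _ (hU₁b e' he') _ hy 1 (mem_of_mem_nhds hU₃)
                rwa [mul_one] at h8
            · beta_reduce
              rw [Set.indicator_of_notMem hp]
              exact zero_le
    calc J = (μ W * μ W)⁻¹ * (μ W * μ W) * J := by
          rw [ENNReal.inv_mul_cancel (mul_ne_zero hW0 hW0) (ENNReal.mul_ne_top hWt hWt), one_mul]
      _ = (μ W * μ W)⁻¹ * (μ W * J * μ W) := by ring
      _ ≤ _ := mul_le_mul' le_rfl hmain
  -- the sum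
  calc eP μ G S K (R + R') (n + m) g
      = ∫⁻ q, iK (S * G.D1 ^ (R + R')) q * iK (G.ew K) ((G.a ^ (n + m))⁻¹ * q⁻¹ * g) ∂μ := rfl
    _ ≤ ∫⁻ q, ∑ d ∈ F, iK (Sp * G.D1 ^ R * {d}) q *
          iK (G.ew K) ((G.a ^ (n + m))⁻¹ * q⁻¹ * g) ∂μ := by
        apply lintegral_mono
        intro q
        beta_reduce
        by_cases hq : q ∈ S * G.D1 ^ (R + R')
        · rw [pow_add] at hq
          obtain ⟨s, hs, x, ⟨δ, hδ, d₀, hd₀, rfl⟩, rfl⟩ := hq
          obtain ⟨d, hd, v, hv, hvd⟩ := hF' d₀ hd₀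
          have h7 : s * (δ * d₀) ∈ Sp * G.D1 ^ R * {d} := by
            refine ⟨s * (δ * v * δ⁻¹) * δ, ⟨_, hU₀' v hv s hs δ hδ, δ, hδ, rfl⟩, d,
              Set.mem_singleton _, ?_⟩
            change s * (δ * v * δ⁻¹) * δ * d = s * (δ * d₀)
            rw [hvd]
            group
          exact (mul_le_mul' (ML_iK fun _ => h7) le_rfl).trans
            (ML_single F (fun d => iK (Sp * G.D1 ^ R * {d}) (s * (δ * d₀)) *
              iK (G.ew K) ((G.a ^ (n + m))⁻¹ * (s * (δ * d₀))⁻¹ * g)) d hd)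
        · have h7 : iK (S * G.D1 ^ (R + R')) q = 0 := by
            unfold iK
            rw [Set.indicator_of_notMem hq]
          rw [h7, zero_mul]
          exact zero_le
    _ = ∑ d ∈ F, ∫⁻ q, iK (Sp * G.D1 ^ R * {d}) q *
          iK (G.ew K) ((G.a ^ (n + m))⁻¹ * q⁻¹ * g) ∂μ := by
        apply lintegral_finsetSum
        intro d _
        apply Measurable.mul
        · exact hmu _ ((hSp.mul (d1 R)).mul isCompact_singleton).isClosed.measurableSet
        · apply hk₅.comp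
          have hc : Continuous fun q : P => (G.a ^ (n + m))⁻¹ * q⁻¹ * g := by fun_prop
          exact hc.measurable
    _ ≤ ∑ d ∈ F, (μ W * μ W)⁻¹ * cvP μ (eP μ G S' (G.uw U) R n) (eP μ G U K' R' m) g :=
        Finset.sum_le_sum hterm
    _ = _ := by
        rw [Finset.sum_const, nsmul_eq_mul, mul_assoc]

theorem tML : S_DF P → S_TB P → S_NB P → S_NT1 P → S_KT P → S_CV P → S_AD P → S_ML P := by
  intro h1 h2 _h3 h4 h5 h6 h7 G μ _ _ _ hG S K S' K' hS hK hSS' hKK' U hU R R'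
  obtain ⟨S₁, hS₁, hSS₁, hS₁S'⟩ := exists_compact_between hS isOpen_interior hSS'
  obtain ⟨K₁, hK₁, hKK₁, hK₁K'⟩ := exists_compact_between hK isOpen_interior hKK'
  obtain ⟨U₁, hU₁, hU₁U, hU₁c⟩ := local_compact_nhds hU
  obtain ⟨C, T, hC, hT⟩ := ML_core P h1 h2 h4 h5 h6 G μ hG S K S₁ K₁ hS hK hS₁ hK₁ hSS₁ hKK₁ U₁
    hU₁ hU₁c R R'
  refine ⟨C, T, hC, fun n m hm g => (hT n m hm g).trans (mul_le_mul' le_rfl ?_)⟩
  have hmono := (h7 G μ hG).1
  apply lintegral_mono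
  intro q
  exact mul_le_mul'
    (hmono S₁ S' (G.uw U₁) (G.uw U) R R n (hS₁S'.trans interior_subset)
      (Set.mul_subset_mul_right hU₁U) le_rfl q)
    (hmono U₁ U K₁ K' R' R' m hU₁U (hK₁K'.trans interior_subset) le_rfl (q⁻¹ * g))

end Pool.Agent.MPEF.U
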