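import Pool.Agent.Lib.MP_ef3f0f_gt.U.F.SpecB2

/-! # MP_ef3f0f_gt, Theorem U, Part F: lower bound for the merge, single `A`-shift (author helper94) -/

set_option autoImplicit false
set_option linter.unusedSectionVars false

namespace Pool.Agent.MPEF.U

open MeasureTheory Topology
open scoped ENNReal Pointwise

variable (P : Type) [Group P] [TopologicalSpace P] [IsTopologicalGroup P] [LocallyCompactSpace P]
  [T2Space P] [SecondCountableTopology P] [MeasurableSpace P] [BorelSpace P]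

private theorem ML1_le {Q : Type} {A B : Set Q} {x y : Q} (h : x ∈ A → y ∈ B) : iK A x ≤ iK B y := by
  unfold iK
  by_cases hx : x ∈ A
  · rw [Set.indicator_of_mem hx, Set.indicator_of_mem (h hx)]
  · rw [Set.indicator_of_notMem hx]
    exact bot_le

private theorem ML1_mem {Q : Type} {A : Set Q} {x : Q} (h : x ∈ A) : iK A x = 1 :=
  Set.indicator_of_mem h _

theorem tML1 : S_DF P → S_TB P → S_NB P → S_KT P → S_CV P → S_AD P → S_ML1 P := by
  intro hDF hTB _hNB hKT hCV _hAD G μ _ _ _ hG S K S' K' hS hK hSS hKK U hU R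
  obtain ⟨-, hDA, -, -, -, -, -, haA, -, hDp, hDT⟩ := hDF G hG
  obtain ⟨T, hT⟩ := hDT R 0
  -- compact sets
  obtain ⟨S₁, hS₁, hSS₁, hS₁S⟩ := exists_compact_between hS isOpen_interior hSS
  obtain ⟨K₁, hK₁, hKK₁, hK₁K⟩ := exists_compact_between hK isOpen_interior hKK
  obtain ⟨U₁, hU₁, h1U₁, hU₁U⟩ := exists_compact_between (isCompact_singleton (x := (1 : P)))
    isOpen_interior (Set.singleton_subset_iff.2 (mem_interior_iff_mem_nhds.2 hU))
  have hU₁n : U₁ ∈ 𝓝 (1 : P) := mem_interior_iff_mem_nhds.1 (h1U₁ rfl)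
  have hS₁' : S₁ ⊆ S' := hS₁S.trans interior_subset
  have hK₁' : K₁ ⊆ K' := hK₁K.trans interior_subset
  have hU₁' : U₁ ⊆ U := hU₁U.trans interior_subset
  -- neighbourhoods
  obtain ⟨⟨UA, hUA, hA⟩, -, -⟩ := hTB G hG S S₁ hS hSS₁
  obtain ⟨-, -, UB, hUB, hB⟩ := hTB G hG K K₁ hK hKK₁
  have hUA' : UA⁻¹ ∈ 𝓝 (1 : P) := inv_mem_nhds_one P hUA
  have hUB' : UB⁻¹ ∈ 𝓝 (1 : P) := inv_mem_nhds_one P hUB
  obtain ⟨U2, hU2o, h1U2, hU2⟩ := exists_open_nhds_one_split hUA'
  obtain ⟨V₁, hV₁, hJ⟩ := hG.JN1 (U2 ∩ UB⁻¹) (Filter.inter_mem (hU2o.mem_nhds h1U2) hUB')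
  obtain ⟨W, hWo, h1W, hW⟩ := exists_open_nhds_one_split hU₁n
  obtain ⟨V, hV⟩ : ∃ V : Set P, V = interior (W⁻¹ ∩ W ∩ V₁ ∩ U₁) := ⟨_, rfl⟩
  have hVo : IsOpen V := by
    rw [hV]
    exact isOpen_interior
  have h1V : (1 : P) ∈ V := by
    rw [hV, mem_interior_iff_mem_nhds]
    exact Filter.inter_mem (Filter.inter_mem (Filter.inter_mem
      (inv_mem_nhds_one P (hWo.mem_nhds h1W)) (hWo.mem_nhds h1W)) hV₁) hU₁n
  have hVs : V ⊆ W⁻¹ ∩ W ∩ V₁ ∩ U₁ := by
    rw [hV]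
    exact interior_subset
  have hVW : ∀ q ∈ V, q⁻¹ ∈ W := fun q hq => (hVs hq).1.1.1
  have hVW' : ∀ q ∈ V, q ∈ W := fun q hq => (hVs hq).1.1.2
  have hVV : ∀ q ∈ V, q ∈ V₁ := fun q hq => (hVs hq).1.2
  have hμ0 : μ V ≠ 0 := (hVo.measure_pos μ ⟨1, h1V⟩).ne'
  have hμt : μ V ≠ ∞ :=
    ((measure_mono fun q hq => (hVs hq).2).trans_lt hU₁.measure_lt_top).ne
  refine ⟨(μ V * μ V)⁻¹, T, ENNReal.inv_ne_top.2 (mul_ne_zero hμ0 hμ0), ?_⟩
  intro d hd n m hm g
  have hdA : d ∈ G.A := hDA R hd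
  obtain ⟨L, hL⟩ : ∃ L : ℝ≥0∞, L = kk μ G.a (iK (S * {d})) (iK (G.ew K)) (n + m) g := ⟨_, rfl⟩
  rw [← hL]
  -- reduction to compact sets
  have hred : cvP μ (kk μ G.a (iK S₁) (iK (G.ew (G.uw U₁))) n)
        (kk μ G.a (iK (U₁ * {d})) (iK (G.ew K₁)) m) g ≤
      cvP μ (kk μ G.a (iK S') (iK (G.ew (G.uw U))) n)
        (kk μ G.a (iK (U * {d})) (iK (G.ew K')) m) g := by
    refine lintegral_mono fun q => ?_
    refine mul_le_mul' (lintegral_mono fun r => ?_) (lintegral_mono fun r => ?_)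
    · refine mul_le_mul' (ML1_le fun h => hS₁' h) (ML1_le fun h => ?_)
      exact Set.mul_subset_mul_right hU₁' h
    · refine mul_le_mul' (ML1_le fun h => ?_) (ML1_le fun h => ?_)
      · exact Set.mul_subset_mul_right hU₁' h
      · exact hK₁' h
  -- measurability
  have hew : ∀ C : Set P, IsCompact C → MeasurableSet (G.ew C) := by
    intro C hC
    have hc : Continuous fun q : P => q⁻¹ * G.w := continuous_inv.mul continuous_const
    exact (hC.isClosed.preimage hc).measurableSet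
  have hUw : IsCompact (G.uw U₁) := hU₁.mul isCompact_singleton
  have hm1 : Measurable (iK S₁) := measurable_const.indicator hS₁.isClosed.measurableSet
  have hm2 : Measurable (iK (G.ew (G.uw U₁))) := measurable_const.indicator (hew _ hUw)
  have hm3 : Measurable (iK (U₁ * {d})) :=
    measurable_const.indicator (hU₁.mul isCompact_singleton).isClosed.measurableSet
  have hm4 : Measurable (iK (G.ew K₁)) := measurable_const.indicator (hew _ hK₁)
  have hcv := (hCV μ G.a _ _ _ _ hm1 hm2 hm3 hm4).1 n m g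
  -- the two bounds
  have key : ∀ v ∈ V, μ V * L ≤ cvP μ (iK (G.ew (G.uw U₁))) (iK (U₁ * {d})) (v * d) *
      ∫⁻ q, iK S₁ q * iK (G.ew K₁) ((G.a ^ n * (v * d) * G.a ^ m)⁻¹ * q⁻¹ * g) ∂μ := by
    intro v hv
    refine mul_le_mul' ?_ ?_
    · calc μ V = ∫⁻ _q in V, 1 ∂μ := by rw [setLIntegral_one]
        _ ≤ ∫⁻ q in V, iK (G.ew (G.uw U₁)) q * iK (U₁ * {d}) (q⁻¹ * (v * d)) ∂μ := by
          refine setLIntegral_mono' hVo.measurableSet fun q hq => ?_
          have h1 : q ∈ G.ew (G.uw U₁) := by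
            refine Set.mul_mem_mul ?_ rfl
            have := hW q⁻¹ (hVW q hq) 1 h1W
            rwa [mul_one] at this
          have h2 : q⁻¹ * (v * d) ∈ U₁ * {d} := by
            rw [← mul_assoc]
            exact Set.mul_mem_mul (hW q⁻¹ (hVW q hq) v (hVW' v hv)) rfl
          rw [ML1_mem h1, ML1_mem h2, one_mul]
        _ ≤ _ := setLIntegral_le_lintegral _ _
    · obtain ⟨e, he, e', he', d', hd', hd'', heq⟩ := hJ (G.a ^ n) (hDp 0 n (Nat.zero_le n) (hG.Dpa n))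
        (d * G.a ^ m) (hT m hm d hd) v (hVV v hv)
      have hx : G.a ^ n * (v * d) * G.a ^ m = e * d' * d * G.a ^ (n + m) * e' := by
        have h1 : G.a ^ n * (v * d) * G.a ^ m = G.a ^ n * v * (d * G.a ^ m) := by group
        have h2 : G.a ^ n * d = d * G.a ^ n := hG.comm _ (haA n) _ hdA
        rw [h1, heq, pow_add]
        have h3 : d' * G.a ^ n * (d * G.a ^ m) = d' * (d * G.a ^ n) * G.a ^ m := by
          rw [← h2]
          simp only [mul_assoc]
        rw [h3]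
        simp only [mul_assoc]
      rw [(hKT μ G.a (iK S₁) (iK (G.ew K₁))).1 _ (e * d' * d) e' g (n + m) hx, hL]
      refine lintegral_mono fun q => mul_le_mul' (ML1_le ?_) (ML1_le ?_)
      · rintro ⟨s, hs, d₁, hd₁, rfl⟩
        rw [Set.mem_singleton_iff] at hd₁
        have h4 : e * d' ∈ UA⁻¹ := hU2 e he.1 d' hd''.1
        have h5 := hA 1 (mem_of_mem_nhds hUA) s hs (e * d')⁻¹ h4
        rw [one_mul] at h5
        have h6 : s * d₁ * (e * d' * d)⁻¹ = s * (e * d')⁻¹ := by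
          rw [hd₁, mul_inv_rev (e * d') d, mul_assoc s d, mul_inv_cancel_left]
        show s * d₁ * (e * d' * d)⁻¹ ∈ S₁
        rw [h6]
        exact h5
      · intro hq
        have h5 := hB e'⁻¹ he'.2 _ hq 1 (mem_of_mem_nhds hUB)
        rwa [mul_one] at h5
  have hfin : μ V * L * μ V ≤ cvP μ (kk μ G.a (iK S₁) (iK (G.ew (G.uw U₁))) n)
        (kk μ G.a (iK (U₁ * {d})) (iK (G.ew K₁)) m) g := by
    rw [hcv, ← lintegral_mul_right_eq_self _ d, ← setLIntegral_const]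
    exact (setLIntegral_mono' hVo.measurableSet key).trans (setLIntegral_le_lintegral _ _)
  calc L = (μ V * μ V)⁻¹ * (μ V * L * μ V) := by
        rw [show μ V * L * μ V = μ V * μ V * L by ring, ← mul_assoc,
          ENNReal.inv_mul_cancel (mul_ne_zero hμ0 hμ0) (ENNReal.mul_ne_top hμt hμt), one_mul]
    _ ≤ _ := mul_le_mul' le_rfl (hfin.trans hred)

end Pool.Agent.MPEF.U
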