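import Pool.Agent.Lib.MP_ef3f0f_gt.U.F.SpecC

set_option autoImplicit false
set_option linter.unusedSectionVars false

/-!
# MP_ef3f0f_gt, Theorem U, Part F: insertion of a vertex, lower bound (module MLd)
-/

namespace Pool.Agent.MPEF.U

open MeasureTheory Topology
open scoped ENNReal Pointwise

variable (P H : Type) [Group P] [Group H] [TopologicalSpace P] [TopologicalSpace H]
  [IsTopologicalGroup P] [IsTopologicalGroup H] [LocallyCompactSpace P] [LocallyCompactSpace H]
  [T2Space P] [T2Space H] [SecondCountableTopology P] [SecondCountableTopology H]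
  [MeasurableSpace P] [MeasurableSpace H] [BorelSpace P] [BorelSpace H]

variable {P H}

omit [LocallyCompactSpace P] [T2Space P] [T2Space H] [IsTopologicalGroup P] [TopologicalSpace P]
  [SecondCountableTopology P] [BorelSpace P] in
private theorem MLd_nuA (D : Dat P H) (h1 : Measurable D.ν) (h2 : D.μ₂.IsHaarMeasure) (n : ℕ) :
    Measurable (D.nuA n) := by
  induction n with
  | zero => exact h1
  | succ n ih =>
    have h3 : Measurable (Function.uncurry fun (h : H) (q : H) => D.ν q * D.nuA n (q⁻¹ * h)) :=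
      (h1.comp measurable_snd).mul (ih.comp (measurable_snd.inv.mul measurable_fst))
    exact h3.lintegral_prod_right'

private theorem MLd_tk (D : Dat P H) (hD : D.Ok) (k : P → ℝ≥0∞) (hk : Measurable k) (n : ℕ) :
    Measurable (D.tk k n) := by
  have h1 : Measurable (D.nu n) := MLd_nuA D hD.νc.measurable hD.haar₂ (n - 1)
  exact (hk.comp measurable_fst).mul (h1.comp measurable_snd)

private theorem MLd_tk_mono (D : Dat P H) {k k' : P → ℝ≥0∞} (h : ∀ g, k g ≤ k' g) (n : ℕ)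
    (g : P × H) : D.tk k n g ≤ D.tk k' n g :=
  mul_le_mul' (h g.1) le_rfl

variable (P H)

theorem tMLd : S_ML P → S_AD P → S_mg P H → S_MLd P H := by
  intro hML hAD hmg D hD G hG S K S' K' hS hK hSS hKK U hU R R'
  have := hD.haar₁
  have := hD.right₁
  have := hD.inv₁
  obtain ⟨S'', hS''c, hS''1, hS''2⟩ := exists_compact_between hS isOpen_interior hSS
  obtain ⟨K'', hK''c, hK''1, hK''2⟩ := exists_compact_between hK isOpen_interior hKK
  obtain ⟨U'', hU''1, hU''2, hU''c⟩ := local_compact_nhds hU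
  obtain ⟨C, T, hC, hT⟩ := hML G D.μ₁ hG S K S'' K'' hS hK hS''1 hK''1 U'' hU''1 R R'
  obtain ⟨hmono, -, -, -, hmeas, -⟩ := hAD G D.μ₁ hG
  obtain ⟨-, -, -, h4, h5, -⟩ := hmg D hD
  have huw : IsCompact (G.uw U'') := hU''c.mul isCompact_singleton
  refine ⟨C, T, hC, fun n m hn hm hTm x y F => ?_⟩
  have hk1 : Measurable (eP D.μ₁ G S'' (G.uw U'') R n) := hmeas _ _ hS''c huw R n
  have hk2 : Measurable (eP D.μ₁ G U'' K'' R' m) := hmeas _ _ hU''c hK''c R' m
  have e1 := h4 (D.tk (eP D.μ₁ G S'' (G.uw U'') R n) n) (D.tk (eP D.μ₁ G U'' K'' R' m) m)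
    (MLd_tk D hD _ hk1 n) (MLd_tk D hD _ hk2 m) x y F
  have e2 : ∀ g : P × H, ∫⁻ q, D.tk (eP D.μ₁ G S'' (G.uw U'') R n) n q *
      D.tk (eP D.μ₁ G U'' K'' R' m) m (q⁻¹ * g) ∂D.μ =
      D.tk (cvP D.μ₁ (eP D.μ₁ G S'' (G.uw U'') R n) (eP D.μ₁ G U'' K'' R' m)) (n + m) g :=
    h5 _ _ n m hk1 hk2 hn hm
  calc ∑' u : D.Γ, D.eg G S K (R + R') (n + m) (x⁻¹ * (u : P × H) * y) * F u
      ≤ ∑' u : D.Γ, C * ((∫⁻ q, D.tk (eP D.μ₁ G S'' (G.uw U'') R n) n q *
          D.tk (eP D.μ₁ G U'' K'' R' m) m (q⁻¹ * (x⁻¹ * (u : P × H) * y)) ∂D.μ) * F u) := by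
        refine ENNReal.tsum_le_tsum fun u => ?_
        rw [e2, ← mul_assoc]
        refine mul_le_mul' ?_ le_rfl
        have h6 := hT n m hTm (x⁻¹ * (u : P × H) * y).1
        change eP D.μ₁ G S K (R + R') (n + m) (x⁻¹ * (u : P × H) * y).1 *
          D.nu (n + m) (x⁻¹ * (u : P × H) * y).2 ≤ C * (cvP D.μ₁ (eP D.μ₁ G S'' (G.uw U'') R n)
            (eP D.μ₁ G U'' K'' R' m) (x⁻¹ * (u : P × H) * y).1 *
              D.nu (n + m) (x⁻¹ * (u : P × H) * y).2)
        rw [← mul_assoc]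
        exact mul_le_mul' h6 le_rfl
    _ = C * D.IM (fun z => ∑' e : D.Γ, ∑' e' : D.Γ,
          D.tk (eP D.μ₁ G S'' (G.uw U'') R n) n (x⁻¹ * (e : P × H) * z) *
          D.tk (eP D.μ₁ G U'' K'' R' m) m (z⁻¹ * (e' : P × H) * y) * F (e * e')) := by
        rw [ENNReal.tsum_mul_left, e1]
    _ ≤ _ := by
        refine mul_le_mul' le_rfl ?_
        refine lintegral_mono fun z => ?_
        refine mul_le_mul' le_rfl ?_
        refine ENNReal.tsum_le_tsum fun e => ENNReal.tsum_le_tsum fun e' => ?_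
        refine mul_le_mul' (mul_le_mul' ?_ ?_) le_rfl
        · refine MLd_tk_mono D (fun g => hmono _ _ _ _ _ _ n ?_ ?_ le_rfl g) n _
          · exact hS''2.trans interior_subset
          · exact Set.mul_subset_mul_right hU''2
        · refine MLd_tk_mono D (fun g => hmono _ _ _ _ _ _ m ?_ ?_ le_rfl g) m _
          · exact hU''2
          · exact hK''2.trans interior_subset

end Pool.Agent.MPEF.U
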