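import Pool.Agent.Lib.MP_ef3f0f_gt.U.F.SpecB2

set_option autoImplicit false

/-!
# MP_ef3f0f_gt, Theorem U, Part F, MLs: lower bound for straight closed loops
-/

namespace Pool.Agent.MPEF.U

open MeasureTheory Topology
open scoped ENNReal Pointwise

section MLs

variable (P : Type) [Group P] [TopologicalSpace P] [IsTopologicalGroup P] [LocallyCompactSpace P]
  [T2Space P] [SecondCountableTopology P] [MeasurableSpace P] [BorelSpace P]

private theorem MLs_iK_le {S S' : Set P} {q q' : P} (h : q ∈ S → q' ∈ S') : iK S q ≤ iK S' q' := by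
  unfold iK
  by_cases hq : q ∈ S
  · rw [Set.indicator_of_mem hq, Set.indicator_of_mem (h hq)]
  · rw [Set.indicator_of_notMem hq]
    exact zero_le

private theorem MLs_uw (G : PG P) {S S' : Set P} (h : S ⊆ interior S') :
    G.uw S ⊆ interior (G.uw S') := by
  have h1 : interior S' * {G.w} ⊆ interior (S' * {G.w}) :=
    interior_maximal (Set.mul_subset_mul_right interior_subset) isOpen_interior.mul_right
  exact (Set.mul_subset_mul_right h).trans h1

private theorem MLs_ew (G : PG P) {K : Set P} (hK : IsClosed K) : MeasurableSet (G.ew K) := by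
  have hc : Continuous fun q : P => q⁻¹ * G.w := continuous_inv.mul continuous_const
  exact (hK.preimage hc).measurableSet

theorem tMLs : S_ML1 P → S_RVs P → S_DF P → S_NT1 P → S_TB P → S_AD P → S_MLs P := by
  classical
  intro hML hRVs hDF hNT hTB _hAD G μ _ _ _ hG U₀ U hU₀ hU h1 hUU R
  obtain ⟨hDc, hDA, -, hDi, -, hDw, -⟩ := hDF G hG
  obtain ⟨U₁, hU₁, h01, h1U⟩ := exists_compact_between hU₀ isOpen_interior hUU
  obtain ⟨V, hV, hVS⟩ := (hTB G hG U₀ U₁ hU₀ h01).1
  obtain ⟨F', hFD, hFc⟩ := hNT (G.D1 ^ R) (hDc R) V hV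
  have hUn : U ∈ 𝓝 (1 : P) := mem_interior_iff_mem_nhds.1 (hUU (interior_subset h1))
  have hK0 : IsCompact (G.uw U₀) := hU₀.mul isCompact_singleton
  obtain ⟨C, T, hC, hM⟩ := hML G μ hG U₁ (G.uw U₀) U (G.uw U) hU₁ hK0 h1U (MLs_uw P G hUU) U hUn R
  have hinj : Function.Injective fun d : P => G.w * d⁻¹ * G.w := by
    intro x y h
    have h2 : G.w * x⁻¹ * G.w = G.w * y⁻¹ * G.w := h
    exact inv_injective (mul_left_cancel (mul_right_cancel h2))
  refine ⟨F'.image fun d => G.w * d⁻¹ * G.w, C, T, hC, ?_, ?_⟩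
  · intro d hd
    obtain ⟨d', hd', rfl⟩ := Finset.mem_image.1 hd
    exact hDw R _ (hDi R _ (hFD d' hd'))
  · intro n m hm g
    rw [Finset.sum_image fun x _ y _ h => hinj h]
    have hR : ∀ d ∈ F', (fun g : P => eP μ G (G.uw U * {G.w * d⁻¹ * G.w}) U 0 m g⁻¹) =
        kk μ G.a (iK (U * {d})) (iK (G.ew (G.uw U))) m := by
      intro d hd
      funext x
      have hdA : G.w * d⁻¹ * G.w ∈ G.A := hDA R (hDw R _ (hDi R _ (hFD d hd)))
      rw [hRVs G μ hG U (G.w * d⁻¹ * G.w) hdA m x]
      have hwi : G.w⁻¹ = G.w := inv_eq_of_mul_eq_one_right hG.ww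
      have h3 : G.w * (G.w * d⁻¹ * G.w)⁻¹ * G.w = d := by
        rw [mul_inv_rev, mul_inv_rev, inv_inv, hwi]
        calc G.w * (G.w * (d * G.w)) * G.w = (G.w * G.w) * d * (G.w * G.w) := by group
          _ = d := by rw [hG.ww, one_mul, mul_one]
      rw [h3]
    have hE : eP μ G U (G.uw U) 0 n = kk μ G.a (iK U) (iK (G.ew (G.uw U))) n := by
      unfold eP
      rw [pow_zero, mul_one]
    have hm2 : Measurable (iK (G.ew (G.uw U₀))) :=
      measurable_const.indicator (MLs_ew P G hK0.isClosed)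
    calc eP μ G U₀ (G.uw U₀) R (n + m) g
        ≤ ∫⁻ q, ∑ d ∈ F', iK (U₁ * {d}) q *
            iK (G.ew (G.uw U₀)) ((G.a ^ (n + m))⁻¹ * q⁻¹ * g) ∂μ := by
          unfold eP kk
          refine lintegral_mono fun q => ?_
          by_cases hq : q ∈ U₀ * G.D1 ^ R
          · obtain ⟨s, hs, δ, hδ, rfl⟩ := Set.mem_mul.1 hq
            obtain ⟨δ', hδ', v, hv, rfl⟩ := hFc δ hδ
            have h4 := hVS 1 (mem_of_mem_nhds hV) s hs v hv
            rw [one_mul] at h4
            refine le_trans ?_ (Finset.single_le_sum (f := fun d =>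
              iK (U₁ * {d}) (s * (v * δ')) *
                iK (G.ew (G.uw U₀)) ((G.a ^ (n + m))⁻¹ * (s * (v * δ'))⁻¹ * g))
              (fun i _ => zero_le) hδ')
            refine mul_le_mul' (MLs_iK_le P fun _ => ?_) le_rfl
            exact Set.mem_mul.2 ⟨s * v, h4, δ', Set.mem_singleton _, by group⟩
          · have : iK (U₀ * G.D1 ^ R) q = 0 := Set.indicator_of_notMem hq _
            rw [this, zero_mul]
            exact zero_le
      _ = ∑ d ∈ F', kk μ G.a (iK (U₁ * {d})) (iK (G.ew (G.uw U₀))) (n + m) g := by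
          unfold kk
          refine lintegral_finsetSum _ fun d _ => ?_
          have hm1 : Measurable (iK (U₁ * {d})) :=
            measurable_const.indicator (hU₁.mul isCompact_singleton).isClosed.measurableSet
          refine hm1.mul (hm2.comp ?_)
          have hcont : Continuous fun q : P => (G.a ^ (n + m))⁻¹ * q⁻¹ * g :=
            (continuous_const.mul continuous_inv).mul continuous_const
          exact hcont.measurable
      _ ≤ ∑ d ∈ F', C * cvP μ (kk μ G.a (iK U) (iK (G.ew (G.uw U))) n)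
            (kk μ G.a (iK (U * {d})) (iK (G.ew (G.uw U))) m) g :=
          Finset.sum_le_sum fun d hd => hM d (hFD d hd) n m hm g
      _ = C * ∑ d ∈ F', cvP μ (kk μ G.a (iK U) (iK (G.ew (G.uw U))) n)
            (kk μ G.a (iK (U * {d})) (iK (G.ew (G.uw U))) m) g := by
          rw [Finset.mul_sum]
      _ = C * ∑ d ∈ F', cvP μ (eP μ G U (G.uw U) 0 n)
            (fun g => eP μ G (G.uw U * {G.w * d⁻¹ * G.w}) U 0 m g⁻¹) g := by
          rw [hE]
          congr 1
          refine Finset.sum_congr rfl fun d hd => ?_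
          rw [hR d hd]

end MLs

end Pool.Agent.MPEF.U
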