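import Pool.Agent.Lib.MP_ef3f0f_gt.U.F.SpecC

set_option autoImplicit false

/-!
# MP_ef3f0f_gt, Theorem U, Part F: measurability
-/

namespace Pool.Agent.MPEF.U

open MeasureTheory Topology
open scoped ENNReal Pointwise

variable (P H : Type) [Group P] [Group H] [TopologicalSpace P] [TopologicalSpace H]
  [IsTopologicalGroup P] [IsTopologicalGroup H] [LocallyCompactSpace P] [LocallyCompactSpace H]
  [T2Space P] [T2Space H] [SecondCountableTopology P] [SecondCountableTopology H]
  [MeasurableSpace P] [MeasurableSpace H] [BorelSpace P] [BorelSpace H]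

private theorem MQ_ker (u : P × H) :
    Measurable fun q : (P × H) × (P × H) => q.1⁻¹ * u * q.2 := by
  have h : Continuous fun q : (P × H) × (P × H) => q.1⁻¹ * u * q.2 := by fun_prop
  exact h.measurable

private theorem MQ_ker1 (u : P × H) : Measurable fun x : P × H => x⁻¹ * u * x := by
  have h : Continuous fun x : P × H => x⁻¹ * u * x := by fun_prop
  exact h.measurable

private theorem MQ_IM (D : Dat P H) (hD : D.Ok) [SigmaFinite D.μ]
    (F : P × H → P × H → ℝ≥0∞) (hF : Measurable fun q : (P × H) × (P × H) => F q.1 q.2) :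
    Measurable fun x : P × H => D.IM fun y => F x y := by
  unfold Dat.IM
  have h : Measurable fun q : (P × H) × (P × H) => D.χ q.2 * F q.1 q.2 :=
    (hD.χm.comp measurable_snd).mul hF
  exact h.lintegral_prod_right'

theorem tMQ : S_inst P H → S_MQ P H := by
  intro hin D hD K₁ K₂ K₃ h1 h2 h3
  obtain ⟨-, -, hs, hc, -⟩ := hin D hD
  haveI := hs
  haveI := hc
  refine ⟨fun f hf => ?_, fun f hf => ?_, fun f hf => ?_⟩
  · refine Measurable.ennreal_tsum fun l => ?_
    exact (h1.comp (MQ_ker1 P H l)).mul (hf l)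
  · have hm : Measurable fun q : (P × H) × (P × H) => D.st2 K₁ K₂ q.1 q.2 (f q.1) := by
      unfold Dat.st2
      refine Measurable.ennreal_tsum fun u => Measurable.ennreal_tsum fun v => ?_
      exact ((h1.comp (MQ_ker P H u)).mul (h2.comp (MQ_ker P H v))).mul
        ((hf u v).comp measurable_fst)
    exact ⟨hm, MQ_IM P H D hD (fun x y => D.st2 K₁ K₂ x y (f x)) hm⟩
  · have hm : Measurable fun q : (P × H) × (P × H) => D.st3 K₁ K₂ K₃ q.1 q.2 (f q.1) := by
      unfold Dat.st3
      refine Measurable.ennreal_tsum fun u => Measurable.ennreal_tsum fun v =>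
        Measurable.ennreal_tsum fun w => ?_
      exact (((h1.comp (MQ_ker P H u)).mul (h2.comp (MQ_ker P H v))).mul
        (h3.comp (MQ_ker P H w))).mul ((hf u v w).comp measurable_fst)
    exact ⟨hm, MQ_IM P H D hD (fun x y => D.st3 K₁ K₂ K₃ x y (f x)) hm⟩

end Pool.Agent.MPEF.U
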