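import Pool.Agent.Lib.MP_ef3f0f_gt.U.F.SpecB

set_option autoImplicit false
set_option linter.unusedSectionVars false

/-!
# MP_ef3f0f_gt, Theorem U, Part F, module `MS`: straight merge
-/

namespace Pool.Agent.MPEF.U

open MeasureTheory Topology
open scoped ENNReal Pointwise

section MSaux

variable {P : Type} [Group P]

theorem MS_iK_mono {S S' : Set P} {x y : P} (h : x ∈ S → y ∈ S') : iK S x ≤ iK S' y := by
  unfold iK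
  by_cases hx : x ∈ S
  · rw [Set.indicator_of_mem hx, Set.indicator_of_mem (h hx)]
  · rw [Set.indicator_of_notMem hx]
    exact zero_le

theorem MS_iK_ne {S : Set P} {x : P} (h : iK S x ≠ 0) : x ∈ S := by
  by_contra hx
  exact h (Set.indicator_of_notMem hx _)

theorem MS_cv_ne [MeasurableSpace P] {μ : Measure P} {k₂ k₃ : P → ℝ≥0∞} {p : P}
    (h : cvP μ k₂ k₃ p ≠ 0) : ∃ q, k₂ q ≠ 0 ∧ k₃ (q⁻¹ * p) ≠ 0 := by
  by_contra hc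
  apply h
  unfold cvP
  rw [lintegral_congr (g := fun _ => 0), lintegral_zero]
  intro q
  by_cases hq : k₂ q = 0
  · rw [hq, zero_mul]
  · by_cases hq' : k₃ (q⁻¹ * p) = 0
    · rw [hq', mul_zero]
    · exact absurd ⟨q, hq, hq'⟩ hc

theorem MS_ew [TopologicalSpace P] [IsTopologicalGroup P] (G : PG P) {K : Set P}
    (hK : IsCompact K) : IsCompact (G.ew K) := by
  have h : G.ew K = (fun κ => G.w * κ⁻¹) '' K := by
    ext q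
    constructor
    · intro h
      exact ⟨q⁻¹ * G.w, h, by group⟩
    · rintro ⟨κ, hκ, rfl⟩
      change (G.w * κ⁻¹)⁻¹ * G.w ∈ K
      rwa [show (G.w * κ⁻¹)⁻¹ * G.w = κ by group]
  rw [h]
  exact hK.image (by fun_prop)

variable [TopologicalSpace P] [IsTopologicalGroup P] [LocallyCompactSpace P]
  [T2Space P] [SecondCountableTopology P] [MeasurableSpace P] [BorelSpace P]

theorem MS_meas {S : Set P} (hS : IsCompact S) : Measurable (iK S) :=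
  measurable_const.indicator hS.isClosed.measurableSet

theorem MS_int {μ : Measure P} {S : Set P} (hS : IsCompact S) :
    ∫⁻ g, iK S g ∂μ = μ S := by
  unfold iK
  rw [lintegral_indicator_const hS.isClosed.measurableSet, one_mul]

/-- The common part of the merge lemmas. -/
theorem MS_core (h3 : S_KT P) (h4 : S_CV P) (G : PG P) (μ : Measure P) [μ.IsHaarMeasure]
    [μ.IsMulRightInvariant] [μ.IsInvInvariant] {S₁ K₁ S₂ K₂ S₁' K₂' : Set P}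
    (hS₁ : IsCompact S₁) (hK₁ : IsCompact K₁) (hS₂ : IsCompact S₂) (hK₂ : IsCompact K₂)
    (hD : ∀ R, IsCompact (G.D1 ^ R)) {R R' M n m : ℕ} (g : P)
    (hp : ∀ q p, q⁻¹ * G.w ∈ K₁ → q⁻¹ * p ∈ S₂ * G.D1 ^ R' → ∃ x e,
      G.a ^ n * p * G.a ^ m = x * G.a ^ (n + m) * e ∧
      (∀ r, r * x⁻¹ ∈ S₁ * G.D1 ^ R → r ∈ S₁' * G.D1 ^ M) ∧
      ∀ r, e⁻¹ * r ∈ G.ew K₂ → r ∈ G.ew K₂') :
    cvP μ (eP μ G S₁ K₁ R n) (eP μ G S₂ K₂ R' m) g ≤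
      (μ (G.ew K₁) * μ (S₂ * G.D1 ^ R')) * eP μ G S₁' K₂' M (n + m) g := by
  have c1 := hS₁.mul (hD R)
  have c2 := MS_ew G hK₁
  have c3 := hS₂.mul (hD R')
  have c4 := MS_ew G hK₂
  obtain ⟨e1, -, e3, -, e5⟩ := h4 μ G.a _ _ _ _ (MS_meas c1) (MS_meas c2) (MS_meas c3)
    (MS_meas c4)
  unfold eP
  rw [e1 n m g]
  have key : ∀ p, cvP μ (iK (G.ew K₁)) (iK (S₂ * G.D1 ^ R')) p *
      (∫⁻ q, iK (S₁ * G.D1 ^ R) q * iK (G.ew K₂) ((G.a ^ n * p * G.a ^ m)⁻¹ * q⁻¹ * g) ∂μ) ≤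
      cvP μ (iK (G.ew K₁)) (iK (S₂ * G.D1 ^ R')) p *
        kk μ G.a (iK (S₁' * G.D1 ^ M)) (iK (G.ew K₂')) (n + m) g := by
    intro p
    by_cases h0 : cvP μ (iK (G.ew K₁)) (iK (S₂ * G.D1 ^ R')) p = 0
    · rw [h0, zero_mul, zero_mul]
    refine mul_le_mul_right ?_ _
    obtain ⟨q, q1, q2⟩ := MS_cv_ne h0
    obtain ⟨x, e, hx, hr1, hr2⟩ := hp q p (MS_iK_ne q1) (MS_iK_ne q2)
    rw [(h3 μ G.a (iK (S₁ * G.D1 ^ R)) (iK (G.ew K₂))).1 _ x e g (n + m) hx]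
    unfold kk
    exact lintegral_mono fun r => mul_le_mul' (MS_iK_mono (hr1 r)) (MS_iK_mono (hr2 _))
  refine (lintegral_mono key).trans ?_
  rw [lintegral_mul_const _ e3, e5, MS_int c2, MS_int c3]

end MSaux

variable (P : Type) [Group P] [TopologicalSpace P] [IsTopologicalGroup P] [LocallyCompactSpace P]
  [T2Space P] [SecondCountableTopology P] [MeasurableSpace P] [BorelSpace P]

theorem tMS : S_DF P → S_TB P → S_KT P → S_CV P → S_AD P → S_MS P := by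
  intro h1 h2 h3 h4 _h5 G μ _ _ _ hG S₁ K₂ S₁' K₂' hS₁ hK₂ hSS hKK R R'
  obtain ⟨dC, dA, d1, -, -, -, dM, dan, -, dmon, dT⟩ := h1 G hG
  obtain ⟨-, tb, -⟩ := h2 G hG S₁ S₁' hS₁ hSS
  obtain ⟨U₁, hU₁, hu₁⟩ := tb (G.D1 ^ R) (dC R)
  obtain ⟨-, -, U₂, hU₂, hu₂⟩ := h2 G hG K₂ K₂' hK₂ hKK
  -- a neighbourhood with `U₀ U₀ ⊆ U₁`
  obtain ⟨U₀, hU₀, hu₀⟩ : ∃ U₀ ∈ 𝓝 (1 : P), ∀ x ∈ U₀, ∀ y ∈ U₀, x * y ∈ U₁ := by
    have hc : ContinuousAt (fun z : P × P => z.1 * z.2) (1, 1) := by fun_prop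
    have hm : (fun z : P × P => z.1 * z.2) ⁻¹' U₁ ∈ 𝓝 ((1 : P), (1 : P)) :=
      hc (by simpa using hU₁)
    rw [nhds_prod_eq, Filter.mem_prod_self_iff] at hm
    obtain ⟨t, ht, hs⟩ := hm
    exact ⟨t, ht, fun x hx y hy => hs (Set.mk_mem_prod hx hy)⟩
  obtain ⟨V₀, hV₀, hv₀⟩ := hG.JN1 (U₀ ∩ U₂) (Filter.inter_mem hU₀ hU₂)
  obtain ⟨V, hV, hv⟩ : ∃ V ∈ 𝓝 (1 : P), ∀ x ∈ V, ∀ y ∈ V, x⁻¹ * y ∈ V₀ := by
    have hc : ContinuousAt (fun z : P × P => z.1⁻¹ * z.2) (1, 1) := by fun_prop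
    have hm : (fun z : P × P => z.1⁻¹ * z.2) ⁻¹' V₀ ∈ 𝓝 ((1 : P), (1 : P)) :=
      hc (by simpa using hV₀)
    rw [nhds_prod_eq, Filter.mem_prod_self_iff] at hm
    obtain ⟨t, ht, hs⟩ := hm
    exact ⟨t, ht, fun x hx y hy => hs (Set.mk_mem_prod hx hy)⟩
  have ha0 : ∀ n : ℕ, G.a ^ n ∈ G.Dp 0 := fun n => dmon 0 n (Nat.zero_le n) (hG.Dpa n)
  obtain ⟨T, hT0, hT⟩ : ∃ T : ℕ, (R' = 0 → T = 0) ∧
      ∀ m, T ≤ m → ∀ d ∈ G.D1 ^ R', d * G.a ^ m ∈ G.Dp 0 := by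
    by_cases hR : R' = 0
    · subst hR
      refine ⟨0, fun _ => rfl, fun m _ d hd => ?_⟩
      rw [pow_zero, Set.mem_one] at hd
      rw [hd, one_mul]
      exact ha0 m
    · obtain ⟨T, hT⟩ := dT R' 0
      exact ⟨T, fun h => absurd h hR, hT⟩
  refine ⟨V, hV, T, hT0, fun K₁ S₂ hK₁ hS₂ hKV hSV => ?_⟩
  refine ⟨μ (G.ew K₁) * μ (S₂ * G.D1 ^ R'), ?_, fun n m hm g => ?_⟩
  · exact ENNReal.mul_ne_top (MS_ew G hK₁).measure_lt_top.ne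
      (hS₂.mul (dC R')).measure_lt_top.ne
  refine MS_core h3 h4 G μ hS₁ hK₁ hS₂ hK₂ dC g ?_
  rintro q p hq ⟨s, hs, d₂, hd₂, hsd⟩
  have hsd' : s * d₂ = q⁻¹ * p := hsd
  obtain ⟨v, hvV, w', hw', hvw⟩ := hKV hq
  rw [Set.mem_singleton_iff.1 hw'] at hvw
  have hqv : v = q⁻¹ := mul_right_cancel (b := G.w) hvw
  have hq' : q = v⁻¹ := by rw [hqv, inv_inv]
  obtain ⟨e, he, e', he', d, hdA, hdU, hk'⟩ := hv₀ (G.a ^ n) (ha0 n) (d₂ * G.a ^ m)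
    (hT m hm d₂ hd₂) (v⁻¹ * s) (hv v hvV s (hSV hs))
  have hcom : G.a ^ n * d₂ = d₂ * G.a ^ n := hG.comm _ (dan n) _ (dA R' hd₂)
  refine ⟨e * d * d₂, e', ?_, ?_, ?_⟩
  · have hpe : p = v⁻¹ * (s * d₂) := by rw [hsd', hq']; group
    calc G.a ^ n * p * G.a ^ m
        = G.a ^ n * (v⁻¹ * s) * (d₂ * G.a ^ m) := by rw [hpe]; group
      _ = e * (d * G.a ^ n * (d₂ * G.a ^ m)) * e' := hk'
      _ = e * d * (G.a ^ n * d₂) * G.a ^ m * e' := by simp only [mul_assoc]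
      _ = e * d * d₂ * G.a ^ (n + m) * e' := by rw [hcom, pow_add]; simp only [mul_assoc]
  · rintro r ⟨s₁, hs₁, d₁, hd₁, hr⟩
    have hr' : s₁ * d₁ = r * (e * d * d₂)⁻¹ := hr
    refine ⟨s₁ * (d₁ * (e * d) * d₁⁻¹), hu₁ (e * d) (hu₀ e he.1 d hdU.1) s₁ hs₁ d₁ hd₁,
      d₁ * d₂, dM _ _ d₁ hd₁ d₂ hd₂, ?_⟩
    change s₁ * (d₁ * (e * d) * d₁⁻¹) * (d₁ * d₂) = r
    calc s₁ * (d₁ * (e * d) * d₁⁻¹) * (d₁ * d₂) = s₁ * d₁ * (e * d * d₂) := by group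
      _ = r := by rw [hr']; group
  · intro r hr
    have := hu₂ e' he'.2 _ hr 1 (mem_of_mem_nhds hU₂)
    rwa [mul_inv_cancel_left, mul_one] at this

end Pool.Agent.MPEF.U
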