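import Pool.Agent.Lib.MP_ef3f0f_gt.U.F.SpecB

set_option autoImplicit false
set_option linter.unusedSectionVars false

/-!
# MP_ef3f0f_gt, Theorem U, Part F, module `MU`: upper merge
-/

namespace Pool.Agent.MPEF.U

open MeasureTheory Topology
open scoped ENNReal Pointwise

section MUaux

variable {P : Type} [Group P]

theorem MU_iK_mono {S S' : Set P} {x y : P} (h : x ∈ S → y ∈ S') : iK S x ≤ iK S' y := by
  unfold iK
  by_cases hx : x ∈ S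
  · rw [Set.indicator_of_mem hx, Set.indicator_of_mem (h hx)]
  · rw [Set.indicator_of_notMem hx]
    exact zero_le

theorem MU_iK_ne {S : Set P} {x : P} (h : iK S x ≠ 0) : x ∈ S := by
  by_contra hx
  exact h (Set.indicator_of_notMem hx _)

theorem MU_cv_ne [MeasurableSpace P] {μ : Measure P} {k₂ k₃ : P → ℝ≥0∞} {p : P}
    (h : cvP μ k₂ k₃ p ≠ 0) : ∃ q, k₂ q ≠ 0 ∧ k₃ (q⁻¹ * p) ≠ 0 := by
  by_contra hc
  apply h
  unfold cvP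
  rw [lintegral_congr (g := fun _ => 0), lintegral_zero]
  intro q
  by_cases hq : k₂ q = 0
  · rw [hq, zero_mul]
  · by_cases hq' : k₃ (q⁻¹ * p) = 0
    · rw [hq', mul_zero]
    · exact absurd ⟨q, hq, hq'⟩ hc

theorem MU_ew [TopologicalSpace P] [IsTopologicalGroup P] (G : PG P) {K : Set P}
    (hK : IsCompact K) : IsCompact (G.ew K) := by
  have h : G.ew K = (fun κ => G.w * κ⁻¹) '' K := by
    ext q
    constructor
    · intro h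
      exact ⟨q⁻¹ * G.w, h, by group⟩
    · rintro ⟨κ, hκ, rfl⟩
      change (G.w * κ⁻¹)⁻¹ * G.w ∈ K
      rwa [show (G.w * κ⁻¹)⁻¹ * G.w = κ by group]
  rw [h]
  exact hK.image (by fun_prop)

variable [TopologicalSpace P] [IsTopologicalGroup P] [LocallyCompactSpace P]
  [T2Space P] [SecondCountableTopology P] [MeasurableSpace P] [BorelSpace P]

theorem MU_meas {S : Set P} (hS : IsCompact S) : Measurable (iK S) :=
  measurable_const.indicator hS.isClosed.measurableSet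

theorem MU_int {μ : Measure P} {S : Set P} (hS : IsCompact S) :
    ∫⁻ g, iK S g ∂μ = μ S := by
  unfold iK
  rw [lintegral_indicator_const hS.isClosed.measurableSet, one_mul]

/-- The common part of the merge lemmas. -/
theorem MU_core (h3 : S_KT P) (h4 : S_CV P) (G : PG P) (μ : Measure P) [μ.IsHaarMeasure]
    [μ.IsMulRightInvariant] [μ.IsInvInvariant] {S₁ K₁ S₂ K₂ S₁' K₂' : Set P}
    (hS₁ : IsCompact S₁) (hK₁ : IsCompact K₁) (hS₂ : IsCompact S₂) (hK₂ : IsCompact K₂)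
    (hD : ∀ R, IsCompact (G.D1 ^ R)) {R R' M n m : ℕ} (g : P)
    (hp : ∀ q p, q⁻¹ * G.w ∈ K₁ → q⁻¹ * p ∈ S₂ * G.D1 ^ R' → ∃ x e,
      G.a ^ n * p * G.a ^ m = x * G.a ^ (n + m) * e ∧
      (∀ r, r * x⁻¹ ∈ S₁ * G.D1 ^ R → r ∈ S₁' * G.D1 ^ M) ∧
      ∀ r, e⁻¹ * r ∈ G.ew K₂ → r ∈ G.ew K₂') :
    cvP μ (eP μ G S₁ K₁ R n) (eP μ G S₂ K₂ R' m) g ≤
      (μ (G.ew K₁) * μ (S₂ * G.D1 ^ R')) * eP μ G S₁' K₂' M (n + m) g := by
  have c1 := hS₁.mul (hD R)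
  have c2 := MU_ew G hK₁
  have c3 := hS₂.mul (hD R')
  have c4 := MU_ew G hK₂
  obtain ⟨e1, -, e3, -, e5⟩ := h4 μ G.a _ _ _ _ (MU_meas c1) (MU_meas c2) (MU_meas c3)
    (MU_meas c4)
  unfold eP
  rw [e1 n m g]
  have key : ∀ p, cvP μ (iK (G.ew K₁)) (iK (S₂ * G.D1 ^ R')) p *
      (∫⁻ q, iK (S₁ * G.D1 ^ R) q * iK (G.ew K₂) ((G.a ^ n * p * G.a ^ m)⁻¹ * q⁻¹ * g) ∂μ) ≤
      cvP μ (iK (G.ew K₁)) (iK (S₂ * G.D1 ^ R')) p *
        kk μ G.a (iK (S₁' * G.D1 ^ M)) (iK (G.ew K₂')) (n + m) g := by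
    intro p
    by_cases h0 : cvP μ (iK (G.ew K₁)) (iK (S₂ * G.D1 ^ R')) p = 0
    · rw [h0, zero_mul, zero_mul]
    refine mul_le_mul_right ?_ _
    obtain ⟨q, q1, q2⟩ := MU_cv_ne h0
    obtain ⟨x, e, hx, hr1, hr2⟩ := hp q p (MU_iK_ne q1) (MU_iK_ne q2)
    rw [(h3 μ G.a (iK (S₁ * G.D1 ^ R)) (iK (G.ew K₂))).1 _ x e g (n + m) hx]
    unfold kk
    exact lintegral_mono fun r => mul_le_mul' (MU_iK_mono (hr1 r)) (MU_iK_mono (hr2 _))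
  refine (lintegral_mono key).trans ?_
  rw [lintegral_mul_const _ e3, e5, MU_int c2, MU_int c3]

end MUaux

variable (P : Type) [Group P] [TopologicalSpace P] [IsTopologicalGroup P] [LocallyCompactSpace P]
  [T2Space P] [SecondCountableTopology P] [MeasurableSpace P] [BorelSpace P]

theorem tMU : S_DF P → S_TB P → S_KT P → S_CV P → S_AD P → S_MU P := by
  intro h1 h2 h3 h4 _h5 G μ _ _ _ hG hF S₁ K₁ S₂ K₂ S₁' K₂' hS₁ hK₁ hS₂ hK₂ hSS hKK hpos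
  obtain ⟨dC, dA, d1, -, -, -, dM, dan, -, -, dT⟩ := h1 G hG
  have hQ : IsCompact ((fun z : P × P => G.w * z.1⁻¹ * z.2) '' (K₁ ×ˢ S₂)) :=
    (hK₁.prod hS₂).image (by fun_prop)
  obtain ⟨R₀, hJ⟩ := hF.JNc _ hQ (by
    rintro q ⟨⟨κ, s⟩, ⟨hκ, hs⟩, rfl⟩
    have e1 := hG.Pl (G.w * κ⁻¹) κ s
    rw [show G.w * κ⁻¹ * κ = G.w by group] at e1
    exact e1.2 (hpos κ hκ s hs))
  refine ⟨R₀, fun R R' => ?_⟩
  obtain ⟨-, tb, -⟩ := h2 G hG S₁ S₁' hS₁ hSS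
  obtain ⟨U₁, hU₁, hu₁⟩ := tb (G.D1 ^ R) (dC R)
  obtain ⟨-, -, U₂, hU₂, hu₂⟩ := h2 G hG K₂ K₂' hK₂ hKK
  obtain ⟨k, hk⟩ := hJ (U₁ ∩ U₂) (Filter.inter_mem hU₁ hU₂)
  obtain ⟨T, hT⟩ := dT R' k
  refine ⟨μ (G.ew K₁) * μ (S₂ * G.D1 ^ R'), T, ?_, fun n m hn hm g => ?_⟩
  · exact ENNReal.mul_ne_top (MU_ew G hK₁).measure_lt_top.ne
      (hS₂.mul (dC R')).measure_lt_top.ne
  refine MU_core h3 h4 G μ hS₁ hK₁ hS₂ hK₂ dC g ?_
  rintro q p hq ⟨s, hs, d₂, hd₂, hsd⟩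
  have hsd' : s * d₂ = q⁻¹ * p := hsd
  obtain ⟨e, he, e', he', d, hd, hk'⟩ := hk (G.a ^ n)
    (by have := hT n hn 1 (d1 R'); rwa [one_mul] at this) (d₂ * G.a ^ m) (hT m hm d₂ hd₂)
    (G.w * (q⁻¹ * G.w)⁻¹ * s) ⟨(q⁻¹ * G.w, s), ⟨hq, hs⟩, rfl⟩
  have hcom : G.a ^ n * d₂ = d₂ * G.a ^ n := hG.comm _ (dan n) _ (dA R' hd₂)
  refine ⟨e * d * d₂, e', ?_, ?_, ?_⟩
  · have hpe : p = q * (s * d₂) := by rw [hsd']; group
    calc G.a ^ n * p * G.a ^ m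
        = G.a ^ n * (G.w * (q⁻¹ * G.w)⁻¹ * s) * (d₂ * G.a ^ m) := by rw [hpe]; group
      _ = e * (d * G.a ^ n * (d₂ * G.a ^ m)) * e' := hk'
      _ = e * d * (G.a ^ n * d₂) * G.a ^ m * e' := by simp only [mul_assoc]
      _ = e * d * d₂ * G.a ^ (n + m) * e' := by rw [hcom, pow_add]; simp only [mul_assoc]
  · rintro r ⟨s₁, hs₁, d₁, hd₁, hr⟩
    have hr' : s₁ * d₁ = r * (e * d * d₂)⁻¹ := hr
    refine ⟨s₁ * (d₁ * e * d₁⁻¹), hu₁ e he.1 s₁ hs₁ d₁ hd₁, d₁ * d * d₂, ?_, ?_⟩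
    · have k1 := dM _ _ _ (dM _ _ d₁ hd₁ d hd) d₂ hd₂
      rwa [show R + R₀ + R' = R + R' + R₀ by omega] at k1
    · change s₁ * (d₁ * e * d₁⁻¹) * (d₁ * d * d₂) = r
      calc s₁ * (d₁ * e * d₁⁻¹) * (d₁ * d * d₂) = s₁ * d₁ * (e * d * d₂) := by group
        _ = r := by rw [hr']; group
  · intro r hr
    have := hu₂ e' he'.2 _ hr 1 (mem_of_mem_nhds hU₂)
    rwa [mul_inv_cancel_left, mul_one] at this

end Pool.Agent.MPEF.U
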