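import Pool.Agent.Lib.MP_ef3f0f_gt.U.F.SpecC

/-!
# MP_ef3f0f_gt, Theorem U, Part F: elimination of a vertex, upper bound (task 20831)
-/

set_option autoImplicit false

namespace Pool.Agent.MPEF.U

open MeasureTheory Topology
open scoped ENNReal Pointwise

variable (P H : Type) [Group P] [Group H] [TopologicalSpace P] [TopologicalSpace H]
  [IsTopologicalGroup P] [IsTopologicalGroup H] [LocallyCompactSpace P] [LocallyCompactSpace H]
  [T2Space P] [T2Space H] [SecondCountableTopology P] [SecondCountableTopology H]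
  [MeasurableSpace P] [MeasurableSpace H] [BorelSpace P] [BorelSpace H]

omit [IsTopologicalGroup P] [LocallyCompactSpace P] [T2Space P] [T2Space H]
  [SecondCountableTopology P] [BorelSpace P] in
private theorem MUd_nuA (D : Dat P H) (hD : D.Ok) (n : ℕ) : Measurable (D.nuA n) := by
  have := hD.haar₂
  induction n with
  | zero => exact hD.νc.measurable
  | succ n ih =>
    have h1 : Measurable (Function.uncurry fun (h q : H) => D.ν q * D.nuA n (q⁻¹ * h)) :=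
      (hD.νc.measurable.comp measurable_snd).mul
        (ih.comp ((measurable_snd.inv).mul measurable_fst))
    exact h1.lintegral_prod_right

omit [IsTopologicalGroup P] [LocallyCompactSpace P] [T2Space P] [T2Space H]
  [SecondCountableTopology P] [BorelSpace P] in
private theorem MUd_tk (D : Dat P H) (hD : D.Ok) (k : P → ℝ≥0∞) (hk : Measurable k) (n : ℕ) :
    Measurable (D.tk k n) :=
  (hk.comp measurable_fst).mul ((MUd_nuA P H D hD (n - 1)).comp measurable_snd)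

theorem tMUd : S_MU P → S_AD P → S_mg P H → S_MUd P H := by
  intro hMU hAD hmg D hD G hG hGF S₁ K₁ S₂ K₂ S₁' K₂' cS₁ cK₁ cS₂ cK₂ hS hK hPos
  have i1 := hD.haar₁
  have i2 := hD.right₁
  have i3 := hD.inv₁
  obtain ⟨c, hc⟩ := hMU G D.μ₁ hG hGF S₁ K₁ S₂ K₂ S₁' K₂' cS₁ cK₁ cS₂ cK₂ hS hK hPos
  refine ⟨c, fun R R' => ?_⟩
  obtain ⟨C, T, hC, h⟩ := hc R R'
  refine ⟨C, max T 1, hC, fun n m hn hm x y F => ?_⟩
  have e1 : Measurable (eP D.μ₁ G S₁ K₁ R n) :=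
    (hAD G D.μ₁ hG).2.2.2.2.1 S₁ K₁ cS₁ cK₁ R n
  have e2 : Measurable (eP D.μ₁ G S₂ K₂ R' m) :=
    (hAD G D.μ₁ hG).2.2.2.2.1 S₂ K₂ cS₂ cK₂ R' m
  obtain ⟨-, -, -, h4, h5, -⟩ := hmg D hD
  have h6 := h4 (D.tk (eP D.μ₁ G S₁ K₁ R n) n) (D.tk (eP D.μ₁ G S₂ K₂ R' m) m)
    (MUd_tk P H D hD _ e1 n) (MUd_tk P H D hD _ e2 m) x y F
  have h7 : ∀ g : P × H, ∫⁻ q, D.tk (eP D.μ₁ G S₁ K₁ R n) n q *
      D.tk (eP D.μ₁ G S₂ K₂ R' m) m (q⁻¹ * g) ∂D.μ ≤
      C * D.eg G S₁' K₂' (R + R' + c) (n + m) g := by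
    intro g
    rw [h5 _ _ n m e1 e2 (le_trans (le_max_right _ _) hn) (le_trans (le_max_right _ _) hm) g]
    have h8 := h n m (le_trans (le_max_left _ _) hn) (le_trans (le_max_left _ _) hm) g.1
    calc cvP D.μ₁ (eP D.μ₁ G S₁ K₁ R n) (eP D.μ₁ G S₂ K₂ R' m) g.1 * D.nu (n + m) g.2
        ≤ (C * eP D.μ₁ G S₁' K₂' (R + R' + c) (n + m) g.1) * D.nu (n + m) g.2 := by gcongr
      _ = C * (eP D.μ₁ G S₁' K₂' (R + R' + c) (n + m) g.1 * D.nu (n + m) g.2) := mul_assoc _ _ _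
  refine (le_of_eq h6).trans ?_
  rw [← ENNReal.tsum_mul_left]
  refine ENNReal.tsum_le_tsum fun u => ?_
  rw [← mul_assoc]
  gcongr
  exact h7 _

end Pool.Agent.MPEF.U
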