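import Pool.Agent.Lib.MP_ef3f0f_gt.U.F.SpecA

set_option autoImplicit false

namespace Pool.Agent.MPEF.U

open MeasureTheory Topology
open scoped ENNReal Pointwise

variable (P : Type) [Group P] [TopologicalSpace P] [IsTopologicalGroup P] [LocallyCompactSpace P]
  [T2Space P]

/-- Compact enlargements for a compact product in an open set. -/
private theorem NB_two {X Y : Type} [TopologicalSpace X] [TopologicalSpace Y]
    [LocallyCompactSpace X] [LocallyCompactSpace Y] {A : Set X} {B : Set Y} {O : Set (X × Y)}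
    (hA : IsCompact A) (hB : IsCompact B) (hO : IsOpen O) (h : A ×ˢ B ⊆ O) :
    ∃ (A' : Set X) (B' : Set Y), IsCompact A' ∧ IsCompact B' ∧ A ⊆ interior A' ∧
      B ⊆ interior B' ∧ A' ×ˢ B' ⊆ O := by
  obtain ⟨u, v, hu, hv, hAu, hBv, huv⟩ := generalized_tube_lemma hA hB hO h
  obtain ⟨A', hA'c, hA1, hA2⟩ := exists_compact_between hA hu hAu
  obtain ⟨B', hB'c, hB1, hB2⟩ := exists_compact_between hB hv hBv
  exact ⟨A', B', hA'c, hB'c, hA1, hB1, (Set.prod_mono hA2 hB2).trans huv⟩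

theorem tNB : S_NB P := by
  intro G hG
  refine ⟨?_, ?_⟩
  · intro A B hA hB h
    obtain ⟨A', B', h1, h2, h3, h4, h5⟩ := NB_two hA hB hG.Po
      (fun q hq => h q.1 hq.1 q.2 hq.2)
    exact ⟨A', B', h1, h2, h3, h4, fun x hx y hy => h5 (Set.mk_mem_prod hx hy)⟩
  · intro A B C hA hB hC h
    obtain ⟨A', T, h1, h2, h3, h4, h5⟩ := NB_two hA (hB.prod hC) hG.To
      (fun q hq => h q.1 hq.1 q.2.1 hq.2.1 q.2.2 hq.2.2)
    obtain ⟨B', C', k1, k2, k3, k4, k5⟩ := NB_two hB hC (isOpen_interior (s := T)) h4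
    exact ⟨A', B', C', h1, k1, k2, h3, k3, k4, fun x hx y hy z hz =>
      h5 (Set.mk_mem_prod hx (interior_subset (k5 (Set.mk_mem_prod hy hz))))⟩

end Pool.Agent.MPEF.U
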