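import Pool.Agent.Lib.MP_ef3f0f_gt.U.F.SpecD

/-! # Theorem U, Part F, module NOphi (helper47): there is no positive admissible function -/

set_option autoImplicit false
set_option linter.unusedSectionVars false

namespace Pool.Agent.MPEF.U

open MeasureTheory Topology
open scoped ENNReal Pointwise

variable (P H : Type) [Group P] [Group H] [TopologicalSpace P] [TopologicalSpace H]
  [IsTopologicalGroup P] [IsTopologicalGroup H] [LocallyCompactSpace P] [LocallyCompactSpace H]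
  [T2Space P] [T2Space H] [SecondCountableTopology P] [SecondCountableTopology H]
  [MeasurableSpace P] [MeasurableSpace H] [BorelSpace P] [BorelSpace H]

private theorem NOphi_iK {X : Type} {S : Set X} {g : X} {v C : ℝ≥0∞} (h : v ≤ C * iK S g)
    (hv : v ≠ 0) : g ∈ S := by
  by_contra hg
  apply hv
  have h1 : iK S g = 0 := Set.indicator_of_notMem hg _
  rw [h1, mul_zero] at h
  exact le_antisymm h bot_le

/-- The support of the kernel of the edges with window functions. -/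
private theorem NOphi_supp (hnu : S_nu P H) (D : Dat P H) (hD : D.Ok) (G : PG P) (f : Wf P)
    (t t' : Th P) (R : ℕ) (hf : f.Ok G t t' R) (j : Fin 3) (n : ℕ) (hn : 1 ≤ n) (g : P × H)
    (hg : D.we G f j n g ≠ 0) :
    g.1 ∈ (t'.S j * G.D1 ^ R) * {G.a ^ n} * G.ew (t'.K j) ∧ g.2 ∈ D.O ^ n := by
  have h1 : kk D.μ₁ G.a (f.s j) (f.k j) n g.1 * D.nu n g.2 ≠ 0 := hg
  have h2 : kk D.μ₁ G.a (f.s j) (f.k j) n g.1 ≠ 0 := left_ne_zero_of_mul h1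
  have h3 : D.nu n g.2 ≠ 0 := right_ne_zero_of_mul h1
  constructor
  · have h4 : ∃ q, f.s j q * f.k j ((G.a ^ n)⁻¹ * q⁻¹ * g.1) ≠ 0 := by
      by_contra hcon
      push Not at hcon
      apply h2
      unfold kk
      rw [lintegral_congr hcon, lintegral_zero]
    obtain ⟨q, hq⟩ := h4
    obtain ⟨C, -, hC⟩ := hf.su
    obtain ⟨C', -, hC'⟩ := hf.ku
    have h5 : q ∈ t'.S j * G.D1 ^ R := NOphi_iK (hC j q) (left_ne_zero_of_mul hq)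
    have h6 : (G.a ^ n)⁻¹ * q⁻¹ * g.1 ∈ G.ew (t'.K j) :=
      NOphi_iK (hC' j _) (right_ne_zero_of_mul hq)
    refine ⟨q * G.a ^ n, ⟨q, h5, G.a ^ n, rfl, rfl⟩, _, h6, ?_⟩
    change q * G.a ^ n * ((G.a ^ n)⁻¹ * q⁻¹ * g.1) = g.1
    group
  · exact ((hnu D hD).2.2.1 n hn g.2).1 (pos_iff_ne_zero.2 h3)

/-- The numerical contradiction. -/
private theorem NOphi_num (r : ℕ) (C C' x y : ℝ≥0∞) (hr : 1 ≤ r) (hCr : C * C' < r)
    (hx0 : x ≠ 0) (hx : x ≠ ∞) (h1 : y ≤ C * (r : ℝ≥0∞) ^ 3 * x)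
    (h2 : x ≤ C' * ((r : ℝ≥0∞)⁻¹) ^ 5 * y) : False := by
  have hr0 : (r : ℝ≥0∞) ≠ 0 := by
    rw [Ne, Nat.cast_eq_zero]
    omega
  have hrt : (r : ℝ≥0∞) ≠ ∞ := ENNReal.natCast_ne_top r
  have hr1 : (r : ℝ≥0∞)⁻¹ ≤ 1 := ENNReal.inv_le_one.2 (by exact_mod_cast hr)
  have h3 : x ≤ C' * ((r : ℝ≥0∞)⁻¹) ^ 5 * (C * (r : ℝ≥0∞) ^ 3 * x) := by
    refine h2.trans ?_
    gcongr
  have h4 : C' * ((r : ℝ≥0∞)⁻¹) ^ 5 * (C * (r : ℝ≥0∞) ^ 3 * x) =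
      (C * C' * ((r : ℝ≥0∞)⁻¹ * (r : ℝ≥0∞)⁻¹) * ((r : ℝ≥0∞)⁻¹ * r) ^ 3) * x := by ring
  rw [h4, ENNReal.inv_mul_cancel hr0 hrt, one_pow, mul_one] at h3
  have h5 : C * C' * ((r : ℝ≥0∞)⁻¹ * (r : ℝ≥0∞)⁻¹) ≤ C * C' / r := by
    rw [div_eq_mul_inv]
    gcongr
    calc (r : ℝ≥0∞)⁻¹ * (r : ℝ≥0∞)⁻¹ ≤ (r : ℝ≥0∞)⁻¹ * 1 := by gcongr
      _ = (r : ℝ≥0∞)⁻¹ := mul_one _
  have h6 : C * C' / r < 1 := by
    rw [ENNReal.div_lt_iff (Or.inl hr0) (Or.inl hrt), one_mul]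
    exact hCr
  have h7 : C * C' * ((r : ℝ≥0∞)⁻¹ * (r : ℝ≥0∞)⁻¹) * x < 1 * x :=
    (ENNReal.mul_lt_mul_iff_left hx0 hx).2 (h5.trans_lt h6)
  rw [one_mul] at h7
  exact absurd h7 (not_lt.2 h3)

theorem tNOphi : S_CLO P H → S_WfE P → S_SG P H → S_POS P H → S_EWf P H → S_AD P → S_DF P →
    S_nu P H → S_NOphi P H := by
  classical
  intro hCLO hWfE hSG hPOS hEWf _hAD hDF hnu D hD G hG hF hGG NK hNK hEq hI7
  obtain ⟨N, t, t', R, hN, ht, hmain⟩ := hCLO D hD G hG hF hGG NK hNK hEq hI7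
  choose f hf hfs hfk using fun i : Fin N =>
    hWfE G hG NK hNK (t i) (t' i) (ht i).1 (ht i).2.1 (ht i).2.2 R
  obtain ⟨C, r₀, hC, hCLOb⟩ := hmain f hf
  choose Cs T₁ hCs hSGb using fun i : Fin N =>
    hSG D hD G hG hF NK hNK hEq (t i) (t' i) (ht i).1 (ht i).2.1 (ht i).2.2 R (f i) (hf i)
      (hfs i) (hfk i)
  choose T₂ hPOSb using fun i : Fin N =>
    hPOS D hD G hG NK hNK hEq (t i) (t' i) (ht i).1 (ht i).2.1 (ht i).2.2 R (f i) (hf i)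
  choose T₃ hEWb using fun i : Fin N =>
    hEWf D hD G hG hF NK hNK hEq (t i) (t' i) (ht i).1 (ht i).2.1 (ht i).2.2 R (f i) (hf i)
  refine ⟨N, t', R, hN, fun i => (ht i).2.1, fun k => ?_⟩
  obtain ⟨T₄, hT₄⟩ := (hDF G hG).2.2.2.2.2.2.2.2.2.2 R k
  have hCsum : ∑ i, Cs i ≠ ∞ := (ENNReal.sum_lt_top.2 fun i _ => (hCs i).lt_top).ne
  obtain ⟨M, hM⟩ := ENNReal.exists_nat_gt (ENNReal.mul_ne_top hC hCsum)
  obtain ⟨r, hr⟩ : ∃ r : ℕ, r = T₄ + ∑ i, (T₁ i + T₂ i + T₃ i) + r₀ + M + 1 := ⟨_, rfl⟩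
  have hT : ∀ i, T₁ i + T₂ i + T₃ i ≤ r := by
    intro i
    have h1 : T₁ i + T₂ i + T₃ i ≤ ∑ i, (T₁ i + T₂ i + T₃ i) :=
      Finset.single_le_sum (f := fun i => T₁ i + T₂ i + T₃ i) (fun _ _ => Nat.zero_le _)
        (Finset.mem_univ i)
    omega
  have hr1 : 1 ≤ r := by omega
  refine ⟨r, hr1, fun n hn d hd => hT₄ n (by omega) d hd, ?_⟩
  intro φ hφ hpos
  -- positivity on the thetas of the window functions
  have hpos' : ∀ (i : Fin N) (n₀ n₁ n₂ : ℕ), r ≤ n₀ → n₀ ≤ 4 * r → r ≤ n₁ → n₁ ≤ 4 * r →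
      r ≤ n₂ → n₂ ≤ 4 * r → ∀ (x y : P × H) (u v w : D.Γ),
      D.we G (f i) 0 n₀ (x⁻¹ * (u : P × H) * y) ≠ 0 →
      D.we G (f i) 1 n₁ (x⁻¹ * (v : P × H) * y) ≠ 0 →
      D.we G (f i) 2 n₂ (x⁻¹ * (w : P × H) * y) ≠ 0 →
      0 < dl G φ ((t i).c 0) ((t i).c 1) ((t i).c 2) x u v w := by
    intro i n₀ n₁ n₂ h0 h0' h1 h1' h2 h2' x y u v w hu hv hw
    have key := hpos i ![n₀, n₁, n₂] (by
      intro j
      match j with
      | 0 => exact ⟨h0, h0'⟩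
      | 1 => exact ⟨h1, h1'⟩
      | 2 => exact ⟨h2, h2'⟩) x y ![u, v, w] (by
      intro j
      match j with
      | 0 => exact NOphi_supp P H hnu D hD G (f i) (t i) (t' i) R (hf i) 0 n₀ (by omega) _ hu
      | 1 => exact NOphi_supp P H hnu D hD G (f i) (t i) (t' i) R (hf i) 1 n₁ (by omega) _ hv
      | 2 => exact NOphi_supp P H hnu D hD G (f i) (t i) (t' i) R (hf i) 2 n₂ (by omega) _ hw)
    rw [((ht i).2.2 0).1, ((ht i).2.2 1).1, ((ht i).2.2 2).1]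
    exact key
  have hAW := hCLOb r (by omega) φ hφ
  have hEWle : ∑ i, D.EW G (f i) (t i).c r φ ≤
      (∑ i, Cs i) * ((r : ℝ≥0∞)⁻¹) ^ 5 * ∑ i, D.AW G (f i) (t i).c r φ := by
    rw [Finset.mul_sum]
    refine Finset.sum_le_sum fun i _ => ?_
    have h1 := hSGb i r (by have := hT i; omega) φ hφ
      (fun n₀ n₁ n₂ h0 h0' h1 h1' h2 h2' x y u v w hu hv hw =>
        (hpos' i n₀ n₁ n₂ h0 h0' h1 h1' h2 h2' x y u v w hu hv hw).le)
    refine h1.trans ?_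
    have h2 : Cs i ≤ ∑ i, Cs i := Finset.single_le_sum (fun _ _ => bot_le) (Finset.mem_univ i)
    gcongr
  have hEWfin : ∑ i, D.EW G (f i) (t i).c r φ ≠ ∞ :=
    (ENNReal.sum_lt_top.2 fun i _ => (hEWb i r (by have := hT i; omega) φ hφ).lt_top).ne
  have hEW0 : ∑ i, D.EW G (f i) (t i).c r φ ≠ 0 := by
    intro h0
    have h1 := (Finset.sum_eq_zero_iff.1 h0) ⟨0, hN⟩ (Finset.mem_univ _)
    exact hPOSb ⟨0, hN⟩ r (by have := hT ⟨0, hN⟩; omega) φ hφ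
      (fun x y u v w hu hv hw =>
        hpos' ⟨0, hN⟩ r r r le_rfl (by omega) le_rfl (by omega) le_rfl (by omega) x y u v w hu hv
          hw) h1
  refine NOphi_num r C (∑ i, Cs i) _ _ hr1 (hM.trans_le ?_) hEW0 hEWfin hAW hEWle
  exact_mod_cast (by omega : M ≤ r)

end Pool.Agent.MPEF.U
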