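import Pool.Agent.Lib.MP_ef3f0f_gt.U.F.SpecA

set_option autoImplicit false

/-! # MP_ef3f0f_gt, Theorem U, Part F, module NT1: finite nets (helper46) -/

namespace Pool.Agent.MPEF.U

open MeasureTheory Topology
open scoped ENNReal Pointwise

variable (P : Type) [Group P] [TopologicalSpace P] [IsTopologicalGroup P] [LocallyCompactSpace P]
  [T2Space P]

theorem tNT1 : S_NT1 P := by
  intro D hD V hV
  have hU : ∀ d ∈ D, (fun x : P => x * d⁻¹) ⁻¹' V ∈ 𝓝 d := by
    intro d _
    have hc : Continuous fun x : P => x * d⁻¹ := continuous_id.mul continuous_const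
    refine hc.continuousAt.preimage_mem_nhds ?_
    simpa only [mul_inv_cancel] using hV
  obtain ⟨t, ht, hcov⟩ := hD.elim_nhds_subcover (fun d => (fun x : P => x * d⁻¹) ⁻¹' V)
    (fun d hd => hU d hd)
  refine ⟨t, ht, fun d hd => ?_⟩
  obtain ⟨d', hd', hv⟩ := Set.mem_iUnion₂.1 (hcov hd)
  exact ⟨d', hd', d * d'⁻¹, hv, by rw [inv_mul_cancel_right]⟩

end Pool.Agent.MPEF.U
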