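import Pool.Agent.Lib.MP_ef3f0f_gt.U.F.SpecB

set_option autoImplicit false

/-!
# MP_ef3f0f_gt, Theorem U, Part F, module `RV`: reversal of the kernel `eP`
-/

namespace Pool.Agent.MPEF.U

open MeasureTheory Topology
open scoped ENNReal Pointwise

section

theorem RV_iK_mem {X : Type} {A : Set X} {x : X} (h : x ∈ A) : iK A x = 1 := by
  unfold iK
  rw [Set.indicator_of_mem h]

theorem RV_iK_notMem {X : Type} {A : Set X} {x : X} (h : x ∉ A) : iK A x = 0 := by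
  unfold iK
  rw [Set.indicator_of_notMem h]

theorem RV_iK_le {X Y : Type} {A : Set X} {B : Set Y} {x : X} {y : Y} (h : x ∈ A → y ∈ B) :
    iK A x ≤ iK B y := by
  by_cases hx : x ∈ A
  · rw [RV_iK_mem hx, RV_iK_mem (h hx)]
  · rw [RV_iK_notMem hx]
    exact zero_le

variable (P : Type) [Group P] [TopologicalSpace P] [IsTopologicalGroup P] [LocallyCompactSpace P]
  [T2Space P] [SecondCountableTopology P] [MeasurableSpace P] [BorelSpace P]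

theorem tRV : S_DF P → S_TB P → S_NB P → S_NT1 P → S_KT P → S_RV P := by
  intro hDF hTB _hNB hNT hKT G μ _ _ _ hG S K S' hS hK hSS' R
  obtain ⟨Dc, DA, D1, Di, -, Dw, -, aA, wa, -, -⟩ := hDF G hG
  obtain ⟨S₁, hS₁c, hSS₁, hS₁S'⟩ := exists_compact_between hS isOpen_interior hSS'
  obtain ⟨U, hU, hU1⟩ := (hTB G hG S S₁ hS hSS₁).1
  obtain ⟨F, hFD, hF⟩ := hNT (G.D1 ^ R) (Dc R) U hU
  refine ⟨F.card, ENNReal.natCast_ne_top _, fun n g => ?_⟩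
  have h1U : (1 : P) ∈ U := mem_of_mem_nhds hU
  -- the change of variables
  have key : eP μ G S K R n g⁻¹ =
      ∫⁻ p, iK (G.ew K) p * iK (S * G.D1 ^ R) (g⁻¹ * p⁻¹ * (G.a ^ n)⁻¹) ∂μ :=
    (hKT μ G.a _ _).2.2 g n
  have hmS : Measurable (iK S₁) := measurable_const.indicator hS₁c.isClosed.measurableSet
  have hmK : Measurable (iK (G.ew K)) := by
    refine measurable_const.indicator ?_
    have hc : IsClosed (G.ew K) :=
      hK.isClosed.preimage (continuous_inv.mul continuous_const)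
    exact hc.measurableSet
  -- the finite cover
  have step1 : ∀ p : P, iK (G.ew K) p * iK (S * G.D1 ^ R) (g⁻¹ * p⁻¹ * (G.a ^ n)⁻¹) ≤
      ∑ d ∈ F, iK (G.ew K) p * iK S₁ (g⁻¹ * p⁻¹ * (G.a ^ n)⁻¹ * d⁻¹) := by
    intro p
    by_cases hx : g⁻¹ * p⁻¹ * (G.a ^ n)⁻¹ ∈ S * G.D1 ^ R
    · obtain ⟨s, hs, d, hd, hsd⟩ := Set.mem_mul.1 hx
      obtain ⟨d', hd', v, hv, rfl⟩ := hF d hd
      have h2 : g⁻¹ * p⁻¹ * (G.a ^ n)⁻¹ * d'⁻¹ ∈ S₁ := by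
        rw [← hsd]
        have h3 := hU1 1 h1U s hs v hv
        have h4 : s * (v * d') * d'⁻¹ = 1 * s * v := by group
        rw [h4]
        exact h3
      rw [RV_iK_mem hx]
      refine le_trans ?_ (Finset.single_le_sum
        (f := fun d => iK (G.ew K) p * iK S₁ (g⁻¹ * p⁻¹ * (G.a ^ n)⁻¹ * d⁻¹))
        (fun _ _ => zero_le) hd')
      rw [RV_iK_mem h2]
    · rw [RV_iK_notMem hx, mul_zero]
      exact zero_le
  -- one term
  have step3 : ∀ d ∈ F, ∫⁻ p, iK (G.ew K) p * iK S₁ (g⁻¹ * p⁻¹ * (G.a ^ n)⁻¹ * d⁻¹) ∂μ ≤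
      eP μ G K S' R n g := by
    intro d hd
    have hdA : d ∈ G.A := DA R (hFD d hd)
    have e : eP μ G K S' R n g = ∫⁻ p, iK (K * G.D1 ^ R) (p⁻¹ * (d⁻¹ * G.w)) *
        iK (G.ew S') ((G.a ^ n)⁻¹ * (p⁻¹ * (d⁻¹ * G.w))⁻¹ * g) ∂μ := by
      have e1 := lintegral_inv_eq_self (μ := μ) (fun p : P => iK (K * G.D1 ^ R) (p * (d⁻¹ * G.w)) *
        iK (G.ew S') ((G.a ^ n)⁻¹ * (p * (d⁻¹ * G.w))⁻¹ * g))
      have e2 := lintegral_mul_right_eq_self (μ := μ) (fun q : P => iK (K * G.D1 ^ R) q *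
        iK (G.ew S') ((G.a ^ n)⁻¹ * q⁻¹ * g)) (d⁻¹ * G.w)
      exact (e1.trans e2).symm
    rw [e]
    refine lintegral_mono fun p => ?_
    refine mul_le_mul' (RV_iK_le fun hp => ?_) (RV_iK_le fun hs => ?_)
    · have hp' : p⁻¹ * G.w ∈ K := hp
      have h2 : p⁻¹ * (d⁻¹ * G.w) = (p⁻¹ * G.w) * (G.w * d⁻¹ * G.w) := by
        have : (p⁻¹ * G.w) * (G.w * d⁻¹ * G.w) = p⁻¹ * ((G.w * G.w) * (d⁻¹ * G.w)) := by
          simp only [mul_assoc]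
        rw [this, hG.ww, one_mul]
      rw [h2]
      exact Set.mul_mem_mul hp' (Dw R _ (Di R d (hFD d hd)))
    · show ((G.a ^ n)⁻¹ * (p⁻¹ * (d⁻¹ * G.w))⁻¹ * g)⁻¹ * G.w ∈ S'
      have hcomm : d⁻¹ * (G.a ^ n)⁻¹ = (G.a ^ n)⁻¹ * d⁻¹ := by
        rw [← mul_inv_rev, ← mul_inv_rev, hG.comm _ (aA n) _ hdA]
      have hwa : G.w * G.a ^ n * G.w = (G.a ^ n)⁻¹ := by
        rw [wa n, mul_assoc, hG.ww, mul_one]
      have h2 : ((G.a ^ n)⁻¹ * (p⁻¹ * (d⁻¹ * G.w))⁻¹ * g)⁻¹ * G.w =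
          g⁻¹ * p⁻¹ * (G.a ^ n)⁻¹ * d⁻¹ := by
        have h3 : ((G.a ^ n)⁻¹ * (p⁻¹ * (d⁻¹ * G.w))⁻¹ * g)⁻¹ * G.w =
            g⁻¹ * p⁻¹ * (d⁻¹ * (G.w * G.a ^ n * G.w)) := by
          group
        rw [h3, hwa, hcomm]
        simp only [mul_assoc]
      rw [h2]
      exact interior_subset (hS₁S' hs)
  calc eP μ G S K R n g⁻¹
      = ∫⁻ p, iK (G.ew K) p * iK (S * G.D1 ^ R) (g⁻¹ * p⁻¹ * (G.a ^ n)⁻¹) ∂μ := key
    _ ≤ ∫⁻ p, ∑ d ∈ F, iK (G.ew K) p * iK S₁ (g⁻¹ * p⁻¹ * (G.a ^ n)⁻¹ * d⁻¹) ∂μ :=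
        lintegral_mono step1
    _ = ∑ d ∈ F, ∫⁻ p, iK (G.ew K) p * iK S₁ (g⁻¹ * p⁻¹ * (G.a ^ n)⁻¹ * d⁻¹) ∂μ := by
        refine lintegral_finsetSum F fun d _ => ?_
        refine hmK.mul (hmS.comp ?_)
        exact ((((continuous_const.mul continuous_inv).mul continuous_const).mul
          continuous_const).measurable)
    _ ≤ ∑ _d ∈ F, eP μ G K S' R n g := Finset.sum_le_sum step3
    _ = (F.card : ℝ≥0∞) * eP μ G K S' R n g := by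
        rw [Finset.sum_const, nsmul_eq_mul]

end

end Pool.Agent.MPEF.U
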