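import Pool.Agent.Lib.MP_ef3f0f_gt.U.F.SpecC

set_option autoImplicit false

/-!
# MP_ef3f0f_gt, Theorem U, Part F: reversal of edges
-/

namespace Pool.Agent.MPEF.U

open MeasureTheory Topology
open scoped ENNReal Pointwise

variable (P H : Type) [Group P] [Group H] [TopologicalSpace P] [TopologicalSpace H]
  [IsTopologicalGroup P] [IsTopologicalGroup H] [LocallyCompactSpace P] [LocallyCompactSpace H]
  [T2Space P] [T2Space H] [SecondCountableTopology P] [SecondCountableTopology H]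
  [MeasurableSpace P] [MeasurableSpace H] [BorelSpace P] [BorelSpace H]

theorem tRVd : S_RV P → S_nu P H → S_RVd P H := by
  intro hRV hnu D hD G hG S K S' hS hK hSS' R
  have := hD.haar₁
  have := hD.right₁
  have := hD.inv₁
  obtain ⟨C, hC, hRVC⟩ := hRV G D.μ₁ hG S K S' hS hK hSS' R
  have hsym : ∀ n h, D.nu n h⁻¹ = D.nu n h := (hnu D hD).2.2.2.1
  refine ⟨C, hC, fun n g => ?_⟩
  change eP D.μ₁ G S K R n (g.1)⁻¹ * D.nu n (g.2)⁻¹ ≤
    C * (eP D.μ₁ G K S' R n g.1 * D.nu n g.2)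
  rw [hsym, ← mul_assoc]
  exact mul_le_mul_left (hRVC n g.1) _

end Pool.Agent.MPEF.U
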