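import Pool.Agent.Lib.MP_ef3f0f_gt.U.F.SpecB2

set_option autoImplicit false

/-!
# MP_ef3f0f_gt, Theorem U, Part F: exact reversal with one `A`-shift
-/

namespace Pool.Agent.MPEF.U

open MeasureTheory Topology
open scoped ENNReal Pointwise

variable (P : Type) [Group P] [TopologicalSpace P] [IsTopologicalGroup P] [LocallyCompactSpace P]
  [T2Space P] [SecondCountableTopology P] [MeasurableSpace P] [BorelSpace P]

private theorem RVs_mem {P : Type} [Group P] (U : Set P) (x y : P) :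
    y ∈ U * {x} ↔ y * x⁻¹ ∈ U := by
  constructor
  · rintro ⟨u, hu, z, hz, h⟩
    rw [Set.mem_singleton_iff] at hz
    subst hz
    have h' : u * z = y := h
    rwa [← h', mul_inv_cancel_right]
  · intro h
    exact ⟨_, h, x, rfl, inv_mul_cancel_right y x⟩

private theorem RVs_iK {P : Type} {S T : Set P} {q q' : P} (h : q ∈ S ↔ q' ∈ T) :
    iK S q = iK T q' := by
  unfold iK
  by_cases h1 : q ∈ S
  · rw [Set.indicator_of_mem h1, Set.indicator_of_mem (h.1 h1)]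
  · rw [Set.indicator_of_notMem h1, Set.indicator_of_notMem (fun h2 => h1 (h.2 h2))]

/-- **Exact reversal for straight windows with one `A`-shift.** -/
theorem tRVs : S_KT P → S_RVs P := by
  intro hKT G μ _ _ _ hG U d hd m g
  have hw : G.w⁻¹ = G.w := inv_eq_of_mul_eq_one_left hG.ww
  have hwa : G.w * G.a ^ m = (G.a ^ m)⁻¹ * G.w := by
    have h1 : SemiconjBy G.w G.a G.a⁻¹ := by
      show G.w * G.a = G.a⁻¹ * G.w
      rw [← hG.wa, mul_assoc, hG.ww, mul_one]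
    have h2 := h1.pow_right m
    rw [inv_pow] at h2
    exact h2
  have hda : d⁻¹ * (G.a ^ m)⁻¹ = (G.a ^ m)⁻¹ * d⁻¹ :=
    hG.comm _ (inv_mem hd) _ (inv_mem (pow_mem hG.aA m))
  have h1 := (hKT μ G.a (iK (G.uw U * {d} * G.D1 ^ 0)) (iK (G.ew U))).2.2 g m
  have h2 : eP μ G (G.uw U * {d}) U 0 m g⁻¹ =
      ∫⁻ p, iK (G.ew U) p * iK (G.uw U * {d} * G.D1 ^ 0) (g⁻¹ * p⁻¹ * (G.a ^ m)⁻¹) ∂μ := h1
  rw [h2]
  unfold kk
  obtain ⟨F, hF⟩ : ∃ F : P → ℝ≥0∞, F = fun q => iK (U * {G.w * d⁻¹ * G.w}) q *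
      iK (G.ew (G.uw U)) ((G.a ^ m)⁻¹ * q⁻¹ * g) := ⟨_, rfl⟩
  have h3 : ∫⁻ q, F q ∂μ = ∫⁻ p, F (p⁻¹ * (d⁻¹ * G.w)) ∂μ := by
    rw [← lintegral_mul_right_eq_self F (d⁻¹ * G.w)]
    exact (lintegral_inv_eq_self (μ := μ) (fun p => F (p * (d⁻¹ * G.w)))).symm
  rw [hF] at h3
  rw [h3]
  refine lintegral_congr fun p => ?_
  refine congrArg₂ (· * ·) (RVs_iK ?_) (RVs_iK ?_)
  · rw [RVs_mem]
    show p⁻¹ * G.w ∈ U ↔ _
    have e : p⁻¹ * (d⁻¹ * G.w) * (G.w * d⁻¹ * G.w)⁻¹ = p⁻¹ * G.w := by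
      rw [mul_inv_rev, mul_inv_rev, hw, inv_inv]
      rw [show p⁻¹ * (d⁻¹ * G.w) * (G.w * (d * G.w)) = p⁻¹ * (d⁻¹ * (G.w * G.w) * d) * G.w by group,
        hG.ww, mul_one, inv_mul_cancel, mul_one]
    rw [e]
  · rw [pow_zero, mul_one, RVs_mem]
    show _ ∈ U * {G.w} ↔ _ * G.w ∈ U * {G.w}
    rw [RVs_mem, RVs_mem, mul_inv_cancel_right]
    have e : ((G.a ^ m)⁻¹ * (p⁻¹ * (d⁻¹ * G.w))⁻¹ * g)⁻¹ =
        g⁻¹ * p⁻¹ * (G.a ^ m)⁻¹ * d⁻¹ * G.w⁻¹ := by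
      rw [show ((G.a ^ m)⁻¹ * (p⁻¹ * (d⁻¹ * G.w))⁻¹ * g)⁻¹ =
        g⁻¹ * p⁻¹ * d⁻¹ * (G.w * G.a ^ m) by group, hwa, hw,
        show g⁻¹ * p⁻¹ * d⁻¹ * ((G.a ^ m)⁻¹ * G.w) = g⁻¹ * p⁻¹ * (d⁻¹ * (G.a ^ m)⁻¹) * G.w by group,
        hda]
      group
    rw [e]

end Pool.Agent.MPEF.U
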