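import Pool.Agent.Lib.MP_ef3f0f_gt.U.F.SpecD

set_option autoImplicit false

/-!
# MP_ef3f0f_gt, Theorem U, Part F: the last step for one theta
-/

namespace Pool.Agent.MPEF.U

open MeasureTheory Topology
open scoped ENNReal Pointwise

section

variable {P H : Type} [Group P] [Group H] [TopologicalSpace P] [TopologicalSpace H]
  [IsTopologicalGroup P] [IsTopologicalGroup H] [LocallyCompactSpace P] [LocallyCompactSpace H]
  [T2Space P] [T2Space H] [SecondCountableTopology P] [SecondCountableTopology H]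
  [MeasurableSpace P] [MeasurableSpace H] [BorelSpace P] [BorelSpace H]

omit [TopologicalSpace P] [TopologicalSpace H]
  [IsTopologicalGroup P] [IsTopologicalGroup H] [LocallyCompactSpace P] [LocallyCompactSpace H]
  [T2Space P] [T2Space H] [SecondCountableTopology P] [SecondCountableTopology H]
  [BorelSpace P] [BorelSpace H] in
private lemma SGt_IM_mono (D : Dat P H) {f g : P × H → ℝ≥0∞} (h : ∀ x, f x ≤ g x) :
    D.IM f ≤ D.IM g :=
  lintegral_mono fun x => mul_le_mul' le_rfl (h x)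

omit [TopologicalSpace P] [TopologicalSpace H]
  [IsTopologicalGroup P] [IsTopologicalGroup H] [LocallyCompactSpace P] [LocallyCompactSpace H]
  [T2Space P] [T2Space H] [SecondCountableTopology P] [SecondCountableTopology H]
  [BorelSpace P] [BorelSpace H] in
private lemma SGt_IM_const (D : Dat P H) {c : ℝ≥0∞} (hc : c ≠ ∞) (f : P × H → ℝ≥0∞) :
    D.IM (fun x => c * f x) = c * D.IM f := by
  unfold Dat.IM
  rw [← lintegral_const_mul' _ _ hc]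
  exact lintegral_congr fun x => mul_left_comm _ _ _

omit [IsTopologicalGroup P] [IsTopologicalGroup H] [LocallyCompactSpace P] [LocallyCompactSpace H]
  [T2Space P] [T2Space H] [SecondCountableTopology P] [SecondCountableTopology H]
  [BorelSpace P] [BorelSpace H] in
private lemma SGt_IM_add (D : Dat P H) (hD : D.Ok) (f : P × H → ℝ≥0∞) {g : P × H → ℝ≥0∞}
    (hg : Measurable g) : D.IM (fun x => f x + g x) = D.IM f + D.IM g := by
  unfold Dat.IM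
  have h1 : Measurable fun x => D.χ x * g x := hD.χm.mul hg
  rw [← lintegral_add_right _ h1]
  exact lintegral_congr fun x => mul_add _ _ _

omit [TopologicalSpace P] [TopologicalSpace H]
  [IsTopologicalGroup P] [IsTopologicalGroup H] [LocallyCompactSpace P] [LocallyCompactSpace H]
  [T2Space P] [T2Space H] [SecondCountableTopology P] [SecondCountableTopology H]
  [BorelSpace P] [BorelSpace H] in
private lemma SGt_st3_add (D : Dat P H) (K₁ K₂ K₃ : P × H → ℝ≥0∞) (x y : P × H)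
    (f g : D.Γ → D.Γ → D.Γ → ℝ≥0∞) :
    D.st3 K₁ K₂ K₃ x y (fun u v w => f u v w + g u v w) =
      D.st3 K₁ K₂ K₃ x y f + D.st3 K₁ K₂ K₃ x y g := by
  unfold Dat.st3
  simp only [mul_add, ENNReal.tsum_add]

/-- Additivity of `X3`. -/
private lemma SGt_X3_add (hMQ : S_MQ P H) (D : Dat P H) (hD : D.Ok) {K₁ K₂ K₃ : P × H → ℝ≥0∞}
    (h₁ : Measurable K₁) (h₂ : Measurable K₂) (h₃ : Measurable K₃)
    (f : P × H → D.Γ → D.Γ → D.Γ → ℝ≥0∞) {g : P × H → D.Γ → D.Γ → D.Γ → ℝ≥0∞}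
    (hg : ∀ u v w, Measurable fun x => g x u v w) :
    D.X3 K₁ K₂ K₃ (fun x u v w => f x u v w + g x u v w) =
      D.X3 K₁ K₂ K₃ f + D.X3 K₁ K₂ K₃ g := by
  obtain ⟨h4, h5⟩ := (hMQ D hD K₁ K₂ K₃ h₁ h₂ h₃).2.2 g hg
  unfold Dat.X3
  rw [← SGt_IM_add D hD _ h5]
  have h7 : (fun x => D.IM fun y => D.st3 K₁ K₂ K₃ x y (fun u v w => f x u v w + g x u v w)) =
      fun x => (D.IM fun y => D.st3 K₁ K₂ K₃ x y (f x)) +
        D.IM fun y => D.st3 K₁ K₂ K₃ x y (g x) := by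
    funext x
    have h6 : Measurable fun y => D.st3 K₁ K₂ K₃ x y (g x) :=
      Measurable.of_uncurry_left (f := fun x y => D.st3 K₁ K₂ K₃ x y (g x)) h4
    have h8 : (fun y => D.st3 K₁ K₂ K₃ x y (fun u v w => f x u v w + g x u v w)) =
        fun y => D.st3 K₁ K₂ K₃ x y (f x) + D.st3 K₁ K₂ K₃ x y (g x) := by
      funext y
      exact SGt_st3_add D K₁ K₂ K₃ x y (f x) (g x)
    rw [h8, SGt_IM_add D hD _ h6]
  rw [h7]

omit [TopologicalSpace P] [TopologicalSpace H]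
  [IsTopologicalGroup P] [IsTopologicalGroup H] [LocallyCompactSpace P] [LocallyCompactSpace H]
  [T2Space P] [T2Space H] [SecondCountableTopology P] [SecondCountableTopology H]
  [BorelSpace P] [BorelSpace H] in
private lemma SGt_L2 (D : Dat P H) (K₀ K₁ K₂ : P × H → ℝ≥0∞) (x y : P × H)
    (F : D.Γ → D.Γ → ℝ≥0∞) :
    D.st3 K₀ K₁ K₂ x y (fun u v _ => F u v) = D.N K₂ x y * D.st2 K₀ K₁ x y F := by
  unfold Dat.st3 Dat.st2 Dat.N
  rw [← ENNReal.tsum_mul_left]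
  refine tsum_congr fun u => ?_
  rw [← ENNReal.tsum_mul_left]
  refine tsum_congr fun v => ?_
  rw [← ENNReal.tsum_mul_right]
  exact tsum_congr fun w => by ring

omit [TopologicalSpace P] [TopologicalSpace H]
  [IsTopologicalGroup P] [IsTopologicalGroup H] [LocallyCompactSpace P] [LocallyCompactSpace H]
  [T2Space P] [T2Space H] [SecondCountableTopology P] [SecondCountableTopology H]
  [BorelSpace P] [BorelSpace H] in
private lemma SGt_L0 (D : Dat P H) (K₀ K₁ K₂ : P × H → ℝ≥0∞) (x y : P × H)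
    (F : D.Γ → D.Γ → ℝ≥0∞) :
    D.st3 K₀ K₁ K₂ x y (fun _ v w => F v w) = D.N K₀ x y * D.st2 K₁ K₂ x y F := by
  unfold Dat.st3 Dat.st2 Dat.N
  rw [← ENNReal.tsum_mul_right]
  refine tsum_congr fun u => ?_
  rw [← ENNReal.tsum_mul_left]
  refine tsum_congr fun v => ?_
  rw [← ENNReal.tsum_mul_left]
  exact tsum_congr fun w => by ring

omit [TopologicalSpace P] [TopologicalSpace H]
  [IsTopologicalGroup P] [IsTopologicalGroup H] [LocallyCompactSpace P] [LocallyCompactSpace H]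
  [T2Space P] [T2Space H] [SecondCountableTopology P] [SecondCountableTopology H]
  [BorelSpace P] [BorelSpace H] in
private lemma SGt_L1 (D : Dat P H) (K₀ K₁ K₂ : P × H → ℝ≥0∞) (x y : P × H)
    (F : D.Γ → D.Γ → ℝ≥0∞) :
    D.st3 K₀ K₁ K₂ x y (fun u _ w => F w u) = D.N K₁ x y * D.st2 K₂ K₀ x y F := by
  unfold Dat.st3 Dat.st2 Dat.N
  rw [ENNReal.tsum_comm (f := fun w u : D.Γ => K₂ (x⁻¹ * (w : P × H) * y) *
    K₀ (x⁻¹ * (u : P × H) * y) * F w u), ← ENNReal.tsum_mul_left]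
  refine tsum_congr fun u => ?_
  rw [← ENNReal.tsum_mul_right]
  refine tsum_congr fun v => ?_
  rw [← ENNReal.tsum_mul_left]
  exact tsum_congr fun w => by ring

/-- The two bounds, if one edge is summed out. -/
private lemma SGt_two (D : Dat P H) (hD : D.Ok) (N S : P × H → P × H → ℝ≥0∞) {I ε : ℝ≥0∞}
    (hI : I ≠ ∞) (hε : ε ≠ ∞) (h1 : ∀ x y, N x y ≤ I + ε) (h2 : ∀ x y, I ≤ N x y + ε)
    (hS : ∀ x, Measurable (S x)) (hS' : Measurable fun x => D.IM (S x)) :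
    D.IM (fun x => D.IM fun y => N x y * S x y) ≤ (I + ε) * D.IM (fun x => D.IM (S x)) ∧
    I * D.IM (fun x => D.IM (S x)) ≤
      D.IM (fun x => D.IM fun y => N x y * S x y) + ε * D.IM (fun x => D.IM (S x)) := by
  have hIε : I + ε ≠ ∞ := ENNReal.add_ne_top.2 ⟨hI, hε⟩
  constructor
  · rw [← SGt_IM_const D hIε]
    refine SGt_IM_mono D fun x => ?_
    rw [← SGt_IM_const D hIε]
    exact SGt_IM_mono D fun y => mul_le_mul' (h1 x y) le_rfl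
  · rw [← SGt_IM_const D hI, ← SGt_IM_const D hε, ← SGt_IM_add D hD _ (hS'.const_mul ε)]
    refine SGt_IM_mono D fun x => ?_
    rw [← SGt_IM_const D hI, ← SGt_IM_const D hε, ← SGt_IM_add D hD _ ((hS x).const_mul ε)]
    refine SGt_IM_mono D fun y => ?_
    rw [← add_mul]
    exact mul_le_mul' (h2 x y) le_rfl

private lemma SGt_real (a b c : ℝ) (h : 0 ≤ a + b + c) :
    ab (a + b + c) + (ENNReal.ofReal (-a) + ENNReal.ofReal (-b) + ENNReal.ofReal (-c)) =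
      ENNReal.ofReal a + ENNReal.ofReal b + ENNReal.ofReal c := by
  have h0 : ∀ t : ℝ, ENNReal.ofReal t = ENNReal.ofReal (max t 0) := by
    intro t
    rcases le_total t 0 with ht | ht
    · rw [max_eq_right ht, ENNReal.ofReal_of_nonpos ht, ENNReal.ofReal_zero]
    · rw [max_eq_left ht]
  have h1 : ∀ t : ℝ, 0 ≤ max t 0 := fun t => le_max_right _ _
  rw [ab, abs_of_nonneg h, h0 a, h0 b, h0 c, h0 (-a), h0 (-b), h0 (-c),
    ← ENNReal.ofReal_add (h1 _) (h1 _), ← ENNReal.ofReal_add (add_nonneg (h1 _) (h1 _)) (h1 _),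
    ← ENNReal.ofReal_add h (add_nonneg (add_nonneg (h1 _) (h1 _)) (h1 _)),
    ← ENNReal.ofReal_add (h1 _) (h1 _), ← ENNReal.ofReal_add (add_nonneg (h1 _) (h1 _)) (h1 _)]
  congr 1
  have h2 := max_zero_sub_max_neg_zero_eq_self a
  have h3 := max_zero_sub_max_neg_zero_eq_self b
  have h4 := max_zero_sub_max_neg_zero_eq_self c
  linarith

private lemma SGt_nuA_meas (D : Dat P H) (hD : D.Ok) (n : ℕ) : Measurable (D.nuA n) := by
  have := hD.haar₂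
  induction n with
  | zero => exact hD.νc.measurable
  | succ n ih =>
    have h : Measurable fun q : H × H => D.ν q.1 * D.nuA n (q.1⁻¹ * q.2) :=
      (hD.νc.measurable.comp measurable_fst).mul
        (ih.comp (measurable_fst.inv.mul measurable_snd))
    exact h.lintegral_prod_left' (μ := D.μ₂)

private lemma SGt_kk_meas (μ : Measure P) [SFinite μ] (a : P) {k₁ k₂ : P → ℝ≥0∞}
    (h₁ : Measurable k₁) (h₂ : Measurable k₂) (n : ℕ) : Measurable (kk μ a k₁ k₂ n) := by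
  have h : Measurable fun q : P × P => k₁ q.1 * k₂ ((a ^ n)⁻¹ * q.1⁻¹ * q.2) :=
    (h₁.comp measurable_fst).mul
      (h₂.comp ((measurable_fst.inv.const_mul _).mul measurable_snd))
  exact h.lintegral_prod_left' (μ := μ)

private lemma SGt_ed_meas (D : Dat P H) (hD : D.Ok) (G : PG P) {k₁ k₂ : P → ℝ≥0∞}
    (h₁ : Measurable k₁) (h₂ : Measurable k₂) (n : ℕ) : Measurable (D.ed G k₁ k₂ n) := by
  have := hD.haar₁
  exact ((SGt_kk_meas D.μ₁ G.a h₁ h₂ n).comp measurable_fst).mul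
    ((SGt_nuA_meas D hD (n - 1)).comp measurable_snd)

private lemma SGt_int (D : Dat P H) (hD : D.Ok) {NK : Set (P → ℝ≥0∞)} (hNK : NiceOk NK)
    {k : P → ℝ≥0∞} (hk : k ∈ NK) : ∫⁻ g, k g ∂D.μ₁ ≠ ∞ := by
  have := hD.haar₁
  obtain ⟨C, hC, hC'⟩ := hNK.bdd k hk
  obtain ⟨K, hK, hK'⟩ := hNK.supp k hk
  have h1 : ∫⁻ g, k g ∂D.μ₁ ≤ ∫⁻ g, K.indicator (fun _ => C) g ∂D.μ₁ := by
    refine lintegral_mono fun g => ?_
    by_cases hg : g ∈ K
    · rw [Set.indicator_of_mem hg]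
      exact hC' g
    · rw [hK' g hg]
      exact bot_le
  have h2 : C * D.μ₁ K ≠ ∞ := ENNReal.mul_ne_top hC hK.measure_lt_top.ne
  exact ne_top_of_le_ne_top h2 (h1.trans (lintegral_indicator_const_le _ _))

omit [TopologicalSpace P] [TopologicalSpace H]
  [IsTopologicalGroup P] [IsTopologicalGroup H] [LocallyCompactSpace P] [LocallyCompactSpace H]
  [T2Space P] [T2Space H] [SecondCountableTopology P] [SecondCountableTopology H]
  [BorelSpace P] [BorelSpace H] in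
private lemma SGt_we_le (D : Dat P H) (G : PG P) {t t' : Th P} {R : ℕ} {f : Wf P}
    (hf : f.Ok G t t' R) : ∃ A : ℝ≥0∞, A ≠ ∞ ∧ ∀ i n g,
      D.we G f i n g ≤ A * D.eg G (t'.S i) (t'.K i) R n g := by
  obtain ⟨C₁, hC₁, h₁⟩ := hf.su
  obtain ⟨C₂, hC₂, h₂⟩ := hf.ku
  refine ⟨C₁ * C₂, ENNReal.mul_ne_top hC₁ hC₂, ?_⟩
  intro i n g
  have h3 : kk D.μ₁ G.a (f.s i) (f.k i) n g.1 ≤
      C₁ * C₂ * kk D.μ₁ G.a (iK (t'.S i * G.D1 ^ R)) (iK (G.ew (t'.K i))) n g.1 := by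
    unfold kk
    rw [← lintegral_const_mul' _ _ (ENNReal.mul_ne_top hC₁ hC₂)]
    refine lintegral_mono fun q => ?_
    refine (mul_le_mul' (h₁ i q) (h₂ i _)).trans (le_of_eq ?_)
    ring
  have h4 : D.we G f i n g = kk D.μ₁ G.a (f.s i) (f.k i) n g.1 * D.nu n g.2 := rfl
  have h5 : D.eg G (t'.S i) (t'.K i) R n g =
    kk D.μ₁ G.a (iK (t'.S i * G.D1 ^ R)) (iK (G.ew (t'.K i))) n g.1 * D.nu n g.2 := rfl
  rw [h4, h5, ← mul_assoc]
  exact mul_le_mul' h3 le_rfl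

private lemma SGt_calc {T m0 m1 m2 q0 q1 q2 X0 X1 X2 J0 J1 J2 e : ℝ≥0∞}
    (key : T + (m0 + m1 + m2) = q0 + q1 + q2)
    (a2 : q0 ≤ (J0 + e) * X0) (b2 : q1 ≤ (J1 + e) * X1) (c2 : q2 ≤ (J2 + e) * X2)
    (a3 : J0 * X0 ≤ m0 + e * X0) (b3 : J1 * X1 ≤ m1 + e * X1) (c3 : J2 * X2 ≤ m2 + e * X2)
    (h0 : J0 ≠ ∞) (h1 : J1 ≠ ∞) (h2 : J2 ≠ ∞) (f0 : X0 ≠ ∞) (f1 : X1 ≠ ∞) (f2 : X2 ≠ ∞) :
    T ≤ 2 * e * (X0 + X1 + X2) := by
  have hfin : J0 * X0 + J1 * X1 + J2 * X2 ≠ ∞ :=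
    ENNReal.add_ne_top.2 ⟨ENNReal.add_ne_top.2 ⟨ENNReal.mul_ne_top h0 f0,
      ENNReal.mul_ne_top h1 f1⟩, ENNReal.mul_ne_top h2 f2⟩
  have hmain : (J0 * X0 + J1 * X1 + J2 * X2) + T ≤
      (J0 * X0 + J1 * X1 + J2 * X2) + 2 * e * (X0 + X1 + X2) := by
    calc (J0 * X0 + J1 * X1 + J2 * X2) + T
        ≤ ((m0 + e * X0) + (m1 + e * X1) + (m2 + e * X2)) + T :=
          add_le_add (add_le_add (add_le_add a3 b3) c3) le_rfl
      _ = (T + (m0 + m1 + m2)) + e * (X0 + X1 + X2) := by ring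
      _ = (q0 + q1 + q2) + e * (X0 + X1 + X2) := by rw [key]
      _ ≤ ((J0 + e) * X0 + (J1 + e) * X1 + (J2 + e) * X2) + e * (X0 + X1 + X2) :=
          add_le_add (add_le_add (add_le_add a2 b2) c2) le_rfl
      _ = (J0 * X0 + J1 * X1 + J2 * X2) + 2 * e * (X0 + X1 + X2) := by ring
  exact (ENNReal.add_le_add_iff_left hfin).1 hmain

/-- Finiteness of the masses of the pairs. -/
private lemma SGt_fin (hFin : S_Fin P H) (hTX : S_TXc P H) (D : Dat P H) (hD : D.Ok) (G : PG P)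
    (hG : G.Ok) (hGF : G.OkF) {NK : Set (P → ℝ≥0∞)} (hNK : NiceOk NK) (hE : Equi D G NK)
    {t t' : Th P} (ht' : t'.Ok G) {R : ℕ} {f : Wf P} (hf : f.Ok G t t' R) (i j : Fin 3)
    (hc : t.c i ∈ t'.S i)
    (hS : ∀ s ∈ t'.S i, ∀ s' ∈ t'.S j, G.Pos s s')
    (hK : ∀ κ ∈ t'.K i, ∀ κ' ∈ t'.K j, G.Pos κ κ') :
    ∃ T : ℕ, ∀ n m, T ≤ n → T ≤ m → ∀ φ : D.Γ → P → ℝ, Adm D G φ →
      D.PX G (t.c i) (D.we G f i n) (D.we G f j m) φ ≠ ∞ := by
  obtain ⟨A, hA, hA'⟩ := SGt_we_le D G hf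
  obtain ⟨T, hT⟩ := hFin D hD G hG hGF NK hNK hE (t'.S i) (t'.K i) (t'.S j) (t'.K j)
    (ht'.Sc i) (ht'.Kc i) (ht'.Sc j) (ht'.Kc j) hS hK R
  refine ⟨T, fun n m hn hm φ hφ => ?_⟩
  have h1 := (hTX D hD G hG φ).2.2.1 (t.c i) A hA (D.we G f i n) (D.we G f j m)
    (D.eg G (t'.S i) (t'.K i) R n) (D.eg G (t'.S j) (t'.K j) R m) (hA' i n) (hA' j m)
  exact ne_top_of_le_ne_top
    (ENNReal.mul_ne_top (ENNReal.pow_ne_top hA) (hT n m hn hm φ hφ _ hc)) h1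

/-- The estimate for one of the three terms. -/
private lemma SGt_term (hBAL : S_BAL P H) (hMQ : S_MQ P H) (hph : S_ph P H)
    (D : Dat P H) (hD : D.Ok) (G : PG P) (hG : G.Ok) (φ : D.Γ → P → ℝ) (hφ : Adm D G φ)
    {K K' K'' : P × H → ℝ≥0∞} (hK : Measurable K) (hK' : Measurable K') (h : P)
    {I ε : ℝ≥0∞} (hI : I ≠ ∞) (hε : ε ≠ ∞) (h1 : ∀ x y, D.N K'' x y ≤ I + ε)
    (h2 : ∀ x y, I ≤ D.N K'' x y + ε) :
    D.X2 K K' (fun x u v => ENNReal.ofReal (ph G φ (u * v⁻¹) (x.1 * h))) ≤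
      D.PX G h K K' φ ∧
    D.IM (fun x => D.IM fun y => D.N K'' x y *
      D.st2 K K' x y (fun u v => ENNReal.ofReal (ph G φ (u * v⁻¹) (x.1 * h)))) ≤
      (I + ε) * D.X2 K K' (fun x u v => ENNReal.ofReal (ph G φ (u * v⁻¹) (x.1 * h))) ∧
    I * D.X2 K K' (fun x u v => ENNReal.ofReal (ph G φ (u * v⁻¹) (x.1 * h))) ≤
      D.IM (fun x => D.IM fun y => D.N K'' x y *
        D.st2 K K' x y (fun u v => ENNReal.ofReal (- ph G φ (u * v⁻¹) (x.1 * h)))) +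
      ε * D.X2 K K' (fun x u v => ENNReal.ofReal (ph G φ (u * v⁻¹) (x.1 * h))) := by
  have hm8 := (hph D hD G hG φ hφ).2.2.2.2.2.2.2
  have hm : ∀ u v : D.Γ, Measurable fun x : P × H => ph G φ (u * v⁻¹) (x.1 * h) :=
    fun u v => (hm8 (u * v⁻¹)).comp (measurable_fst.mul_const h)
  have hp := (hMQ D hD K K' K hK hK' hK).2.1
    (fun x u v => ENNReal.ofReal (ph G φ (u * v⁻¹) (x.1 * h)))
    (fun u v => (hm u v).ennreal_ofReal)
  have hn := (hMQ D hD K K' K hK hK' hK).2.1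
    (fun x u v => ENNReal.ofReal (- ph G φ (u * v⁻¹) (x.1 * h)))
    (fun u v => (hm u v).neg.ennreal_ofReal)
  have hb := hBAL D hD G hG φ hφ K K' hK hK' h
  refine ⟨?_, ?_, ?_⟩
  · refine SGt_IM_mono D fun x => SGt_IM_mono D fun y => ?_
    refine ENNReal.tsum_le_tsum fun u => ENNReal.tsum_le_tsum fun v => ?_
    exact mul_le_mul' le_rfl (ENNReal.ofReal_le_ofReal (le_abs_self _))
  · exact (SGt_two D hD (fun x y => D.N K'' x y)
      (fun x y => D.st2 K K' x y (fun u v => ENNReal.ofReal (ph G φ (u * v⁻¹) (x.1 * h))))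
      hI hε h1 h2 (fun x => Measurable.of_uncurry_left (f := fun x y => D.st2 K K' x y
        (fun u v => ENNReal.ofReal (ph G φ (u * v⁻¹) (x.1 * h)))) hp.1) hp.2).1
  · rw [hb]
    exact (SGt_two D hD (fun x y => D.N K'' x y)
      (fun x y => D.st2 K K' x y (fun u v => ENNReal.ofReal (- ph G φ (u * v⁻¹) (x.1 * h))))
      hI hε h1 h2 (fun x => Measurable.of_uncurry_left (f := fun x y => D.st2 K K' x y
        (fun u v => ENNReal.ofReal (- ph G φ (u * v⁻¹) (x.1 * h)))) hn.1) hn.2).2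

omit [TopologicalSpace P] [TopologicalSpace H]
  [IsTopologicalGroup P] [IsTopologicalGroup H] [LocallyCompactSpace P] [LocallyCompactSpace H]
  [T2Space P] [T2Space H] [SecondCountableTopology P] [SecondCountableTopology H]
  [BorelSpace P] [BorelSpace H] in
private lemma SGt_X3_congr (D : Dat P H) {K₁ K₂ K₃ : P × H → ℝ≥0∞}
    {f g : P × H → D.Γ → D.Γ → D.Γ → ℝ≥0∞}
    (h : ∀ (x y : P × H) (u v w : D.Γ), K₁ (x⁻¹ * (u : P × H) * y) ≠ 0 →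
      K₂ (x⁻¹ * (v : P × H) * y) ≠ 0 → K₃ (x⁻¹ * (w : P × H) * y) ≠ 0 →
      f x u v w = g x u v w) : D.X3 K₁ K₂ K₃ f = D.X3 K₁ K₂ K₃ g := by
  unfold Dat.X3 Dat.st3
  congr 1
  funext x
  congr 1
  funext y
  refine tsum_congr fun u => tsum_congr fun v => tsum_congr fun w => ?_
  by_cases h0 : K₁ (x⁻¹ * (u : P × H) * y) * K₂ (x⁻¹ * (v : P × H) * y) *
      K₃ (x⁻¹ * (w : P × H) * y) = 0
  · rw [h0, zero_mul, zero_mul]
  · have h3 := right_ne_zero_of_mul h0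
    have h4 := left_ne_zero_of_mul h0
    rw [h x y u v w (left_ne_zero_of_mul h4) (right_ne_zero_of_mul h4) h3]

/-- The identity. -/
private lemma SGt_key (hMQ : S_MQ P H) (D : Dat P H) (hD : D.Ok) (G : PG P)
    (φ : D.Γ → P → ℝ) (c : Fin 3 → P) {K₀ K₁ K₂ : P × H → ℝ≥0∞}
    (h₀ : Measurable K₀) (h₁ : Measurable K₁) (h₂ : Measurable K₂)
    (mp : ∀ (u v : D.Γ) (h : P),
      Measurable fun x : P × H => ENNReal.ofReal (ph G φ (u * v⁻¹) (x.1 * h)))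
    (mn : ∀ (u v : D.Γ) (h : P),
      Measurable fun x : P × H => ENNReal.ofReal (- ph G φ (u * v⁻¹) (x.1 * h)))
    (hpos : ∀ (x y : P × H) (u v w : D.Γ), K₀ (x⁻¹ * (u : P × H) * y) ≠ 0 →
      K₁ (x⁻¹ * (v : P × H) * y) ≠ 0 → K₂ (x⁻¹ * (w : P × H) * y) ≠ 0 →
      0 ≤ dl G φ (c 0) (c 1) (c 2) x u v w) :
    D.TX G c K₀ K₁ K₂ φ +
      (D.IM (fun x => D.IM fun y => D.N K₂ x y *
        D.st2 K₀ K₁ x y (fun u v => ENNReal.ofReal (- ph G φ (u * v⁻¹) (x.1 * c 0)))) +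
      D.IM (fun x => D.IM fun y => D.N K₀ x y *
        D.st2 K₁ K₂ x y (fun u v => ENNReal.ofReal (- ph G φ (u * v⁻¹) (x.1 * c 1)))) +
      D.IM (fun x => D.IM fun y => D.N K₁ x y *
        D.st2 K₂ K₀ x y (fun u v => ENNReal.ofReal (- ph G φ (u * v⁻¹) (x.1 * c 2))))) =
      D.IM (fun x => D.IM fun y => D.N K₂ x y *
        D.st2 K₀ K₁ x y (fun u v => ENNReal.ofReal (ph G φ (u * v⁻¹) (x.1 * c 0)))) +
      D.IM (fun x => D.IM fun y => D.N K₀ x y *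
        D.st2 K₁ K₂ x y (fun u v => ENNReal.ofReal (ph G φ (u * v⁻¹) (x.1 * c 1)))) +
      D.IM (fun x => D.IM fun y => D.N K₁ x y *
        D.st2 K₂ K₀ x y (fun u v => ENNReal.ofReal (ph G φ (u * v⁻¹) (x.1 * c 2)))) := by
  have e2 : ∀ F : P × H → D.Γ → D.Γ → ℝ≥0∞,
      D.IM (fun x => D.IM fun y => D.N K₂ x y * D.st2 K₀ K₁ x y (F x)) =
      D.X3 K₀ K₁ K₂ (fun x u v _ => F x u v) := fun F =>
    congrArg D.IM (funext fun x => congrArg D.IM (funext fun y =>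
      (SGt_L2 D K₀ K₁ K₂ x y (F x)).symm))
  have e0 : ∀ F : P × H → D.Γ → D.Γ → ℝ≥0∞,
      D.IM (fun x => D.IM fun y => D.N K₀ x y * D.st2 K₁ K₂ x y (F x)) =
      D.X3 K₀ K₁ K₂ (fun x _ v w => F x v w) := fun F =>
    congrArg D.IM (funext fun x => congrArg D.IM (funext fun y =>
      (SGt_L0 D K₀ K₁ K₂ x y (F x)).symm))
  have e1 : ∀ F : P × H → D.Γ → D.Γ → ℝ≥0∞,
      D.IM (fun x => D.IM fun y => D.N K₁ x y * D.st2 K₂ K₀ x y (F x)) =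
      D.X3 K₀ K₁ K₂ (fun x u _ w => F x w u) := fun F =>
    congrArg D.IM (funext fun x => congrArg D.IM (funext fun y =>
      (SGt_L1 D K₀ K₁ K₂ x y (F x)).symm))
  have A1 := SGt_X3_add hMQ D hD h₀ h₁ h₂
    (fun x u v _ => ENNReal.ofReal (- ph G φ (u * v⁻¹) (x.1 * c 0)))
    (g := fun x _ v w => ENNReal.ofReal (- ph G φ (v * w⁻¹) (x.1 * c 1)))
    (fun u v w => mn v w (c 1))
  have A2 := SGt_X3_add hMQ D hD h₀ h₁ h₂
    (fun x u v w => ENNReal.ofReal (- ph G φ (u * v⁻¹) (x.1 * c 0)) +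
      ENNReal.ofReal (- ph G φ (v * w⁻¹) (x.1 * c 1)))
    (g := fun x u _ w => ENNReal.ofReal (- ph G φ (w * u⁻¹) (x.1 * c 2)))
    (fun u v w => mn w u (c 2))
  have A3 := SGt_X3_add hMQ D hD h₀ h₁ h₂
    (fun x u v w => ab (dl G φ (c 0) (c 1) (c 2) x u v w))
    (g := fun x u v w => ENNReal.ofReal (- ph G φ (u * v⁻¹) (x.1 * c 0)) +
      ENNReal.ofReal (- ph G φ (v * w⁻¹) (x.1 * c 1)) +
      ENNReal.ofReal (- ph G φ (w * u⁻¹) (x.1 * c 2)))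
    (fun u v w => ((mn u v (c 0)).add (mn v w (c 1))).add (mn w u (c 2)))
  have B1 := SGt_X3_add hMQ D hD h₀ h₁ h₂
    (fun x u v _ => ENNReal.ofReal (ph G φ (u * v⁻¹) (x.1 * c 0)))
    (g := fun x _ v w => ENNReal.ofReal (ph G φ (v * w⁻¹) (x.1 * c 1)))
    (fun u v w => mp v w (c 1))
  have B2 := SGt_X3_add hMQ D hD h₀ h₁ h₂
    (fun x u v w => ENNReal.ofReal (ph G φ (u * v⁻¹) (x.1 * c 0)) +
      ENNReal.ofReal (ph G φ (v * w⁻¹) (x.1 * c 1)))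
    (g := fun x u _ w => ENNReal.ofReal (ph G φ (w * u⁻¹) (x.1 * c 2)))
    (fun u v w => mp w u (c 2))
  rw [e2 (fun x u v => ENNReal.ofReal (- ph G φ (u * v⁻¹) (x.1 * c 0))),
    e2 (fun x u v => ENNReal.ofReal (ph G φ (u * v⁻¹) (x.1 * c 0))),
    e0 (fun x u v => ENNReal.ofReal (- ph G φ (u * v⁻¹) (x.1 * c 1))),
    e0 (fun x u v => ENNReal.ofReal (ph G φ (u * v⁻¹) (x.1 * c 1))),
    e1 (fun x u v => ENNReal.ofReal (- ph G φ (u * v⁻¹) (x.1 * c 2))),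
    e1 (fun x u v => ENNReal.ofReal (ph G φ (u * v⁻¹) (x.1 * c 2))),
    ← A1, ← A2, ← B1, ← B2]
  refine A3.symm.trans (SGt_X3_congr D fun x y u v w hu hv hw => ?_)
  exact SGt_real _ _ _ (hpos x y u v w hu hv hw)

end

variable (P H : Type) [Group P] [Group H] [TopologicalSpace P] [TopologicalSpace H]
  [IsTopologicalGroup P] [IsTopologicalGroup H] [LocallyCompactSpace P] [LocallyCompactSpace H]
  [T2Space P] [T2Space H] [SecondCountableTopology P] [SecondCountableTopology H]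
  [MeasurableSpace P] [MeasurableSpace H] [BorelSpace P] [BorelSpace H]

theorem tSGt : S_BAL P H → S_Fin P H → S_MQ P H → S_ph P H → S_TXc P H → S_AD P → S_DF P →
    S_SGt P H := by
  intro hBAL hFin hMQ hph hTX _hAD _hDF D hD G hG hGF NK hNK hE t t' ht ht' hIn R f hf hs hk
  -- positivity of the windows
  have hcS : ∀ i, t.c i ∈ t'.S i := fun i => by
    rw [(hIn i).1]
    exact ht'.cS i
  have hKne : ∀ i, (t'.K i).Nonempty := fun i => by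
    obtain ⟨κ, hκ⟩ := (hIn i).2.2.2.2
    exact ⟨κ, interior_subset ((hIn i).2.2.1 (interior_subset hκ))⟩
  have hS01 : ∀ s ∈ t'.S 0, ∀ s' ∈ t'.S 1, G.Pos s s' := fun s hs s' hs' =>
    hG.TP _ _ _ (ht'.TS s hs s' hs' _ (hcS 2))
  have hS12 : ∀ s ∈ t'.S 1, ∀ s' ∈ t'.S 2, G.Pos s s' := fun s hs s' hs' =>
    hG.TP _ _ _ (hG.Tc _ _ _ (ht'.TS _ (hcS 0) s hs s' hs'))
  have hS20 : ∀ s ∈ t'.S 2, ∀ s' ∈ t'.S 0, G.Pos s s' := fun s hs s' hs' =>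
    hG.TP _ _ _ (hG.Tc _ _ _ (hG.Tc _ _ _ (ht'.TS s' hs' _ (hcS 1) s hs)))
  have hK01 : ∀ s ∈ t'.K 0, ∀ s' ∈ t'.K 1, G.Pos s s' := fun s hs s' hs' => by
    obtain ⟨κ, hκ⟩ := hKne 2
    exact (hG.Ps _ _).1 (hG.TP _ _ _ (hG.Tc _ _ _ (ht'.TK s hs s' hs' κ hκ)))
  have hK12 : ∀ s ∈ t'.K 1, ∀ s' ∈ t'.K 2, G.Pos s s' := fun s hs s' hs' => by
    obtain ⟨κ, hκ⟩ := hKne 0
    exact (hG.Ps _ _).1 (hG.TP _ _ _ (ht'.TK κ hκ s hs s' hs'))
  have hK20 : ∀ s ∈ t'.K 2, ∀ s' ∈ t'.K 0, G.Pos s s' := fun s hs s' hs' => by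
    obtain ⟨κ, hκ⟩ := hKne 1
    exact (hG.Ps _ _).1 (hG.TP _ _ _ (hG.Tc _ _ _ (hG.Tc _ _ _ (ht'.TK s' hs' κ hκ s hs))))
  obtain ⟨T0, hT0⟩ := SGt_fin hFin hTX D hD G hG hGF hNK hE ht' hf 0 1 (hcS 0) hS01 hK01
  obtain ⟨T1, hT1⟩ := SGt_fin hFin hTX D hD G hG hGF hNK hE ht' hf 1 2 (hcS 1) hS12 hK12
  obtain ⟨T2, hT2⟩ := SGt_fin hFin hTX D hD G hG hGF hNK hE ht' hf 2 0 (hcS 2) hS20 hK20
  choose Ce hCe hCe' using fun i : Fin 3 => hE (f.s i) (hs i) (f.k i) (hk i)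
  have hCt : Ce 0 + Ce 1 + Ce 2 ≠ ∞ :=
    ENNReal.add_ne_top.2 ⟨ENNReal.add_ne_top.2 ⟨hCe 0, hCe 1⟩, hCe 2⟩
  have hCle : ∀ i, Ce i ≤ Ce 0 + Ce 1 + Ce 2 := by
    intro i
    fin_cases i
    · exact le_self_add.trans le_self_add
    · exact le_add_self.trans le_self_add
    · exact le_add_self
  refine ⟨2 * (Ce 0 + Ce 1 + Ce 2), 1 + T0 + T1 + T2, ENNReal.mul_ne_top ENNReal.ofNat_ne_top hCt,
    ?_⟩
  intro r hr n₀ n₁ n₂ hn₀ hn₁ hn₂ φ hφ hpos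
  have hr1 : 1 ≤ r := by omega
  -- the error term
  obtain ⟨ε, hε⟩ : ∃ ε, ε = (Ce 0 + Ce 1 + Ce 2) * ((r : ℝ≥0∞)⁻¹) ^ 6 := ⟨_, rfl⟩
  have hεt : ε ≠ ∞ := by
    rw [hε]
    refine ENNReal.mul_ne_top hCt (ENNReal.pow_ne_top (ENNReal.inv_ne_top.2 ?_))
    exact Nat.cast_ne_zero.2 (by omega)
  have hεle : ∀ i n, r ≤ n → Ce i * ((n : ℝ≥0∞)⁻¹) ^ 6 ≤ ε := by
    intro i n hn
    rw [hε]
    exact mul_le_mul' (hCle i) (pow_le_pow_left' (ENNReal.inv_le_inv.2 (Nat.cast_le.2 hn)) 6)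
  obtain ⟨I, hI⟩ : ∃ I : Fin 3 → ℝ≥0∞, I = fun i =>
    (∫⁻ g, f.s i g ∂D.μ₁) * (∫⁻ g, f.k i g ∂D.μ₁) := ⟨_, rfl⟩
  have hIt : ∀ i, I i ≠ ∞ := by
    intro i
    rw [hI]
    exact ENNReal.mul_ne_top (SGt_int D hD hNK (hs i)) (SGt_int D hD hNK (hk i))
  have hN1 : ∀ i n, r ≤ n → ∀ x y, D.N (D.we G f i n) x y ≤ I i + ε := by
    intro i n hn x y
    rw [hI]
    exact ((hCe' i n (hr1.trans hn) x y).1).trans (add_le_add le_rfl (hεle i n hn))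
  have hN2 : ∀ i n, r ≤ n → ∀ x y, I i ≤ D.N (D.we G f i n) x y + ε := by
    intro i n hn x y
    rw [hI]
    exact ((hCe' i n (hr1.trans hn) x y).2).trans (add_le_add le_rfl (hεle i n hn))
  have hM : ∀ i n, Measurable (D.we G f i n) := fun i n =>
    SGt_ed_meas D hD G (hf.sm i) (hf.km i) n
  obtain ⟨a1, a2, a3⟩ := SGt_term hBAL hMQ hph D hD G hG φ hφ (hM 0 n₀) (hM 1 n₁) (t.c 0)
    (hIt 2) hεt (hN1 2 n₂ hn₂) (hN2 2 n₂ hn₂)
  obtain ⟨b1, b2, b3⟩ := SGt_term hBAL hMQ hph D hD G hG φ hφ (hM 1 n₁) (hM 2 n₂) (t.c 1)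
    (hIt 0) hεt (hN1 0 n₀ hn₀) (hN2 0 n₀ hn₀)
  obtain ⟨c1, c2, c3⟩ := SGt_term hBAL hMQ hph D hD G hG φ hφ (hM 2 n₂) (hM 0 n₀) (t.c 2)
    (hIt 1) hεt (hN1 1 n₁ hn₁) (hN2 1 n₁ hn₁)
  have hm8 := (hph D hD G hG φ hφ).2.2.2.2.2.2.2
  have mp : ∀ (u v : D.Γ) (h : P),
      Measurable fun x : P × H => ENNReal.ofReal (ph G φ (u * v⁻¹) (x.1 * h)) :=
    fun u v h => ((hm8 (u * v⁻¹)).comp (measurable_fst.mul_const h)).ennreal_ofReal
  have mn : ∀ (u v : D.Γ) (h : P),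
      Measurable fun x : P × H => ENNReal.ofReal (- ph G φ (u * v⁻¹) (x.1 * h)) :=
    fun u v h => ((hm8 (u * v⁻¹)).comp (measurable_fst.mul_const h)).neg.ennreal_ofReal
  -- the identity
  have key := SGt_key hMQ D hD G φ t.c (hM 0 n₀) (hM 1 n₁) (hM 2 n₂) mp mn hpos
  have ft0 := ne_top_of_le_ne_top (hT0 n₀ n₁ (by omega) (by omega) φ hφ) a1
  have ft1 := ne_top_of_le_ne_top (hT1 n₁ n₂ (by omega) (by omega) φ hφ) b1
  have ft2 := ne_top_of_le_ne_top (hT2 n₂ n₀ (by omega) (by omega) φ hφ) c1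
  have hle := SGt_calc key a2 b2 c2 a3 b3 c3 (hIt 2) (hIt 0) (hIt 1) ft0 ft1 ft2
  refine hle.trans ?_
  rw [mul_assoc 2 (Ce 0 + Ce 1 + Ce 2) _, ← hε]
  exact mul_le_mul' le_rfl (add_le_add (add_le_add a1 b1) c1)

end Pool.Agent.MPEF.U
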