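import Pool.Agent.Lib.MP_ef3f0f_gt.U.F.SpecC

/-! # MP_ef3f0f_gt, Theorem U, Part F: shift and Harnack for edges (author helper94) -/

set_option autoImplicit false
set_option linter.unusedSectionVars false

namespace Pool.Agent.MPEF.U

open MeasureTheory Topology
open scoped ENNReal Pointwise

variable (P H : Type) [Group P] [Group H] [TopologicalSpace P] [TopologicalSpace H]
  [IsTopologicalGroup P] [IsTopologicalGroup H] [LocallyCompactSpace P] [LocallyCompactSpace H]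
  [T2Space P] [T2Space H] [SecondCountableTopology P] [SecondCountableTopology H]
  [MeasurableSpace P] [MeasurableSpace H] [BorelSpace P] [BorelSpace H]

theorem tSH : S_SHP P → S_Harn P H → S_SH P H := by
  intro hP hH D hD G hG c
  have := hD.haar₁
  have := hD.right₁
  have := hD.inv₁
  obtain ⟨c', hc'⟩ := hP G D.μ₁ hG (c + 1)
  obtain ⟨C, hC, hN⟩ := hH D hD c
  refine ⟨c', C, hC, fun Q S K R n hn g s hs hs' => ?_⟩
  obtain ⟨h1, h2⟩ := hc' Q S K R n g.1 s.1 hs
  obtain ⟨h3, h4⟩ := hN n hn g.2 s.2 hs'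
  have h5 : ∀ a b c : ℝ≥0∞, a * (b * c) = b * (a * c) := fun a b c => by ring
  constructor
  · calc D.eg G S K R n g = eP D.μ₁ G S K R n g.1 * D.nu n g.2 := rfl
      _ ≤ eP D.μ₁ G S (Q⁻¹ * K) (R + c') (n + (c + 1)) (g.1 * s.1) *
          (C * D.nu (n + c + 1) (g.2 * s.2)) := mul_le_mul' h1 h3
      _ = C * (eP D.μ₁ G S (Q⁻¹ * K) (R + c') (n + c + 1) (g.1 * s.1) *
          D.nu (n + c + 1) (g.2 * s.2)) := h5 _ _ _
      _ = C * D.eg G S (Q⁻¹ * K) (R + c') (n + c + 1) (g * s) := rfl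
  · calc D.eg G S K R n g = eP D.μ₁ G S K R n g.1 * D.nu n g.2 := rfl
      _ ≤ eP D.μ₁ G (Q * S) K (R + c') (n + (c + 1)) (s.1 * g.1) *
          (C * D.nu (n + c + 1) (s.2 * g.2)) := mul_le_mul' h2 h4
      _ = C * (eP D.μ₁ G (Q * S) K (R + c') (n + c + 1) (s.1 * g.1) *
          D.nu (n + c + 1) (s.2 * g.2)) := h5 _ _ _
      _ = C * D.eg G (Q * S) K (R + c') (n + c + 1) (s * g) := rfl

end Pool.Agent.MPEF.U
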