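import Pool.Agent.Lib.MP_ef3f0f_gt.U.F.SpecB

set_option autoImplicit false

/-!
# MP_ef3f0f_gt, Theorem U, Part F: shift of the length and of the end points on `P`
-/

namespace Pool.Agent.MPEF.U

open MeasureTheory Topology
open scoped ENNReal Pointwise

variable (P : Type) [Group P] [TopologicalSpace P] [IsTopologicalGroup P] [LocallyCompactSpace P]
  [T2Space P] [SecondCountableTopology P] [MeasurableSpace P] [BorelSpace P]

private theorem SHP_iK {P : Type} {S T : Set P} {q q' : P} (h : q ∈ S → q' ∈ T) :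
    iK S q ≤ iK T q' := by
  unfold iK
  by_cases h1 : q ∈ S
  · rw [Set.indicator_of_mem h1, Set.indicator_of_mem (h h1)]
  · rw [Set.indicator_of_notMem h1]
    exact zero_le

private theorem SHP_kk {P : Type} [Group P] [MeasurableSpace P] (μ : Measure P) (a : P)
    {k₁ k₂ k₁' k₂' : P → ℝ≥0∞} (h₁ : ∀ q, k₁ q ≤ k₁' q) (h₂ : ∀ q, k₂ q ≤ k₂' q) (n : ℕ) (g : P) :
    kk μ a k₁ k₂ n g ≤ kk μ a k₁' k₂' n g :=
  lintegral_mono fun q => mul_le_mul' (h₁ q) (h₂ _)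

/-- **Shift of the length and of the end points on `P`.** -/
theorem tSHP : S_DF P → S_KT P → S_SHP P := by
  intro hDF hKT G μ _ _ _ hG c
  obtain ⟨-, -, -, hinv, -, -, hmul, haA, -, -, -⟩ := hDF G hG
  obtain ⟨c', hc'⟩ := hG.D1e _ (haA c)
  refine ⟨c', fun Q S K R n g s hs => ?_⟩
  have hA : eP μ G S K R n g ≤ eP μ G S K (R + c') (n + c) g := by
    have h1 := (hKT μ G.a (iK (S * G.D1 ^ R)) (iK (G.ew K))).1 (G.a ^ n) (G.a ^ c)⁻¹ 1 g (n + c)
      (by rw [mul_one, Nat.add_comm n c, pow_add, inv_mul_cancel_left])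
    have h2 : eP μ G S K R n g = kk μ G.a (fun q => iK (S * G.D1 ^ R) (q * ((G.a ^ c)⁻¹)⁻¹))
        (fun q => iK (G.ew K) (1⁻¹ * q)) (n + c) g := h1
    rw [h2]
    refine SHP_kk μ G.a (fun q => SHP_iK ?_) (fun q => SHP_iK ?_) _ _
    · rintro ⟨x, hx, d, hd, hq⟩
      refine ⟨x, hx, d * (G.a ^ c)⁻¹, hmul _ _ _ hd _ (hinv _ _ hc'), ?_⟩
      have h3 : x * d = q * G.a ^ c := by
        rw [inv_inv] at hq
        exact hq
      show x * (d * (G.a ^ c)⁻¹) = q
      rw [← mul_assoc, h3, mul_inv_cancel_right]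
    · intro hq
      rwa [inv_one, one_mul] at hq
  constructor
  · refine hA.trans ?_
    unfold eP kk
    refine lintegral_mono fun q => mul_le_mul' le_rfl (SHP_iK ?_)
    intro h
    refine ⟨s⁻¹, Set.inv_mem_inv.2 hs, _, h, ?_⟩
    show s⁻¹ * (((G.a ^ (n + c))⁻¹ * q⁻¹ * g)⁻¹ * G.w) = ((G.a ^ (n + c))⁻¹ * q⁻¹ * (g * s))⁻¹ * G.w
    group
  · refine hA.trans ?_
    have h1 := (hKT μ G.a (iK (Q * S * G.D1 ^ (R + c'))) (iK (G.ew K))).2.1 s g (n + c)
    have h2 : eP μ G (Q * S) K (R + c') (n + c) (s * g) =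
        kk μ G.a (fun q => iK (Q * S * G.D1 ^ (R + c')) (s * q)) (iK (G.ew K)) (n + c) g := h1
    rw [h2]
    refine SHP_kk μ G.a (fun q => SHP_iK ?_) (fun q => le_rfl) _ _
    intro hq
    rw [mul_assoc]
    exact Set.mul_mem_mul hs hq

end Pool.Agent.MPEF.U
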