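import Pool.Agent.Lib.MP_ef3f0f_gt.U.F.SpecD

set_option autoImplicit false
set_option linter.unusedSectionVars false

/-!
# MP_ef3f0f_gt, Theorem U, Part F: the square trick
-/

namespace Pool.Agent.MPEF.U

open MeasureTheory Topology
open scoped ENNReal Pointwise

section Sums

variable {ι : Type*}

private noncomputable def SQ_E (m f : ι → ℝ≥0∞) : ℝ≥0∞ := ∑' i, m i * f i

private theorem SQ_mono {m f g : ι → ℝ≥0∞} (h : ∀ i, f i ≤ g i) : SQ_E m f ≤ SQ_E m g :=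
  ENNReal.tsum_le_tsum fun i => by gcongr; exact h i

private theorem SQ_add (m f g : ι → ℝ≥0∞) :
    SQ_E m (fun i => f i + g i) = SQ_E m f + SQ_E m g := by
  unfold SQ_E
  rw [← ENNReal.tsum_add]
  exact tsum_congr fun i => mul_add _ _ _

private theorem SQ_mul (m f : ι → ℝ≥0∞) (c : ℝ≥0∞) :
    SQ_E m (fun i => c * f i) = c * SQ_E m f := by
  unfold SQ_E
  rw [← ENNReal.tsum_mul_left]
  exact tsum_congr fun i => mul_left_comm _ _ _

private theorem SQ_up {m f : ι → ℝ≥0∞} {C s : ℝ≥0∞} (hm : ∑' i, m i ≤ C) (h : ∀ i, f i ≤ s) :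
    SQ_E m f ≤ C * s := by
  calc SQ_E m f ≤ ∑' i, m i * s := ENNReal.tsum_le_tsum fun i => by gcongr; exact h i
    _ = (∑' i, m i) * s := ENNReal.tsum_mul_right
    _ ≤ C * s := by gcongr

private theorem SQ_lo {m f : ι → ℝ≥0∞} {c s : ℝ≥0∞} (hm : c ≤ ∑' i, m i) (h : ∀ i, s ≤ f i) :
    c * s ≤ SQ_E m f := by
  calc c * s ≤ (∑' i, m i) * s := by gcongr
    _ = ∑' i, m i * s := ENNReal.tsum_mul_right.symm
    _ ≤ SQ_E m f := ENNReal.tsum_le_tsum fun i => by gcongr; exact h i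

private theorem SQ_mu {m f g : ι → ℝ≥0∞} {C : ℝ≥0∞} (h : ∀ i, f i ≤ C * g i) :
    SQ_E m f ≤ C * SQ_E m g := by
  rw [← SQ_mul]
  exact SQ_mono h

private theorem SQ_comm (m n : ι → ℝ≥0∞) (f : ι → ι → ℝ≥0∞) :
    SQ_E m (fun i => SQ_E n (fun j => f i j)) = SQ_E n (fun j => SQ_E m (fun i => f i j)) := by
  unfold SQ_E
  simp only [← ENNReal.tsum_mul_left]
  rw [ENNReal.tsum_comm]
  exact tsum_congr fun j => tsum_congr fun i => mul_left_comm _ _ _

private theorem SQ_pt {C c : ℝ≥0∞} (hC : 1 ≤ C) {a a' b b' e : ι → ℝ≥0∞}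
    (ha : ∑' i, a i ≤ C) (ha' : ∑' i, a' i ≤ C) (hb : ∑' i, b i ≤ C) (hb' : ∑' i, b' i ≤ C)
    (he : ∑' i, e i ≤ C) (la : c ≤ ∑' i, a' i) (lb : c ≤ ∑' i, b' i) (le : c ≤ ∑' i, e i)
    (P : ι → ι → ℝ≥0∞) (Q : ι → ι → ι → ℝ≥0∞)
    (h : ∀ u v u' v' w, P u v ≤ P u v' + P u' v + P u' v' + Q u v w + Q u' v w + Q u v' w +
      Q u' v' w) :
    c ^ 3 * SQ_E a (fun u => SQ_E b (fun v => P u v)) ≤ C ^ 3 *
      (SQ_E a (fun u => SQ_E b' (fun v => P u v)) + SQ_E a' (fun u => SQ_E b (fun v => P u v)) +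
        SQ_E a' (fun u => SQ_E b' (fun v => P u v)) +
        SQ_E a (fun u => SQ_E b (fun v => SQ_E e (fun w => Q u v w))) +
        SQ_E a' (fun u => SQ_E b (fun v => SQ_E e (fun w => Q u v w))) +
        SQ_E a (fun u => SQ_E b' (fun v => SQ_E e (fun w => Q u v w))) +
        SQ_E a' (fun u => SQ_E b' (fun v => SQ_E e (fun w => Q u v w)))) := by
  have up1 : ∀ s : ℝ≥0∞, s ≤ C * s := fun s => by
    calc s = 1 * s := (one_mul s).symm
      _ ≤ C * s := by gcongr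
  have e3 : ∀ s : ℝ≥0∞, C ^ 3 * s = C * (C * (C * s)) := fun s => by ring
  have h0 : c ^ 3 * SQ_E a (fun u => SQ_E b (fun v => P u v)) ≤
      SQ_E a (fun u => SQ_E b (fun v => SQ_E a' (fun u' => SQ_E b' (fun v' => SQ_E e (fun w =>
        P u v' + P u' v + P u' v' + Q u v w + Q u' v w + Q u v' w + Q u' v' w))))) := by
    rw [← SQ_mul]
    refine SQ_mono fun u => ?_
    rw [← SQ_mul]
    refine SQ_mono fun v => ?_
    have : c ^ 3 * P u v = c * (c * (c * P u v)) := by ring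
    rw [this]
    refine SQ_lo la fun u' => SQ_lo lb fun v' => SQ_lo le fun w => h u v u' v' w
  refine h0.trans ?_
  simp only [SQ_add, mul_add]
  refine add_le_add (add_le_add (add_le_add (add_le_add (add_le_add (add_le_add ?_ ?_) ?_) ?_) ?_)
    ?_) ?_
  · refine SQ_mu fun u => ?_
    rw [e3]
    exact SQ_up hb fun v => SQ_up ha' fun u' => SQ_mu fun v' => SQ_up he fun w => le_rfl
  · rw [e3]
    refine SQ_up ha fun u => ?_
    rw [SQ_comm a' b]
    have : ∀ s : ℝ≥0∞, C * (C * s) = (C * C) * s := fun s => by ring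
    rw [this]
    refine SQ_mu fun v => SQ_mu fun u' => ?_
    rw [mul_assoc]
    exact SQ_up hb' fun v' => SQ_up he fun w => le_rfl
  · rw [e3]
    exact SQ_up ha fun u => SQ_up hb fun v => SQ_mu fun u' => SQ_mu fun v' => SQ_up he fun w =>
      le_rfl
  · refine SQ_mu fun u => SQ_mu fun v => ?_
    rw [e3]
    exact SQ_up ha' fun u' => SQ_up hb' fun v' => up1 _
  · rw [e3]
    refine SQ_up ha fun u => ?_
    rw [SQ_comm a' b]
    have : ∀ s : ℝ≥0∞, C * (C * s) = (C * C) * s := fun s => by ring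
    rw [this]
    refine SQ_mu fun v => SQ_mu fun u' => ?_
    rw [mul_assoc]
    exact SQ_up hb' fun v' => up1 _
  · refine SQ_mu fun u => ?_
    rw [e3]
    exact SQ_up hb fun v => SQ_up ha' fun u' => up1 _
  · rw [e3]
    exact SQ_up ha fun u => SQ_up hb fun v => up1 _

end Sums

private theorem SQ_real (x x1 x2 x3 d1 d2 d3 d4 : ℝ)
    (h : x = x1 + x2 - x3 + d1 - d2 - d3 + d4) :
    ab x ≤ ab x1 + ab x2 + ab x3 + ab d1 + ab d2 + ab d3 + ab d4 := by
  unfold ab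
  have h1 : |x| ≤ |x1| + |x2| + |x3| + |d1| + |d2| + |d3| + |d4| := by
    rw [abs_le]
    have := le_abs_self x1
    have := neg_abs_le x1
    have := le_abs_self x2
    have := neg_abs_le x2
    have := le_abs_self x3
    have := neg_abs_le x3
    have := le_abs_self d1
    have := neg_abs_le d1
    have := le_abs_self d2
    have := neg_abs_le d2
    have := le_abs_self d3
    have := neg_abs_le d3
    have := le_abs_self d4
    have := neg_abs_le d4
    constructor <;> linarith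
  refine (ENNReal.ofReal_le_ofReal h1).trans ?_
  refine ENNReal.ofReal_add_le.trans (add_le_add ?_ le_rfl)
  refine ENNReal.ofReal_add_le.trans (add_le_add ?_ le_rfl)
  refine ENNReal.ofReal_add_le.trans (add_le_add ?_ le_rfl)
  refine ENNReal.ofReal_add_le.trans (add_le_add ?_ le_rfl)
  refine ENNReal.ofReal_add_le.trans (add_le_add ?_ le_rfl)
  exact ENNReal.ofReal_add_le

variable (P H : Type) [Group P] [Group H] [TopologicalSpace P] [TopologicalSpace H]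
  [IsTopologicalGroup P] [IsTopologicalGroup H] [LocallyCompactSpace P] [LocallyCompactSpace H]
  [T2Space P] [T2Space H] [SecondCountableTopology P] [SecondCountableTopology H]
  [MeasurableSpace P] [MeasurableSpace H] [BorelSpace P] [BorelSpace H]

private theorem SQ_st2 (D : Dat P H) (K₁ K₂ : P × H → ℝ≥0∞) (x y : P × H)
    (f : D.Γ → D.Γ → ℝ≥0∞) : D.st2 K₁ K₂ x y f =
      SQ_E (fun u : D.Γ => K₁ (x⁻¹ * (u : P × H) * y)) (fun u =>
        SQ_E (fun v : D.Γ => K₂ (x⁻¹ * (v : P × H) * y)) (fun v => f u v)) := by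
  unfold Dat.st2 SQ_E
  refine tsum_congr fun u => ?_
  rw [← ENNReal.tsum_mul_left]
  exact tsum_congr fun v => mul_assoc _ _ _

private theorem SQ_st3 (D : Dat P H) (K₁ K₂ K₃ : P × H → ℝ≥0∞) (x y : P × H)
    (f : D.Γ → D.Γ → D.Γ → ℝ≥0∞) : D.st3 K₁ K₂ K₃ x y f =
      SQ_E (fun u : D.Γ => K₁ (x⁻¹ * (u : P × H) * y)) (fun u =>
        SQ_E (fun v : D.Γ => K₂ (x⁻¹ * (v : P × H) * y)) (fun v =>
          SQ_E (fun w : D.Γ => K₃ (x⁻¹ * (w : P × H) * y)) (fun w => f u v w))) := by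
  unfold Dat.st3 SQ_E
  refine tsum_congr fun u => ?_
  rw [← ENNReal.tsum_mul_left]
  refine tsum_congr fun v => ?_
  rw [← mul_assoc, ← ENNReal.tsum_mul_left]
  exact tsum_congr fun w => mul_assoc _ _ _

private theorem SQ_IMadd (D : Dat P H) (hD : D.Ok) (F G : P × H → ℝ≥0∞) (hG : Measurable G) :
    (D.IM fun x => F x + G x) = D.IM F + D.IM G := by
  unfold Dat.IM
  simp only [mul_add]
  exact lintegral_add_right _ (hD.χm.mul hG)

private theorem SQ_IMmul (D : Dat P H) (C : ℝ≥0∞) (hC : C ≠ ∞) (F : P × H → ℝ≥0∞) :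
    (D.IM fun x => C * F x) = C * D.IM F := by
  unfold Dat.IM
  rw [← lintegral_const_mul' _ _ hC]
  exact lintegral_congr fun x => mul_left_comm _ _ _

private theorem SQ_IMmono (D : Dat P H) (F G : P × H → ℝ≥0∞) (h : ∀ x, F x ≤ G x) :
    D.IM F ≤ D.IM G := by
  unfold Dat.IM
  exact lintegral_mono fun x => by
    have := h x
    gcongr

private noncomputable def SQ_I (D : Dat P H) (F : P × H → P × H → ℝ≥0∞) : ℝ≥0∞ :=
  D.IM fun x => D.IM fun y => F x y

private theorem SQ_Iadd (D : Dat P H) (hD : D.Ok) (F G : P × H → P × H → ℝ≥0∞)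
    (h1 : Measurable fun q : (P × H) × (P × H) => G q.1 q.2)
    (h2 : Measurable fun x : P × H => D.IM fun y => G x y) :
    SQ_I P H D (fun x y => F x y + G x y) = SQ_I P H D F + SQ_I P H D G := by
  unfold SQ_I
  have h3 : ∀ x, (D.IM fun y => F x y + G x y) = (D.IM fun y => F x y) + D.IM fun y => G x y :=
    fun x => SQ_IMadd P H D hD (F x) (G x) (h1.comp measurable_prodMk_left)
  simp only [h3]
  exact SQ_IMadd P H D hD _ _ h2

private theorem SQ_Imul (D : Dat P H) (C : ℝ≥0∞) (hC : C ≠ ∞) (F : P × H → P × H → ℝ≥0∞) :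
    SQ_I P H D (fun x y => C * F x y) = C * SQ_I P H D F := by
  unfold SQ_I
  have h3 : ∀ x, (D.IM fun y => C * F x y) = C * D.IM fun y => F x y :=
    fun x => SQ_IMmul P H D C hC (F x)
  simp only [h3]
  exact SQ_IMmul P H D C hC _

private theorem SQ_Imono (D : Dat P H) (F G : P × H → P × H → ℝ≥0∞)
    (h : ∀ x y, F x y ≤ G x y) : SQ_I P H D F ≤ SQ_I P H D G := by
  unfold SQ_I
  exact SQ_IMmono P H D _ _ fun x => SQ_IMmono P H D _ _ fun y => h x y

theorem tSQ : S_MQ P H → S_ph P H → S_inst P H → S_SQ P H := by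
  intro hMQ hph _hin D hD G hG c Ku Ku' Kv Kv' Kw mu mu' mv mv' mw A a hA ha nu nu' nv nv' nw
    lu lv lw φ hφ
  have hm := (hph D hD G hG φ hφ).2.2.2.2.2.2.2
  have hm1 : ∀ (l : D.Γ) (k : P), Measurable fun x : P × H => ph G φ l (x.1 * k) := by
    intro l k
    have h1 : Continuous fun x : P × H => x.1 * k := by fun_prop
    exact (hm l).comp h1.measurable
  have hab : Measurable ab := ENNReal.measurable_ofReal.comp measurable_abs
  have m2 : ∀ u v : D.Γ, Measurable fun x : P × H => ab (ph G φ (u * v⁻¹) (x.1 * c 0)) :=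
    fun u v => hab.comp (hm1 _ _)
  have m3 : ∀ u v w : D.Γ, Measurable fun x : P × H => ab (dl G φ (c 0) (c 1) (c 2) x u v w) := by
    intro u v w
    refine hab.comp ?_
    unfold dl
    exact ((hm1 _ _).add (hm1 _ _)).add (hm1 _ _)
  have ha1 : a ≠ ∞ := ne_top_of_le_ne_top hA ((lu 1 1).trans (nu' 1 1))
  have hC1 : (1 : ℝ≥0∞) ≤ 1 + A := le_self_add
  have hAC : A ≤ 1 + A := le_add_self
  have hC2 : (a⁻¹) ^ 3 * (1 + A) ^ 3 ≠ ∞ := by
    refine ENNReal.mul_ne_top (ENNReal.pow_ne_top (ENNReal.inv_ne_top.2 ha)) ?_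
    exact ENNReal.pow_ne_top (ENNReal.add_ne_top.2 ⟨ENNReal.one_ne_top, hA⟩)
  have key : ∀ x y : P × H,
      D.st2 Ku Kv x y (fun u v => ab (ph G φ (u * v⁻¹) (x.1 * c 0))) ≤ (a⁻¹) ^ 3 * (1 + A) ^ 3 *
        (D.st2 Ku Kv' x y (fun u v => ab (ph G φ (u * v⁻¹) (x.1 * c 0))) +
          D.st2 Ku' Kv x y (fun u v => ab (ph G φ (u * v⁻¹) (x.1 * c 0))) +
          D.st2 Ku' Kv' x y (fun u v => ab (ph G φ (u * v⁻¹) (x.1 * c 0))) +
          D.st3 Ku Kv Kw x y (fun u v w => ab (dl G φ (c 0) (c 1) (c 2) x u v w)) +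
          D.st3 Ku' Kv Kw x y (fun u v w => ab (dl G φ (c 0) (c 1) (c 2) x u v w)) +
          D.st3 Ku Kv' Kw x y (fun u v w => ab (dl G φ (c 0) (c 1) (c 2) x u v w)) +
          D.st3 Ku' Kv' Kw x y (fun u v w => ab (dl G φ (c 0) (c 1) (c 2) x u v w))) := by
    intro x y
    simp only [SQ_st2, SQ_st3]
    have h1 := SQ_pt (C := 1 + A) (c := a) hC1
      (a := fun u : D.Γ => Ku (x⁻¹ * (u : P × H) * y))
      (a' := fun u : D.Γ => Ku' (x⁻¹ * (u : P × H) * y))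
      (b := fun u : D.Γ => Kv (x⁻¹ * (u : P × H) * y))
      (b' := fun u : D.Γ => Kv' (x⁻¹ * (u : P × H) * y))
      (e := fun u : D.Γ => Kw (x⁻¹ * (u : P × H) * y))
      ((nu x y).trans hAC) ((nu' x y).trans hAC) ((nv x y).trans hAC) ((nv' x y).trans hAC)
      ((nw x y).trans hAC) (lu x y) (lv x y) (lw x y)
      (fun u v => ab (ph G φ (u * v⁻¹) (x.1 * c 0)))
      (fun u v w => ab (dl G φ (c 0) (c 1) (c 2) x u v w)) (fun u v u' v' w => by
        refine SQ_real _ _ _ _ _ _ _ _ ?_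
        unfold dl
        ring)
    have h2 : (a⁻¹) ^ 3 * a ^ 3 = 1 := by
      rw [← mul_pow, ENNReal.inv_mul_cancel ha ha1, one_pow]
    calc _ = (a⁻¹) ^ 3 * (a ^ 3 * SQ_E (fun u : D.Γ => Ku (x⁻¹ * (u : P × H) * y)) (fun u =>
        SQ_E (fun v : D.Γ => Kv (x⁻¹ * (v : P × H) * y)) (fun v =>
          ab (ph G φ (u * v⁻¹) (x.1 * c 0))))) := by rw [← mul_assoc, h2, one_mul]
      _ ≤ _ := by
        rw [mul_assoc ((a⁻¹) ^ 3) ((1 + A) ^ 3)]
        gcongr
  have hfin : SQ_I P H D (fun x y =>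
      D.st2 Ku Kv x y (fun u v => ab (ph G φ (u * v⁻¹) (x.1 * c 0)))) ≤
        (a⁻¹) ^ 3 * (1 + A) ^ 3 *
        (SQ_I P H D (fun x y => D.st2 Ku Kv' x y (fun u v => ab (ph G φ (u * v⁻¹) (x.1 * c 0)))) +
          SQ_I P H D (fun x y =>
            D.st2 Ku' Kv x y (fun u v => ab (ph G φ (u * v⁻¹) (x.1 * c 0)))) +
          SQ_I P H D (fun x y =>
            D.st2 Ku' Kv' x y (fun u v => ab (ph G φ (u * v⁻¹) (x.1 * c 0)))) +
          SQ_I P H D (fun x y =>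
            D.st3 Ku Kv Kw x y (fun u v w => ab (dl G φ (c 0) (c 1) (c 2) x u v w))) +
          SQ_I P H D (fun x y =>
            D.st3 Ku' Kv Kw x y (fun u v w => ab (dl G φ (c 0) (c 1) (c 2) x u v w))) +
          SQ_I P H D (fun x y =>
            D.st3 Ku Kv' Kw x y (fun u v w => ab (dl G φ (c 0) (c 1) (c 2) x u v w))) +
          SQ_I P H D (fun x y =>
            D.st3 Ku' Kv' Kw x y (fun u v w => ab (dl G φ (c 0) (c 1) (c 2) x u v w)))) := by
    refine (SQ_Imono P H D _ _ key).trans ?_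
    rw [SQ_Imul P H D _ hC2]
    have q1 := ((hMQ D hD Ku' Kv' Kw mu' mv' mw).2.2
      (fun x u v w => ab (dl G φ (c 0) (c 1) (c 2) x u v w)) m3)
    have q2 := ((hMQ D hD Ku Kv' Kw mu mv' mw).2.2
      (fun x u v w => ab (dl G φ (c 0) (c 1) (c 2) x u v w)) m3)
    have q3 := ((hMQ D hD Ku' Kv Kw mu' mv mw).2.2
      (fun x u v w => ab (dl G φ (c 0) (c 1) (c 2) x u v w)) m3)
    have q4 := ((hMQ D hD Ku Kv Kw mu mv mw).2.2
      (fun x u v w => ab (dl G φ (c 0) (c 1) (c 2) x u v w)) m3)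
    have q5 := ((hMQ D hD Ku' Kv' Kw mu' mv' mw).2.1
      (fun x u v => ab (ph G φ (u * v⁻¹) (x.1 * c 0))) m2)
    have q6 := ((hMQ D hD Ku' Kv Kw mu' mv mw).2.1
      (fun x u v => ab (ph G φ (u * v⁻¹) (x.1 * c 0))) m2)
    rw [SQ_Iadd P H D hD _ _ q1.1 q1.2, SQ_Iadd P H D hD _ _ q2.1 q2.2,
      SQ_Iadd P H D hD _ _ q3.1 q3.2, SQ_Iadd P H D hD _ _ q4.1 q4.2,
      SQ_Iadd P H D hD _ _ q5.1 q5.2, SQ_Iadd P H D hD _ _ q6.1 q6.2]
  exact hfin

end Pool.Agent.MPEF.U
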