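import Pool.Agent.Lib.MP_ef3f0f_gt.U.F.SpecA

set_option autoImplicit false

/-!
# MP_ef3f0f_gt, Theorem U, Part F, module TB: tube lemmas for windows
-/

namespace Pool.Agent.MPEF.U

open MeasureTheory Topology
open scoped ENNReal Pointwise

variable (P : Type) [Group P] [TopologicalSpace P] [IsTopologicalGroup P] [LocallyCompactSpace P]
  [T2Space P]

private theorem TB_tube {X Y Z : Type} [TopologicalSpace X] [TopologicalSpace Y]
    [TopologicalSpace Z] (f : X × Y → Z) (hf : Continuous f) (x₀ : X) (C : Set Y)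
    (hC : IsCompact C) (S' : Set Z) (h : ∀ y ∈ C, f (x₀, y) ∈ interior S') :
    ∀ᶠ x in 𝓝 x₀, ∀ y ∈ C, f (x, y) ∈ S' := by
  apply hC.eventually_forall_of_forall_eventually
  intro y hy
  have h1 : f ⁻¹' (interior S') ∈ 𝓝 (x₀, y) :=
    (isOpen_interior.preimage hf).mem_nhds (h y hy)
  filter_upwards [h1] with z hz
  exact interior_subset hz

omit [IsTopologicalGroup P] [LocallyCompactSpace P] [T2Space P] in
private theorem TB_sq (p : P × P → Prop) (h : ∀ᶠ x in 𝓝 ((1 : P), (1 : P)), p x) :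
    ∃ U ∈ 𝓝 (1 : P), ∀ e ∈ U, ∀ e' ∈ U, p (e, e') := by
  rw [nhds_prod_eq] at h
  obtain ⟨U, hU, hs⟩ := Filter.mem_prod_same_iff.1 h
  exact ⟨U, hU, fun e he e' he' => hs (Set.mk_mem_prod he he')⟩

theorem tTB : S_TB P := by
  intro G _ S S' hS hSS'
  refine ⟨?_, ?_, ?_⟩
  · have h1 := TB_tube (fun q : (P × P) × P => q.1.1 * q.2 * q.1.2) (by fun_prop) (1, 1) S hS S'
      (fun s hs => by
        have h2 := hSS' hs
        simpa using h2)
    obtain ⟨U, hU, h3⟩ := TB_sq P _ h1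
    exact ⟨U, hU, fun e he s hs e' he' => h3 e he e' he' s hs⟩
  · intro D hD
    have h1 := TB_tube (fun q : P × (P × P) => q.2.1 * (q.2.2 * q.1 * q.2.2⁻¹)) (by fun_prop) 1
      (S ×ˢ D) (hS.prod hD) S'
      (fun s hs => by
        have h2 := hSS' hs.1
        simpa using h2)
    exact ⟨_, h1, fun e he s hs d hd => he (s, d) ⟨hs, hd⟩⟩
  · have h1 := TB_tube (fun q : (P × P) × P => q.1.2⁻¹ * q.2 * (G.w⁻¹ * q.1.1⁻¹ * G.w))
      (by fun_prop) (1, 1) S hS S'
      (fun s hs => by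
        have h2 := hSS' hs
        simpa using h2)
    obtain ⟨U, hU, h3⟩ := TB_sq P _ h1
    refine ⟨U, hU, fun e he q hq e' he' => ?_⟩
    have h4 := h3 e he e' he' (q⁻¹ * G.w) hq
    change (e * q * e')⁻¹ * G.w ∈ S'
    have h5 : (e * q * e')⁻¹ * G.w = e'⁻¹ * (q⁻¹ * G.w) * (G.w⁻¹ * e⁻¹ * G.w) := by
      group
    rw [h5]
    exact h4

end Pool.Agent.MPEF.U
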