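import Pool.Agent.Lib.MP_ef3f0f_gt.U.F.SpecD

set_option autoImplicit false
set_option linter.unusedSectionVars false

/-!
# MP_ef3f0f_gt, Theorem U, Part F: monotonicity and cyclic invariance of `TX`, `PX`, `LI`
-/

namespace Pool.Agent.MPEF.U

open MeasureTheory Topology
open scoped ENNReal Pointwise

variable (P H : Type) [Group P] [Group H] [TopologicalSpace P] [TopologicalSpace H]
  [IsTopologicalGroup P] [IsTopologicalGroup H] [LocallyCompactSpace P] [LocallyCompactSpace H]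
  [T2Space P] [T2Space H] [SecondCountableTopology P] [SecondCountableTopology H]
  [MeasurableSpace P] [MeasurableSpace H] [BorelSpace P] [BorelSpace H]

private theorem TXc_iK_mono {Q : Type} {S S' : Set Q} (h : S ⊆ S') (q : Q) : iK S q ≤ iK S' q :=
  Set.indicator_le_indicator_of_subset h (fun _ => zero_le) q

private theorem TXc_IM_mono {P H : Type} [Group P] [Group H] [MeasurableSpace P]
    [MeasurableSpace H] (D : Dat P H) {f g : P × H → ℝ≥0∞} (h : ∀ x, f x ≤ g x) :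
    D.IM f ≤ D.IM g :=
  lintegral_mono fun x => mul_le_mul' le_rfl (h x)

private theorem TXc_IM_mul {P H : Type} [Group P] [Group H] [MeasurableSpace P]
    [MeasurableSpace H] (D : Dat P H) {f : P × H → ℝ≥0∞} {A : ℝ≥0∞} (hA : A ≠ ∞) :
    D.IM (fun x => A * f x) = A * D.IM f := by
  unfold Dat.IM
  rw [← lintegral_const_mul' _ _ hA]
  exact lintegral_congr fun x => by ring

theorem tTXc : S_DF P → S_TXc P H := by
  intro hDF D hD G hG φ
  obtain ⟨-, -, -, -, dm, -⟩ := hDF G hG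
  refine ⟨?_, ?_, ?_, ?_⟩
  · intro c K
    unfold Dat.TX Dat.X3
    congr 1
    funext x
    congr 1
    funext y
    unfold Dat.st3
    have h3 : (fun i : Fin 3 => c (i + 1)) 0 = c 1 := rfl
    have h4 : (fun i : Fin 3 => c (i + 1)) 1 = c 2 := rfl
    have h5 : (fun i : Fin 3 => c (i + 1)) 2 = c 0 := rfl
    have hd : ∀ u v w : D.Γ, dl G φ (c 1) (c 2) (c 0) x v w u = dl G φ (c 0) (c 1) (c 2) x u v w := by
      intro u v w
      unfold dl
      ring
    calc ∑' v : D.Γ, ∑' w : D.Γ, ∑' u : D.Γ,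
          K 1 (x⁻¹ * (v : P × H) * y) * K 2 (x⁻¹ * (w : P × H) * y) * K 0 (x⁻¹ * (u : P × H) * y) *
            ab (dl G φ (c 1) (c 2) (c 0) x v w u)
        = ∑' v : D.Γ, ∑' u : D.Γ, ∑' w : D.Γ,
          K 1 (x⁻¹ * (v : P × H) * y) * K 2 (x⁻¹ * (w : P × H) * y) * K 0 (x⁻¹ * (u : P × H) * y) *
            ab (dl G φ (c 1) (c 2) (c 0) x v w u) := tsum_congr fun v => ENNReal.tsum_comm
      _ = ∑' u : D.Γ, ∑' v : D.Γ, ∑' w : D.Γ,
          K 1 (x⁻¹ * (v : P × H) * y) * K 2 (x⁻¹ * (w : P × H) * y) * K 0 (x⁻¹ * (u : P × H) * y) *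
            ab (dl G φ (c 1) (c 2) (c 0) x v w u) := ENNReal.tsum_comm
      _ = _ := by
          refine tsum_congr fun u => tsum_congr fun v => tsum_congr fun w => ?_
          rw [hd]
          ring
  · intro c A hA K K' hK
    have h : ∀ x y, D.st3 (K 0) (K 1) (K 2) x y (fun u v w => ab (dl G φ (c 0) (c 1) (c 2) x u v w)) ≤
        A ^ 3 * D.st3 (K' 0) (K' 1) (K' 2) x y
          (fun u v w => ab (dl G φ (c 0) (c 1) (c 2) x u v w)) := by
      intro x y
      unfold Dat.st3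
      rw [← ENNReal.tsum_mul_left]
      refine ENNReal.tsum_le_tsum fun u => ?_
      rw [← ENNReal.tsum_mul_left]
      refine ENNReal.tsum_le_tsum fun v => ?_
      rw [← ENNReal.tsum_mul_left]
      refine ENNReal.tsum_le_tsum fun w => ?_
      calc _ ≤ (A * K' 0 (x⁻¹ * (u : P × H) * y)) * (A * K' 1 (x⁻¹ * (v : P × H) * y)) *
              (A * K' 2 (x⁻¹ * (w : P × H) * y)) * ab (dl G φ (c 0) (c 1) (c 2) x u v w) :=
            mul_le_mul' (mul_le_mul' (mul_le_mul' (hK 0 _) (hK 1 _)) (hK 2 _)) le_rfl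
        _ = _ := by ring
    have hA3 : A ^ 3 ≠ ∞ := ENNReal.pow_ne_top hA
    unfold Dat.TX Dat.X3
    rw [← TXc_IM_mul D hA3]
    refine TXc_IM_mono D fun x => ?_
    rw [← TXc_IM_mul D hA3]
    exact TXc_IM_mono D fun y => h x y
  · intro c A hA K₁ K₂ K₁' K₂' h1 h2
    have h : ∀ x y, D.st2 K₁ K₂ x y (fun u v => ab (ph G φ (u * v⁻¹) (x.1 * c))) ≤
        A ^ 2 * D.st2 K₁' K₂' x y (fun u v => ab (ph G φ (u * v⁻¹) (x.1 * c))) := by
      intro x y
      unfold Dat.st2
      rw [← ENNReal.tsum_mul_left]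
      refine ENNReal.tsum_le_tsum fun u => ?_
      rw [← ENNReal.tsum_mul_left]
      refine ENNReal.tsum_le_tsum fun v => ?_
      calc _ ≤ (A * K₁' (x⁻¹ * (u : P × H) * y)) * (A * K₂' (x⁻¹ * (v : P × H) * y)) *
              ab (ph G φ (u * v⁻¹) (x.1 * c)) :=
            mul_le_mul' (mul_le_mul' (h1 _) (h2 _)) le_rfl
        _ = _ := by ring
    have hA2 : A ^ 2 ≠ ∞ := ENNReal.pow_ne_top hA
    unfold Dat.PX Dat.X2
    rw [← TXc_IM_mul D hA2]
    refine TXc_IM_mono D fun x => ?_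
    rw [← TXc_IM_mul D hA2]
    exact TXc_IM_mono D fun y => h x y
  · intro U U' R R' N hU hR
    have huw : G.uw U ⊆ G.uw U' := Set.mul_subset_mul_right hU
    have h : ∀ g, D.eg G U (G.uw U) R N g ≤ D.eg G U' (G.uw U') R' N g := by
      intro g
      unfold Dat.eg Dat.ed Dat.tk
      refine mul_le_mul' ?_ le_rfl
      unfold kk
      refine lintegral_mono fun q => mul_le_mul' (TXc_iK_mono ?_ _) (TXc_iK_mono ?_ _)
      · exact Set.mul_subset_mul hU (dm R R' hR)
      · exact fun q hq => huw hq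
    unfold Dat.LI Dat.L1
    refine TXc_IM_mono D fun x => ENNReal.tsum_le_tsum fun l => mul_le_mul' (h _) le_rfl

end Pool.Agent.MPEF.U
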