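import Pool.Agent.Lib.MP_ef3f0f_gt.U.F.SpecC

/-!
# MP_ef3f0f_gt, Theorem U, Part F: unfolding of pairs to closed loops
-/

set_option autoImplicit false
set_option linter.unusedSectionVars false

namespace Pool.Agent.MPEF.U

open MeasureTheory Topology
open scoped ENNReal Pointwise

section UFX

variable (P H : Type) [Group P] [Group H] [TopologicalSpace P] [TopologicalSpace H]
  [IsTopologicalGroup P] [IsTopologicalGroup H] [LocallyCompactSpace P] [LocallyCompactSpace H]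
  [T2Space P] [T2Space H] [SecondCountableTopology P] [SecondCountableTopology H]
  [MeasurableSpace P] [MeasurableSpace H] [BorelSpace P] [BorelSpace H]

theorem tUFX : S_inst P H → S_unf P H → S_nu P H → S_mg P H → S_UFX P H := by
  intro hinst hunf hnu hmg D hD f
  obtain ⟨-, -, -, hcount, -, hleft, -⟩ := hinst D hD
  obtain ⟨-, -, -, hsym, -⟩ := hnu D hD
  obtain ⟨-, -, -, -, hconv, -⟩ := hmg D hD
  have hχ := hD.χm
  have part1 : ∀ K₁ K₂ : P × H → ℝ≥0∞, Measurable K₁ → Measurable K₂ →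
      D.X2 K₁ K₂ (fun x u v => f x (u * v⁻¹)) =
        D.L1 (fun g => ∫⁻ y, K₁ (g * y) * K₂ y ∂D.μ) f := by
    intro K₁ K₂ hK₁ hK₂
    unfold Dat.X2 Dat.L1
    congr 1
    funext x
    have hF : ∀ l : D.Γ, Measurable fun y : P × H =>
        K₁ (x⁻¹ * (l : P × H) * y) * K₂ (x⁻¹ * y) :=
      fun l => (hK₁.comp (measurable_const_mul _)).mul (hK₂.comp (measurable_const_mul _))
    have h1 : ∀ y, D.st2 K₁ K₂ x y (fun u v => f x (u * v⁻¹)) =
        ∑' l : D.Γ, f x l * ∑' v : D.Γ,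
          K₁ (x⁻¹ * (l : P × H) * ((v : P × H) * y)) * K₂ (x⁻¹ * ((v : P × H) * y)) := by
      intro y
      unfold Dat.st2
      rw [ENNReal.tsum_comm]
      have h2 : ∀ v : D.Γ, ∑' u : D.Γ, K₁ (x⁻¹ * (u : P × H) * y) *
          K₂ (x⁻¹ * (v : P × H) * y) * f x (u * v⁻¹) =
          ∑' l : D.Γ, K₁ (x⁻¹ * (l : P × H) * ((v : P × H) * y)) *
            K₂ (x⁻¹ * ((v : P × H) * y)) * f x l := by
        intro v
        rw [← (Equiv.mulRight v).tsum_eq]
        refine tsum_congr fun l => ?_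
        rw [Equiv.coe_mulRight, mul_inv_cancel_right, Subgroup.coe_mul]
        simp only [mul_assoc]
      rw [tsum_congr h2, ENNReal.tsum_comm]
      refine tsum_congr fun l => ?_
      rw [ENNReal.tsum_mul_right, mul_comm]
    have hmeas : ∀ l : D.Γ, Measurable fun y : P × H => ∑' v : D.Γ,
        K₁ (x⁻¹ * (l : P × H) * ((v : P × H) * y)) * K₂ (x⁻¹ * ((v : P × H) * y)) :=
      fun l => Measurable.tsum fun v => (hF l).comp (measurable_const_mul (v : P × H))
    have h3 : D.IM (fun y => D.st2 K₁ K₂ x y (fun u v => f x (u * v⁻¹))) =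
        ∑' l : D.Γ, f x l * D.IM (fun y => ∑' v : D.Γ,
          K₁ (x⁻¹ * (l : P × H) * ((v : P × H) * y)) * K₂ (x⁻¹ * ((v : P × H) * y))) := by
      unfold Dat.IM
      have h4 : ∀ y, D.χ y * D.st2 K₁ K₂ x y (fun u v => f x (u * v⁻¹)) =
          ∑' l : D.Γ, f x l * (D.χ y * ∑' v : D.Γ,
            K₁ (x⁻¹ * (l : P × H) * ((v : P × H) * y)) * K₂ (x⁻¹ * ((v : P × H) * y))) := by
        intro y
        rw [h1 y, ← ENNReal.tsum_mul_left]
        exact tsum_congr fun l => by ring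
      simp_rw [h4]
      rw [lintegral_tsum]
      · exact tsum_congr fun l => lintegral_const_mul _ (hχ.mul (hmeas l))
      · exact fun l => ((hχ.mul (hmeas l)).const_mul _).aemeasurable
    rw [h3]
    refine tsum_congr fun l => ?_
    rw [hunf D hD (fun y => K₁ (x⁻¹ * (l : P × H) * y) * K₂ (x⁻¹ * y)) (hF l), mul_comm]
    congr 1
    rw [← lintegral_mul_left_eq_self (fun y => K₁ (x⁻¹ * (l : P × H) * y) * K₂ (x⁻¹ * y)) x]
    refine lintegral_congr fun y => ?_
    rw [inv_mul_cancel_left, mul_assoc (x⁻¹ * (l : P × H))]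
  refine ⟨part1, fun k₁ k₂ n m hk₁ hk₂ hn hm => ?_⟩
  have htk : ∀ (k : P → ℝ≥0∞) (j : ℕ), Measurable k → Measurable (D.tk k j) := by
    intro k j hk
    have hν := (hnu D hD).1 j
    exact (hk.comp measurable_fst).mul (hν.comp measurable_snd)
  rw [part1 _ _ (htk k₁ n hk₁) (htk k₂ m hk₂)]
  have h5 : ∀ g : P × H, ∫⁻ y, D.tk k₁ n (g * y) * D.tk k₂ m y ∂D.μ =
      D.tk (cvP D.μ₁ k₁ (fun g => k₂ g⁻¹)) (n + m) g := by
    intro g
    rw [← lintegral_mul_left_eq_self (fun y => D.tk k₁ n (g * y) * D.tk k₂ m y) g⁻¹]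
    have h6 := hconv k₁ (fun g => k₂ g⁻¹) n m hk₁ (hk₂.comp measurable_inv) hn hm g
    refine Eq.trans ?_ h6
    refine lintegral_congr fun q => ?_
    rw [mul_inv_cancel_left]
    congr 1
    unfold Dat.tk
    have e : g⁻¹ * q = (q⁻¹ * g)⁻¹ := by rw [mul_inv_rev, inv_inv]
    rw [e, Prod.snd_inv, hsym, Prod.fst_inv]
  unfold Dat.L1
  simp_rw [h5]

end UFX

end Pool.Agent.MPEF.U
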