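import Pool.Agent.Lib.MP_ef3f0f_gt.U.F.SpecC

/-!
# MP_ef3f0f_gt, Theorem U, Part F: upper bound for the number of edges
-/

set_option autoImplicit false
set_option linter.unusedSectionVars false

namespace Pool.Agent.MPEF.U

open MeasureTheory Topology
open scoped ENNReal Pointwise

section UpG

variable (P H : Type) [Group P] [Group H] [TopologicalSpace P] [TopologicalSpace H]
  [IsTopologicalGroup P] [IsTopologicalGroup H] [LocallyCompactSpace P] [LocallyCompactSpace H]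
  [T2Space P] [T2Space H] [SecondCountableTopology P] [SecondCountableTopology H]
  [MeasurableSpace P] [MeasurableSpace H] [BorelSpace P] [BorelSpace H]

private theorem UpG_ew (G : PG P) {K : Set P} (hK : IsCompact K) : IsCompact (G.ew K) := by
  have h := ((Homeomorph.inv P).trans (Homeomorph.mulRight G.w)).isCompact_preimage.2 hK
  exact h

private theorem UpG_int (μ : Measure P) [μ.IsHaarMeasure] {k : P → ℝ≥0∞}
    (hb : ∃ C : ℝ≥0∞, C ≠ ∞ ∧ ∀ g, k g ≤ C)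
    (hs : ∃ K : Set P, IsCompact K ∧ ∀ g, g ∉ K → k g = 0) : ∫⁻ g, k g ∂μ ≠ ∞ := by
  obtain ⟨C, hC, hb⟩ := hb
  obtain ⟨K, hK, hs⟩ := hs
  have h1 : ∫⁻ g, k g ∂μ ≤ ∫⁻ g, K.indicator (fun _ => C) g ∂μ := by
    refine lintegral_mono fun g => ?_
    by_cases hg : g ∈ K
    · rw [Set.indicator_of_mem hg]
      exact hb g
    · rw [Set.indicator_of_notMem hg, hs g hg]
  refine ne_top_of_le_ne_top ?_ h1
  rw [lintegral_indicator_const hK.measurableSet]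
  exact ENNReal.mul_ne_top hC hK.measure_lt_top.ne

private theorem UpG_le {S : Set P} {k : P → ℝ≥0∞} (h : ∀ g ∈ S, k g = 1) (g : P) :
    iK S g ≤ k g := by
  unfold iK
  by_cases hg : g ∈ S
  · rw [Set.indicator_of_mem hg, h g hg]
  · rw [Set.indicator_of_notMem hg]
    exact zero_le

private theorem UpG_N (D : Dat P H) {K K' : P × H → ℝ≥0∞} (h : ∀ g, K g ≤ K' g) (x y : P × H) :
    D.N K x y ≤ D.N K' x y := by
  unfold Dat.N
  exact ENNReal.tsum_le_tsum fun u => h _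

theorem tUpG : S_AD P → S_DF P → S_Up P H → S_UpG P H := by
  intro hAD hDF hUp D hD G hG NK hNK hE S K hS hK R
  have i1 := hD.haar₁
  have i2 := hD.right₁
  have i3 := hD.inv₁
  obtain ⟨-, -, -, -, hmeas, hbdd⟩ := hAD G D.μ₁ hG
  have hD1 : IsCompact (G.D1 ^ R) := (hDF G hG).1 R
  have hSD : IsCompact (S * G.D1 ^ R) := hS.mul hD1
  have hew : IsCompact (G.ew K) := UpG_ew P G hK
  -- length `0`
  obtain ⟨C₀, hC₀, h0⟩ := hUp D hD (eP D.μ₁ G S K R 0) (hmeas S K hS hK R 0) (by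
    obtain ⟨C, hC, h⟩ := hbdd S K hS hK R
    exact ⟨C, hC, fun g => h 0 g⟩) (by
    refine ⟨(S * G.D1 ^ R) * G.ew K, hSD.mul hew, fun g hg => ?_⟩
    unfold eP kk
    rw [lintegral_eq_zero_of_ae_eq_zero]
    refine Filter.Eventually.of_forall fun q => ?_
    change iK (S * G.D1 ^ R) q * iK (G.ew K) ((G.a ^ 0)⁻¹ * q⁻¹ * g) = 0
    unfold iK
    by_cases h1 : q ∈ S * G.D1 ^ R
    · rw [Set.indicator_of_notMem (s := G.ew K), mul_zero]
      intro h2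
      rw [pow_zero, inv_one, one_mul] at h2
      exact hg ⟨q, h1, q⁻¹ * g, h2, mul_inv_cancel_left q g⟩
    · rw [Set.indicator_of_notMem h1, zero_mul])
  -- positive length
  obtain ⟨k₁, hk₁, h11, -⟩ := hNK.sep (S * G.D1 ^ R) Set.univ hSD isOpen_univ (Set.subset_univ _)
  obtain ⟨k₂, hk₂, h21, -⟩ := hNK.sep (G.ew K) Set.univ hew isOpen_univ (Set.subset_univ _)
  obtain ⟨C, hC, hE1⟩ := hE k₁ hk₁ k₂ hk₂
  have hI₁ : ∫⁻ g, k₁ g ∂D.μ₁ ≠ ∞ := UpG_int P D.μ₁ (hNK.bdd k₁ hk₁) (hNK.supp k₁ hk₁)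
  have hI₂ : ∫⁻ g, k₂ g ∂D.μ₁ ≠ ∞ := UpG_int P D.μ₁ (hNK.bdd k₂ hk₂) (hNK.supp k₂ hk₂)
  refine ⟨C₀ + ((∫⁻ g, k₁ g ∂D.μ₁) * (∫⁻ g, k₂ g ∂D.μ₁) + C), ?_, fun n x y => ?_⟩
  · exact ENNReal.add_ne_top.2 ⟨hC₀, ENNReal.add_ne_top.2 ⟨ENNReal.mul_ne_top hI₁ hI₂, hC⟩⟩
  rcases Nat.eq_zero_or_pos n with rfl | hn
  · exact (h0 0 x y).trans le_self_add
  · have hle : ∀ g : P × H, D.eg G S K R n g ≤ D.ed G k₁ k₂ n g := by
      intro g
      unfold Dat.eg Dat.ed Dat.tk kk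
      gcongr with q
      · exact UpG_le P h11 q
      · exact UpG_le P h21 _
    have h1 := (UpG_N P H D hle x y).trans (hE1 n hn x y).1
    have h2 : C * ((n : ℝ≥0∞)⁻¹) ^ 6 ≤ C := by
      calc C * ((n : ℝ≥0∞)⁻¹) ^ 6 ≤ C * 1 := by
            refine mul_le_mul_right (pow_le_one₀ zero_le ?_) C
            rw [ENNReal.inv_le_one]
            exact_mod_cast hn
        _ = C := mul_one C
    refine h1.trans ?_
    calc (∫⁻ g, k₁ g ∂D.μ₁) * (∫⁻ g, k₂ g ∂D.μ₁) + C * ((n : ℝ≥0∞)⁻¹) ^ 6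
        ≤ (∫⁻ g, k₁ g ∂D.μ₁) * (∫⁻ g, k₂ g ∂D.μ₁) + C := by gcongr
      _ ≤ C₀ + ((∫⁻ g, k₁ g ∂D.μ₁) * (∫⁻ g, k₂ g ∂D.μ₁) + C) := le_add_self

end UpG

end Pool.Agent.MPEF.U
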