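import Pool.Agent.Lib.MP_ef3f0f_gt.U.F.SpecD

set_option autoImplicit false

/-!
# MP_ef3f0f_gt, Theorem U, Part F: existence of nice window functions
-/

namespace Pool.Agent.MPEF.U

open MeasureTheory Topology
open scoped ENNReal Pointwise

variable (P H : Type) [Group P] [Group H] [TopologicalSpace P] [TopologicalSpace H]
  [IsTopologicalGroup P] [IsTopologicalGroup H] [LocallyCompactSpace P] [LocallyCompactSpace H]
  [T2Space P] [T2Space H] [SecondCountableTopology P] [SecondCountableTopology H]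
  [MeasurableSpace P] [MeasurableSpace H] [BorelSpace P] [BorelSpace H]

private theorem WfE_lower {X : Type} (Q : Set X) (f : X → ℝ≥0∞) (h : ∀ g ∈ Q, f g = 1) (g : X) :
    iK Q g ≤ f g := by
  by_cases hg : g ∈ Q
  · rw [iK, Set.indicator_of_mem hg, h g hg]
  · rw [iK, Set.indicator_of_notMem hg]
    exact bot_le

private theorem WfE_upper {X : Type} (O Q : Set X) (hOQ : O ⊆ Q) (f : X → ℝ≥0∞)
    (h : ∀ g, g ∉ O → f g = 0) (C : ℝ≥0∞) (hC : ∀ g, f g ≤ C) (g : X) : f g ≤ C * iK Q g := by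
  by_cases hg : g ∈ Q
  · rw [iK, Set.indicator_of_mem hg, mul_one]
    exact hC g
  · rw [h g (fun h' => hg (hOQ h'))]
    exact bot_le

private theorem WfE_bdd (NK : Set (P → ℝ≥0∞)) (hNK : NiceOk NK) (f : Fin 3 → P → ℝ≥0∞)
    (hf : ∀ i, f i ∈ NK) : ∃ C : ℝ≥0∞, C ≠ ∞ ∧ ∀ i g, f i g ≤ C := by
  choose C hC hC' using fun i => hNK.bdd (f i) (hf i)
  refine ⟨∑ i, C i, ENNReal.sum_ne_top.2 fun i _ => hC i, fun i g => ?_⟩
  exact (hC' i g).trans (Finset.single_le_sum (fun j _ => (bot_le : (0 : ℝ≥0∞) ≤ C j)) (Finset.mem_univ i))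

theorem tWfE : S_DF P → S_WfE P := by
  intro hDF G hG NK hNK t t' ht ht' hin R
  have hc := (hDF G hG).1 R
  have h1 : ∀ i, ∃ k ∈ NK, (∀ g ∈ t.S i * G.D1 ^ R, k g = 1) ∧
      ∀ g, g ∉ interior (t'.S i) * G.D1 ^ R → k g = 0 := fun i =>
    hNK.sep _ _ ((ht.Sc i).mul hc) (isOpen_interior.mul_right)
      (Set.mul_subset_mul_right (hin i).2.1)
  have hcont : Continuous fun q : P => q⁻¹ * G.w := by fun_prop
  have hcomp : ∀ K : Set P, IsCompact K → IsCompact (G.ew K) := by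
    intro K hK
    have h2 := (((Homeomorph.inv P).trans (Homeomorph.mulRight G.w)).isCompact_preimage).2 hK
    exact h2
  have h2 : ∀ i, ∃ k ∈ NK, (∀ g ∈ G.ew (t.K i), k g = 1) ∧
      ∀ g, g ∉ G.ew (interior (t'.K i)) → k g = 0 := fun i =>
    hNK.sep _ _ (hcomp _ (ht.Kc i)) (isOpen_interior.preimage hcont)
      (fun q hq => (hin i).2.2.1 hq)
  choose s hs hs1 hs0 using h1
  choose k hk hk1 hk0 using h2
  obtain ⟨C, hC, hC'⟩ := WfE_bdd P NK hNK s hs
  obtain ⟨C₁, hC₁, hC₁'⟩ := WfE_bdd P NK hNK k hk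
  refine ⟨⟨s, k⟩, ?_, hs, hk⟩
  exact
    { sm := fun i => hNK.meas _ (hs i)
      km := fun i => hNK.meas _ (hk i)
      sl := fun i => WfE_lower _ _ (hs1 i)
      kl := fun i => WfE_lower _ _ (hk1 i)
      su := ⟨C, hC, fun i => WfE_upper _ _ (Set.mul_subset_mul_right interior_subset) _ (hs0 i) C
        (hC' i)⟩
      ku := ⟨C₁, hC₁, fun i => WfE_upper (G.ew (interior (t'.K i))) (G.ew (t'.K i))
        (fun _ hq => interior_subset (s := t'.K i) hq) _ (hk0 i) C₁ (hC₁' i)⟩ }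

end Pool.Agent.MPEF.U
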