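import Pool.Agent.Lib.MP_ef3f0f_gt.U.F.SpecA

/-! MP_ef3f0f_gt, Theorem U, Part F, module Wr: reversal, monotonicity and translation of `W`. -/

set_option autoImplicit false

namespace Pool.Agent.MPEF.U

open MeasureTheory Topology
open scoped ENNReal Pointwise

variable (P : Type) [Group P] [TopologicalSpace P] [IsTopologicalGroup P] [LocallyCompactSpace P]
  [T2Space P]

theorem tWr (hDF : S_DF P) : S_Wr P := by
  intro G hG
  obtain ⟨-, -, -, -, -, -, -, -, -, hDp, -⟩ := hDF G hG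
  have hww := hG.ww
  refine ⟨?_, ?_, ?_, ?_⟩
  · rintro S K k g ⟨s, hs, t, ht, q, hq, rfl⟩
    refine ⟨q⁻¹ * G.w, hq, G.w * t⁻¹ * G.w, hG.Dpw k t ht, G.w * s⁻¹, ?_, ?_⟩
    · change (G.w * s⁻¹)⁻¹ * G.w ∈ S
      have e : (G.w * s⁻¹)⁻¹ * G.w = s := by
        rw [mul_inv_rev, inv_inv, mul_assoc, inv_mul_cancel, mul_one]
      rw [e]
      exact hs
    · have e1 : q⁻¹ * G.w * (G.w * t⁻¹ * G.w) * (G.w * s⁻¹) =
          q⁻¹ * (G.w * G.w) * t⁻¹ * (G.w * G.w) * s⁻¹ := by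
        simp only [mul_assoc]
      rw [e1, hww, mul_one, mul_one, mul_inv_rev, mul_inv_rev, mul_assoc]
  · rintro S K S' K' k l hS hK hkl g ⟨s, hs, t, ht, q, hq, rfl⟩
    exact ⟨s, hS hs, t, hDp k l hkl ht, q, hK hq, rfl⟩
  · rintro S K k x g ⟨s, hs, t, ht, q, hq, rfl⟩
    refine ⟨x * s, ⟨x, rfl, s, hs, rfl⟩, t, ht, q, hq, ?_⟩
    simp only [mul_assoc]
  · rintro S K k x g ⟨s, hs, t, ht, q, hq, rfl⟩
    refine ⟨s, hs, t, ht, q * x, ?_, ?_⟩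
    · change (q * x)⁻¹ * G.w ∈ {x⁻¹} * K
      refine ⟨x⁻¹, rfl, q⁻¹ * G.w, hq, ?_⟩
      change x⁻¹ * (q⁻¹ * G.w) = (q * x)⁻¹ * G.w
      rw [mul_inv_rev, mul_assoc]
    · simp only [mul_assoc]

end Pool.Agent.MPEF.U
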