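import Pool.Agent.Lib.MP_ef3f0f_gt.U.J.All
import Pool.Agent.Lib.MP_ef3f0f_gt.U.F.DF
import Pool.Agent.Lib.MP_ef3f0f_gt.U.F.TB
import Pool.Agent.Lib.MP_ef3f0f_gt.U.F.NB
import Pool.Agent.Lib.MP_ef3f0f_gt.U.F.NT1
import Pool.Agent.Lib.MP_ef3f0f_gt.U.F.CTc
import Pool.Agent.Lib.MP_ef3f0f_gt.U.F.LXc
import Pool.Agent.Lib.MP_ef3f0f_gt.U.F.Wr
import Pool.Agent.Lib.MP_ef3f0f_gt.U.F.MG
import Pool.Agent.Lib.MP_ef3f0f_gt.U.F.FRc
import Pool.Agent.Lib.MP_ef3f0f_gt.U.F.FR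
import Pool.Agent.Lib.MP_ef3f0f_gt.U.F.BCg
import Pool.Agent.Lib.MP_ef3f0f_gt.U.F.KT
import Pool.Agent.Lib.MP_ef3f0f_gt.U.F.CV
import Pool.Agent.Lib.MP_ef3f0f_gt.U.F.AD
import Pool.Agent.Lib.MP_ef3f0f_gt.U.F.MU
import Pool.Agent.Lib.MP_ef3f0f_gt.U.F.MS
import Pool.Agent.Lib.MP_ef3f0f_gt.U.F.ML
import Pool.Agent.Lib.MP_ef3f0f_gt.U.F.RV
import Pool.Agent.Lib.MP_ef3f0f_gt.U.F.SHP
import Pool.Agent.Lib.MP_ef3f0f_gt.U.F.AD2
import Pool.Agent.Lib.MP_ef3f0f_gt.U.F.GE1u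
import Pool.Agent.Lib.MP_ef3f0f_gt.U.F.RVs
import Pool.Agent.Lib.MP_ef3f0f_gt.U.F.ML1
import Pool.Agent.Lib.MP_ef3f0f_gt.U.F.MLs
import Pool.Agent.Lib.MP_ef3f0f_gt.U.F.ph
import Pool.Agent.Lib.MP_ef3f0f_gt.U.F.FP
import Pool.Agent.Lib.MP_ef3f0f_gt.U.F.BP
import Pool.Agent.Lib.MP_ef3f0f_gt.U.F.MQ
import Pool.Agent.Lib.MP_ef3f0f_gt.U.F.UFX
import Pool.Agent.Lib.MP_ef3f0f_gt.U.F.CJ
import Pool.Agent.Lib.MP_ef3f0f_gt.U.F.JI
import Pool.Agent.Lib.MP_ef3f0f_gt.U.F.BAL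
import Pool.Agent.Lib.MP_ef3f0f_gt.U.F.SH
import Pool.Agent.Lib.MP_ef3f0f_gt.U.F.MUd
import Pool.Agent.Lib.MP_ef3f0f_gt.U.F.MLd
import Pool.Agent.Lib.MP_ef3f0f_gt.U.F.UpG
import Pool.Agent.Lib.MP_ef3f0f_gt.U.F.LoG
import Pool.Agent.Lib.MP_ef3f0f_gt.U.F.Fin
import Pool.Agent.Lib.MP_ef3f0f_gt.U.F.RVd
import Pool.Agent.Lib.MP_ef3f0f_gt.U.F.TXc
import Pool.Agent.Lib.MP_ef3f0f_gt.U.F.EN
import Pool.Agent.Lib.MP_ef3f0f_gt.U.F.WfE
import Pool.Agent.Lib.MP_ef3f0f_gt.U.F.POS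
import Pool.Agent.Lib.MP_ef3f0f_gt.U.F.GEu
import Pool.Agent.Lib.MP_ef3f0f_gt.U.F.EWf
import Pool.Agent.Lib.MP_ef3f0f_gt.U.F.CLa
import Pool.Agent.Lib.MP_ef3f0f_gt.U.F.CLb
import Pool.Agent.Lib.MP_ef3f0f_gt.U.F.CL1
import Pool.Agent.Lib.MP_ef3f0f_gt.U.F.CL2
import Pool.Agent.Lib.MP_ef3f0f_gt.U.F.SQ
import Pool.Agent.Lib.MP_ef3f0f_gt.U.F.CLt
import Pool.Agent.Lib.MP_ef3f0f_gt.U.F.CLO
import Pool.Agent.Lib.MP_ef3f0f_gt.U.F.SGt
import Pool.Agent.Lib.MP_ef3f0f_gt.U.F.SG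
import Pool.Agent.Lib.MP_ef3f0f_gt.U.F.NOphi

set_option autoImplicit false

/-!
# MP_ef3f0f_gt, Theorem U, Part F: the statements of all Spec files without hypotheses
-/

namespace Pool.Agent.MPEF.U

open MeasureTheory Topology
open scoped ENNReal Pointwise

section OnP

variable (P : Type) [Group P] [TopologicalSpace P] [IsTopologicalGroup P] [LocallyCompactSpace P]
  [T2Space P]

theorem aDF : S_DF P := tDF P

theorem aTB : S_TB P := tTB P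

theorem aNB : S_NB P := tNB P

theorem aNT1 : S_NT1 P := tNT1 P

theorem aCTc : S_CTc P := tCTc P (aDF P)

theorem aLXc : S_LXc P := tLXc P (aDF P)

theorem aWr : S_Wr P := tWr P (aDF P)

theorem aMG : S_MG P := tMG P (aDF P) (aTB P)

theorem aFRc : S_FRc P := tFRc P (aLXc P) (aNB P)

theorem aFR : S_FR P := tFR P (aWr P) (aMG P) (aFRc P) (aNB P)

theorem aBCg : S_BCg P := tBCg P (aDF P) (aWr P) (aMG P) (aCTc P) (aFR P) (aNB P)

end OnP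

section OnPM

variable (P : Type) [Group P] [TopologicalSpace P] [IsTopologicalGroup P] [LocallyCompactSpace P]
  [T2Space P] [SecondCountableTopology P] [MeasurableSpace P] [BorelSpace P]

theorem aKT : S_KT P := tKT P

theorem aCV : S_CV P := tCV P

theorem aAD : S_AD P := tAD P (aDF P) (aKT P)

theorem aMU : S_MU P := tMU P (aDF P) (aTB P) (aKT P) (aCV P) (aAD P)

theorem aMS : S_MS P := tMS P (aDF P) (aTB P) (aKT P) (aCV P) (aAD P)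

theorem aML : S_ML P := tML P (aDF P) (aTB P) (aNB P) (aNT1 P) (aKT P) (aCV P) (aAD P)

theorem aRV : S_RV P := tRV P (aDF P) (aTB P) (aNB P) (aNT1 P) (aKT P)

theorem aSHP : S_SHP P := tSHP P (aDF P) (aKT P)

theorem aAD2 : S_AD2 P := tAD2 P

theorem aGE1u : S_GE1u P := tGE1u P (aDF P) (aTB P) (aNB P) (aNT1 P) (aKT P) (aAD P)

theorem aGEu : S_GEu P := tGEu P (aGE1u P) (aRV P) (aAD P) (aNB P)

theorem aRVs : S_RVs P := tRVs P (aKT P)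

theorem aML1 : S_ML1 P := tML1 P (aDF P) (aTB P) (aNB P) (aKT P) (aCV P) (aAD P)

theorem aMLs : S_MLs P := tMLs P (aML1 P) (aRVs P) (aDF P) (aNT1 P) (aTB P) (aAD P)

theorem aEN : S_EN P := tEN P (aNB P)

theorem aWfE : S_WfE P := tWfE P (aDF P)


end OnPM

section OnPH

variable (P H : Type) [Group P] [Group H] [TopologicalSpace P] [TopologicalSpace H]
  [IsTopologicalGroup P] [IsTopologicalGroup H] [LocallyCompactSpace P] [LocallyCompactSpace H]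
  [T2Space P] [T2Space H] [SecondCountableTopology P] [SecondCountableTopology H]
  [MeasurableSpace P] [MeasurableSpace H] [BorelSpace P] [BorelSpace H]

theorem aph : S_ph P H := tph P H

theorem aFP : S_FP P H := tFP P H (aFR P) (aFRc P) (aWr P) (aph P H)

theorem aBP : S_BP P H := tBP P H (aBCg P) (aph P H)

theorem aMQ : S_MQ P H := tMQ P H (ainst P H)

theorem aUFX : S_UFX P H := tUFX P H (ainst P H) (aunf P H) (anu P H) (amg P H)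

theorem aCJ : S_CJ P H := tCJ P H (aIM P H) (aMQ P H)

theorem aJI : S_JI P H := tJI P H (ainst P H)

theorem aBAL : S_BAL P H := tBAL P H (aph P H) (aUFX P H) (aJI P H) (aMQ P H)

theorem aSH : S_SH P H := tSH P H (aSHP P) (aHarn P H)

theorem aMUd : S_MUd P H := tMUd P H (aMU P) (aAD P) (amg P H)

theorem aMLd : S_MLd P H := tMLd P H (aML P) (aAD P) (amg P H)

theorem aUpG : S_UpG P H := tUpG P H (aAD P) (aDF P) (aUp P H)

theorem aLoG : S_LoG P H := tLoG P H (aAD P)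

theorem aFin : S_Fin P H :=
  tFin P H (aFR P) (aAD P) (aDF P) (aph P H) (aUpG P H) (anu P H) (aIM P H) (ainst P H)

theorem aRVd : S_RVd P H := tRVd P H (aRV P) (anu P H)

theorem aTXc : S_TXc P H := tTXc P H (aDF P)

theorem aPOS : S_POS P H :=
  tPOS P H (aLoG P H) (aUpG P H) (aMQ P H) (aph P H) (aTXc P H) (anu P H)

theorem aEWf : S_EWf P H :=
  tEWf P H (aFin P H) (aUpG P H) (aMQ P H) (aAD P) (aTXc P H) (aph P H)

theorem aCLa : S_CLa P H := tCLa P H (aGEu P) (aAD P) (aCJ P H) (aph P H)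

theorem aCLb : S_CLb P H :=
  tCLb P H (aCLa P H) (aAD P) (aAD2 P) (aFP P H) (aMQ P H) (aph P H) (anu P H)

theorem aCL1 : S_CL1 P H := tCL1 P H (aCLb P H) (aUFX P H) (aRV P) (aMU P) (aNB P) (aAD P)

theorem aCL2 : S_CL2 P H := tCL2 P H (aMLs P) (aUFX P H) (aAD P) (aMQ P H) (aph P H)

theorem aSQ : S_SQ P H := tSQ P H (aMQ P H) (aph P H) (ainst P H)

theorem aCLt : S_CLt P H :=
  tCLt P H (aSQ P H) (aTXc P H) (aCL1 P H) (aUpG P H) (aLoG P H) (aAD P) (aDF P)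

theorem aCLO : S_CLO P H :=
  tCLO P H (aCLt P H) (aCL2 P H) (aTXc P H) (aEN P) (aAD P) (aDF P)

theorem aSGt : S_SGt P H :=
  tSGt P H (aBAL P H) (aFin P H) (aMQ P H) (aph P H) (aTXc P H) (aAD P) (aDF P)

theorem aSG : S_SG P H := tSG P H (aSGt P H)

/-- There is no positive admissible function (Part F, complete). -/
theorem aNOphi : S_NOphi P H :=
  tNOphi P H (aCLO P H) (aWfE P) (aSG P H) (aPOS P H) (aEWf P H) (aAD P) (aDF P) (anu P H)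

end OnPH

end Pool.Agent.MPEF.U
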