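import Pool.Agent.Lib.MP_ef3f0f_gt.U.F.SpecC

set_option autoImplicit false

/-!
# MP_ef3f0f_gt, Theorem U, Part F, module BAL: the exact balance
-/

namespace Pool.Agent.MPEF.U

open MeasureTheory Topology
open scoped ENNReal Pointwise

variable (P H : Type) [Group P] [Group H] [TopologicalSpace P] [TopologicalSpace H]
  [IsTopologicalGroup P] [IsTopologicalGroup H] [LocallyCompactSpace P] [LocallyCompactSpace H]
  [T2Space P] [T2Space H] [SecondCountableTopology P] [SecondCountableTopology H]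
  [MeasurableSpace P] [MeasurableSpace H] [BorelSpace P] [BorelSpace H]

private theorem BAL_meas (D : Dat P H) (hD : D.Ok) (K₁ K₂ : P × H → ℝ≥0∞) (h1 : Measurable K₁)
    (h2 : Measurable K₂) : Measurable fun g : P × H => ∫⁻ y, K₁ (g * y) * K₂ y ∂D.μ := by
  have i1 := hD.haar₁
  have i2 := hD.haar₂
  have s1 : SigmaFinite D.μ₁ := inferInstance
  have s2 : SigmaFinite D.μ₂ := inferInstance
  have h0 : D.μ = D.μ₁.prod D.μ₂ := rfl
  have s3 : SigmaFinite D.μ := by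
    rw [h0]
    infer_instance
  have h3 : Measurable fun q : (P × H) × (P × H) => K₁ (q.1 * q.2) * K₂ q.2 :=
    (h1.comp measurable_mul).mul (h2.comp measurable_snd)
  exact h3.lintegral_prod_right'

open Classical in
/-- The flip of the framing of `l`. -/
private noncomputable def BAL_J (G : PG P) (l : P) : P :=
  if h : ∃ z, Fr G l z then h.choose * G.J * h.choose⁻¹ else 1

private theorem BAL_J_eq (G : PG P) (hG : G.Ok) {l z : P} (hz : Fr G l z) :
    BAL_J P G l = z * G.J * z⁻¹ := by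
  have h : ∃ z, Fr G l z := ⟨z, hz⟩
  unfold BAL_J
  rw [dif_pos h]
  exact (hG.UQ l _ _ h.choose_spec hz).1

private theorem BAL_J_one (G : PG P) {l : P} (h : ¬ ∃ z, Fr G l z) : BAL_J P G l = 1 := by
  unfold BAL_J
  rw [dif_neg h]

private theorem BAL_Fr (G : PG P) {l z : P} (g : P) (hz : Fr G l z) :
    Fr G (g * l * g⁻¹) (g * z) := by
  unfold Fr at hz ⊢
  have : (g * z)⁻¹ * (g * l * g⁻¹) * (g * z) = z⁻¹ * l * z := by group
  rw [this]
  exact hz

private theorem BAL_J_conj (G : PG P) (hG : G.Ok) (g l : P) :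
    BAL_J P G (g * l * g⁻¹) = g * BAL_J P G l * g⁻¹ := by
  by_cases h : ∃ z, Fr G l z
  · obtain ⟨z, hz⟩ := h
    rw [BAL_J_eq P G hG hz, BAL_J_eq P G hG (BAL_Fr P G g hz)]
    group
  · have h' : ¬ ∃ z, Fr G (g * l * g⁻¹) z := by
      rintro ⟨z, hz⟩
      refine h ⟨g⁻¹ * z, ?_⟩
      have h2 := BAL_Fr P G g⁻¹ hz
      have h3 : g⁻¹ * (g * l * g⁻¹) * g⁻¹⁻¹ = l := by group
      rwa [h3] at h2
    rw [BAL_J_one P G h, BAL_J_one P G h', mul_one, mul_inv_cancel]

private theorem BAL_J_comm (G : PG P) (hG : G.Ok) (l : P) :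
    BAL_J P G l * l = l * BAL_J P G l := by
  by_cases h : ∃ z, Fr G l z
  · obtain ⟨z, hz⟩ := h
    rw [BAL_J_eq P G hG hz]
    obtain ⟨d, hd⟩ : ∃ d, d = z⁻¹ * l * z := ⟨_, rfl⟩
    have hdA : d ∈ G.A := by
      rw [hd]
      exact hG.AppA hz
    have hl : l = z * d * z⁻¹ := by
      rw [hd]
      group
    have hJ := hG.JA d hdA
    rw [hl]
    calc z * G.J * z⁻¹ * (z * d * z⁻¹) = z * (G.J * d) * z⁻¹ := by group
      _ = z * (d * G.J) * z⁻¹ := by rw [hJ]
      _ = z * d * z⁻¹ * (z * G.J * z⁻¹) := by group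
  · rw [BAL_J_one P G h, one_mul, mul_one]

theorem tBAL : S_ph P H → S_UFX P H → S_JI P H → S_MQ P H → S_BAL P H := by
  intro hph hU hJI _ D hD G hG φ hφ K₁ K₂ m1 m2 h
  obtain ⟨-, p2, -, p4, -, -, p7, p8⟩ := hph D hD G hG φ hφ
  obtain ⟨Ψ, hΨ⟩ : ∃ Ψ : P × H → ℝ≥0∞, Ψ = fun g => ∫⁻ y, K₁ (g * y) * K₂ y ∂D.μ := ⟨_, rfl⟩
  have hΨm : Measurable Ψ := by
    rw [hΨ]
    exact BAL_meas P H D hD K₁ K₂ m1 m2
  have e1 := (hU D hD (fun x l => ENNReal.ofReal (ph G φ l (x.1 * h)))).1 K₁ K₂ m1 m2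
  have e2 := (hU D hD (fun x l => ENNReal.ofReal (- ph G φ l (x.1 * h)))).1 K₁ K₂ m1 m2
  rw [← hΨ] at e1 e2
  refine e1.trans (Eq.trans ?_ e2.symm)
  have hJ := hJI D hD
    (fun x l => Ψ (x⁻¹ * (l : P × H) * x) * ENNReal.ofReal (ph G φ l (x.1 * h)))
    (fun l => (BAL_J P G (l : P × H).1, 1)) ?_ ?_ ?_
  · refine hJ.trans ?_
    unfold Dat.L1
    congr 1
    funext x
    refine tsum_congr fun l => ?_
    have c1 : (((BAL_J P G (l : P × H).1, (1 : H)) : P × H) * x)⁻¹ * (l : P × H) *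
        (((BAL_J P G (l : P × H).1, (1 : H)) : P × H) * x) = x⁻¹ * (l : P × H) * x := by
      have c2 : ((BAL_J P G (l : P × H).1, (1 : H)) : P × H) * (l : P × H) =
          (l : P × H) * ((BAL_J P G (l : P × H).1, (1 : H)) : P × H) := by
        refine Prod.ext ?_ ?_
        · exact BAL_J_comm P G hG (l : P × H).1
        · change 1 * (l : P × H).2 = (l : P × H).2 * 1
          rw [one_mul, mul_one]
      obtain ⟨j, hj⟩ : ∃ j : P × H, j = ((BAL_J P G (l : P × H).1, (1 : H)) : P × H) := ⟨_, rfl⟩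
      rw [← hj] at c2 ⊢
      calc (j * x)⁻¹ * (l : P × H) * (j * x) = x⁻¹ * (j⁻¹ * ((l : P × H) * j)) * x := by group
        _ = x⁻¹ * (j⁻¹ * (j * (l : P × H))) * x := by rw [c2]
        _ = x⁻¹ * (l : P × H) * x := by group
    have c3 : ph G φ l ((((BAL_J P G (l : P × H).1, (1 : H)) : P × H) * x).1 * h) =
        - ph G φ l (x.1 * h) := by
      have c4 : (((BAL_J P G (l : P × H).1, (1 : H)) : P × H) * x).1 * h =
          BAL_J P G (l : P × H).1 * (x.1 * h) := by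
        change BAL_J P G (l : P × H).1 * x.1 * h = _
        rw [mul_assoc]
      rw [c4]
      by_cases hz : ∃ z, Fr G (l : P × H).1 z
      · obtain ⟨z, hz⟩ := hz
        rw [BAL_J_eq P G hG hz]
        exact p7 l z (x.1 * h) hz
      · have hz' : ∀ k : P, ¬ ∃ z, Fr G (l : P × H).1 z ∧ G.Pos k (z * G.w) :=
          fun k ⟨z, h1, _⟩ => hz ⟨z, h1⟩
        rw [p2 l _ (hz' _), p2 l _ (hz' _), neg_zero]
    change Ψ ((((BAL_J P G (l : P × H).1, (1 : H)) : P × H) * x)⁻¹ * (l : P × H) *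
        (((BAL_J P G (l : P × H).1, (1 : H)) : P × H) * x)) *
      ENNReal.ofReal (ph G φ l ((((BAL_J P G (l : P × H).1, (1 : H)) : P × H) * x).1 * h)) =
      Ψ (x⁻¹ * (l : P × H) * x) * ENNReal.ofReal (- ph G φ l (x.1 * h))
    rw [c1, c3]
  · intro l
    refine Measurable.mul ?_ ?_
    · refine hΨm.comp ?_
      exact (measurable_inv.mul_const _).mul measurable_id
    · refine ENNReal.measurable_ofReal.comp ((p8 l).comp ?_)
      exact measurable_fst.mul_const _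
  · intro γ l x
    have d1 : ((γ : P × H) * x)⁻¹ * ((γ * l * γ⁻¹ : D.Γ) : P × H) * ((γ : P × H) * x) =
        x⁻¹ * (l : P × H) * x := by
      have : ((γ * l * γ⁻¹ : D.Γ) : P × H) = (γ : P × H) * (l : P × H) * (γ : P × H)⁻¹ := rfl
      rw [this]
      group
    have d2 : ph G φ (γ * l * γ⁻¹) (((γ : P × H) * x).1 * h) = ph G φ l (x.1 * h) := by
      have : ((γ : P × H) * x).1 * h = (γ : P × H).1 * (x.1 * h) := by
        rw [← mul_assoc]
        rfl
      rw [this]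
      exact p4 γ l (x.1 * h)
    rw [d1, d2]
  · intro γ l
    have d3 : ((γ * l * γ⁻¹ : D.Γ) : P × H).1 = (γ : P × H).1 * (l : P × H).1 * (γ : P × H).1⁻¹ :=
      rfl
    refine Prod.ext ?_ ?_
    · change BAL_J P G ((γ * l * γ⁻¹ : D.Γ) : P × H).1 =
        (γ : P × H).1 * BAL_J P G (l : P × H).1 * (γ : P × H).1⁻¹
      rw [d3, BAL_J_conj P G hG]
    · change (1 : H) = (γ : P × H).2 * 1 * (γ : P × H).2⁻¹
      rw [mul_one, mul_inv_cancel]

end Pool.Agent.MPEF.U
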