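import Pool.Agent.Lib.MP_ef3f0f_gt.U.Defs

set_option autoImplicit false

/-!
# MP_ef3f0f_gt, Theorem U, Part F (framing, kernels, balance, closure): definitions
-/

namespace Pool.Agent.MPEF.U

open MeasureTheory Topology
open scoped ENNReal Pointwise

/-- Three further properties of a positive structure, used in Part F. For `SL_n(ℝ)`: (LU) is the
factorization `q = n⁻ d n⁺` of a matrix with positive leading minors (`w b w` is lower triangular);
(BC) `b = d n` and `s⁻¹ n s → 1`; (JNc) is (JN2) for `q` in a compact set, with a bounded `A`-part. -/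
structure PG.OkF {P : Type} [Group P] [TopologicalSpace P] (G : PG P) : Prop where
  LU : ∀ q, G.Pos G.w q → ∃ b ∈ G.Bor, ∃ b' ∈ G.Bor, q = G.w * b * G.w * b'
  BC : ∀ b ∈ G.Bor, ∃ d ∈ G.A, ∀ U ∈ 𝓝 (1 : P), ∃ k : ℕ, ∀ s ∈ G.Dp k,
    ∃ e ∈ U, b * s = d * s * e
  JNc : ∀ Q : Set P, IsCompact Q → (∀ q ∈ Q, G.Pos G.w q) → ∃ R₀ : ℕ, ∀ U ∈ 𝓝 (1 : P),
    ∃ k : ℕ, ∀ s ∈ G.Dp k, ∀ s' ∈ G.Dp k, ∀ q ∈ Q,
      ∃ e ∈ U, ∃ e' ∈ U, ∃ d ∈ G.D1 ^ R₀, s * q * s' = e * (d * s * s') * e'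

section KernelsP

variable {P : Type} [Group P] [MeasurableSpace P]

/-- The part in `P` of the kernel of the edges with the windows `S`, `K`, range `R`, length `n`;
`D.eg G S K R n = D.tk (eP D.μ₁ G S K R n) n` by `rfl`. -/
noncomputable def eP (μ : Measure P) (G : PG P) (S K : Set P) (R n : ℕ) : P → ℝ≥0∞ :=
  kk μ G.a (iK (S * G.D1 ^ R)) (iK (G.ew K)) n

/-- Convolution on `P`. -/
noncomputable def cvP (μ : Measure P) (k k' : P → ℝ≥0∞) : P → ℝ≥0∞ :=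
  fun g => ∫⁻ q, k q * k' (q⁻¹ * g) ∂μ

end KernelsP

section ClosedLoops

variable {P H : Type} [Group P] [Group H] [MeasurableSpace P] [MeasurableSpace H]

/-- Sum over closed loops: `∫_M ∑_l K(x⁻¹ l x) f(x; l)`. -/
noncomputable def Dat.L1 (D : Dat P H) (K : P × H → ℝ≥0∞) (f : P × H → D.Γ → ℝ≥0∞) : ℝ≥0∞ :=
  D.IM fun x => ∑' l : D.Γ, K (x⁻¹ * (l : P × H) * x) * f x l

/-- The window `U w` of the germs near `w`. -/
def PG.uw (G : PG P) (U : Set P) : Set P := U * {G.w}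

/-- The mass of `φ` on the straight closed loops of length `N` and range `R`. -/
noncomputable def Dat.LI (D : Dat P H) (G : PG P) (U : Set P) (R N : ℕ) (φ : D.Γ → P → ℝ) :
    ℝ≥0∞ :=
  D.L1 (D.eg G U (G.uw U) R N) fun x l => ab (ph G φ l x.1)

/-- The mass of `φ` on pairs of edges with the kernels `K₁`, `K₂`; `c` is the start germ of the first
edge. -/
noncomputable def Dat.PX (D : Dat P H) (G : PG P) (c : P) (K₁ K₂ : P × H → ℝ≥0∞)
    (φ : D.Γ → P → ℝ) : ℝ≥0∞ :=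
  D.X2 K₁ K₂ fun x u v => ab (ph G φ (u * v⁻¹) (x.1 * c))

/-- The defect of `φ` on thetas with the kernels `K₀`, `K₁`, `K₂` and the start germs `c`. -/
noncomputable def Dat.TX (D : Dat P H) (G : PG P) (c : Fin 3 → P) (K₀ K₁ K₂ : P × H → ℝ≥0∞)
    (φ : D.Γ → P → ℝ) : ℝ≥0∞ :=
  D.X3 K₀ K₁ K₂ fun x u v w => ab (dl G φ (c 0) (c 1) (c 2) x u v w)

/-- The mass of `φ` on the straight pairs: `u` from `x` to `y` with the germs `1`, `w`, and `v` with the
germs `w`, `1` (so `u v⁻¹` is a straight closed loop). -/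
noncomputable def Dat.SP (D : Dat P H) (G : PG P) (U : Set P) (R n m : ℕ) (φ : D.Γ → P → ℝ) :
    ℝ≥0∞ :=
  D.PX G 1 (D.eg G U (G.uw U) R n) (D.eg G (G.uw U) U R m) φ

end ClosedLoops

section NiceThetas

variable {P H : Type} [Group P] [Group H] [MeasurableSpace P] [MeasurableSpace H]

/-- Window functions of a theta type. -/
structure Wf (P : Type) where
  s : Fin 3 → P → ℝ≥0∞
  k : Fin 3 → P → ℝ≥0∞

/-- The window functions are `≥ 1` on the windows of the type `t` (with range `R`) and bounded and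
supported in the windows of `t'` (with range `R`). -/
structure Wf.Ok (G : PG P) (f : Wf P) (t t' : Th P) (R : ℕ) : Prop where
  sm : ∀ i, Measurable (f.s i)
  km : ∀ i, Measurable (f.k i)
  sl : ∀ i g, iK (t.S i * G.D1 ^ R) g ≤ f.s i g
  kl : ∀ i g, iK (G.ew (t.K i)) g ≤ f.k i g
  su : ∃ C : ℝ≥0∞, C ≠ ∞ ∧ ∀ i g, f.s i g ≤ C * iK (t'.S i * G.D1 ^ R) g
  ku : ∃ C : ℝ≥0∞, C ≠ ∞ ∧ ∀ i g, f.k i g ≤ C * iK (G.ew (t'.K i)) g

/-- The edges with the window functions `f`, number `i`, length `n`. -/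
noncomputable def Dat.we (D : Dat P H) (G : PG P) (f : Wf P) (i : Fin 3) (n : ℕ) :
    P × H → ℝ≥0∞ := D.ed G (f.s i) (f.k i) n

/-- The total defect of `φ` for the window functions `f`, lengths in `[r, 4r]`. -/
noncomputable def Dat.EW (D : Dat P H) (G : PG P) (f : Wf P) (c : Fin 3 → P) (r : ℕ)
    (φ : D.Γ → P → ℝ) : ℝ≥0∞ :=
  ∑ n₀ ∈ Finset.Icc r (4 * r), ∑ n₁ ∈ Finset.Icc r (4 * r), ∑ n₂ ∈ Finset.Icc r (4 * r),
    D.TX G c (D.we G f 0 n₀) (D.we G f 1 n₁) (D.we G f 2 n₂) φ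

/-- The total mass of `φ` on the pairs of edges of the thetas with the window functions `f`, lengths
in `[r, 4r]`. -/
noncomputable def Dat.AW (D : Dat P H) (G : PG P) (f : Wf P) (c : Fin 3 → P) (r : ℕ)
    (φ : D.Γ → P → ℝ) : ℝ≥0∞ :=
  ∑ n ∈ Finset.Icc r (4 * r), ∑ m ∈ Finset.Icc r (4 * r),
    (D.PX G (c 0) (D.we G f 0 n) (D.we G f 1 m) φ + D.PX G (c 1) (D.we G f 1 n) (D.we G f 2 m) φ +
      D.PX G (c 2) (D.we G f 2 n) (D.we G f 0 m) φ)

end NiceThetas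

end Pool.Agent.MPEF.U
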