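import Pool.Agent.Lib.MP_ef3f0f_gt.U.F.SpecA

set_option autoImplicit false

/-!
# MP_ef3f0f_gt, Theorem U, Part F, module FR: frames of pairs of edges
-/

namespace Pool.Agent.MPEF.U

open MeasureTheory Topology
open scoped ENNReal Pointwise

variable (P : Type) [Group P] [TopologicalSpace P] [IsTopologicalGroup P] [LocallyCompactSpace P]
  [T2Space P]

theorem tFR : S_Wr P → S_MG P → S_FRc P → S_NB P → S_FR P := by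
  intro hWr hMG hFRc hNB G hG hF S₁ K₁ S₂ K₂ hS₁ hK₁ hS₂ hK₂ hS hK
  obtain ⟨S₁', S₂', hc1, hc2, hi1, hi2, hpos⟩ := (hNB G hG).1 S₁ S₂ hS₁ hS₂ hS
  obtain ⟨k, hk⟩ := hFRc G hG S₁' S₂' hc1 hc2 hpos
  obtain ⟨k', hk'⟩ := hMG G hG hF S₁ K₁ K₂ S₂ S₁' S₂' hS₁ hK₁ hK₂ hS₂ hi1 hi2 hK k
  refine ⟨k', fun g hg h hh => ?_⟩
  have h1 : h⁻¹ ∈ G.W K₂ S₂ k' := (hWr G hG).1 S₂ K₂ k' h hh
  obtain ⟨z, hz, hz1, hz2⟩ := hk _ (hk' g hg h⁻¹ h1)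
  exact ⟨z, hz, fun s hs => hz1 s (interior_subset (hi1 hs)),
    fun s hs => hz2 s (interior_subset (hi2 hs))⟩

end Pool.Agent.MPEF.U
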