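import Pool.Agent.Lib.MP_ef3f0f_gt.U.F.SpecB

set_option autoImplicit false

/-!
# MP_ef3f0f_gt, Theorem U, Part F, GE1: change of the frames of a start window
-/

namespace Pool.Agent.MPEF.U

open MeasureTheory Topology
open scoped ENNReal Pointwise

section GE1

variable (P : Type) [Group P] [TopologicalSpace P] [IsTopologicalGroup P] [LocallyCompactSpace P]
  [T2Space P] [SecondCountableTopology P] [MeasurableSpace P] [BorelSpace P]

private theorem GE1_iK_le {S S' : Set P} {q q' : P} (h : q ∈ S → q' ∈ S') : iK S q ≤ iK S' q' := by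
  unfold iK
  by_cases hq : q ∈ S
  · rw [Set.indicator_of_mem hq, Set.indicator_of_mem (h hq)]
  · rw [Set.indicator_of_notMem hq]
    exact zero_le

private theorem GE1_ew_open (G : PG P) {K : Set P} (hK : IsOpen K) : IsOpen (G.ew K) := by
  have hc : Continuous fun q : P => q⁻¹ * G.w := continuous_inv.mul continuous_const
  exact hK.preimage hc

private theorem GE1_core (G : PG P) (hG : G.Ok) (hF : G.OkF) (hDF : S_DF P) (hTB : S_TB P)
    (hNT : S_NT1 P) (S K S' K' : Set P) (hS : IsCompact S) (hK : IsCompact K) (hS' : IsOpen S')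
    (hcov : ∀ s ∈ S, ∃ s' ∈ S', ∃ b ∈ G.Bor, s = s' * b) (hKK' : K ⊆ interior K') :
    ∃ c : ℕ, ∀ R : ℕ, ∃ (M : Finset P) (T : ℕ), ∀ n, T ≤ n → ∀ q y : P, q ∈ S * G.D1 ^ R →
      (G.a ^ n)⁻¹ * q⁻¹ * y ∈ G.ew K → ∃ m ∈ M, q * m ∈ S' * G.D1 ^ (R + c) ∧
        (G.a ^ n)⁻¹ * (q * m)⁻¹ * y ∈ G.ew (interior K') := by
  classical
  obtain ⟨hDc, -, -, -, hDm, -, hDmul, -, -, hDp, hDT⟩ := hDF G hG
  obtain ⟨t, ht⟩ := hS.elim_finite_subcover (fun b : G.Bor => (fun x : P => x * (b : P)⁻¹) ⁻¹' S')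
    (fun b => hS'.preimage (continuous_mul_const _)) (by
      intro s hs
      obtain ⟨s', hs', b, hb, h⟩ := hcov s hs
      refine Set.mem_iUnion.2 ⟨⟨b, hb⟩, ?_⟩
      show s * b⁻¹ ∈ S'
      rw [h, mul_inv_cancel_right]
      exact hs')
  choose d hdA hd using fun b : G.Bor => hF.BC b b.2
  choose cc hcc using fun b : G.Bor => hG.D1e (d b) (hdA b)
  have hW : IsOpen (⋃ b ∈ t, (fun x : P => x * (b : P)⁻¹) ⁻¹' S') :=
    isOpen_biUnion fun b _ => hS'.preimage (continuous_mul_const _)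
  obtain ⟨V, hV, hVS⟩ := (hTB G hG S (⋃ b ∈ t, (fun x : P => x * (b : P)⁻¹) ⁻¹' S') hS
    (by rw [hW.interior_eq]; exact ht)).1
  obtain ⟨U, hU, hUK⟩ := (hTB G hG K (interior K') hK (by rw [interior_interior]; exact hKK')).2.2
  choose kb hkb using fun b : G.Bor => hd b U hU
  refine ⟨t.sup cc, fun R => ?_⟩
  obtain ⟨T, hT⟩ := hDT R (t.sup kb)
  obtain ⟨F, hFD, hFc⟩ := hNT (G.D1 ^ R) (hDc R) V hV
  refine ⟨(t ×ˢ F).image fun p => p.2⁻¹ * (p.1 : P)⁻¹ * d p.1 * p.2, T, ?_⟩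
  intro n hn q y hq hy
  obtain ⟨x, hx, δ, hδ, rfl⟩ := Set.mem_mul.1 hq
  obtain ⟨δ', hδ', v, hv, rfl⟩ := hFc δ hδ
  have hxv := hVS 1 (mem_of_mem_nhds hV) x hx v hv
  rw [one_mul] at hxv
  obtain ⟨b, hb, hxb⟩ := Set.mem_iUnion₂.1 hxv
  have hxb' : x * v * (b : P)⁻¹ ∈ S' := hxb
  refine ⟨δ'⁻¹ * (b : P)⁻¹ * d b * δ', ?_, ?_, ?_⟩
  · rw [Finset.mem_image]
    exact ⟨(b, δ'), Finset.mem_product.2 ⟨hb, hδ'⟩, rfl⟩
  · refine Set.mem_mul.2 ⟨x * v * (b : P)⁻¹, hxb', d b * δ', ?_, by group⟩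
    have h1 : d b ∈ G.D1 ^ (t.sup cc) := hDm (cc b) (t.sup cc) (Finset.le_sup hb) (hcc b)
    have h2 := hDmul (t.sup cc) R (d b) h1 δ' (hFD δ' hδ')
    rwa [add_comm] at h2
  · have h1 : δ' * G.a ^ n ∈ G.Dp (kb b) :=
      hDp (kb b) (t.sup kb) (Finset.le_sup hb) (hT n hn δ' (hFD δ' hδ'))
    obtain ⟨e, he, hbe⟩ := hkb b (δ' * G.a ^ n) h1
    have h2 := hUK e he _ hy 1 (mem_of_mem_nhds hU)
    have h3 : e * ((G.a ^ n)⁻¹ * (x * (v * δ'))⁻¹ * y) * 1 =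
        (G.a ^ n)⁻¹ * (x * (v * δ') * (δ'⁻¹ * (b : P)⁻¹ * d b * δ'))⁻¹ * y := by
      have h4 : e = (d b * (δ' * G.a ^ n))⁻¹ * ((b : P) * (δ' * G.a ^ n)) := by
        rw [hbe]
        group
      rw [h4]
      group
    rwa [h3] at h2

theorem tGE1 : S_DF P → S_TB P → S_NB P → S_NT1 P → S_KT P → S_AD P → S_GE1 P := by
  intro hDF hTB _h1 hNT _h2 _h3 G μ _ _ _ hG hF S K S' K' hS hK hS' hcov hKK'
  obtain ⟨c, hc⟩ := GE1_core P G hG hF hDF hTB hNT S K S' K' hS hK hS' hcov hKK'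
  refine ⟨c, fun R => ?_⟩
  obtain ⟨M, T, hM⟩ := hc R
  refine ⟨(M.card : ℝ≥0∞), T, ENNReal.natCast_ne_top _, ?_⟩
  intro n hn g
  have hO1 : MeasurableSet (S' * G.D1 ^ (R + c)) := hS'.mul_right.measurableSet
  have hO2 : MeasurableSet (G.ew (interior K')) := (GE1_ew_open P G isOpen_interior).measurableSet
  have hm1 : Measurable (iK (S' * G.D1 ^ (R + c))) := measurable_const.indicator hO1
  have hm2 : Measurable (iK (G.ew (interior K'))) := measurable_const.indicator hO2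
  have hΦ : Measurable fun q : P => iK (S' * G.D1 ^ (R + c)) q *
      iK (G.ew (interior K')) ((G.a ^ n)⁻¹ * q⁻¹ * g) := by
    refine hm1.mul (hm2.comp ?_)
    have hcont : Continuous fun q : P => (G.a ^ n)⁻¹ * q⁻¹ * g :=
      (continuous_const.mul continuous_inv).mul continuous_const
    exact hcont.measurable
  unfold eP kk
  calc ∫⁻ q, iK (S * G.D1 ^ R) q * iK (G.ew K) ((G.a ^ n)⁻¹ * q⁻¹ * g) ∂μ
      ≤ ∫⁻ q, ∑ m ∈ M, iK (S' * G.D1 ^ (R + c)) (q * m) *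
          iK (G.ew (interior K')) ((G.a ^ n)⁻¹ * (q * m)⁻¹ * g) ∂μ := by
        refine lintegral_mono fun q => ?_
        by_cases hq : q ∈ S * G.D1 ^ R
        · by_cases hy : (G.a ^ n)⁻¹ * q⁻¹ * g ∈ G.ew K
          · obtain ⟨m, hm, h1, h2⟩ := hM n hn q g hq hy
            refine le_trans ?_ (Finset.single_le_sum (f := fun m =>
              iK (S' * G.D1 ^ (R + c)) (q * m) *
                iK (G.ew (interior K')) ((G.a ^ n)⁻¹ * (q * m)⁻¹ * g))
              (fun i _ => zero_le) hm)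
            exact mul_le_mul' (GE1_iK_le P fun _ => h1) (GE1_iK_le P fun _ => h2)
          · have : iK (G.ew K) ((G.a ^ n)⁻¹ * q⁻¹ * g) = 0 := Set.indicator_of_notMem hy _
            rw [this, mul_zero]
            exact zero_le
        · have : iK (S * G.D1 ^ R) q = 0 := Set.indicator_of_notMem hq _
          rw [this, zero_mul]
          exact zero_le
    _ = ∑ m ∈ M, ∫⁻ q, iK (S' * G.D1 ^ (R + c)) (q * m) *
          iK (G.ew (interior K')) ((G.a ^ n)⁻¹ * (q * m)⁻¹ * g) ∂μ := by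
        refine lintegral_finsetSum _ fun m _ => ?_
        exact hΦ.comp (measurable_mul_const m)
    _ = ∑ _m ∈ M, ∫⁻ q, iK (S' * G.D1 ^ (R + c)) q *
          iK (G.ew (interior K')) ((G.a ^ n)⁻¹ * q⁻¹ * g) ∂μ := by
        refine Finset.sum_congr rfl fun m _ => ?_
        exact lintegral_mul_right_eq_self (fun q => iK (S' * G.D1 ^ (R + c)) q *
          iK (G.ew (interior K')) ((G.a ^ n)⁻¹ * q⁻¹ * g)) m
    _ = (M.card : ℝ≥0∞) * ∫⁻ q, iK (S' * G.D1 ^ (R + c)) q *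
          iK (G.ew (interior K')) ((G.a ^ n)⁻¹ * q⁻¹ * g) ∂μ := by
        rw [Finset.sum_const, nsmul_eq_mul]
    _ ≤ (M.card : ℝ≥0∞) * ∫⁻ q, iK (S' * G.D1 ^ (R + c)) q *
          iK (G.ew K') ((G.a ^ n)⁻¹ * q⁻¹ * g) ∂μ := by
        refine mul_le_mul_right ?_ _
        refine lintegral_mono fun q => ?_
        refine mul_le_mul' le_rfl (GE1_iK_le P ?_)
        intro h
        show ((G.a ^ n)⁻¹ * q⁻¹ * g)⁻¹ * G.w ∈ K'
        exact interior_subset (s := K') h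

end GE1

end Pool.Agent.MPEF.U
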