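import Pool.Agent.Lib.MP_ef3f0f_gt.U.F.SpecD

set_option autoImplicit false
set_option linter.unusedSectionVars false

/-!
# MP_ef3f0f_gt, Theorem U, Part F, module `POS`: positivity of the total defect
-/

namespace Pool.Agent.MPEF.U

open MeasureTheory Topology
open scoped ENNReal Pointwise

section POSAux

variable {P H : Type} [Group P] [Group H] [MeasurableSpace P] [MeasurableSpace H]

private theorem POS_kk (μ : Measure P) (a : P) {k₁ k₂ k₁' k₂' : P → ℝ≥0∞}
    (h₁ : ∀ g, k₁ g ≤ k₁' g) (h₂ : ∀ g, k₂ g ≤ k₂' g) (n : ℕ) (g : P) :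
    kk μ a k₁ k₂ n g ≤ kk μ a k₁' k₂' n g :=
  lintegral_mono fun _ => mul_le_mul' (h₁ _) (h₂ _)

private theorem POS_IM [TopologicalSpace P] [TopologicalSpace H] (D : Dat P H) (hD : D.Ok)
    (f : P × H → ℝ≥0∞) (hf : Measurable f) (h : D.IM f = 0) : ∃ x, f x = 0 := by
  by_contra hcon
  push Not at hcon
  have h1 : (fun x => D.χ x * f x) =ᵐ[D.μ] 0 := (lintegral_eq_zero_iff (hD.χm.mul hf)).mp h
  have h2 : D.χ =ᵐ[D.μ] fun _ => 0 := h1.mono fun x hx => by
    have h3 : D.χ x * f x = 0 := hx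
    exact (mul_eq_zero.mp h3).resolve_right (hcon x)
  have h3 : ∫⁻ x, D.χ x ∂D.μ = 0 := by
    rw [lintegral_congr_ae h2, lintegral_zero]
  rw [hD.mass] at h3
  exact one_ne_zero h3

/-- The straight kernel is below the window kernel. -/
private theorem POS_eg (D : Dat P H) (G : PG P) [TopologicalSpace P] (hG : G.Ok) (t t' : Th P)
    (f : Wf P) (R : ℕ) (hf : f.Ok G t t' R) (i : Fin 3) (n : ℕ) (g : P × H) :
    D.eg G (t.S i) (t.K i) 0 n g ≤ D.we G f i n g := by
  have h1 : (1 : P) ∈ G.D1 ^ R := by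
    have h := Set.pow_mem_pow hG.D11 (n := R)
    rwa [one_pow] at h
  have h2 : t.S i * G.D1 ^ 0 ⊆ t.S i * G.D1 ^ R := by
    rintro x ⟨s, hs, d, hd, rfl⟩
    rw [pow_zero] at hd
    have hd' : d = 1 := hd
    refine ⟨s, hs, 1, h1, ?_⟩
    rw [hd']
  refine mul_le_mul' (POS_kk D.μ₁ G.a (fun q => ?_) (fun q => hf.kl i q) n g.1) le_rfl
  exact (Set.indicator_le_indicator_of_subset h2 (fun _ => zero_le) q).trans (hf.sl i q)

end POSAux

variable (P H : Type) [Group P] [Group H] [TopologicalSpace P] [TopologicalSpace H]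
  [IsTopologicalGroup P] [IsTopologicalGroup H] [LocallyCompactSpace P] [LocallyCompactSpace H]
  [T2Space P] [T2Space H] [SecondCountableTopology P] [SecondCountableTopology H]
  [MeasurableSpace P] [MeasurableSpace H] [BorelSpace P] [BorelSpace H]

theorem tPOS : S_LoG P H → S_UpG P H → S_MQ P H → S_ph P H → S_TXc P H → S_nu P H →
    S_POS P H := by
  intro hLo _hUp hMQ hph _hTXc hnu D hD G hG NK hNK hE t t' _ht _ht' hin R f hf
  have hLi : ∀ i : Fin 3, ∃ (c : ℝ≥0∞) (T : ℕ), c ≠ 0 ∧ ∀ n, T ≤ n → ∀ x y,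
      c ≤ D.N (D.eg G (t.S i) (t.K i) 0 n) x y := fun i =>
    hLo D hD G hG NK hNK hE (t.S i) (t.K i) (hin i).2.2.2.1 (hin i).2.2.2.2
  choose c T hc hT using hLi
  refine ⟨T 0 + T 1 + T 2, fun r hr φ hφ hdl hEW => ?_⟩
  have hTi : ∀ i : Fin 3, T i ≤ r := by
    intro i
    fin_cases i
    · change T 0 ≤ r
      omega
    · change T 1 ≤ r
      omega
    · change T 2 ≤ r
      omega
  obtain ⟨-, -, -, -, -, -, -, p8⟩ := hph D hD G hG φ hφ
  have hnm : ∀ n, Measurable (D.nu n) := (hnu D hD).1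
  have := hD.haar₁
  -- there is an edge of each kind
  have hex : ∀ (i : Fin 3) (x y : P × H), ∃ u : D.Γ,
      D.we G f i r (x⁻¹ * (u : P × H) * y) ≠ 0 := by
    intro i x y
    by_contra hcon
    push Not at hcon
    have h1 : D.N (D.eg G (t.S i) (t.K i) 0 r) x y = 0 := by
      refine ENNReal.tsum_eq_zero.mpr fun u => ?_
      have h2 := POS_eg D G hG t t' f R hf i r (x⁻¹ * (u : P × H) * y)
      rw [hcon u] at h2
      exact le_antisymm h2 zero_le
    have h2 := hT i r (hTi i) x y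
    rw [h1] at h2
    exact hc i (le_antisymm h2 zero_le)
  -- measurability of the kernels
  have hwm : ∀ i : Fin 3, Measurable (D.we G f i r) := by
    intro i
    have h1 : Measurable (kk D.μ₁ G.a (f.s i) (f.k i) r) := by
      have h : Measurable fun z : P × P =>
          f.s i z.2 * f.k i ((G.a ^ r)⁻¹ * z.2⁻¹ * z.1) :=
        ((hf.sm i).comp measurable_snd).mul
          ((hf.km i).comp ((measurable_const.mul measurable_snd.inv).mul measurable_fst))
      exact h.lintegral_prod_right'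
    exact (h1.comp measurable_fst).mul ((hnm r).comp measurable_snd)
  have hphm : ∀ (l : D.Γ) (k : P), Measurable fun x : P × H => ph G φ l (x.1 * k) :=
    fun l k => (p8 l).comp (measurable_fst.mul_const k)
  obtain ⟨m1, m2⟩ := (hMQ D hD (D.we G f 0 r) (D.we G f 1 r) (D.we G f 2 r)
    (hwm 0) (hwm 1) (hwm 2)).2.2 (fun x u v w => ab (dl G φ (t.c 0) (t.c 1) (t.c 2) x u v w))
    (fun u v w => by
      have h1 : Measurable fun x : P × H => dl G φ (t.c 0) (t.c 1) (t.c 2) x u v w :=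
        ((hphm _ _).add (hphm _ _)).add (hphm _ _)
      exact (measurable_norm.comp h1).ennreal_ofReal)
  -- the summand with the lengths `r`, `r`, `r`
  have hr4 : r ∈ Finset.Icc r (4 * r) := Finset.mem_Icc.mpr ⟨le_rfl, by omega⟩
  have hTX : D.TX G t.c (D.we G f 0 r) (D.we G f 1 r) (D.we G f 2 r) φ = 0 := by
    have h1 := Finset.sum_eq_zero_iff.mp hEW r hr4
    have h2 := Finset.sum_eq_zero_iff.mp h1 r hr4
    exact Finset.sum_eq_zero_iff.mp h2 r hr4
  obtain ⟨x, hx⟩ := POS_IM D hD _ m2 hTX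
  obtain ⟨y, hy⟩ := POS_IM D hD _ (m1.comp (measurable_const (a := x) |>.prodMk measurable_id)) hx
  obtain ⟨u, hu⟩ := hex 0 x y
  obtain ⟨v, hv⟩ := hex 1 x y
  obtain ⟨w, hw⟩ := hex 2 x y
  have hy' : D.st3 (D.we G f 0 r) (D.we G f 1 r) (D.we G f 2 r) x y
      (fun u v w => ab (dl G φ (t.c 0) (t.c 1) (t.c 2) x u v w)) = 0 := hy
  have h1 := ENNReal.tsum_eq_zero.mp (ENNReal.tsum_eq_zero.mp (ENNReal.tsum_eq_zero.mp hy' u) v) w
  have h2 : ab (dl G φ (t.c 0) (t.c 1) (t.c 2) x u v w) ≠ 0 := by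
    have h3 := hdl x y u v w hu hv hw
    intro h4
    have h5 : |dl G φ (t.c 0) (t.c 1) (t.c 2) x u v w| ≤ 0 := ENNReal.ofReal_eq_zero.mp h4
    rw [abs_of_pos h3] at h5
    linarith
  exact (mul_ne_zero (mul_ne_zero (mul_ne_zero hu hv) hw) h2) h1

end Pool.Agent.MPEF.U
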