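import Pool.Agent.Lib.MP_ef3f0f_gt.U.F.SpecD

set_option autoImplicit false

namespace Pool.Agent.MPEF.U

open MeasureTheory Topology
open scoped ENNReal Pointwise

private theorem SG_sum (I : Finset ℕ) (f g h : ℕ → ℕ → ℝ≥0∞) :
    ∑ n₀ ∈ I, ∑ n₁ ∈ I, ∑ n₂ ∈ I, (f n₀ n₁ + g n₁ n₂ + h n₂ n₀) =
      (I.card : ℝ≥0∞) * ∑ n ∈ I, ∑ m ∈ I, (f n m + g n m + h n m) := by
  have h1 : ∑ n₀ ∈ I, ∑ _n₁ ∈ I, ∑ n₂ ∈ I, h n₂ n₀ =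
      (I.card : ℝ≥0∞) * ∑ n ∈ I, ∑ m ∈ I, h n m := by
    simp only [Finset.sum_const, nsmul_eq_mul, ← Finset.mul_sum]
    rw [Finset.sum_comm]
  have h2 : ∑ n₀ ∈ I, ∑ n₁ ∈ I, ∑ _n₂ ∈ I, f n₀ n₁ =
      (I.card : ℝ≥0∞) * ∑ n ∈ I, ∑ m ∈ I, f n m := by
    simp only [Finset.sum_const, nsmul_eq_mul, ← Finset.mul_sum]
  have h3 : ∑ _n₀ ∈ I, ∑ n₁ ∈ I, ∑ n₂ ∈ I, g n₁ n₂ =
      (I.card : ℝ≥0∞) * ∑ n ∈ I, ∑ m ∈ I, g n m := by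
    simp only [Finset.sum_const, nsmul_eq_mul]
  calc ∑ n₀ ∈ I, ∑ n₁ ∈ I, ∑ n₂ ∈ I, (f n₀ n₁ + g n₁ n₂ + h n₂ n₀)
      = ∑ n₀ ∈ I, ∑ n₁ ∈ I, ∑ _n₂ ∈ I, f n₀ n₁ + ∑ _n₀ ∈ I, ∑ n₁ ∈ I, ∑ n₂ ∈ I, g n₁ n₂ +
          ∑ n₀ ∈ I, ∑ _n₁ ∈ I, ∑ n₂ ∈ I, h n₂ n₀ := by
        simp only [Finset.sum_add_distrib]
    _ = (I.card : ℝ≥0∞) * ∑ n ∈ I, ∑ m ∈ I, (f n m + g n m + h n m) := by
        rw [h1, h2, h3]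
        simp only [Finset.sum_add_distrib, mul_add]

private theorem SG_fin (C S : ℝ≥0∞) (r c : ℕ) (hr : 1 ≤ r) (hc : c ≤ 4 * r) :
    C * ((r : ℝ≥0∞)⁻¹) ^ 6 * ((c : ℝ≥0∞) * S) ≤ C * 4 * ((r : ℝ≥0∞)⁻¹) ^ 5 * S := by
  have hr0 : (r : ℝ≥0∞) ≠ 0 := by exact_mod_cast (by omega : r ≠ 0)
  have hr1 : (r : ℝ≥0∞)⁻¹ * (r : ℝ≥0∞) = 1 :=
    ENNReal.inv_mul_cancel hr0 (ENNReal.natCast_ne_top r)
  have hc1 : (c : ℝ≥0∞) ≤ 4 * (r : ℝ≥0∞) := by exact_mod_cast hc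
  calc C * ((r : ℝ≥0∞)⁻¹) ^ 6 * ((c : ℝ≥0∞) * S)
      ≤ C * ((r : ℝ≥0∞)⁻¹) ^ 6 * ((4 * (r : ℝ≥0∞)) * S) := by gcongr
    _ = C * 4 * ((r : ℝ≥0∞)⁻¹) ^ 5 * ((r : ℝ≥0∞)⁻¹ * (r : ℝ≥0∞)) * S := by ring
    _ = C * 4 * ((r : ℝ≥0∞)⁻¹) ^ 5 * S := by rw [hr1, mul_one]

section

variable (P H : Type) [Group P] [Group H] [TopologicalSpace P] [TopologicalSpace H]
  [IsTopologicalGroup P] [IsTopologicalGroup H] [LocallyCompactSpace P] [LocallyCompactSpace H]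
  [T2Space P] [T2Space H] [SecondCountableTopology P] [SecondCountableTopology H]
  [MeasurableSpace P] [MeasurableSpace H] [BorelSpace P] [BorelSpace H]

theorem tSG : S_SGt P H → S_SG P H := by
  intro hSGt D hD G hG hF NK hNK hEq t t' ht ht' hin R f hf hs hk
  obtain ⟨C, T, hC, h⟩ := hSGt D hD G hG hF NK hNK hEq t t' ht ht' hin R f hf hs hk
  refine ⟨C * 4, max T 1, ENNReal.mul_ne_top hC (by norm_num), fun r hr φ hφ hpos => ?_⟩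
  have hTr : T ≤ r := le_trans (le_max_left _ _) hr
  have hr1 : 1 ≤ r := le_trans (le_max_right _ _) hr
  unfold Dat.EW Dat.AW
  have hstep : ∑ n₀ ∈ Finset.Icc r (4 * r), ∑ n₁ ∈ Finset.Icc r (4 * r),
      ∑ n₂ ∈ Finset.Icc r (4 * r), D.TX G t.c (D.we G f 0 n₀) (D.we G f 1 n₁) (D.we G f 2 n₂) φ ≤
      ∑ n₀ ∈ Finset.Icc r (4 * r), ∑ n₁ ∈ Finset.Icc r (4 * r), ∑ n₂ ∈ Finset.Icc r (4 * r),
        C * ((r : ℝ≥0∞)⁻¹) ^ 6 *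
            (D.PX G (t.c 0) (D.we G f 0 n₀) (D.we G f 1 n₁) φ +
              D.PX G (t.c 1) (D.we G f 1 n₁) (D.we G f 2 n₂) φ +
              D.PX G (t.c 2) (D.we G f 2 n₂) (D.we G f 0 n₀) φ) := by
    refine Finset.sum_le_sum fun n₀ h₀ => Finset.sum_le_sum fun n₁ h₁ =>
      Finset.sum_le_sum fun n₂ h₂ => ?_
    rw [Finset.mem_Icc] at h₀ h₁ h₂
    exact h r hTr n₀ n₁ n₂ h₀.1 h₁.1 h₂.1 φ hφ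
      (hpos n₀ n₁ n₂ h₀.1 h₀.2 h₁.1 h₁.2 h₂.1 h₂.2)
  refine hstep.trans ?_
  simp only [← Finset.mul_sum]
  rw [SG_sum (Finset.Icc r (4 * r))
    (fun n m => D.PX G (t.c 0) (D.we G f 0 n) (D.we G f 1 m) φ)
    (fun n m => D.PX G (t.c 1) (D.we G f 1 n) (D.we G f 2 m) φ)
    (fun n m => D.PX G (t.c 2) (D.we G f 2 n) (D.we G f 0 m) φ)]
  refine SG_fin C _ r _ hr1 ?_
  rw [Nat.card_Icc]
  omega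

end

end Pool.Agent.MPEF.U
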