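import Pool.Agent.Lib.MP_ef3f0f_gt.U.F.Defs

set_option autoImplicit false

/-!
# MP_ef3f0f_gt, Theorem U, Part F, statements on the group `P` (windows, framing)

Modules `U/F/X.lean`: `theorem tX : S_Y P → ... → S_X P` (the hypotheses named in the docstring of
`S_X`), in a section with the same `variable` line (explicit `P`), namespace `Pool.Agent.MPEF.U`.
Notation: `W S K k` = products `s t q`, `s ∈ S`, `t ∈ Dp k`, `q⁻¹ w ∈ K`; so `q = w κ⁻¹` with `κ ∈ K`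
(`w w = 1`). `Pos w (w x) ↔ Pos 1 x`, `Pos κ κ' ↔ Pos 1 (κ⁻¹ κ')` (axiom `Pl`). `Pos` is symmetric and
right `Bor`-invariant in both arguments (`Ps`, `Pr`), `A ≤ Bor`.
-/

namespace Pool.Agent.MPEF.U

open MeasureTheory Topology
open scoped ENNReal Pointwise

variable (P : Type) [Group P] [TopologicalSpace P] [IsTopologicalGroup P] [LocallyCompactSpace P]
  [T2Space P]

/-- **DF.** Facts on `D1 ^ R`, `a ^ n`, `Dp k`. Proof: induction on `R` (`IsCompact.mul`, `comm`, `D1A`, `D1i`, `D1w`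
with `w w = 1`, `D11`); `a ∈ A`; `w a w = a⁻¹`; `Dps`. The last one: `Dpd R` gives `c`, `T := k + c`,
`a ^ n ∈ Dp n ⊆ Dp (k + c)`, `a ^ n * d ∈ Dp k`, and `a ^ n`, `d` commute. -/
def S_DF : Prop :=
  ∀ G : PG P, G.Ok →
    (∀ R, IsCompact (G.D1 ^ R)) ∧ (∀ R, G.D1 ^ R ⊆ G.A) ∧ (∀ R, (1 : P) ∈ G.D1 ^ R) ∧
    (∀ R, ∀ d ∈ G.D1 ^ R, d⁻¹ ∈ G.D1 ^ R) ∧ (∀ R R', R ≤ R' → G.D1 ^ R ⊆ G.D1 ^ R') ∧
    (∀ R, ∀ d ∈ G.D1 ^ R, G.w * d * G.w ∈ G.D1 ^ R) ∧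
    (∀ R R', ∀ d ∈ G.D1 ^ R, ∀ d' ∈ G.D1 ^ R', d * d' ∈ G.D1 ^ (R + R')) ∧
    (∀ n : ℕ, G.a ^ n ∈ G.A) ∧ (∀ n : ℕ, G.w * G.a ^ n = (G.a ^ n)⁻¹ * G.w) ∧
    (∀ k l, k ≤ l → G.Dp l ⊆ G.Dp k) ∧
    (∀ R k, ∃ T : ℕ, ∀ n, T ≤ n → ∀ d ∈ G.D1 ^ R, d * G.a ^ n ∈ G.Dp k)

/-- **TB.** Tube lemmas. Proof: the continuous map `(e, s, e') ↦ e s e'` maps `{1} × S × {1}` into the open set
`interior S'`; `generalized_tube_lemma` or `IsCompact` arguments with `𝓝ˢ`. Similarly for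
`(e, s, d) ↦ s (d e d⁻¹)` on `{1} × S × D`, `(q, e) ↦ e q` (the set `ew K` is the image of `K` under the
homeomorphism `κ ↦ w κ⁻¹`, so compact, and `ew (interior K')` is open). -/
def S_TB : Prop :=
  ∀ G : PG P, G.Ok → ∀ S S' : Set P, IsCompact S → S ⊆ interior S' →
    (∃ U ∈ 𝓝 (1 : P), ∀ e ∈ U, ∀ s ∈ S, ∀ e' ∈ U, e * s * e' ∈ S') ∧
    (∀ D : Set P, IsCompact D → ∃ U ∈ 𝓝 (1 : P), ∀ e ∈ U, ∀ s ∈ S, ∀ d ∈ D,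
      s * (d * e * d⁻¹) ∈ S') ∧
    (∃ U ∈ 𝓝 (1 : P), ∀ e ∈ U, ∀ q ∈ G.ew S, ∀ e' ∈ U, e * q * e' ∈ G.ew S')

/-- **NB.** Compact enlargements. Proof: (1) a compact set has a compact neighbourhood
(`exists_compact_superset`, `exists_compact_between`). (2) `A ×ˢ B` is compact in the open set
`{q | Pos q.1 q.2}`; `generalized_tube_lemma` gives open `A ⊆ O`, `B ⊆ O'` with `O ×ˢ O'` in it; take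
compact sets between (`exists_compact_between`). (3) the same for three factors. -/
def S_NB : Prop :=
  ∀ G : PG P, G.Ok →
    (∀ A B : Set P, IsCompact A → IsCompact B → (∀ x ∈ A, ∀ y ∈ B, G.Pos x y) →
      ∃ A' B' : Set P, IsCompact A' ∧ IsCompact B' ∧ A ⊆ interior A' ∧ B ⊆ interior B' ∧
        ∀ x ∈ A', ∀ y ∈ B', G.Pos x y) ∧
    (∀ A B C : Set P, IsCompact A → IsCompact B → IsCompact C →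
      (∀ x ∈ A, ∀ y ∈ B, ∀ z ∈ C, G.Tri x y z) →
      ∃ A' B' C' : Set P, IsCompact A' ∧ IsCompact B' ∧ IsCompact C' ∧ A ⊆ interior A' ∧
        B ⊆ interior B' ∧ C ⊆ interior C' ∧ ∀ x ∈ A', ∀ y ∈ B', ∀ z ∈ C', G.Tri x y z)

/-- **NT1.** Finite nets. Proof: cover the compact set `D` by the open sets `(interior V) d'`, `d' ∈ D`
(`1 ∈ interior V`). -/
def S_NT1 : Prop :=
  ∀ D : Set P, IsCompact D → ∀ V ∈ 𝓝 (1 : P), ∃ F : Finset P, (∀ d ∈ F, d ∈ D) ∧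
    ∀ d ∈ D, ∃ d' ∈ F, ∃ v ∈ V, d = v * d'

/-- **CTc.** (CT) for a compact set. Proof: for `q₀ ∈ Q` take `V`, `k` of (CT); the sets `V⁰ q₀` (`V⁰` open in `V`, `1 ∈ V⁰`) cover
`Q`; `q = v q₀ * 1`. Maximum of the `k` (`Dp l ⊆ Dp k` for `k ≤ l`). -/
def S_CTc : Prop :=
  ∀ G : PG P, G.Ok → ∀ Q : Set P, IsCompact Q → (∀ q ∈ Q, G.Pos G.w q) → ∀ U ∈ 𝓝 (1 : P),
    ∃ k : ℕ, ∀ s ∈ G.Dp k, ∀ q ∈ Q, ∃ e ∈ U, ∃ b ∈ G.Bor, s * q = e * b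

/-- **LXc.** (LX) for a compact set. Proof: for `q₀ ∈ Q` and a neighbourhood `U₁` with `U₁ U₁ ⊆ U` take `V`, `k` of (LX); let `V₁ V₁ ⊆ V`, and let
`O` be the open set of the `q` with `q q₀⁻¹ ∈ V₁` and `q⁻¹ (q q₀⁻¹) q ∈ U₁` (interiors). For `q ∈ O`, `v, v' ∈ V₁`, with `v₁ = q q₀⁻¹`:
`v q v' = (v v₁) q₀ v'`, so (LX) gives `z`, and `z w = e (q₀⁻¹ w) b = e (q⁻¹ v₁ q) (q⁻¹ w) b`
(`q₀⁻¹ = q⁻¹ v₁`). Finite cover. -/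
def S_LXc : Prop :=
  ∀ G : PG P, G.Ok → ∀ Q : Set P, IsCompact Q → (∀ q ∈ Q, G.Pos G.w q) → ∀ U ∈ 𝓝 (1 : P),
    ∃ V ∈ 𝓝 (1 : P), ∃ k : ℕ, ∀ s ∈ G.Dp k, ∀ q ∈ Q, ∀ v ∈ V, ∀ v' ∈ V, ∃ z : P,
      z⁻¹ * (s * (v * q * v')) * z ∈ G.App ∧ (∃ e ∈ U, ∃ b ∈ G.Bor, z = e * b) ∧
      ∃ e ∈ U, ∃ b ∈ G.Bor, z * G.w = e * (q⁻¹ * G.w) * b

/-- **Wr.** Reversal, monotonicity and translation of `W`. Proof: `(s t q)⁻¹ = κ (w t⁻¹ w) (w s⁻¹)` with `κ = q⁻¹ w`, and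
`(w s⁻¹)⁻¹ w = s`. `ew` is monotone; `x s t q = (x s) t q`; `(q x)⁻¹ w = x⁻¹ (q⁻¹ w)`. -/
def S_Wr : Prop :=
  ∀ G : PG P, G.Ok →
    (∀ (S K : Set P) (k : ℕ), ∀ g ∈ G.W S K k, g⁻¹ ∈ G.W K S k) ∧
    (∀ (S K S' K' : Set P) (k l : ℕ), S ⊆ S' → K ⊆ K' → k ≤ l → G.W S K l ⊆ G.W S' K' k) ∧
    (∀ (S K : Set P) (k : ℕ) (x g : P), g ∈ G.W S K k → x * g ∈ G.W ({x} * S) K k) ∧
    (∀ (S K : Set P) (k : ℕ) (x g : P), g ∈ G.W S K k → g * x ∈ G.W S ({x⁻¹} * K) k)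

/-- **MG.** Merging on the level of displacements. Proof: `g g' = s t (q s') t' q'`, `q s' = w κ⁻¹ s'`; `Q := {w κ⁻¹ s' | κ ∈ K₁, s' ∈ S₂}` is compact and
`Pos w (w κ⁻¹ s')` by `Pos κ s'`. (JNc) with `U` from TB (`s e ∈ S₁'` for `s ∈ S₁`, `e ∈ U`, and
`e' q' ∈ ew K₂'`): `g g' = (s e) (d t t') (e' q')`, `d ∈ D1 ^ R₀`; `t t' ∈ Dp (k' + k')` (`Dpm`) and
`(t t') d ∈ Dp k` for large `k'` (`Dpd`, `comm`). -/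
def S_MG : Prop :=
  ∀ G : PG P, G.Ok → G.OkF → ∀ S₁ K₁ S₂ K₂ S₁' K₂' : Set P, IsCompact S₁ → IsCompact K₁ →
    IsCompact S₂ → IsCompact K₂ → S₁ ⊆ interior S₁' → K₂ ⊆ interior K₂' →
    (∀ κ ∈ K₁, ∀ s ∈ S₂, G.Pos κ s) → ∀ k : ℕ, ∃ k' : ℕ, ∀ g ∈ G.W S₁ K₁ k', ∀ g' ∈ G.W S₂ K₂ k',
      g * g' ∈ G.W S₁' K₂' k

/-- **FRc** (from LXc, NB). Frames of closed loops. Proof: `l = s t q`, `q = w s'⁻¹` with `s' = q⁻¹ w ∈ S'`, and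
`s⁻¹ l s = t (w s'⁻¹ s)`. `Q := {w s'⁻¹ s}` is compact with `Pos w (w s'⁻¹ s)` (`Pos s' s`). LXc with `U` small: `z₀` with
`z₀⁻¹ (t w s'⁻¹ s) z₀ ∈ App`, `z₀ = e b`, `z₀ w = e' (s⁻¹ s' w w) b' = e' s⁻¹ s' b'`. Put `z := s z₀`. Then `z⁻¹ l z ∈ App`;
`Pos s₁' z ↔ Pos s₁' (s e)` and `Pos s₁ (z w) ↔ Pos s₁ (s e' s⁻¹ s')`, true for all `s₁ ∈ S`, `s₁' ∈ S'` if `e`, `e'` are in a small `U`
(`(e, s, s₁') ↦ (s₁', s e)` maps `{1} × S × S'` into the open set of positive pairs; tube lemma; similarly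
`(e', s, s', s₁) ↦ (s₁, s e' s⁻¹ s')`). -/
def S_FRc : Prop :=
  ∀ G : PG P, G.Ok → ∀ S S' : Set P, IsCompact S → IsCompact S' → (∀ s ∈ S, ∀ s' ∈ S', G.Pos s s') →
    ∃ k : ℕ, ∀ l ∈ G.W S S' k, ∃ z : P, Fr G l z ∧ (∀ s ∈ S, G.Pos s (z * G.w)) ∧
      ∀ s' ∈ S', G.Pos s' z

/-- **FR** (from FRc, MG, Wr, NB). Frames of pairs of edges. Proof: NB: compact `S₁' ⊇ S₁`, `S₂' ⊇ S₂` (in the interiors) with `Pos`;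
`h⁻¹ ∈ W K₂ S₂ k'` (Wr), so `g h⁻¹ ∈ W S₁' S₂' k` (MG, as `Pos` on `K₁ × K₂`); FRc for `S₁'`, `S₂'`. -/
def S_FR : Prop :=
  ∀ G : PG P, G.Ok → G.OkF → ∀ S₁ K₁ S₂ K₂ : Set P, IsCompact S₁ → IsCompact K₁ →
    IsCompact S₂ → IsCompact K₂ → (∀ s ∈ S₁, ∀ s' ∈ S₂, G.Pos s s') →
    (∀ κ ∈ K₁, ∀ κ' ∈ K₂, G.Pos κ κ') →
    ∃ k : ℕ, ∀ g ∈ G.W S₁ K₁ k, ∀ h ∈ G.W S₂ K₂ k, ∃ z : P, Fr G (g * h⁻¹) z ∧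
      (∀ s ∈ S₁, G.Pos s (z * G.w)) ∧ ∀ s' ∈ S₂, G.Pos s' z

/-- **BCg** (from FR, MG, CTc, NB, Wr). Base change. `g` is the displacement of the chord `χ`, `gu` of `u'`, `gv` of `V`.
Proof. NB: compact enlargements (in the interiors) `S⁺` of `S`, `Sv⁺` of `Sv` with `Pos` on `S⁺ × Sv⁺`, and
`Ku⁺`, `Kv⁺` with `Pos` on `Ku⁺ × Kv⁺`, `K⁺`, `Su⁺` with `Pos` on `K⁺ × Su⁺`.
(1) `g gu ∈ W S⁺ Ku⁺ k'` (MG); FR for `(S⁺, Ku⁺)`, `(Sv⁺, Kv⁺)`: a frame `z₁` of `g gu gv⁻¹` with `Pos s (z₁ w)` for all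
`s ∈ S⁺`. (2) FR for the pair `gu`, `g⁻¹ gv` (`g⁻¹ ∈ W K S k`, MG with `Pos` on `S × Sv`: `g⁻¹ gv ∈ W K⁺ Kv⁺ k'`):
a frame `z'` of `gu gv⁻¹ g` with `Pos s' (z' w)` for all `s' ∈ Su`. (3) `g z'` is a frame of `g gu gv⁻¹`. Let `s' ∈ Su`
(if `Su` is empty there is no `gu`) and `k := g s'`. `Pos (g s') (g z' w)`. `g = s t q`, `g s' = s (t (q s'))`,
`q s' ∈ {w κ⁻¹ s'}` compact with `Pos w`, CTc: `t (q s') = e b`, so `Pos (g s') (z₁ w) ↔ Pos (s e) (z₁ w)`, true as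
`s e ∈ S⁺`. (UQ): `z₁⁻¹ (g z') ∈ A`, `g z' = z₁ d`, `g z' w = z₁ w (w d w)`, so `Pos s (g z' w) ↔ Pos s (z₁ w)` for `s ∈ S`. -/
def S_BCg : Prop :=
  ∀ G : PG P, G.Ok → G.OkF → ∀ S K Su Ku Sv Kv : Set P, IsCompact S → IsCompact K →
    IsCompact Su → IsCompact Ku → IsCompact Sv → IsCompact Kv →
    (∀ κ ∈ K, ∀ s ∈ Su, G.Pos κ s) → (∀ s ∈ S, ∀ s' ∈ Sv, G.Pos s s') →
    (∀ κ ∈ Ku, ∀ κ' ∈ Kv, G.Pos κ κ') →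
    ∃ k : ℕ, ∀ g ∈ G.W S K k, ∀ gu ∈ G.W Su Ku k, ∀ gv ∈ G.W Sv Kv k, ∃ z' : P,
      Fr G (gu * gv⁻¹ * g) z' ∧ (∀ s' ∈ Su, G.Pos s' (z' * G.w)) ∧
      ∀ s ∈ S, G.Pos s (g * z' * G.w)

end Pool.Agent.MPEF.U
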