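import Pool.Agent.Lib.MP_ef3f0f_gt.U.F.SpecA

set_option autoImplicit false

/-!
# MP_ef3f0f_gt, Theorem U, Part F, statements on kernels on the group `P`

Modules `U/F/X.lean`: `theorem tX : S_Y P → ... → S_X P` (the hypotheses named in the docstring of
`S_X`), in a section with the same `variable` line (explicit `P`), namespace `Pool.Agent.MPEF.U`.

`kk μ a k₁ k₂ n g = ∫ k₁ q * k₂ ((a^n)⁻¹ q⁻¹ g) dq`, `eP μ G S K R n = kk μ a (1_(S D1^R)) (1_(ew K)) n`,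
`ew K = {q | q⁻¹ w ∈ K} = {w κ⁻¹ | κ ∈ K}`, `cvP` = convolution. All changes of variables are translations
and inversions by FIXED elements; windows are changed by the tube lemma (TB). Compact sets are closed
(`T2Space`), so measurable.
-/

namespace Pool.Agent.MPEF.U

open MeasureTheory Topology
open scoped ENNReal Pointwise

variable (P : Type) [Group P] [TopologicalSpace P] [IsTopologicalGroup P] [LocallyCompactSpace P]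
  [T2Space P] [SecondCountableTopology P] [MeasurableSpace P] [BorelSpace P]

/-- **KT.** The basic change of variables. Proof: `h⁻¹ q⁻¹ g = e⁻¹ ((a^N)⁻¹ (q x)⁻¹ g)`; substitute `q ↦ q x⁻¹` (right
invariance, `lintegral_mul_right_eq_self`). Second: `q ↦ x⁻¹ q`. Third: `kk` at `g⁻¹`: substitute
`q = g⁻¹ p⁻¹ (a^n)⁻¹` (`p = (a^n)⁻¹ q⁻¹ g⁻¹`; inversion, left and right invariance). -/
def S_KT : Prop :=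
  ∀ (μ : Measure P) [μ.IsHaarMeasure] [μ.IsMulRightInvariant] [μ.IsInvInvariant] (a : P)
    (k₁ k₂ : P → ℝ≥0∞),
    (∀ (h x e g : P) (N : ℕ), h = x * a ^ N * e →
      ∫⁻ q, k₁ q * k₂ (h⁻¹ * q⁻¹ * g) ∂μ =
        kk μ a (fun q => k₁ (q * x⁻¹)) (fun q => k₂ (e⁻¹ * q)) N g) ∧
    (∀ (x g : P) (N : ℕ), kk μ a k₁ k₂ N (x * g) = kk μ a (fun q => k₁ (x * q)) k₂ N g) ∧
    (∀ (g : P) (N : ℕ), kk μ a k₁ k₂ N g⁻¹ = ∫⁻ p, k₂ p * k₁ (g⁻¹ * p⁻¹ * (a ^ N)⁻¹) ∂μ)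

/-- **CV.** Convolution of two kernels. Proof: Tonelli (`lintegral_lintegral_swap`, `μ` is σ-finite) and the
substitutions `h = q a^n p` (in the integral over `h`), then `q' = p⁻¹ p'`: the left side is
`∫_q ∫_q' ∫_p k₁(q) k₂(p) k₃(q') k₄((a^m)⁻¹ q'⁻¹ p⁻¹ (a^n)⁻¹ q⁻¹ g)`. Measurability: `kk` is measurable, and
`∫ kk = (∫ k₁) (∫ k₂)`, `∫ cvP = (∫ k₂) (∫ k₃)`. -/
def S_CV : Prop :=
  ∀ (μ : Measure P) [μ.IsHaarMeasure] [μ.IsMulRightInvariant] [μ.IsInvInvariant] (a : P)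
    (k₁ k₂ k₃ k₄ : P → ℝ≥0∞), Measurable k₁ → Measurable k₂ → Measurable k₃ → Measurable k₄ →
    (∀ (n m : ℕ) (g : P), cvP μ (kk μ a k₁ k₂ n) (kk μ a k₃ k₄ m) g =
      ∫⁻ p, cvP μ k₂ k₃ p * (∫⁻ q, k₁ q * k₄ ((a ^ n * p * a ^ m)⁻¹ * q⁻¹ * g) ∂μ) ∂μ) ∧
    (∀ n : ℕ, Measurable (kk μ a k₁ k₂ n)) ∧ Measurable (cvP μ k₂ k₃) ∧
    (∀ n : ℕ, ∫⁻ g, kk μ a k₁ k₂ n g ∂μ = (∫⁻ g, k₁ g ∂μ) * ∫⁻ g, k₂ g ∂μ) ∧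
    ∫⁻ g, cvP μ k₂ k₃ g ∂μ = (∫⁻ g, k₂ g ∂μ) * ∫⁻ g, k₃ g ∂μ

/-- **AD.** Monotonicity, additivity, translation, support, measurability of `eP`. Proof: `iK` of a finite union is `≤` the sum
of the `iK`; `lintegral_finset_sum'` or induction (for measurable, e.g. compact, pieces; here the pieces are compact,
so `S i * D1 ^ R` is compact, and `ew (K j)` is closed). Translation: KT (2) and `ew ({x} K) = ew(K) x⁻¹`: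
`(a^N)⁻¹ q⁻¹ (x g x⁻¹) ∈ ew K ↔ (a^N)⁻¹ (x⁻¹ q)⁻¹ g ∈ ew ({x⁻¹} K)`. Support: if `eP ... g ≠ 0` there is `q ∈ S D1^R` with
`(a^n)⁻¹ q⁻¹ g ∈ ew K`, so `g = s (d a^n) q'`; `T` from DF. -/
def S_AD : Prop :=
  ∀ (G : PG P) (μ : Measure P) [μ.IsHaarMeasure] [μ.IsMulRightInvariant] [μ.IsInvInvariant],
    G.Ok →
    (∀ (S S' K K' : Set P) (R R' n : ℕ), S ⊆ S' → K ⊆ K' → R ≤ R' → ∀ g,
      eP μ G S K R n g ≤ eP μ G S' K' R' n g) ∧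
    (∀ (F : Finset ℕ) (S K : ℕ → Set P) (S' K' : Set P) (R n : ℕ), (∀ i, IsCompact (S i)) →
      (∀ i, IsCompact (K i)) → S' ⊆ ⋃ i ∈ F, S i → K' ⊆ ⋃ i ∈ F, K i → ∀ g,
      eP μ G S' K' R n g ≤ ∑ i ∈ F, ∑ j ∈ F, eP μ G (S i) (K j) R n g) ∧
    (∀ (S K : Set P) (R n : ℕ) (x g : P),
      eP μ G S K R n (x * g * x⁻¹) = eP μ G ({x⁻¹} * S) ({x⁻¹} * K) R n g) ∧
    (∀ R k : ℕ, ∃ T : ℕ, ∀ n, T ≤ n → ∀ (S K : Set P) (g : P), eP μ G S K R n g ≠ 0 →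
      g ∈ G.W S K k) ∧
    (∀ S K : Set P, IsCompact S → IsCompact K → ∀ R n : ℕ, Measurable (eP μ G S K R n)) ∧
    (∀ S K : Set P, IsCompact S → IsCompact K → ∀ R : ℕ, ∃ C : ℝ≥0∞, C ≠ ∞ ∧ ∀ n g,
      eP μ G S K R n g ≤ C)

/-- **MU** (from KT, CV, DF, TB). Upper merge.
Proof. `Q := {w κ⁻¹ s | κ ∈ K₁, s ∈ S₂}`, compact, `Pos w` on `Q`; `R₀` from (JNc), `c := R₀`. Given `R`, `R'` choose `U`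
by TB such that `s (d e d⁻¹) ∈ S₁'` for `s ∈ S₁`, `d ∈ D1^R`, `e ∈ U` and `e q ∈ ew K₂'` for `q ∈ ew K₂`, `e ∈ U`. (JNc) gives `k`, DF gives
`T` (`d a^n ∈ Dp k` for `n ≥ T`, `d ∈ D1^R'`). By CV the left side is `∫_p cvP k₂ k₃ p * I(p)`. If `cvP k₂ k₃ p ≠ 0` then `p = (w κ⁻¹) (s d₂)`,
`d₂ ∈ D1^R'`, and `a^n p a^m = a^n (w κ⁻¹ s) (d₂ a^m) = e (d a^n d₂ a^m) e' = (e d d₂) a^(n+m) e'`, `d ∈ D1^c`. KT with `x = e d d₂`: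
`I(p) = kk (k₁ (· x⁻¹)) (k₄ (e'⁻¹ ·)) (n+m) g ≤ eP S₁' K₂' (R+R'+c) (n+m) g`: if `q x⁻¹ = s₁ d₁` then
`q = s₁ (d₁ e d₁⁻¹) (d₁ d d₂) ∈ S₁' D1^(R+R'+c)`; if `e'⁻¹ q ∈ ew K₂` then `q ∈ ew K₂'`. So `C := ∫ cvP k₂ k₃ = (∫ k₂) (∫ k₃) < ∞` (compact supports). -/
def S_MU : Prop :=
  ∀ (G : PG P) (μ : Measure P) [μ.IsHaarMeasure] [μ.IsMulRightInvariant] [μ.IsInvInvariant],
    G.Ok → G.OkF → ∀ S₁ K₁ S₂ K₂ S₁' K₂' : Set P, IsCompact S₁ → IsCompact K₁ → IsCompact S₂ →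
    IsCompact K₂ → S₁ ⊆ interior S₁' → K₂ ⊆ interior K₂' → (∀ κ ∈ K₁, ∀ s ∈ S₂, G.Pos κ s) →
    ∃ c : ℕ, ∀ R R' : ℕ, ∃ (C : ℝ≥0∞) (T : ℕ), C ≠ ∞ ∧ ∀ n m, T ≤ n → T ≤ m → ∀ g,
      cvP μ (eP μ G S₁ K₁ R n) (eP μ G S₂ K₂ R' m) g ≤ C * eP μ G S₁' K₂' (R + R' + c) (n + m) g

/-- **MS** (from KT, CV, DF, TB). Straight merge: no increase of the range; `T = 0` if `R' = 0`.
Proof. As MU with (JN1): `p = v⁻¹ v' d₂` with `v, v' ∈ V` (`q ∈ ew (V w)` iff `q⁻¹ ∈ V`), `V⁻¹ V` small, `s = a^n ∈ Dp 0`,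
`s' = d₂ a^m ∈ Dp 0` for `m ≥ T` (for `R' = 0`: `d₂ = 1`, `a^m ∈ Dp m ⊆ Dp 0`): `a^n p a^m = e (d a^n d₂ a^m) e'` with `d ∈ U ∩ A`, and
`q = s₁ (d₁ (e d) d₁⁻¹) (d₁ d₂) ∈ S₁' D1^(R+R')`. -/
def S_MS : Prop :=
  ∀ (G : PG P) (μ : Measure P) [μ.IsHaarMeasure] [μ.IsMulRightInvariant] [μ.IsInvInvariant],
    G.Ok → ∀ S₁ K₂ S₁' K₂' : Set P, IsCompact S₁ → IsCompact K₂ →
    S₁ ⊆ interior S₁' → K₂ ⊆ interior K₂' → ∀ R R' : ℕ, ∃ V ∈ 𝓝 (1 : P), ∃ T : ℕ,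
      (R' = 0 → T = 0) ∧ ∀ K₁ S₂ : Set P, IsCompact K₁ → IsCompact S₂ → K₁ ⊆ G.uw V → S₂ ⊆ V →
      ∃ C : ℝ≥0∞, C ≠ ∞ ∧ ∀ n m, T ≤ m → ∀ g,
        cvP μ (eP μ G S₁ K₁ R n) (eP μ G S₂ K₂ R' m) g ≤ C * eP μ G S₁' K₂' (R + R') (n + m) g

/-- **ML** (from KT, CV, DF, TB, AD, NT1). Lower bound for the merge.
Proof. By monotonicity (AD) we may replace `S'`, `K'`, `U` by compact sets (with `S ⊆ interior S'` etc., `U` a compact neighbourhood of `1`).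
Choose small neighbourhoods (TB, (JN1)): NT1 for `D1^R'`: `D1^R' ⊆ ⋃ V₀ d'`, `d' ∈ F`. If `q = s d d'₀ ∈ S D1^(R+R')`
(`d ∈ D1^R`, `d'₀ = v₀ d' ∈ D1^R'`) then `q = s (d v₀ d⁻¹) d d' ∈ S⁺ D1^R d'` (`S⁺` compact, `S ⊆ S⁺ ⊆ interior S'`). So
`eP S K (R+R') (n+m) g ≤ ∑_(d' ∈ F) ∫ 1[q ∈ S⁺ D1^R d'] 1[(a^(n+m))⁻¹ q⁻¹ g ∈ ew K]`. Fix `d'`. For `v ∈ V` (small) put `p = v d'`:
`a^n p a^m = e (d'' a^n d' a^m) e'`, `d'' ∈ U' ∩ A` (`d' a^m ∈ Dp 0` for `m ≥ T`), `x = e d'' d'`. KT: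
`I(p) = ∫ k₁(q x⁻¹) k₄(e'⁻¹ ...)` with `k₁ = 1_(S' D1^R)`, `k₄ = 1_(ew K')`; `q = s⁺ d d'` gives `q x⁻¹ = s⁺ d (e d'')⁻¹ ∈ S' D1^R`. So
`I(p) ≥` the `d'`-term, and `cvP k₂ k₃ (v d') ≥ μ {p | p⁻¹ ∈ U, p⁻¹ v ∈ U} ≥ c > 0` (`k₂ = 1_(ew (U w)) = 1_(U⁻¹)`,
`k₃ = 1_(U D1^R')`). So `μ(V) c * (d'-term) ≤ ∫_(p ∈ V d') ≤` the right side (CV). -/
def S_ML : Prop :=
  ∀ (G : PG P) (μ : Measure P) [μ.IsHaarMeasure] [μ.IsMulRightInvariant] [μ.IsInvInvariant],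
    G.Ok → ∀ S K S' K' : Set P, IsCompact S → IsCompact K → S ⊆ interior S' → K ⊆ interior K' →
    ∀ U ∈ 𝓝 (1 : P), ∀ R R' : ℕ, ∃ (C : ℝ≥0∞) (T : ℕ), C ≠ ∞ ∧ ∀ n m, T ≤ m → ∀ g,
      eP μ G S K (R + R') (n + m) g ≤
        C * cvP μ (eP μ G S' (G.uw U) R n) (eP μ G U K' R' m) g

/-- **RV** (from KT, DF, TB, NT1). Reversal.
Proof. Let `S⁺` be compact with `S ⊆ interior S⁺`, `S⁺ ⊆ S'`. TB, NT1: `S D1^R ⊆ ⋃_(d ∈ F) S⁺ d`. KT (3):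
`eP S K R n g⁻¹ ≤ ∑_d ∫ 1[p⁻¹ w ∈ K] 1[g⁻¹ p⁻¹ (a^n)⁻¹ ∈ S⁺ d] dp`. Fix `d`, put `q = p⁻¹ d⁻¹ w` (`p = d⁻¹ w q⁻¹`; inversion
and translations): `q = (p⁻¹ w) (w d⁻¹ w) ∈ K D1^R`, and if `g⁻¹ p⁻¹ (a^n)⁻¹ = s d` then
`(a^n)⁻¹ q⁻¹ g = (a^n)⁻¹ w d p g = w a^n d p g = w d (a^n p g) = w d (d⁻¹ s⁻¹) = w s⁻¹ ∈ ew S⁺`. So the `d`-term is `≤ eP K S⁺ R n g`,
`C = |F|`. -/
def S_RV : Prop :=
  ∀ (G : PG P) (μ : Measure P) [μ.IsHaarMeasure] [μ.IsMulRightInvariant] [μ.IsInvInvariant],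
    G.Ok → ∀ S K S' : Set P, IsCompact S → IsCompact K → S ⊆ interior S' → ∀ R : ℕ,
    ∃ C : ℝ≥0∞, C ≠ ∞ ∧ ∀ n g, eP μ G S K R n g⁻¹ ≤ C * eP μ G K S' R n g

/-- **GE1** (from KT, DF, TB, NT1, AD). Change of the frames of a start window.
Proof. `S` is covered by finitely many compact sets `S_i = s_i V_i` with `s_i = s_i' b_i`, `s_i' ∈ S'`, `b_i ∈ Bor`, and
`s_i' (b_i v b_i⁻¹) ∈ S_i⁺`, `S_i⁺ ⊆ S'` compact, `S_i⁺ ⊆ interior S'`. AD (2): one `i`. `d_i ∈ A` from (BC), `d_i ∈ D1^(c_i)` (`D1e`). Given `R`: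
NT1: `S_i D1^R ⊆ ⋃_(d ∈ F) (S_i)⁺ d` (`V_i` a little larger). Fix `d`: the term `∫ 1[q ∈ s_i V_i d] 1[(a^n)⁻¹ q⁻¹ g ∈ ew K]`. Put
`q = q' d⁻¹ d_i⁻¹ b_i d` (right translation), so for `q = s_i' b_i v d`: `q' = s_i' (b_i v b_i⁻¹) d_i d ∈ S' D1^(R + c_i)`, and
`(a^n)⁻¹ q⁻¹ g = (b_i (d a^n))⁻¹ d_i (d a^n) ((a^n)⁻¹ q'⁻¹ g) = e⁻¹ ((a^n)⁻¹ q'⁻¹ g)` with (BC) `b_i (d a^n) = d_i (d a^n) e`, `e ∈ U` for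
`n ≥ T`; so `(a^n)⁻¹ q'⁻¹ g ∈ e ew K ⊆ ew K'` (TB). -/
def S_GE1 : Prop :=
  ∀ (G : PG P) (μ : Measure P) [μ.IsHaarMeasure] [μ.IsMulRightInvariant] [μ.IsInvInvariant],
    G.Ok → G.OkF → ∀ S K S' K' : Set P, IsCompact S → IsCompact K → IsOpen S' →
    (∀ s ∈ S, ∃ s' ∈ S', ∃ b ∈ G.Bor, s = s' * b) → K ⊆ interior K' →
    ∃ c : ℕ, ∀ R : ℕ, ∃ (C : ℝ≥0∞) (T : ℕ), C ≠ ∞ ∧ ∀ n, T ≤ n → ∀ g,
      eP μ G S K R n g ≤ C * eP μ G S' K' (R + c) n g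

/-- **GE** (from GE1, RV, AD). Change of the frames of both windows.
Proof. Choose compact `S₁ ⊆ S'`, `K₁ ⊆ K'` such that still `S ⊆ (interior S₁) Bor`, `K ⊆ (interior K₁) Bor` (finite covers of `S`, `K` by
the open sets `O b`, `O` relatively compact open in `S'`), and a compact `K⁺` with `K ⊆ interior K⁺`, `K⁺ ⊆ (interior K₁) Bor`.
`eP S K R n g ≤ C eP (interior S₁) K⁺ (R+c) n g` (GE1), `≤ C eP K⁺ S₂ (R+c) n g⁻¹` (RV at `g⁻¹`, for the compact window `S₁`,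
`S₁ ⊆ interior S₂`, `S₂ ⊆ S'` compact), `≤ C eP (interior K₁) S₃ (R+c+c') n g⁻¹` (GE1 with the roles exchanged, `S₂ ⊆ interior S₃`, `S₃ ⊆ S'` compact),
`≤ C eP S₃ K' (R+c+c') n g` (RV for `K₁`, `K₁ ⊆ K' = interior K'`), `≤ C eP S' K' ...` (AD). -/
def S_GE : Prop :=
  ∀ (G : PG P) (μ : Measure P) [μ.IsHaarMeasure] [μ.IsMulRightInvariant] [μ.IsInvInvariant],
    G.Ok → G.OkF → ∀ S K S' K' : Set P, IsCompact S → IsCompact K → IsOpen S' → IsOpen K' →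
    (∀ s ∈ S, ∃ s' ∈ S', ∃ b ∈ G.Bor, s = s' * b) →
    (∀ κ ∈ K, ∃ κ' ∈ K', ∃ b ∈ G.Bor, κ = κ' * b) →
    ∃ c : ℕ, ∀ R : ℕ, ∃ (C : ℝ≥0∞) (T : ℕ), C ≠ ∞ ∧ ∀ n, T ≤ n → ∀ g,
      eP μ G S K R n g ≤ C * eP μ G S' K' (R + c) n g

/-- **SHP** (from KT, DF). Shift of the length and of the end points on `P`. Proof: `a^n = (a^c)⁻¹ a^(n+c)`, KT (1) with `h = a^n`, `x = (a^c)⁻¹`,
`e = 1`; `(a^c)⁻¹ ∈ A`, so in `D1^c'` (`D1e`, `D1i`): `q a^c ∈ S D1^R` implies `q ∈ S D1^(R+c')`. End points: `(a^n)⁻¹ q⁻¹ g ∈ ew K` implies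
`(a^n)⁻¹ q⁻¹ (g s) ∈ ew (s⁻¹ K)`; KT (2) for `s g`. -/
def S_SHP : Prop :=
  ∀ (G : PG P) (μ : Measure P) [μ.IsHaarMeasure] [μ.IsMulRightInvariant] [μ.IsInvInvariant],
    G.Ok → ∀ c : ℕ, ∃ c' : ℕ, ∀ (Q S K : Set P) (R n : ℕ) (g s : P), s ∈ Q →
      eP μ G S K R n g ≤ eP μ G S (Q⁻¹ * K) (R + c') (n + c) (g * s) ∧
      eP μ G S K R n g ≤ eP μ G (Q * S) K (R + c') (n + c) (s * g)

end Pool.Agent.MPEF.U
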