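import Pool.Agent.Lib.MP_ef3f0f_gt.U.F.SpecB

set_option autoImplicit false

/-!
# MP_ef3f0f_gt, Theorem U, Part F, further statements on the group `P`
-/

namespace Pool.Agent.MPEF.U

open MeasureTheory Topology
open scoped ENNReal Pointwise

/-- Compact forms of (LU) and (BC). For `SL_n(ℝ)`: the factors of the factorization `q = n⁻ d n⁺` depend
continuously on `q`; the diagonal part of `b ∈ Bor` depends continuously on `b`. -/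
structure PG.OkG {P : Type} [Group P] [TopologicalSpace P] (G : PG P) : Prop where
  LUc : ∀ Q : Set P, IsCompact Q → (∀ q ∈ Q, G.Pos G.w q) → ∃ B : Set P, IsCompact B ∧
    B ⊆ G.Bor ∧ ∀ q ∈ Q, ∃ b ∈ B, ∃ b' ∈ B, q = G.w * b * G.w * b'
  BCc : ∀ B : Set P, IsCompact B → B ⊆ G.Bor → ∃ R₀ : ℕ, ∀ b ∈ B, ∃ d ∈ G.D1 ^ R₀,
    ∀ U ∈ 𝓝 (1 : P), ∃ k : ℕ, ∀ s ∈ G.Dp k, ∃ e ∈ U, b * s = d * s * e

variable (P : Type) [Group P] [TopologicalSpace P] [IsTopologicalGroup P] [LocallyCompactSpace P]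
  [T2Space P] [SecondCountableTopology P] [MeasurableSpace P] [BorelSpace P]

/-- **AD2.** Additivity for a cover of the product of the windows. Proof: if `q = s d`, `s ∈ S'`, `d ∈ D1^R` and
`(a^n)⁻¹ q⁻¹ g ∈ ew K'` then `(s, κ)`, `κ` the germ, is in some `S i × K i`; `lintegral_finset_sum` (measurability: the
pieces are compact). -/
def S_AD2 : Prop :=
  ∀ (G : PG P) (μ : Measure P) [μ.IsHaarMeasure] [μ.IsMulRightInvariant] [μ.IsInvInvariant],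
    G.Ok → ∀ (F : Finset ℕ) (S K : ℕ → Set P) (S' K' : Set P) (R n : ℕ),
      (∀ i, IsCompact (S i)) → (∀ i, IsCompact (K i)) →
      (∀ s ∈ S', ∀ κ ∈ K', ∃ i ∈ F, s ∈ S i ∧ κ ∈ K i) → ∀ g,
      eP μ G S' K' R n g ≤ ∑ i ∈ F, eP μ G (S i) (K i) R n g

/-- **GE1u** (from DF, TB, NB, NT1, KT, AD). Change of the frames of a start window; the increase `c` of the range depends
only on `B`.
Proof. `c := R₀` of (BCc). `S` is covered by finitely many compact sets `S_i = s_i V_i` with `s_i = s_i' b_i`, `s_i' ∈ S'`, `b_i ∈ B`, and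
`s_i' (b_i v b_i⁻¹) ∈ S'` for `v` in a neighbourhood of `V_i`. AD (2): one `i`. `d_i ∈ D1^c` from (BCc) for `b_i`. Given `R`:
NT1: `S_i D1^R ⊆ ⋃_(d ∈ F) (S_i)⁺ d` (`V_i` a little larger). Fix `d`: the term `∫ 1[q ∈ s_i V_i⁺ d] 1[(a^n)⁻¹ q⁻¹ g ∈ ew K]`. Put
`q = q' d⁻¹ d_i⁻¹ b_i d` (right translation), so for `q = s_i' b_i v d`: `q' = s_i' (b_i v b_i⁻¹) d_i d ∈ S' D1^(R + c)`, and
`(a^n)⁻¹ q⁻¹ g = (b_i (d a^n))⁻¹ d_i (d a^n) ((a^n)⁻¹ q'⁻¹ g) = e⁻¹ ((a^n)⁻¹ q'⁻¹ g)` with (BCc) `b_i (d a^n) = d_i (d a^n) e`, `e ∈ U` for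
`n ≥ T`; so `(a^n)⁻¹ q'⁻¹ g ∈ e ew K ⊆ ew K'` (TB). -/
def S_GE1u : Prop :=
  ∀ (G : PG P) (μ : Measure P) [μ.IsHaarMeasure] [μ.IsMulRightInvariant] [μ.IsInvInvariant],
    G.Ok → G.OkG → ∀ B : Set P, IsCompact B → B ⊆ G.Bor → ∃ c : ℕ, ∀ S K S' K' : Set P,
    IsCompact S → IsCompact K → IsOpen S' → (∀ s ∈ S, ∃ s' ∈ S', ∃ b ∈ B, s = s' * b) →
    K ⊆ interior K' → ∀ R : ℕ, ∃ (C : ℝ≥0∞) (T : ℕ), C ≠ ∞ ∧ ∀ n, T ≤ n → ∀ g,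
      eP μ G S K R n g ≤ C * eP μ G S' K' (R + c) n g

/-- **GEu** (from GE1u, RV, AD, NB). Change of the frames of both windows; `c` depends only on `B`.
Proof. Choose compact `S₁ ⊆ S'`, `K₁ ⊆ K'` such that still `S ⊆ (interior S₁) B`, `K ⊆ (interior K₁) B` (finite covers of `S`, `K` by
the open sets `O b`, `O` relatively compact open with closure in `S'`, `b ∈ B`), and a compact `K⁺` with `K ⊆ interior K⁺`,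
`K⁺ ⊆ (interior K₁) B`. `eP S K R n g ≤ C eP (interior S₁) K⁺ (R+c) n g` (GE1u), `≤ C eP K⁺ S₂ (R+c) n g⁻¹` (RV at `g⁻¹`, for
`S₁ ⊆ interior S₂`, `S₂ ⊆ S'` compact), `≤ C eP (interior K₁) S₃ (R+c+c) n g⁻¹` (GE1u with the roles exchanged, `S₂ ⊆ interior S₃`,
`S₃ ⊆ S'` compact), `≤ C eP S₃ K' (R+c+c) n g` (RV for `K₁`, `K₁ ⊆ K' = interior K'`), `≤ C eP S' K' ...` (AD). So `c + c`. -/
def S_GEu : Prop :=
  ∀ (G : PG P) (μ : Measure P) [μ.IsHaarMeasure] [μ.IsMulRightInvariant] [μ.IsInvInvariant],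
    G.Ok → G.OkG → ∀ B : Set P, IsCompact B → B ⊆ G.Bor → ∃ c : ℕ, ∀ S K S' K' : Set P,
    IsCompact S → IsCompact K → IsOpen S' → IsOpen K' →
    (∀ s ∈ S, ∃ s' ∈ S', ∃ b ∈ B, s = s' * b) → (∀ κ ∈ K, ∃ κ' ∈ K', ∃ b ∈ B, κ = κ' * b) →
    ∀ R : ℕ, ∃ (C : ℝ≥0∞) (T : ℕ), C ≠ ∞ ∧ ∀ n, T ≤ n → ∀ g,
      eP μ G S K R n g ≤ C * eP μ G S' K' (R + c) n g

/-- **RVs** (from KT). Exact reversal for straight windows with one `A`-shift. Proof: KT (3): the left side is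
`∫_p 1[p⁻¹ w ∈ U] 1[g⁻¹ p⁻¹ (a^m)⁻¹ ∈ U w d]`. Put `q = p⁻¹ w` (`p = w q⁻¹`; inversion, translation): `g⁻¹ q w (a^m)⁻¹ = g⁻¹ q a^m w`
(`w a w = a⁻¹`), and `g⁻¹ q a^m w ∈ U w d ↔ g⁻¹ q a^m (w d⁻¹ w) ∈ U ↔ (a^m)⁻¹ (q (w d⁻¹ w))⁻¹ g ∈ U⁻¹ = ew (U w)`
(`d ∈ A`, `A` commutative). Then the right translation `q ↦ q (w d⁻¹ w)⁻¹`. -/
def S_RVs : Prop :=
  ∀ (G : PG P) (μ : Measure P) [μ.IsHaarMeasure] [μ.IsMulRightInvariant] [μ.IsInvInvariant],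
    G.Ok → ∀ (U : Set P), ∀ d ∈ G.A, ∀ (m : ℕ) (g : P),
      eP μ G (G.uw U * {d}) U 0 m g⁻¹ =
        kk μ G.a (iK (U * {G.w * d⁻¹ * G.w})) (iK (G.ew (G.uw U))) m g

/-- **ML1** (from KT, CV, DF, TB, NB, AD). Lower bound for the merge with a single `A`-shift `d`.
Proof. By monotonicity we may replace `U`, `S'`, `K'` by compact sets (`S ⊆ interior S'` etc., `U` a compact neighbourhood of `1`). For `v ∈ V` (small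
neighbourhood of `1`) put `p = v d`: `a^n p a^m = e (d'' a^n d a^m) e'`, `d'' ∈ U' ∩ A` ((JN1); `a^n ∈ Dp 0`, `d a^m ∈ Dp 0` for `m ≥ T`, DF),
`x = e d'' d`. KT: `I(p) = kk (k₁(· x⁻¹)) (k₄(e'⁻¹ ·)) (n+m) g` with `k₁ = 1_S'`, `k₄ = 1_(ew K')`; `q = s d` (`s ∈ S`) gives
`q x⁻¹ = s (e d'')⁻¹ ∈ S'`, and `r ∈ ew K` gives `e'⁻¹ r ∈ ew K'` (TB). So `I(p) ≥` the left side. `cvP k₂ k₃ (v d) ≥ μ {p | p⁻¹ ∈ U, p⁻¹ v ∈ U} ≥ c > 0`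
for `k₂ = 1_(ew (U w)) = 1_(U⁻¹)`, `k₃ = 1_(U d)`. CV: the convolution is `≥ ∫_(p ∈ V d) cvP k₂ k₃ p * I(p) ≥ μ(V) c *` (left side). All constants
are uniform in `d ∈ D1^R`. -/
def S_ML1 : Prop :=
  ∀ (G : PG P) (μ : Measure P) [μ.IsHaarMeasure] [μ.IsMulRightInvariant] [μ.IsInvInvariant],
    G.Ok → ∀ S K S' K' : Set P, IsCompact S → IsCompact K → S ⊆ interior S' → K ⊆ interior K' →
    ∀ U ∈ 𝓝 (1 : P), ∀ R : ℕ, ∃ (C : ℝ≥0∞) (T : ℕ), C ≠ ∞ ∧ ∀ d ∈ G.D1 ^ R, ∀ n m, T ≤ m → ∀ g,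
      kk μ G.a (iK (S * {d})) (iK (G.ew K)) (n + m) g ≤
        C * cvP μ (kk μ G.a (iK S') (iK (G.ew (G.uw U))) n)
          (kk μ G.a (iK (U * {d})) (iK (G.ew K')) m) g

/-- **MLs** (from ML1, RVs, DF, NT1, TB, AD). Lower bound for straight closed loops. Proof. Let `U₁` be compact, `U₀ ⊆ interior U₁`,
`U₁ ⊆ interior U`. NT1, TB: `U₀ D1^R ⊆ ⋃_(d ∈ F) U₁ d`, `F ⊆ D1^R` finite; so `eP U₀ (uw U₀) R (n+m) ≤ ∑_d kk (1_(U₁ d)) (1_(ew (uw U₀))) (n+m)`. ML1 with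
`S = U₁`, `S' = U`, `K = uw U₀`, `K' = uw U`, and RVs with `d' := w d⁻¹ w` (`w d'⁻¹ w = d`). The new finite set is `{w d⁻¹ w}`, in
`D1^R` (DF). (`eP U (uw U) 0 n = kk (1_U) (1_(ew (uw U))) n` as `D1^0 = {1}`.) -/
def S_MLs : Prop :=
  ∀ (G : PG P) (μ : Measure P) [μ.IsHaarMeasure] [μ.IsMulRightInvariant] [μ.IsInvInvariant],
    G.Ok → ∀ U₀ U : Set P, IsCompact U₀ → IsCompact U → (1 : P) ∈ interior U₀ →
    U₀ ⊆ interior U → ∀ R : ℕ, ∃ (F : Finset P) (C : ℝ≥0∞) (T : ℕ), C ≠ ∞ ∧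
      (∀ d ∈ F, d ∈ G.D1 ^ R) ∧ ∀ n m, T ≤ m → ∀ g,
      eP μ G U₀ (G.uw U₀) R (n + m) g ≤ C * ∑ d ∈ F,
        cvP μ (eP μ G U (G.uw U) 0 n) (fun g => eP μ G (G.uw U * {d}) U 0 m g⁻¹) g

end Pool.Agent.MPEF.U
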